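import Pool.Agent.H47.GM.Quad

/-!
# GM module BaseLink: the seed box is joined to a fully open box behind the quadrant

Take `n + 1 = (2m+1) q`. The quadrant is tiled by cells of side `2m+1`; over the cell with index
`j` (for `i ≠ i₀`, `0 ≤ j_i < q`) sits the box `Bx c m` with `sg(τ i₀) c i₀ = n+m+1`,
`sg(τ i) c i = (2m+1) j_i + m`; these `c` belong to `Cq n m i₀ τ`, the boxes are pairwise disjoint,
disjoint from `Bx 0 n` and contained in `Tq`. A vertex `y` of the quadrant in the cell `j` has its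
outward neighbour `y + sg(τ i₀) e_{i₀}` in the box. If `|Un ∩ Qd| ≥ k'' (2m+1)^d` then at least
`k''` cells contain a vertex of `Un`. Given `Un` (elements inside `Bx 0 n`), for every such cell
choose one vertex `y`: with probability at least `p^{c_m} > 0` the element `stE κ y (y + ...)` and
all elements inside the box are open; these events are independent (disjoint elements, none
inside `Bx 0 n`), so the probability that none occurs is at most `(1 - p^{c_m})^{k''}`.
(`p > 0` because `theta > 0`.)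
-/

open MeasureTheory Filter Topology
open Pool.Agent.H17.IIC Pool.Agent.H41.QC

namespace Pool.Agent.H47.GM

variable {d : ℕ}

lemma p_pos_of_theta (κ : Kind) (p : unitInterval) (hθ : 0 < theta κ d p) : 0 < (p : ℝ) := by
  classical
  rcases lt_or_eq_of_le p.2.1 with h | h
  · exact h
  · exfalso
    have hp : (p : ℝ) = 0 := h.symm
    have hsub : {ω : El d → Bool | {y | (Gr κ ω).Reachable 0 y}.Infinite} ⊆
        ⋃ e : El d, {ω | ω e = true} := by
      intro ω hω
      rw [Set.mem_ofPred_eq] at hω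
      obtain ⟨y, hy, hy0⟩ := hω.exists_notMem_finset {(0 : V d)}
      rw [Finset.mem_singleton] at hy0
      obtain ⟨w⟩ := hy
      cases w with
      | nil => exact absurd rfl hy0
      | cons hadj _ =>
        obtain ⟨-, h2⟩ := hadj
        rw [Set.mem_iUnion]
        cases κ
        · exact ⟨_, h2⟩
        · exact ⟨_, h2.1⟩
    have hz : (prodBern (El d) p) (⋃ e : El d, {ω | ω e = true}) = 0 := by
      rw [measure_iUnion_null_iff]
      intro e
      have h1 := prob_all_open p ({e} : Finset (El d))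
      simp only [Finset.mem_singleton, forall_eq, Finset.card_singleton, pow_one, hp] at h1
      rw [measureReal_eq_zero_iff] at h1
      exact h1
    have h0 : theta κ d p = 0 := by
      unfold theta
      rw [Measure.real, measure_mono_null hsub hz, ENNReal.toReal_zero]
    rw [h0] at hθ
    exact lt_irrefl _ hθ

/-- paths inside the box depend only on the elements inside the box -/
lemma BaseLink_rch {κ : Kind} {ω ω' : El d → Bool} {n : ℕ} {u y : V d} (hu : u ∈ Bx (0 : V d) n)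
    (h : ∀ e ∈ (Bx (0 : V d) n).sym2, ω e = ω' e)
    (hr : Rch κ ω (Bx (0 : V d) n : Set (V d)) u y) :
    Rch κ ω' (Bx (0 : V d) n : Set (V d)) u y ∧ y ∈ Bx (0 : V d) n := by
  induction hr with
  | refl => exact ⟨Relation.ReflTransGen.refl, hu⟩
  | @tail b c hab hbc ih =>
    obtain ⟨h1, h2⟩ := ih
    obtain ⟨ha, hb, hc⟩ := hbc
    refine ⟨h1.tail ⟨ha, hb, ?_⟩, hb⟩
    rw [← h]
    · exact hc
    · rw [Finset.mem_sym2_iff]
      intro v hv
      cases κ
      · simp only [stE, Sym2.mem_iff] at hv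
        rcases hv with rfl | rfl
        · exact h2
        · exact hb
      · simp only [stE, Sym2.mem_iff, or_self] at hv
        rw [hv]
        exact hb

lemma BaseLink_Bx_mono {m n : ℕ} (h : m ≤ n) {u : V d} (hu : u ∈ Bx (0 : V d) m) :
    u ∈ Bx (0 : V d) n := by
  rw [mem_Bx] at hu ⊢
  intro i
  have h1 := hu i
  have h2 : (m : ℤ) ≤ n := by exact_mod_cast h
  linarith

lemma BaseLink_Un {κ : Kind} {ω ω' : El d → Bool} {m n : ℕ} (hmn : m ≤ n)
    (h : ∀ e ∈ (Bx (0 : V d) n).sym2, ω e = ω' e) : Un κ ω m n = Un κ ω' m n := by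
  classical
  ext y
  unfold Un
  rw [Finset.mem_filter, Finset.mem_filter]
  constructor
  · rintro ⟨h1, h2, u, hu, hr⟩
    exact ⟨h1, h2, u, hu, (BaseLink_rch (BaseLink_Bx_mono hmn hu) h hr).1⟩
  · rintro ⟨h1, h2, u, hu, hr⟩
    exact ⟨h1, h2, u, hu,
      (BaseLink_rch (BaseLink_Bx_mono hmn hu) (fun e he => (h e he).symm) hr).1⟩

lemma BaseLink_card_Bx (c : V d) (r : ℕ) : (Bx c r).card = (2 * r + 1) ^ d := by
  unfold Bx
  rw [Fintype.card_piFinset]
  have : ∀ i : Fin d, (Finset.Icc (c i - (r : ℤ)) (c i + r)).card = 2 * r + 1 := by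
    intro i
    rw [Int.card_Icc]
    have : c i + (r : ℤ) + 1 - (c i - r) = ((2 * r + 1 : ℕ) : ℤ) := by
      push_cast
      ring
    rw [this, Int.toNat_natCast]
  rw [Finset.prod_congr rfl fun i _ => this i, Finset.prod_const, Finset.card_univ,
    Fintype.card_fin]

/-- independence of disjoint finite families of elements -/
lemma BaseLink_indep {ι α : Type*} (p : unitInterval) (A : Set (ι → Bool))
    (hA : MeasurableSet A) (E0 : Set ι) (hA0 : On E0 A) (I : Finset α) (F : α → Finset ι)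
    (hdis : ∀ c ∈ I, Disjoint (F c : Set ι) E0)
    (hpw : ∀ c ∈ I, ∀ c' ∈ I, c ≠ c' → Disjoint (F c) (F c')) :
    (prodBern ι p).real (A ∩ {ω | ∀ c ∈ I, ¬ ∀ e ∈ F c, ω e = true}) =
      (prodBern ι p).real A * ∏ c ∈ I, (1 - (p : ℝ) ^ (F c).card) := by
  classical
  induction I using Finset.induction_on with
  | empty =>
    have : {ω : ι → Bool | ∀ c ∈ (∅ : Finset α), ¬ ∀ e ∈ F c, ω e = true} = Set.univ := by
      ext ω
      simp
    rw [this, Set.inter_univ, Finset.prod_empty, mul_one]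
  | @insert c0 I hc0 ih =>
    have hOn1 : ∀ c, On (F c : Set ι) {ω : ι → Bool | ¬ ∀ e ∈ F c, ω e = true} := by
      intro c ω ω' hω
      have : (∀ e ∈ F c, ω e = true) ↔ (∀ e ∈ F c, ω' e = true) := by
        constructor
        · intro h e he
          rw [← hω e he]
          exact h e he
        · intro h e he
          rw [hω e he]
          exact h e he
      simp only [Set.mem_ofPred_eq, this]
    have hm1 : ∀ c, MeasurableSet {ω : ι → Bool | ¬ ∀ e ∈ F c, ω e = true} := fun c =>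
      (hOn1 c).measurableSet
    have hset : (A ∩ {ω : ι → Bool | ∀ c ∈ insert c0 I, ¬ ∀ e ∈ F c, ω e = true}) =
        {ω : ι → Bool | ¬ ∀ e ∈ F c0, ω e = true} ∩
          (A ∩ {ω | ∀ c ∈ I, ¬ ∀ e ∈ F c, ω e = true}) := by
      ext ω
      simp only [Set.mem_inter_iff, Set.mem_ofPred_eq, Finset.mem_insert, forall_eq_or_imp]
      tauto
    have hmI : MeasurableSet {ω : ι → Bool | ∀ c ∈ I, ¬ ∀ e ∈ F c, ω e = true} := by
      have : {ω : ι → Bool | ∀ c ∈ I, ¬ ∀ e ∈ F c, ω e = true} =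
          ⋂ c ∈ I, {ω | ¬ ∀ e ∈ F c, ω e = true} := by
        ext ω
        simp only [Set.mem_iInter, Set.mem_ofPred_eq]
      rw [this]
      exact Finset.measurableSet_biInter _ fun c _ => hm1 c
    have hOn2 : On ((F c0 : Set ι)ᶜ)
        (A ∩ {ω : ι → Bool | ∀ c ∈ I, ¬ ∀ e ∈ F c, ω e = true}) := by
      intro ω ω' hω
      have h1 : ω ∈ A ↔ ω' ∈ A := by
        apply hA0
        intro e he
        apply hω
        intro hc
        exact Set.disjoint_left.1 (hdis c0 (Finset.mem_insert_self _ _)) hc he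
      have h2 : ∀ c ∈ I, (ω ∈ {ω : ι → Bool | ¬ ∀ e ∈ F c, ω e = true} ↔
          ω' ∈ {ω : ι → Bool | ¬ ∀ e ∈ F c, ω e = true}) := by
        intro c hc
        apply hOn1 c
        intro e he
        apply hω
        intro hc'
        have hne : c0 ≠ c := fun h => hc0 (h ▸ hc)
        exact Finset.disjoint_left.1 (hpw c0 (Finset.mem_insert_self _ _) c
          (Finset.mem_insert_of_mem hc) hne) hc' he
      constructor
      · rintro ⟨ha, hb⟩
        exact ⟨h1.1 ha, fun c hc => (h2 c hc).1 (hb c hc)⟩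
      · rintro ⟨ha, hb⟩
        exact ⟨h1.2 ha, fun c hc => (h2 c hc).2 (hb c hc)⟩
    have hind := mu_indep (fun _ : ι => p) (F c0 : Set ι) (hm1 c0) (hA.inter hmI) (hOn1 c0) hOn2
    rw [mu_const] at hind
    rw [hset, hind, ih (fun c hc => hdis c (Finset.mem_insert_of_mem hc))
      (fun c hc c' hc' => hpw c (Finset.mem_insert_of_mem hc) c' (Finset.mem_insert_of_mem hc')),
      Finset.prod_insert hc0]
    have hone : (prodBern ι p).real {ω : ι → Bool | ¬ ∀ e ∈ F c0, ω e = true} =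
        1 - (p : ℝ) ^ (F c0).card := by
      have hcompl : {ω : ι → Bool | ¬ ∀ e ∈ F c0, ω e = true} =
          {ω : ι → Bool | ∀ e ∈ F c0, ω e = true}ᶜ := rfl
      have hmm : MeasurableSet {ω : ι → Bool | ∀ e ∈ F c0, ω e = true} := by
        have := (hm1 c0).compl
        rw [hcompl, compl_compl] at this
        exact this
      rw [hcompl, probReal_compl_eq_one_sub hmm, prob_all_open]
    rw [hone]
    ring

/-- centre of the box over the cell of `y` -/
def BaseLink_ctr (n m : ℕ) (i₀ : Fin d) (τ : Fin d → Bool) (y : V d) : V d := fun i =>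
  if i = i₀ then sg (τ i₀) * ((n : ℤ) + m + 1)
  else sg (τ i) * ((2 * (m : ℤ) + 1) * ((sg (τ i) * y i) / (2 * (m : ℤ) + 1)) + m)

/-- outward neighbour -/
def BaseLink_out (i₀ : Fin d) (τ : Fin d → Bool) (y : V d) : V d := y + stepVec (i₀, τ i₀)

lemma BaseLink_out_self (i₀ : Fin d) (τ : Fin d → Bool) (y : V d) :
    BaseLink_out i₀ τ y i₀ = y i₀ + sg (τ i₀) := by
  simp [BaseLink_out, stepVec, sg]

lemma BaseLink_out_ne {i₀ i : Fin d} (τ : Fin d → Bool) (y : V d) (h : i ≠ i₀) :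
    BaseLink_out i₀ τ y i = y i := by
  simp [BaseLink_out, stepVec, h]

lemma BaseLink_out_inj (i₀ : Fin d) (τ : Fin d → Bool) :
    Function.Injective (BaseLink_out i₀ τ) := by
  intro a b h
  unfold BaseLink_out at h
  exact add_right_cancel h

lemma BaseLink_abs_sg (b : Bool) (x : ℤ) : |sg b * x| = |x| := by
  cases b <;> simp [sg]

section geo

variable {n m q : ℕ} {i₀ : Fin d} {τ : Fin d → Bool} {y : V d}

lemma BaseLink_mem_Qd (hy : y ∈ Qd n i₀ τ) : sg (τ i₀) * y i₀ = (n : ℤ) ∧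
    ∀ i, i ≠ i₀ → 0 ≤ sg (τ i) * y i ∧ sg (τ i) * y i ≤ n := by
  classical
  unfold Qd at hy
  rw [Finset.mem_filter, mem_Bx] at hy
  refine ⟨hy.2.1, fun i hi => ⟨hy.2.2 i hi, ?_⟩⟩
  have h1 := hy.1 i
  rw [Pi.zero_apply, sub_zero, ← BaseLink_abs_sg (τ i)] at h1
  exact le_trans (le_abs_self _) h1

lemma BaseLink_ctr_mem (hn : n + 1 = (2 * m + 1) * q) (hy : y ∈ Qd n i₀ τ) :
    BaseLink_ctr n m i₀ τ y ∈ Cq n m i₀ τ := by
  obtain ⟨h1, h2⟩ := BaseLink_mem_Qd hy
  rw [mem_Cq]
  refine ⟨?_, fun i hi => ?_⟩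
  · unfold BaseLink_ctr
    rw [if_pos rfl, ← mul_assoc, sg_mul_self, one_mul]
  · unfold BaseLink_ctr
    rw [if_neg hi, ← mul_assoc, sg_mul_self, one_mul]
    obtain ⟨h3, h4⟩ := h2 i hi
    set a := sg (τ i) * y i with ha
    have hpos : (0 : ℤ) < 2 * (m : ℤ) + 1 := by positivity
    have hj0 : 0 ≤ a / (2 * (m : ℤ) + 1) := Int.ediv_nonneg h3 hpos.le
    have hnz : (n : ℤ) + 1 = (2 * (m : ℤ) + 1) * q := by exact_mod_cast hn
    have hjq : a / (2 * (m : ℤ) + 1) < q := by
      apply Int.ediv_lt_of_lt_mul hpos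
      rw [mul_comm, ← hnz]
      linarith
    have hj1 : a / (2 * (m : ℤ) + 1) ≤ (q : ℤ) - 1 := by linarith
    constructor
    · have := mul_nonneg hpos.le hj0
      linarith
    · have := mul_le_mul_of_nonneg_left hj1 hpos.le
      have h5 : (2 * (m : ℤ) + 1) * ((q : ℤ) - 1) = (n : ℤ) + 1 - (2 * m + 1) := by
        rw [mul_sub, mul_one, ← hnz]
      linarith

lemma BaseLink_out_mem_box (hy : y ∈ Qd n i₀ τ) :
    BaseLink_out i₀ τ y ∈ Bx (BaseLink_ctr n m i₀ τ y) m := by
  obtain ⟨h1, h2⟩ := BaseLink_mem_Qd hy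
  rw [mem_Bx]
  intro i
  by_cases hi : i = i₀
  · subst hi
    rw [BaseLink_out_self]
    unfold BaseLink_ctr
    rw [if_pos rfl, ← BaseLink_abs_sg (τ i)]
    have : sg (τ i) * (y i + sg (τ i) - sg (τ i) * ((n : ℤ) + m + 1)) = -(m : ℤ) := by
      have e1 := sg_mul_self (τ i)
      have : sg (τ i) * (y i + sg (τ i) - sg (τ i) * ((n : ℤ) + m + 1)) =
          sg (τ i) * y i + sg (τ i) * sg (τ i) - sg (τ i) * sg (τ i) * ((n : ℤ) + m + 1) := by
        ring
      rw [this, e1, h1]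
      ring
    rw [this, abs_neg, abs_of_nonneg (by positivity)]
  · rw [BaseLink_out_ne τ y hi]
    unfold BaseLink_ctr
    rw [if_neg hi, ← BaseLink_abs_sg (τ i)]
    have hpos : (0 : ℤ) < 2 * (m : ℤ) + 1 := by positivity
    have h3 := Int.emod_nonneg (sg (τ i) * y i) hpos.ne'
    have h4 := Int.emod_lt_of_pos (sg (τ i) * y i) hpos
    have h5 := Int.mul_ediv_add_emod (sg (τ i) * y i) (2 * (m : ℤ) + 1)
    have : sg (τ i) * (y i - sg (τ i) * ((2 * (m : ℤ) + 1) *
        ((sg (τ i) * y i) / (2 * (m : ℤ) + 1)) + m)) =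
        (sg (τ i) * y i) % (2 * (m : ℤ) + 1) - m := by
      have e1 := sg_mul_self (τ i)
      have e2 : sg (τ i) * (y i - sg (τ i) * ((2 * (m : ℤ) + 1) *
        ((sg (τ i) * y i) / (2 * (m : ℤ) + 1)) + m)) =
        sg (τ i) * y i - sg (τ i) * sg (τ i) * ((2 * (m : ℤ) + 1) *
        ((sg (τ i) * y i) / (2 * (m : ℤ) + 1)) + m) := by ring
      rw [e2, e1, one_mul]
      linarith
    rw [this, abs_le]
    constructor <;> linarith

lemma BaseLink_out_mem_T (hy : y ∈ Qd n i₀ τ) : BaseLink_out i₀ τ y ∈ Tq n m i₀ τ := by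
  obtain ⟨h1, h2⟩ := BaseLink_mem_Qd hy
  rw [mem_Tq, BaseLink_out_self]
  have e1 : sg (τ i₀) * (y i₀ + sg (τ i₀)) = n + 1 := by
    rw [mul_add, h1, sg_mul_self]
  rw [e1]
  refine ⟨⟨le_refl _, by linarith [Int.natCast_nonneg m]⟩, fun i hi => ?_⟩
  rw [BaseLink_out_ne τ y hi]
  exact h2 i hi

lemma BaseLink_box_far (v : V d) (hv : v ∈ Bx (BaseLink_ctr n m i₀ τ y) m) :
    v ∉ Bx (0 : V d) n := by
  rw [mem_Bx] at hv
  intro h
  rw [mem_Bx] at h
  have h1 := hv i₀
  have h2 := h i₀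
  rw [Pi.zero_apply, sub_zero, ← BaseLink_abs_sg (τ i₀)] at h2
  unfold BaseLink_ctr at h1
  rw [if_pos rfl, ← BaseLink_abs_sg (τ i₀), mul_sub, ← mul_assoc, sg_mul_self, one_mul] at h1
  have h3 := (abs_le.1 h1).1
  have h4 := (abs_le.1 h2).2
  linarith

lemma BaseLink_box_disj {y' : V d}
    (hne : BaseLink_ctr n m i₀ τ y ≠ BaseLink_ctr n m i₀ τ y') {v : V d}
    (hv : v ∈ Bx (BaseLink_ctr n m i₀ τ y) m) (hv' : v ∈ Bx (BaseLink_ctr n m i₀ τ y') m) :
    False := by
  apply hne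
  funext i
  by_cases hi : i = i₀
  · subst hi
    unfold BaseLink_ctr
    rw [if_pos rfl, if_pos rfl]
  · rw [mem_Bx] at hv hv'
    have h1 := hv i
    have h2 := hv' i
    unfold BaseLink_ctr at h1 h2 ⊢
    rw [if_neg hi] at h1 h2 ⊢
    rw [if_neg hi]
    rw [← BaseLink_abs_sg (τ i), mul_sub, ← mul_assoc, sg_mul_self, one_mul, abs_le] at h1 h2
    have hpos : (0 : ℤ) < 2 * (m : ℤ) + 1 := by positivity
    have hj : (sg (τ i) * y i) / (2 * (m : ℤ) + 1) = (sg (τ i) * y' i) / (2 * (m : ℤ) + 1) := by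
      set j := (sg (τ i) * y i) / (2 * (m : ℤ) + 1)
      set j' := (sg (τ i) * y' i) / (2 * (m : ℤ) + 1)
      by_contra hjj
      rcases lt_or_gt_of_ne hjj with hlt | hlt
      · have h3 : j + 1 ≤ j' := hlt
        have h4 := mul_le_mul_of_nonneg_left h3 hpos.le
        rw [mul_add] at h4
        linarith [h1.1, h1.2, h2.1, h2.2]
      · have h3 : j' + 1 ≤ j := hlt
        have h4 := mul_le_mul_of_nonneg_left h3 hpos.le
        rw [mul_add] at h4
        linarith [h1.1, h1.2, h2.1, h2.2]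
    rw [hj]

end geo

/-- conditional step: many vertices of `Un` in the quadrant give a hit -/
theorem hit_of_many (κ : Kind) (p : unitInterval) (hp0 : 0 < (p : ℝ)) (m : ℕ) {η : ℝ}
    (hη : 0 < η) : ∃ K : ℕ, ∀ (q : ℕ) (n : ℕ), n + 1 = (2 * m + 1) * q → m < n →
      ∀ (i₀ : Fin d) (τ : Fin d → Bool),
      (prodBern (El d) p).real {ω | K ≤ (Un κ ω m n ∩ Qd n i₀ τ).card ∧
        ¬ Hit κ ω (Dq n m i₀ τ) 0 m (Cq n m i₀ τ)} ≤ η := by
  classical
  set N := (2 * m + 1) ^ d with hN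
  have hNpos : 0 < N := by positivity
  set cm := Nat.choose (N + 1) 2 + 1 with hcm
  have hpc : 0 < (p : ℝ) ^ cm := pow_pos hp0 _
  have hpc1 : (p : ℝ) ^ cm ≤ 1 := pow_le_one₀ p.2.1 p.2.2
  obtain ⟨k, hk⟩ := exists_pow_lt_of_lt_one hη (show 1 - (p : ℝ) ^ cm < 1 by linarith)
  refine ⟨k * N, fun q n hn hmn i₀ τ => ?_⟩
  have hUon : ∀ U : Finset (V d), On ((Bx (0 : V d) n).sym2 : Set (El d))
      {ω : El d → Bool | Un κ ω m n ∩ Qd n i₀ τ = U} := by
    intro U ω ω' hω
    simp only [Set.mem_ofPred_eq]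
    rw [BaseLink_Un hmn.le hω]
  have hUm : ∀ U : Finset (V d), MeasurableSet
      {ω : El d → Bool | Un κ ω m n ∩ Qd n i₀ τ = U} := fun U => (hUon U).measurableSet
  set 𝒰 := (Qd n i₀ τ).powerset.filter fun U => k * N ≤ U.card with h𝒰
  have hcover : {ω | k * N ≤ (Un κ ω m n ∩ Qd n i₀ τ).card ∧
        ¬ Hit κ ω (Dq n m i₀ τ) 0 m (Cq n m i₀ τ)} ⊆
      ⋃ U ∈ 𝒰, ({ω : El d → Bool | Un κ ω m n ∩ Qd n i₀ τ = U} ∩
        {ω | ¬ Hit κ ω (Dq n m i₀ τ) 0 m (Cq n m i₀ τ)}) := by
    rintro ω ⟨h1, h2⟩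
    rw [Set.mem_iUnion₂]
    refine ⟨Un κ ω m n ∩ Qd n i₀ τ, ?_, rfl, h2⟩
    rw [h𝒰, Finset.mem_filter, Finset.mem_powerset]
    exact ⟨Finset.inter_subset_right, h1⟩
  have hone : ∀ U ∈ 𝒰, (prodBern (El d) p).real
      ({ω : El d → Bool | Un κ ω m n ∩ Qd n i₀ τ = U} ∩
        {ω | ¬ Hit κ ω (Dq n m i₀ τ) 0 m (Cq n m i₀ τ)}) ≤
      (prodBern (El d) p).real {ω : El d → Bool | Un κ ω m n ∩ Qd n i₀ τ = U} *
        (1 - (p : ℝ) ^ cm) ^ k := by
    intro U hU
    rw [h𝒰, Finset.mem_filter, Finset.mem_powerset] at hU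
    obtain ⟨hUQ, hUk⟩ := hU
    set I := U.image (BaseLink_ctr n m i₀ τ) with hI
    have hIk : k ≤ I.card := by
      have h1 : U.card ≤ N * I.card := by
        apply Finset.card_le_mul_card_image
        intro c hc
        have h2 : ((U.filter fun x => BaseLink_ctr n m i₀ τ x = c).image (BaseLink_out i₀ τ)) ⊆
            Bx c m := by
          intro v hv
          rw [Finset.mem_image] at hv
          obtain ⟨x, hx, rfl⟩ := hv
          rw [Finset.mem_filter] at hx
          rw [← hx.2]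
          exact BaseLink_out_mem_box (hUQ hx.1)
        have h3 := Finset.card_le_card h2
        rw [Finset.card_image_of_injective _ (BaseLink_out_inj i₀ τ), BaseLink_card_Bx] at h3
        exact h3
      have h4 : k * N ≤ I.card * N := by
        rw [mul_comm I.card]
        exact le_trans hUk h1
      exact Nat.le_of_mul_le_mul_right h4 hNpos
    have hsel : ∀ c : V d, ∃ y : V d, c ∈ I → y ∈ U ∧ BaseLink_ctr n m i₀ τ y = c := by
      intro c
      by_cases hc : c ∈ I
      · rw [hI, Finset.mem_image] at hc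
        obtain ⟨y, hy, hyc⟩ := hc
        exact ⟨y, fun _ => ⟨hy, hyc⟩⟩
      · exact ⟨0, fun h => absurd h hc⟩
    choose ys hys using hsel
    set F : V d → Finset (El d) := fun c =>
      insert (stE κ (ys c) (BaseLink_out i₀ τ (ys c))) (Bx c m).sym2 with hF
    -- every element of `F c` has a vertex in the box, the other vertices are in `Bx 0 n` or in the box
    have hFv : ∀ c ∈ I, ∀ e ∈ F c, (∃ v ∈ e, v ∈ Bx c m) ∧
        ∀ v ∈ e, v ∈ Bx c m ∨ v ∈ Bx (0 : V d) n := by
      intro c hc e he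
      obtain ⟨hyU, hyc⟩ := hys c hc
      have hyQ := hUQ hyU
      have hout : BaseLink_out i₀ τ (ys c) ∈ Bx c m := by
        have := BaseLink_out_mem_box (m := m) hyQ
        rw [hyc] at this
        exact this
      rw [hF, Finset.mem_insert] at he
      rcases he with rfl | he
      · cases κ
        · simp only [stE]
          refine ⟨⟨_, Sym2.mem_mk_right _ _, hout⟩, ?_⟩
          intro v hv
          rw [Sym2.mem_iff] at hv
          rcases hv with rfl | rfl
          · right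
            unfold Qd at hyQ
            exact (Finset.mem_filter.1 hyQ).1
          · left
            exact hout
        · simp only [stE]
          refine ⟨⟨_, Sym2.mem_mk_right _ _, hout⟩, ?_⟩
          intro v hv
          rw [Sym2.mem_iff, or_self] at hv
          left
          rw [hv]
          exact hout
      · rw [Finset.mem_sym2_iff] at he
        refine ⟨?_, fun v hv => Or.inl (he v hv)⟩
        induction e using Sym2.ind with
        | _ a b => exact ⟨a, Sym2.mem_mk_left _ _, he a (Sym2.mem_mk_left _ _)⟩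
    have hfar : ∀ c ∈ I, ∀ v ∈ Bx c m, v ∉ Bx (0 : V d) n := by
      intro c hc v hv
      rw [← (hys c hc).2] at hv
      exact BaseLink_box_far v hv
    have hdis : ∀ c ∈ I, Disjoint (F c : Set (El d)) ((Bx (0 : V d) n).sym2 : Set (El d)) := by
      intro c hc
      rw [Set.disjoint_left]
      intro e he he'
      obtain ⟨⟨v, hve, hv⟩, -⟩ := hFv c hc e he
      rw [Finset.mem_coe, Finset.mem_sym2_iff] at he'
      exact hfar c hc v hv (he' v hve)
    have hpw : ∀ c ∈ I, ∀ c' ∈ I, c ≠ c' → Disjoint (F c) (F c') := by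
      intro c hc c' hc' hne
      rw [Finset.disjoint_left]
      intro e he he'
      obtain ⟨⟨v, hve, hv⟩, -⟩ := hFv c hc e he
      obtain ⟨-, h2⟩ := hFv c' hc' e he'
      rcases h2 v hve with h3 | h3
      · have e1 := (hys c hc).2
        have e2 := (hys c' hc').2
        rw [← e1] at hv hne
        rw [← e2] at h3 hne
        exact BaseLink_box_disj hne hv h3
      · exact hfar c hc v hv h3
    have hincl : ({ω : El d → Bool | Un κ ω m n ∩ Qd n i₀ τ = U} ∩
        {ω | ¬ Hit κ ω (Dq n m i₀ τ) 0 m (Cq n m i₀ τ)}) ⊆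
        {ω : El d → Bool | Un κ ω m n ∩ Qd n i₀ τ = U} ∩
          {ω | ∀ c ∈ I, ¬ ∀ e ∈ F c, ω e = true} := by
      rintro ω ⟨h1, h2⟩
      refine ⟨h1, fun c hc hall => h2 ?_⟩
      obtain ⟨hyU, hyc⟩ := hys c hc
      have hyQ := hUQ hyU
      have hout : BaseLink_out i₀ τ (ys c) ∈ Bx c m := by
        have := BaseLink_out_mem_box (m := m) hyQ
        rw [hyc] at this
        exact this
      have hbox : ∀ e ∈ (Bx c m).sym2, ω e = true := fun e he =>
        hall e (by rw [hF]; exact Finset.mem_insert_of_mem he)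
      rw [Set.mem_ofPred_eq] at h1
      have hyUn : ys c ∈ Un κ ω m n := by
        rw [← h1] at hyU
        exact (Finset.mem_inter.1 hyU).1
      unfold Un at hyUn
      rw [Finset.mem_filter] at hyUn
      obtain ⟨-, -, u, hu, hr⟩ := hyUn
      refine ⟨c, ?_, ⟨?_, ?_⟩, u, hu, BaseLink_out i₀ τ (ys c), hout, ?_⟩
      · rw [Finset.mem_coe, ← hyc]
        exact BaseLink_ctr_mem hn hyQ
      · intro a ha b hb _
        apply hbox
        rw [Finset.mem_sym2_iff]
        intro v hv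
        cases κ
        · simp only [stE, Sym2.mem_iff] at hv
          rcases hv with rfl | rfl
          · exact ha
          · exact hb
        · simp only [stE, Sym2.mem_iff, or_self] at hv
          rw [hv]
          exact hb
      · intro _ a ha
        apply hbox
        rw [Finset.mem_sym2_iff]
        intro v hv
        rw [Sym2.mem_iff, or_self] at hv
        rw [hv]
        exact ha
      · have hr2 : Rch κ ω (Dq n m i₀ τ : Set (V d)) u (ys c) := by
          refine Rch.mono hr (fun _ h => h) ?_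
          intro b hb
          rw [Finset.mem_coe, Dq, Finset.mem_union]
          exact Or.inl hb
        refine hr2.tail ⟨⟨(i₀, τ i₀), rfl⟩, ?_, ?_⟩
        · rw [Finset.mem_coe, Dq, Finset.mem_union]
          exact Or.inr (BaseLink_out_mem_T hyQ)
        · exact hall _ (by rw [hF]; exact Finset.mem_insert_self _ _)
    have hcard : ∀ c ∈ I, (F c).card ≤ cm := by
      intro c _
      rw [hF, hcm]
      refine le_trans (Finset.card_insert_le _ _) ?_
      rw [Finset.card_sym2, BaseLink_card_Bx]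
    have hprod : ∏ c ∈ I, (1 - (p : ℝ) ^ (F c).card) ≤ (1 - (p : ℝ) ^ cm) ^ k := by
      calc ∏ c ∈ I, (1 - (p : ℝ) ^ (F c).card) ≤ ∏ c ∈ I, (1 - (p : ℝ) ^ cm) := by
            apply Finset.prod_le_prod
            · intro c _
              have := pow_le_one₀ (n := (F c).card) p.2.1 p.2.2
              linarith
            · intro c hc
              have := pow_le_pow_of_le_one p.2.1 p.2.2 (hcard c hc)
              linarith
        _ = (1 - (p : ℝ) ^ cm) ^ I.card := by rw [Finset.prod_const]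
        _ ≤ (1 - (p : ℝ) ^ cm) ^ k :=
            pow_le_pow_of_le_one (by linarith) (by linarith) hIk
    calc _ ≤ (prodBern (El d) p).real ({ω : El d → Bool | Un κ ω m n ∩ Qd n i₀ τ = U} ∩
          {ω | ∀ c ∈ I, ¬ ∀ e ∈ F c, ω e = true}) := measureReal_mono hincl
      _ = (prodBern (El d) p).real {ω : El d → Bool | Un κ ω m n ∩ Qd n i₀ τ = U} *
          ∏ c ∈ I, (1 - (p : ℝ) ^ (F c).card) :=
          BaseLink_indep p _ (hUm U) _ (hUon U) I F hdis hpw
      _ ≤ _ := mul_le_mul_of_nonneg_left hprod measureReal_nonneg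
  have hsum : ∑ U ∈ 𝒰, (prodBern (El d) p).real
      {ω : El d → Bool | Un κ ω m n ∩ Qd n i₀ τ = U} ≤ 1 := by
    rw [← measureReal_biUnion_finset]
    · exact measureReal_le_one
    · intro U _ U' _ hne
      rw [Function.onFun, Set.disjoint_left]
      intro ω h1 h2
      rw [Set.mem_ofPred_eq] at h1 h2
      exact hne (h1.symm.trans h2)
    · intro U _
      exact hUm U
  calc (prodBern (El d) p).real {ω | k * N ≤ (Un κ ω m n ∩ Qd n i₀ τ).card ∧
        ¬ Hit κ ω (Dq n m i₀ τ) 0 m (Cq n m i₀ τ)}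
      ≤ (prodBern (El d) p).real (⋃ U ∈ 𝒰, ({ω : El d → Bool | Un κ ω m n ∩ Qd n i₀ τ = U} ∩
        {ω | ¬ Hit κ ω (Dq n m i₀ τ) 0 m (Cq n m i₀ τ)})) :=
        measureReal_mono hcover (measure_ne_top _ _)
    _ ≤ ∑ U ∈ 𝒰, (prodBern (El d) p).real ({ω : El d → Bool | Un κ ω m n ∩ Qd n i₀ τ = U} ∩
        {ω | ¬ Hit κ ω (Dq n m i₀ τ) 0 m (Cq n m i₀ τ)}) := measureReal_biUnion_finset_le _ _
    _ ≤ ∑ U ∈ 𝒰, (prodBern (El d) p).real {ω : El d → Bool | Un κ ω m n ∩ Qd n i₀ τ = U} *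
        (1 - (p : ℝ) ^ cm) ^ k := Finset.sum_le_sum hone
    _ = (∑ U ∈ 𝒰, (prodBern (El d) p).real {ω : El d → Bool | Un κ ω m n ∩ Qd n i₀ τ = U}) *
        (1 - (p : ℝ) ^ cm) ^ k := by rw [Finset.sum_mul]
    _ ≤ 1 * (1 - (p : ℝ) ^ cm) ^ k :=
        mul_le_mul_of_nonneg_right hsum (pow_nonneg (by linarith) _)
    _ ≤ η := by
        rw [one_mul]
        exact hk.le

theorem base_link (κ : Kind) (hd : 1 ≤ d) (p : unitInterval) (hp1 : (p : ℝ) < 1)
    (hθ : 0 < theta κ d p) {η : ℝ} (hη : 0 < η) :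
    ∃ m n : ℕ, 1 ≤ m ∧ 2 * m + 1 ≤ n ∧ ∀ (i₀ : Fin d) (τ : Fin d → Bool),
      1 - η ≤ (prodBern (El d) p).real
        {ω | Hit κ ω (Dq n m i₀ τ) 0 m (Cq n m i₀ τ)} := by
  classical
  have hp0 := p_pos_of_theta κ p hθ
  obtain ⟨m, hm, hquad⟩ := quad_many κ hd p hp1 hθ (half_pos hη)
  obtain ⟨K, hK⟩ := hit_of_many (d := d) κ p hp0 m (half_pos hη)
  obtain ⟨n0, hn0⟩ := (eventually_atTop.1 (hquad K))
  -- choose q
  set q := n0 + 3 with hq
  have hprod : (2 * m + 1) * q = 2 * m * q + q := by ring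
  have h1 : 3 * (2 * m + 1) ≤ (2 * m + 1) * q := by
    rw [mul_comm 3]
    exact Nat.mul_le_mul_left _ (by omega)
  have h2 : n0 + 3 ≤ (2 * m + 1) * q := by
    rw [hprod]
    omega
  set n := (2 * m + 1) * q - 1 with hn
  have hn1 : n + 1 = (2 * m + 1) * q := by omega
  refine ⟨m, n, hm, by omega, fun i₀ τ => ?_⟩
  have h3 := hn0 n (by omega) i₀ τ
  have h4 := hK q n hn1 (by omega) i₀ τ
  have hsub : {ω : El d → Bool | K ≤ (Un κ ω m n ∩ Qd n i₀ τ).card} ⊆
      {ω | Hit κ ω (Dq n m i₀ τ) 0 m (Cq n m i₀ τ)} ∪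
      {ω | K ≤ (Un κ ω m n ∩ Qd n i₀ τ).card ∧
        ¬ Hit κ ω (Dq n m i₀ τ) 0 m (Cq n m i₀ τ)} := by
    intro ω hω
    by_cases h : Hit κ ω (Dq n m i₀ τ) 0 m (Cq n m i₀ τ)
    · exact Or.inl h
    · exact Or.inr ⟨hω, h⟩
  have h5 := measureReal_mono (μ := prodBern (El d) p) hsub
  have h6 := measureReal_union_le (μ := prodBern (El d) p)
    {ω | Hit κ ω (Dq n m i₀ τ) 0 m (Cq n m i₀ τ)}
    {ω | K ≤ (Un κ ω m n ∩ Qd n i₀ τ).card ∧
        ¬ Hit κ ω (Dq n m i₀ τ) 0 m (Cq n m i₀ τ)}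
  linarith

end Pool.Agent.H47.GM
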