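import Pool.Agent.H47.GM.Mu

/-!
# GM module Erg: an event of positive probability occurs somewhere along the translates

Proof: let `A = ⋂ A n`, `c = mu A > 0`. Fix `n` and `K`. The translates `s (M k)`, `k < K`, of a
finite set on which `A n` depends are pairwise disjoint, so the events
`{ω | ω ∘ s (M k) ∈ A n}`, `k < K`, are independent with probability `mu (A n) ≥ c` (`mu_comp`,
`mu_indep`), hence `P(no k < K with ω ∘ s (M k) ∈ A n) ≤ (1 - c)^K`. Moreover
`P(ω ∘ s (M k) ∈ A n \ A) = mu (A n \ A) → 0` as `n → ∞`. So `P(no k at all) ≤ (1 - c)^K + K mu (A n \ A)`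
for all `n, K`; let `n → ∞`, then `K → ∞`.
-/

open MeasureTheory Filter Topology
open Pool.Agent.H17.IIC Pool.Agent.H41.QC

namespace Pool.Agent.H47.GM

variable {ι : Type*}

/-- the relabelled configuration -/
def Erg_T (s : ℕ → ι → ι) (k : ℕ) (ω : ι → Bool) : ι → Bool := fun i => ω (s k i)

lemma Erg_meas (s : ℕ → ι → ι) (k : ℕ) : Measurable (Erg_T s k) :=
  measurable_pi_lambda _ fun _ => measurable_pi_apply _

lemma Erg_map (par : ι → unitInterval) (s : ℕ → ι → ι) (hinj : ∀ k, Function.Injective (s k))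
    (hpar : ∀ k i, par (s k i) = par i) (k : ℕ) :
    (mu par).map (Erg_T s k) = mu par := by
  have h := mu_comp par (s k) (hinj k)
  have h2 : (fun i => par (s k i)) = par := funext fun i => hpar k i
  rw [h2] at h
  exact h

lemma Erg_real (par : ι → unitInterval) (s : ℕ → ι → ι) (hinj : ∀ k, Function.Injective (s k))
    (hpar : ∀ k i, par (s k i) = par i) (k : ℕ) {B : Set (ι → Bool)} (hB : MeasurableSet B) :
    (mu par).real (Erg_T s k ⁻¹' B) = (mu par).real B := by
  rw [measureReal_def, measureReal_def, ← Measure.map_apply (Erg_meas s k) hB,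
    Erg_map par s hinj hpar k]

lemma Erg_on {s : ℕ → ι → ι} {k : ℕ} {Λ : Set ι} {B : Set (ι → Bool)} (h : On Λ B) :
    On (s k '' Λ) (Erg_T s k ⁻¹' B) := by
  intro ω ω' hω
  exact h _ _ fun i hi => hω _ ⟨i, hi, rfl⟩

lemma Erg_compl {E : Set ι} {B : Set (ι → Bool)} (h : On E B) : On E Bᶜ := by
  intro ω ω' hω
  exact not_congr (h ω ω' hω)

/-- independence of the translated events -/
lemma Erg_indep (par : ι → unitInterval) (s : ℕ → ι → ι) (hinj : ∀ k, Function.Injective (s k))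
    (hpar : ∀ k i, par (s k i) = par i) {B : Set (ι → Bool)} {Λ : Finset ι}
    (hB : On (Λ : Set ι) B) {M : ℕ}
    (hM : ∀ k l : ℕ, k ≠ l → ∀ i ∈ Λ, ∀ j ∈ Λ, s (M * k) i ≠ s (M * l) j) (K : ℕ) :
    On (⋃ k ∈ Finset.range K, s (M * k) '' (Λ : Set ι))
      (⋂ k ∈ Finset.range K, (Erg_T s (M * k) ⁻¹' B)ᶜ) ∧
    MeasurableSet (⋂ k ∈ Finset.range K, (Erg_T s (M * k) ⁻¹' B)ᶜ) ∧
    (mu par).real (⋂ k ∈ Finset.range K, (Erg_T s (M * k) ⁻¹' B)ᶜ) =
      (1 - (mu par).real B) ^ K := by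
  have hBm : MeasurableSet B := hB.measurableSet
  have hm : ∀ k, MeasurableSet ((Erg_T s (M * k) ⁻¹' B)ᶜ) := fun k => ((Erg_meas s _) hBm).compl
  have hmeas : ∀ K, MeasurableSet (⋂ k ∈ Finset.range K, (Erg_T s (M * k) ⁻¹' B)ᶜ) := fun K =>
    Finset.measurableSet_biInter _ fun k _ => hm k
  have hon : ∀ K, On (⋃ k ∈ Finset.range K, s (M * k) '' (Λ : Set ι))
      (⋂ k ∈ Finset.range K, (Erg_T s (M * k) ⁻¹' B)ᶜ) := by
    intro K ω ω' hω
    simp only [Set.mem_iInter]
    refine forall_congr' fun k => forall_congr' fun hk => ?_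
    refine (Erg_compl (Erg_on hB)) ω ω' fun i hi => hω i ?_
    simp only [Set.mem_iUnion]
    exact ⟨k, hk, hi⟩
  refine ⟨hon K, hmeas K, ?_⟩
  induction K with
  | zero => simp
  | succ K ih =>
    have h1 : (⋂ k ∈ Finset.range (K + 1), (Erg_T s (M * k) ⁻¹' B)ᶜ) =
        (⋂ k ∈ Finset.range K, (Erg_T s (M * k) ⁻¹' B)ᶜ) ∩ (Erg_T s (M * K) ⁻¹' B)ᶜ := by
      ext ω
      simp only [Set.mem_iInter, Finset.mem_range, Set.mem_inter_iff]
      constructor
      · intro h
        exact ⟨fun k hk => h k (by omega), h K (by omega)⟩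
      · rintro ⟨h, h'⟩ k hk
        rcases Nat.lt_succ_iff_lt_or_eq.1 hk with hk | rfl
        · exact h k hk
        · exact h'
    rw [h1, mu_indep par (⋃ k ∈ Finset.range K, s (M * k) '' (Λ : Set ι)) (hmeas K) (hm K) (hon K)
      ?_, ih, pow_succ]
    · congr 1
      rw [probReal_compl_eq_one_sub ((Erg_meas s _) hBm), Erg_real par s hinj hpar _ hBm]
    · refine (Erg_compl (Erg_on hB)).mono ?_
      rintro _ ⟨i, hi, rfl⟩ hc
      simp only [Set.mem_iUnion, Finset.mem_range] at hc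
      obtain ⟨k, hk, j, hj, hjk⟩ := hc
      exact hM k K (by omega) j hj i hi hjk

theorem erg (par : ι → unitInterval) (s : ℕ → ι → ι) (hinj : ∀ k, Function.Injective (s k))
    (hpar : ∀ k i, par (s k i) = par i)
    (hfar : ∀ Λ : Finset ι, ∃ M : ℕ, 1 ≤ M ∧ ∀ k l : ℕ, k ≠ l → ∀ i ∈ Λ, ∀ j ∈ Λ,
      s (M * k) i ≠ s (M * l) j)
    (A : ℕ → Set (ι → Bool)) (hanti : Antitone A)
    (hdep : ∀ n, ∃ Λ : Finset ι, On (Λ : Set ι) (A n))
    (hpos : 0 < (mu par).real (⋂ n, A n)) :
    ∀ᵐ ω ∂(mu par), ∃ k : ℕ, ∀ n, (fun i => ω (s k i)) ∈ A n := by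
  have hAm : ∀ n, MeasurableSet (A n) := fun n => by
    obtain ⟨Λ, hΛ⟩ := hdep n
    exact hΛ.measurableSet
  have hAi : MeasurableSet (⋂ n, A n) := MeasurableSet.iInter hAm
  set c := (mu par).real (⋂ n, A n) with hc
  have hc1 : c ≤ 1 := measureReal_le_one
  have hlim : Tendsto (fun n => (mu par).real (A n)) atTop (𝓝 c) := by
    have h := tendsto_measure_iInter_atTop (μ := mu par) (s := A)
      (fun n => (hAm n).nullMeasurableSet) hanti ⟨0, measure_ne_top _ _⟩
    exact (ENNReal.tendsto_toReal (measure_ne_top _ _)).comp h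
  have hlim0 : Tendsto (fun n => (mu par).real (A n \ ⋂ n, A n)) atTop (𝓝 0) := by
    have h1 : ∀ n, (mu par).real (A n \ ⋂ n, A n) = (mu par).real (A n) - c := fun n => by
      rw [measureReal_sdiff (Set.iInter_subset A n) hAi]
    simp only [h1]
    simpa using hlim.sub_const c
  set N : Set (ι → Bool) := {ω | ¬ ∃ k : ℕ, ∀ n, (fun i => ω (s k i)) ∈ A n} with hN
  have key : ∀ K n : ℕ, (mu par).real N ≤ (1 - c) ^ K + K * (mu par).real (A n \ ⋂ n, A n) := by
    intro K n
    obtain ⟨Λ, hΛ⟩ := hdep n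
    obtain ⟨M, hM1, hM⟩ := hfar Λ
    obtain ⟨-, -, h3⟩ := Erg_indep par s hinj hpar hΛ hM K
    have hsub : N ⊆ (⋂ k ∈ Finset.range K, (Erg_T s (M * k) ⁻¹' A n)ᶜ) ∪
        ⋃ k ∈ Finset.range K, (Erg_T s (M * k) ⁻¹' (A n \ ⋂ n, A n)) := by
      intro ω hω
      by_cases h : ∃ k ∈ Finset.range K, Erg_T s (M * k) ω ∈ A n
      · obtain ⟨k, hk, hkA⟩ := h
        right
        simp only [Set.mem_iUnion]
        refine ⟨k, hk, hkA, ?_⟩
        intro hall
        apply hω
        refine ⟨M * k, fun m => ?_⟩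
        exact Set.mem_iInter.1 hall m
      · left
        simp only [Set.mem_iInter]
        intro k hk hkA
        exact h ⟨k, hk, hkA⟩
    have hub : (mu par).real (⋃ k ∈ Finset.range K, (Erg_T s (M * k) ⁻¹' (A n \ ⋂ n, A n))) ≤
        K * (mu par).real (A n \ ⋂ n, A n) := by
      refine (measureReal_biUnion_finset_le _ _).trans ?_
      have : ∀ k ∈ Finset.range K, (mu par).real (Erg_T s (M * k) ⁻¹' (A n \ ⋂ n, A n)) =
          (mu par).real (A n \ ⋂ n, A n) := fun k _ =>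
        Erg_real par s hinj hpar _ ((hAm n).diff hAi)
      rw [Finset.sum_congr rfl this, Finset.sum_const, Finset.card_range, nsmul_eq_mul]
    have hle : (1 - (mu par).real (A n)) ^ K ≤ (1 - c) ^ K := by
      have h1 : (mu par).real (A n) ≤ 1 := measureReal_le_one
      have h2 : c ≤ (mu par).real (A n) := measureReal_mono (Set.iInter_subset A n)
      exact pow_le_pow_left₀ (by linarith) (by linarith) K
    calc (mu par).real N ≤ _ := measureReal_mono hsub
      _ ≤ _ := measureReal_union_le _ _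
      _ ≤ (1 - c) ^ K + K * (mu par).real (A n \ ⋂ n, A n) := by
        rw [h3]
        exact add_le_add hle hub
  have key2 : ∀ K : ℕ, (mu par).real N ≤ (1 - c) ^ K := by
    intro K
    have h1 : Tendsto (fun n => (1 - c) ^ K + K * (mu par).real (A n \ ⋂ n, A n)) atTop
        (𝓝 ((1 - c) ^ K + K * 0)) := (hlim0.const_mul (K : ℝ)).const_add _
    rw [mul_zero, add_zero] at h1
    exact ge_of_tendsto' h1 fun n => key K n
  have h0 : Tendsto (fun K : ℕ => (1 - c) ^ K) atTop (𝓝 0) :=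
    tendsto_pow_atTop_nhds_zero_of_lt_one (by linarith) (by linarith)
  have h1 : (mu par).real N ≤ 0 := ge_of_tendsto' h0 key2
  have h2 : (mu par) N = 0 := by
    have h3 : (mu par).real N = 0 := le_antisymm h1 measureReal_nonneg
    rwa [measureReal_eq_zero_iff (measure_ne_top _ _)] at h3
  exact h2

end Pool.Agent.H47.GM
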