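import Pool.Agent.H47.GM.Basic
import Pool.Agent.H47.GM.Erg

/-!
# GM module SeedInf: large boxes meet an infinite cluster

By `erg` (coordinates `El d`, shifts `s k e = e.map (· + k e_0)`, `A n` = ``0` is joined to a vertex at
sup distance `> n` by an open path inside `Bx 0 (n+1)``, decreasing, local, intersection = the cluster of
`0` is infinite) almost surely some `k e_0` lies in an infinite cluster; monotone limit in `m`.
-/

open MeasureTheory Filter Topology
open Pool.Agent.H17.IIC Pool.Agent.H41.QC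

namespace Pool.Agent.H47.GM

variable {d : ℕ}

/-- the cluster of `0` leaves the box of radius `n` -/
def SeedInf_A (κ : Kind) (d : ℕ) (n : ℕ) : Set (El d → Bool) :=
  {ω | ∃ y : V d, y ∉ Bx (0 : V d) n ∧ (Gr κ ω).Reachable 0 y}

lemma SeedInf_anti (κ : Kind) (d : ℕ) : Antitone (SeedInf_A κ d) := by
  intro a b hab ω hω
  obtain ⟨y, hy, hr⟩ := hω
  refine ⟨y, fun h => hy ?_, hr⟩
  rw [mem_Bx] at h ⊢
  intro i
  exact (h i).trans (by exact_mod_cast hab)

lemma SeedInf_local (κ : Kind) {n : ℕ} {ω ω' : El d → Bool}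
    (h : ∀ a ∈ Bx (0 : V d) (n + 1), ∀ b ∈ Bx (0 : V d) (n + 1), ω s(a, b) = ω' s(a, b))
    {x y : V d} (w : (Gr κ ω).Walk x y) (hx : x ∈ Bx (0 : V d) n) (hy : y ∉ Bx (0 : V d) n) :
    ∃ y' : V d, y' ∉ Bx (0 : V d) n ∧ (Gr κ ω').Reachable x y' := by
  induction w with
  | nil => exact absurd hx hy
  | @cons u v w hadj p ih =>
    have hadj' := hadj
    obtain ⟨hl, hopen⟩ := hadj'
    have hu1 : u ∈ Bx (0 : V d) (n + 1) := by
      rw [mem_Bx] at hx ⊢
      intro i
      exact (hx i).trans (by push_cast; linarith)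
    have hv1 : v ∈ Bx (0 : V d) (n + 1) := by
      rw [mem_Bx] at hx ⊢
      intro i
      have h1 := LatAdj.abs_le hl i
      have h2 := hx i
      have h3 : v i - (0 : V d) i = (u i - (0 : V d) i) - (u i - v i) := by ring
      rw [h3]
      push_cast
      exact (abs_sub _ _).trans (by linarith)
    have hadj2 : (Gr κ ω').Adj u v := by
      refine ⟨hl, ?_⟩
      cases κ with
      | bond =>
        show ω' s(u, v) = true
        rw [← h u hu1 v hv1]; exact hopen
      | site =>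
        refine ⟨?_, ?_⟩
        · rw [← h u hu1 u hu1]; exact hopen.1
        · rw [← h v hv1 v hv1]; exact hopen.2
    by_cases hv : v ∈ Bx (0 : V d) n
    · obtain ⟨y', h1, h2⟩ := ih hv hy
      exact ⟨y', h1, hadj2.reachable.trans h2⟩
    · exact ⟨v, hv, hadj2.reachable⟩

lemma SeedInf_dep (κ : Kind) (d : ℕ) (n : ℕ) :
    ∃ Λ : Finset (El d), On (Λ : Set (El d)) (SeedInf_A κ d n) := by
  classical
  refine ⟨(Bx (0 : V d) (n + 1) ×ˢ Bx (0 : V d) (n + 1)).image (fun x => s(x.1, x.2)), ?_⟩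
  have h0 : (0 : V d) ∈ Bx (0 : V d) n := by
    rw [mem_Bx]; intro i; simp
  have key : ∀ ω ω' : El d → Bool, (∀ i ∈ (((Bx (0 : V d) (n + 1) ×ˢ Bx (0 : V d) (n + 1)).image
      (fun x => s(x.1, x.2)) : Finset (El d)) : Set (El d)), ω i = ω' i) →
      ω ∈ SeedInf_A κ d n → ω' ∈ SeedInf_A κ d n := by
    intro ω ω' h hω
    obtain ⟨y, hy, ⟨w⟩⟩ := hω
    obtain ⟨y', h1, h2⟩ := SeedInf_local κ (n := n) (ω := ω) (ω' := ω') (fun a ha b hb => h _ (by
      rw [Finset.mem_coe, Finset.mem_image]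
      exact ⟨(a, b), Finset.mem_product.2 ⟨ha, hb⟩, rfl⟩)) w h0 hy
    exact ⟨y', h1, h2⟩
  intro ω ω' h
  exact ⟨key ω ω' h, key ω' ω fun i hi => (h i hi).symm⟩

lemma SeedInf_inf (κ : Kind) {ω : El d → Bool}
    (h : {y : V d | (Gr κ ω).Reachable 0 y}.Infinite) : ω ∈ ⋂ n, SeedInf_A κ d n := by
  rw [Set.mem_iInter]
  intro n
  obtain ⟨y, hy, hy'⟩ := h.exists_notMem_finset (Bx (0 : V d) n)
  exact ⟨y, hy', hy⟩

lemma SeedInf_inf' (κ : Kind) {ω : El d → Bool} (h : ∀ n, ω ∈ SeedInf_A κ d n) :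
    {y : V d | (Gr κ ω).Reachable 0 y}.Infinite := by
  intro hfin
  have hB : ∃ B : ℕ, ∀ y ∈ {y : V d | (Gr κ ω).Reachable 0 y}, ∀ i, |y i| ≤ (B : ℤ) := by
    refine ⟨∑ y ∈ hfin.toFinset, ∑ i, (y i).natAbs, ?_⟩
    intro y hy i
    have h1 : (y i).natAbs ≤ ∑ i, (y i).natAbs :=
      Finset.single_le_sum (f := fun i => (y i).natAbs) (fun _ _ => Nat.zero_le _)
        (Finset.mem_univ i)
    have h2 : ∑ i, (y i).natAbs ≤ ∑ y ∈ hfin.toFinset, ∑ i, (y i).natAbs :=
      Finset.single_le_sum (f := fun y : V d => ∑ i, (y i).natAbs) (fun _ _ => Nat.zero_le _)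
        (hfin.mem_toFinset.2 hy)
    rw [Int.abs_eq_natAbs]
    exact_mod_cast h1.trans h2
  obtain ⟨B, hB⟩ := hB
  obtain ⟨y, hy, hr⟩ := h B
  apply hy
  rw [mem_Bx]
  intro i
  simpa using hB y hr i

lemma SeedInf_shift (κ : Kind) (v : V d) {ω : El d → Bool}
    (h : {y : V d | (Gr κ (fun e : El d => ω (e.map (fun x => x + v)))).Reachable 0 y}.Infinite) :
    {y : V d | (Gr κ ω).Reachable v y}.Infinite := by
  have hinj : Function.Injective (fun x : V d => x + v) := fun a b hab => by simpa using hab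
  refine (h.image (f := fun x : V d => x + v) hinj.injOn).mono ?_
  rintro _ ⟨y, hy, rfl⟩
  have gen : ∀ a b : V d, (Gr κ (fun e : El d => ω (e.map (fun x => x + v)))).Reachable a b →
      (Gr κ ω).Reachable (a + v) (b + v) := by
    rintro a b ⟨w⟩
    induction w with
    | nil => exact SimpleGraph.Reachable.refl _
    | @cons a b c hadj p ih =>
      have h3 : (Gr κ ω).Adj (a + v) (b + v) := by
        obtain ⟨⟨s, hs⟩, ho⟩ := hadj
        refine ⟨⟨s, by rw [hs]; abel⟩, ?_⟩
        cases κ with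
        | bond => exact ho
        | site => exact ho
      exact h3.reachable.trans ih
  have h2 := gen 0 y hy
  rwa [zero_add] at h2

lemma SeedInf_bound (i₀ : Fin d) (Λ : Finset (El d)) :
    ∃ B : ℕ, ∀ e ∈ Λ, ∀ v ∈ e, |v i₀| ≤ (B : ℤ) := by
  classical
  induction Λ using Finset.induction_on with
  | empty => exact ⟨0, fun e he => absurd he (Finset.notMem_empty e)⟩
  | insert e Λ he ih =>
    obtain ⟨B, hB⟩ := ih
    induction e using Sym2.ind with
    | _ a b =>
      refine ⟨B + (a i₀).natAbs + (b i₀).natAbs, ?_⟩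
      intro e' he' v hv
      rw [Finset.mem_insert] at he'
      rcases he' with rfl | he'
      · rw [Sym2.mem_iff] at hv
        have ha := abs_nonneg (a i₀)
        have hb := abs_nonneg (b i₀)
        have hB0 : (0 : ℤ) ≤ B := Int.natCast_nonneg _
        rcases hv with rfl | rfl
        · push_cast; linarith
        · push_cast; linarith
      · have := hB e' he' v hv
        have ha := abs_nonneg (a i₀)
        have hb := abs_nonneg (b i₀)
        push_cast
        linarith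

theorem seed_inf (κ : Kind) (hd : 1 ≤ d) (p : unitInterval) (hθ : 0 < theta κ d p) {η : ℝ}
    (hη : 0 < η) : ∃ m : ℕ, 1 ≤ m ∧ 1 - η ≤ (prodBern (El d) p).real
      {ω | ∃ u ∈ Bx (0 : V d) m, {y | (Gr κ ω).Reachable u y}.Infinite} := by
  classical
  set i₀ : Fin d := ⟨0, hd⟩ with hi₀
  set vk : ℕ → V d := fun k => Pi.single i₀ (k : ℤ) with hvk
  set sh : ℕ → El d → El d := fun k e => e.map (fun x => x + vk k) with hsh
  have hinj : ∀ k, Function.Injective (sh k) := by
    intro k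
    apply Sym2.map.injective
    intro a b hab
    simpa using hab
  have hfar : ∀ Λ : Finset (El d), ∃ M : ℕ, 1 ≤ M ∧ ∀ k l : ℕ, k ≠ l → ∀ i ∈ Λ, ∀ j ∈ Λ,
      sh (M * k) i ≠ sh (M * l) j := by
    intro Λ
    obtain ⟨B, hB⟩ := SeedInf_bound i₀ Λ
    refine ⟨2 * B + 1, by omega, ?_⟩
    intro k l hkl i hi j hj heq
    obtain ⟨a, ha⟩ : ∃ a, a ∈ i := by
      induction i using Sym2.ind with
      | _ a b => exact ⟨a, Sym2.mem_mk_left _ _⟩
    have h1 : a + vk ((2 * B + 1) * k) ∈ sh ((2 * B + 1) * l) j := by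
      rw [← heq]
      exact Sym2.mem_map.2 ⟨a, ha, rfl⟩
    obtain ⟨b, hb, hab⟩ := Sym2.mem_map.1 h1
    have h2 := congrFun hab i₀
    simp only [hvk, Pi.add_apply, Pi.single_eq_same] at h2
    have h3 := abs_le.1 (hB i hi a ha)
    have h4 := abs_le.1 (hB j hj b hb)
    push_cast at h2
    have h5 : (2 * (B : ℤ) + 1) * ((k : ℤ) - l) = b i₀ - a i₀ := by linarith
    rcases Nat.lt_or_gt_of_ne hkl with h | h
    · have h6 : (k : ℤ) - l ≤ -1 := by
        have : (k : ℤ) + 1 ≤ l := by exact_mod_cast h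
        linarith
      have h7 : (2 * (B : ℤ) + 1) * ((k : ℤ) - l) ≤ (2 * (B : ℤ) + 1) * (-1) :=
        mul_le_mul_of_nonneg_left h6 (by positivity)
      linarith [h3.1, h3.2, h4.1, h4.2]
    · have h6 : 1 ≤ (k : ℤ) - l := by
        have : (l : ℤ) + 1 ≤ k := by exact_mod_cast h
        linarith
      have h7 : (2 * (B : ℤ) + 1) * 1 ≤ (2 * (B : ℤ) + 1) * ((k : ℤ) - l) :=
        mul_le_mul_of_nonneg_left h6 (by positivity)
      linarith [h3.1, h3.2, h4.1, h4.2]
  have hpos : 0 < (mu (fun _ : El d => p)).real (⋂ n, SeedInf_A κ d n) := by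
    rw [mu_const]
    refine lt_of_lt_of_le hθ ?_
    unfold theta
    exact measureReal_mono (fun ω hω => SeedInf_inf κ hω)
  have h := erg (fun _ : El d => p) sh hinj (fun _ _ => rfl) hfar (SeedInf_A κ d)
    (SeedInf_anti κ d) (SeedInf_dep κ d) hpos
  rw [mu_const] at h
  set E : ℕ → Set (El d → Bool) := fun m =>
    {ω | ∃ u ∈ Bx (0 : V d) m, {y | (Gr κ ω).Reachable u y}.Infinite} with hE
  have hmono : Monotone E := by
    intro a b hab ω hω
    obtain ⟨u, hu, hu'⟩ := hω
    refine ⟨u, ?_, hu'⟩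
    rw [mem_Bx] at hu ⊢
    intro i
    exact (hu i).trans (by exact_mod_cast hab)
  have hall : ∀ᵐ ω ∂(prodBern (El d) p), ω ∈ ⋃ m, E m := by
    filter_upwards [h] with ω hω
    obtain ⟨k, hk⟩ := hω
    have h1 := SeedInf_shift κ (vk k) (SeedInf_inf' κ hk)
    rw [Set.mem_iUnion]
    refine ⟨k, vk k, ?_, h1⟩
    rw [mem_Bx]
    intro i
    simp only [hvk, Pi.zero_apply, sub_zero]
    by_cases hi : i = i₀
    · subst hi
      rw [Pi.single_eq_same]
      simp
    · rw [Pi.single_eq_of_ne hi]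
      simp
  have hone : (prodBern (El d) p) (⋃ m, E m) = 1 := by
    have h1 : (⋃ m, E m) =ᵐ[prodBern (El d) p] Set.univ := by
      rw [Filter.eventuallyEq_univ]
      exact hall
    rw [measure_congr h1, measure_univ]
  have htend := tendsto_measure_iUnion_atTop (μ := prodBern (El d) p) hmono
  rw [hone] at htend
  have htend2 : Tendsto (fun m => (prodBern (El d) p).real (E m)) atTop (𝓝 1) := by
    have h1 := (ENNReal.tendsto_toReal ENNReal.one_ne_top).comp htend
    simpa [measureReal_def, Function.comp_def] using h1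
  have hev : ∀ᶠ m in atTop, 1 - η ≤ (prodBern (El d) p).real (E m) := by
    have h1 : ∀ᶠ m in atTop, 1 - η < (prodBern (El d) p).real (E m) :=
      htend2.eventually_const_lt (by linarith)
    filter_upwards [h1] with m hm
    exact hm.le
  obtain ⟨m, hm1, hm2⟩ := (hev.and (eventually_ge_atTop 1)).exists
  exact ⟨m, hm2, hm1⟩

end Pool.Agent.H47.GM
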