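import Pool.Agent.H17.IIC.Resample
import Pool.Agent.H41.QC.Prod

/-!
# GM module Mu: products of Bernoulli measures with varying parameters

`mu par = ⨂ bern (par i)`. Everything by `Measure.eq_infinitePi` (see `Coupling.map_or` in
H41/QC/Coupling and `map_update` in H17/IIC/Resample for the pattern).
-/

open MeasureTheory Filter Topology
open Pool.Agent.H17.IIC Pool.Agent.H41.QC

namespace Pool.Agent.H47.GM

variable {ι ι' : Type*}

/-- product of Bernoulli measures -/
noncomputable def mu (par : ι → unitInterval) : Measure (ι → Bool) :=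
  Measure.infinitePi (fun i => bern (par i))

instance (par : ι → unitInterval) : IsProbabilityMeasure (mu par) := by
  unfold mu; infer_instance

/-- `A` depends only on the coordinates in `E` -/
def On (E : Set ι) (A : Set (ι → Bool)) : Prop :=
  ∀ ω ω' : ι → Bool, (∀ i ∈ E, ω i = ω' i) → (ω ∈ A ↔ ω' ∈ A)

lemma mu_const (p : unitInterval) : mu (fun _ : ι => p) = prodBern ι p := rfl

lemma On.mono {E E' : Set ι} {A : Set (ι → Bool)} (h : On E A) (hE : E ⊆ E') : On E' A :=
  fun ω ω' hω => h ω ω' fun i hi => hω i (hE hi)

/-- a set depending on finitely many coordinates is measurable (compare `Dep.measurableSet`) -/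
lemma On.measurableSet {Λ : Finset ι} {A : Set (ι → Bool)} (h : On (Λ : Set ι) A) :
    MeasurableSet A :=
  Dep.measurableSet (Λ := Λ) (fun ω ω' hω => propext (h ω ω' (fun i hi => hω i hi)))

lemma mu_measurable_comp (f : ι' → ι) :
    Measurable (fun (ω : ι → Bool) (i : ι') => ω (f i)) :=
  measurable_pi_lambda _ fun i => measurable_pi_apply (f i)

/-- law of a relabelled configuration. `Measure.eq_infinitePi`: a rectangle over the finite set
`s` pulls back to a rectangle over `s.image f`. -/
theorem mu_comp (par : ι → unitInterval) (f : ι' → ι) (hf : Function.Injective f) :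
    (mu par).map (fun ω i => ω (f i)) = mu (fun i => par (f i)) := by
  classical
  conv_rhs => rw [mu]
  apply Measure.eq_infinitePi
  intro s t ht
  rw [Measure.map_apply (mu_measurable_comp f)
    (MeasurableSet.pi s.countable_toSet (fun i _ => ht i))]
  have hpre : (fun (ω : ι → Bool) (i : ι') => ω (f i)) ⁻¹' (Set.pi (s : Set ι') t)
      = Set.pi ((s.map ⟨f, hf⟩ : Finset ι) : Set ι)
          (Function.extend f t (fun _ => Set.univ)) := by
    ext ω
    simp only [Set.mem_preimage, Set.mem_pi, Finset.mem_coe, Finset.mem_map,
      Function.Embedding.coeFn_mk]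
    constructor
    · rintro h j ⟨i, hi, rfl⟩
      rw [hf.extend_apply]
      exact h i hi
    · intro h i hi
      have := h (f i) ⟨i, hi, rfl⟩
      rwa [hf.extend_apply] at this
  rw [hpre, mu, Measure.infinitePi_pi (μ := fun i : ι => bern (par i))
    (fun i _ => MeasurableSet.of_discrete), Finset.prod_map]
  apply Finset.prod_congr rfl
  intro i _
  simp only [Function.Embedding.coeFn_mk]
  rw [hf.extend_apply]

open Classical in
lemma mu_measurable_mix (E : Set ι) :
    Measurable (fun (x : (ι → Bool) × (ι → Bool)) (i : ι) => if i ∈ E then x.1 i else x.2 i) := by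
  apply measurable_pi_lambda
  intro i
  by_cases h : i ∈ E
  · simp only [h, if_true]
    exact (measurable_pi_apply i).comp measurable_fst
  · simp only [h, if_false]
    exact (measurable_pi_apply i).comp measurable_snd

open Classical in
/-- two independent configurations spliced along a set of coordinates -/
theorem mu_mix (par : ι → unitInterval) (E : Set ι) :
    ((mu par).prod (mu par)).map (fun x i => if i ∈ E then x.1 i else x.2 i) = mu par := by
  conv_rhs => rw [mu]
  apply Measure.eq_infinitePi
  intro s t ht
  rw [Measure.map_apply (mu_measurable_mix E)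
    (MeasurableSet.pi s.countable_toSet (fun i _ => ht i))]
  have hpre : (fun (x : (ι → Bool) × (ι → Bool)) (i : ι) => if i ∈ E then x.1 i else x.2 i) ⁻¹'
      (Set.pi (s : Set ι) t)
      = (Set.pi ((s.filter (· ∈ E) : Finset ι) : Set ι) t) ×ˢ
        (Set.pi ((s.filter (fun i => ¬ i ∈ E) : Finset ι) : Set ι) t) := by
    ext ⟨x, y⟩
    simp only [Set.mem_preimage, Set.mem_pi, Finset.mem_coe, Set.mem_prod, Finset.mem_filter]
    constructor
    · intro h
      refine ⟨fun i hi => ?_, fun i hi => ?_⟩
      · have := h i hi.1
        rwa [if_pos hi.2] at this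
      · have := h i hi.1
        rwa [if_neg hi.2] at this
    · rintro ⟨h1, h2⟩ i hi
      by_cases hE : i ∈ E
      · rw [if_pos hE]
        exact h1 i ⟨hi, hE⟩
      · rw [if_neg hE]
        exact h2 i ⟨hi, hE⟩
  rw [hpre, Measure.prod_prod, mu,
    Measure.infinitePi_pi (μ := fun i : ι => bern (par i)) (fun i _ => ht i),
    Measure.infinitePi_pi (μ := fun i : ι => bern (par i)) (fun i _ => ht i)]
  exact Finset.prod_filter_mul_prod_filter_not s (fun i => i ∈ E) (fun i => bern (par i) (t i))

/-- independence of events depending on complementary sets of coordinates: use `mu_mix`, the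
indicator of `A ∩ B` at the spliced configuration is `1_A(x.1) 1_B(x.2)` -/
theorem mu_indep (par : ι → unitInterval) (E : Set ι) {A B : Set (ι → Bool)}
    (hA : MeasurableSet A) (hB : MeasurableSet B) (hAE : On E A) (hBE : On Eᶜ B) :
    (mu par).real (A ∩ B) = (mu par).real A * (mu par).real B := by
  classical
  have hmix := mu_mix par E
  have hpre : (fun (x : (ι → Bool) × (ι → Bool)) (i : ι) => if i ∈ E then x.1 i else x.2 i) ⁻¹'
      (A ∩ B) = A ×ˢ B := by
    ext ⟨x, y⟩
    simp only [Set.mem_preimage, Set.mem_inter_iff, Set.mem_prod]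
    have h1 := hAE (fun i => if i ∈ E then x i else y i) x (fun i hi => by simp [hi])
    have h2 := hBE (fun i => if i ∈ E then x i else y i) y
      (fun i hi => by
        have hi' : i ∉ E := hi
        simp [hi'])
    rw [h1, h2]
  have h1 : (mu par) (A ∩ B) = (mu par) A * (mu par) B := by
    conv_lhs => rw [← hmix]
    rw [Measure.map_apply (mu_measurable_mix E) (hA.inter hB), hpre, Measure.prod_prod]
  simp only [Measure.real, h1, ENNReal.toReal_mul]

end Pool.Agent.H47.GM
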