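import Pool.Agent.H41.QC.Defs

/-!
# GM: definitions

Stage two of the quenched connective constant project (MP_a352f3_pr): a Grimmett-Marstrand type
construction for bond and site percolation on `ℤ^d`.

`stE κ u w` is the element (edge or vertex) used by the step from `u` to `w`.
-/

open MeasureTheory Filter Topology
open Pool.Agent.H17.IIC Pool.Agent.H41.QC

namespace Pool.Agent.H47.GM

variable {d : ℕ}

/-- the element used by the step from `u` to `w` -/
def stE (κ : Kind) (u w : V d) : El d :=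
  match κ with
  | .bond => s(u, w)
  | .site => s(w, w)

/-- one open step, landing in `D` -/
def Stp (κ : Kind) (ξ : El d → Bool) (D : Set (V d)) (a b : V d) : Prop :=
  LatAdj a b ∧ b ∈ D ∧ ξ (stE κ a b) = true

/-- reachability by open steps landing in `D` (nothing is required of the starting point) -/
def Rch (κ : Kind) (ξ : El d → Bool) (D : Set (V d)) (a b : V d) : Prop :=
  Relation.ReflTransGen (Stp κ ξ D) a b

/-- sup norm ball -/
noncomputable def Bx (c : V d) (r : ℕ) : Finset (V d) :=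
  Fintype.piFinset fun i => Finset.Icc (c i - r) (c i + r)

lemma mem_Bx {c y : V d} {r : ℕ} : y ∈ Bx c r ↔ ∀ i, |y i - c i| ≤ r := by
  unfold Bx
  rw [Fintype.mem_piFinset]
  refine forall_congr' fun i => ?_
  rw [Finset.mem_Icc, abs_le]
  constructor <;> rintro ⟨h1, h2⟩ <;> constructor <;> linarith

/-- everything inside `B` is open -/
def FullOpen (κ : Kind) (ξ : El d → Bool) (B : Set (V d)) : Prop :=
  (∀ a ∈ B, ∀ b ∈ B, LatAdj a b → ξ (stE κ a b) = true) ∧
    (κ = .site → ∀ a ∈ B, ξ s(a, a) = true)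

/-- from the box of radius `m` at `x` one reaches, inside `D`, a fully open box of radius `m`
with centre in `C` -/
def Hit (κ : Kind) (ξ : El d → Bool) (D : Set (V d)) (x : V d) (m : ℕ) (C : Set (V d)) : Prop :=
  ∃ c ∈ C, FullOpen κ ξ (Bx c m : Set (V d)) ∧ ∃ u ∈ Bx x m, ∃ v ∈ Bx c m, Rch κ ξ D u v

/-- the element `e` touches the cluster `R` -/
def touch (κ : Kind) (R : Set (V d)) (e : El d) : Prop :=
  ∃ v ∈ e, v ∈ R ∨ (κ = .site ∧ ∃ a ∈ R, LatAdj a v)

open Classical in
/-- the configuration used to enlarge the explored cluster `R`: sprinkled on the elements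
touching `R`, original elsewhere -/
noncomputable def mix (κ : Kind) (R : Set (V d)) (ω σ : El d → Bool) : El d → Bool :=
  fun e => if touch κ R e then σ e else ω e

open Classical in
/-- the enlarged cluster -/
noncomputable def growF (κ : Kind) (R D : Finset (V d)) (ξ : El d → Bool) : Finset (V d) :=
  (R ∪ D).filter fun v => ∃ a ∈ R, Rch κ ξ ((D : Set (V d)) \ R) a v

/-- the sign of a Boolean -/
def sg (b : Bool) : ℤ := if b then 1 else -1

/-- centres of the target seeds: direction `i₀` with sign `τ i₀`, quadrant given by `τ` -/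
noncomputable def Cq (n m : ℕ) (i₀ : Fin d) (τ : Fin d → Bool) : Finset (V d) :=
  Fintype.piFinset fun i =>
    if i = i₀ then {sg (τ i) * ((n : ℤ) + m + 1)}
    else Finset.image (fun a : ℤ => sg (τ i) * a) (Finset.Icc (m : ℤ) ((n : ℤ) - m))

/-- the slab behind the quadrant of the face -/
noncomputable def Tq (n m : ℕ) (i₀ : Fin d) (τ : Fin d → Bool) : Finset (V d) :=
  Fintype.piFinset fun i =>
    if i = i₀ then Finset.image (fun a : ℤ => sg (τ i) * a)
      (Finset.Icc ((n : ℤ) + 1) ((n : ℤ) + 2 * m + 1))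
    else Finset.image (fun a : ℤ => sg (τ i) * a) (Finset.Icc (0 : ℤ) (n : ℤ))

lemma sg_mul_self (b : Bool) : sg b * sg b = 1 := by cases b <;> simp [sg]

lemma sg_image_mem {b : Bool} {A : Finset ℤ} {y : ℤ} :
    y ∈ Finset.image (fun a : ℤ => sg b * a) A ↔ sg b * y ∈ A := by
  rw [Finset.mem_image]
  constructor
  · rintro ⟨a, ha, rfl⟩
    rwa [← mul_assoc, sg_mul_self, one_mul]
  · intro h
    exact ⟨sg b * y, h, by rw [← mul_assoc, sg_mul_self, one_mul]⟩

lemma mem_Cq {n m : ℕ} {i₀ : Fin d} {τ : Fin d → Bool} {c : V d} :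
    c ∈ Cq n m i₀ τ ↔ sg (τ i₀) * c i₀ = (n : ℤ) + m + 1 ∧
      ∀ i, i ≠ i₀ → (m : ℤ) ≤ sg (τ i) * c i ∧ sg (τ i) * c i ≤ (n : ℤ) - m := by
  unfold Cq
  rw [Fintype.mem_piFinset]
  constructor
  · intro h
    refine ⟨?_, fun i hi => ?_⟩
    · have := h i₀
      rw [if_pos rfl, Finset.mem_singleton] at this
      rw [this, ← mul_assoc, sg_mul_self, one_mul]
    · have := h i
      rw [if_neg hi, sg_image_mem, Finset.mem_Icc] at this
      exact this
  · rintro ⟨h1, h2⟩ i
    by_cases hi : i = i₀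
    · subst hi
      rw [if_pos rfl, Finset.mem_singleton, ← h1, ← mul_assoc, sg_mul_self, one_mul]
    · rw [if_neg hi, sg_image_mem, Finset.mem_Icc]
      exact h2 i hi

lemma mem_Tq {n m : ℕ} {i₀ : Fin d} {τ : Fin d → Bool} {y : V d} :
    y ∈ Tq n m i₀ τ ↔ ((n : ℤ) + 1 ≤ sg (τ i₀) * y i₀ ∧ sg (τ i₀) * y i₀ ≤ (n : ℤ) + 2 * m + 1) ∧
      ∀ i, i ≠ i₀ → (0 : ℤ) ≤ sg (τ i) * y i ∧ sg (τ i) * y i ≤ (n : ℤ) := by
  unfold Tq
  rw [Fintype.mem_piFinset]
  constructor
  · intro h
    refine ⟨?_, fun i hi => ?_⟩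
    · have := h i₀
      rw [if_pos rfl, sg_image_mem, Finset.mem_Icc] at this
      exact this
    · have := h i
      rw [if_neg hi, sg_image_mem, Finset.mem_Icc] at this
      exact this
  · rintro ⟨h1, h2⟩ i
    by_cases hi : i = i₀
    · subst hi
      rw [if_pos rfl, sg_image_mem, Finset.mem_Icc]
      exact h1
    · rw [if_neg hi, sg_image_mem, Finset.mem_Icc]
      exact h2 i hi

/-- region of one step from the origin -/
noncomputable def Dq (n m : ℕ) (i₀ : Fin d) (τ : Fin d → Bool) : Finset (V d) := Bx 0 n ∪ Tq n m i₀ τ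

/-- centre of the macroscopic site `z` -/
def cz (ℓ : ℕ) (z : V d) : V d := fun i => 6 * (ℓ : ℤ) * z i

/-- tube of radius `2ℓ` around the macroscopic edge `z z'` -/
noncomputable def Tube (ℓ : ℕ) (z z' : V d) : Finset (V d) :=
  Fintype.piFinset fun i =>
    Finset.Icc (min (cz ℓ z i) (cz ℓ z' i) - 2 * ℓ) (max (cz ℓ z i) (cz ℓ z' i) + 2 * ℓ)

lemma mem_Tube {ℓ : ℕ} {z z' y : V d} :
    y ∈ Tube ℓ z z' ↔ ∀ i, min (cz ℓ z i) (cz ℓ z' i) - 2 * ℓ ≤ y i ∧
      y i ≤ max (cz ℓ z i) (cz ℓ z' i) + 2 * ℓ := by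
  unfold Tube
  rw [Fintype.mem_piFinset]
  simp only [Finset.mem_Icc]

/-- percolation probability -/
noncomputable def theta (κ : Kind) (d : ℕ) (p : unitInterval) : ℝ :=
  (prodBern (El d) p).real {ω | {y | (Gr κ ω).Reachable 0 y}.Infinite}

/-- site configuration on the diagonal whose closed vertices are the elements of `F` -/
noncomputable def ofSet (F : Set (V d)) : El d → Bool :=
  open Classical in fun e => decide (∀ v ∈ e, v ∉ F)

end Pool.Agent.H47.GM
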