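import Pool.Agent.H41.QC.CubeCompl
import Pool.Agent.H41.QC.Split
import Pool.Agent.H47.GM.Mu

/-!
# GM module Attach: one of many separated short walks is open

For every `i` let `w i` be a straight walk from `u i` to `q i` (`exists_walk`): its length is
`∑ a, |u i a - q i a| ≤ 7 d ℓ` and its vertices lie between `u i` and `q i`, at sup distance `≤ 7ℓ` from
`u i`. Let `E i` be the set of all `s(a, b)` with `a, b` in the support of `w i`; it has at most
`(7dℓ+1)^2` elements, and the `E i` are pairwise disjoint (`hsep`). If all elements of `E i` are open then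
`Joined` holds. The events are independent (`mu_indep` / product over disjoint finite sets, compare
`ProbBad_closed` in H41/QC/ProbBad), each has probability at least `δ^((7dℓ+2)^2)`.
-/

open MeasureTheory Filter Topology
open Pool.Agent.H17.IIC Pool.Agent.H41.QC

namespace Pool.Agent.H47.GM

variable {d : ℕ}

/-- all elements of a finite set are open -/
lemma Attach_open {ι : Type*} (p : unitInterval) (E : Finset ι) :
    (prodBern ι p).real {ω | ∀ e ∈ E, ω e = true} = (p : ℝ) ^ E.card := by
  have h1 : {ω : ι → Bool | ∀ e ∈ E, ω e = true} = Set.pi (E : Set ι) (fun _ => {true}) := by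
    ext ω; simp [Set.mem_pi]
  have h2 : bern p {true} = ENNReal.ofReal (p : ℝ) := by
    simp [bern]
  rw [h1, measureReal_def, prodBern, Measure.infinitePi_pi (μ := fun _ : ι => bern p)
    (fun i _ => MeasurableSet.singleton _), Finset.prod_congr rfl (fun i _ => h2),
    Finset.prod_const, ENNReal.toReal_pow, ENNReal.toReal_ofReal p.2.1]

lemma Attach_on {ι : Type*} (E : Finset ι) :
    On (E : Set ι) {σ : ι → Bool | ∃ e ∈ E, σ e = false} := by
  intro ω ω' h
  constructor
  · rintro ⟨e, he, h1⟩
    exact ⟨e, he, by rw [← h e he]; exact h1⟩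
  · rintro ⟨e, he, h1⟩
    exact ⟨e, he, by rw [h e he]; exact h1⟩

lemma Attach_one {ι : Type*} (δ : unitInterval) {c : ℕ} (E : Finset ι) (hc : E.card ≤ c) :
    (prodBern ι δ).real {σ | ∃ e ∈ E, σ e = false} ≤ 1 - (δ : ℝ) ^ c := by
  have h1 : {σ : ι → Bool | ∃ e ∈ E, σ e = false} = {σ : ι → Bool | ∀ e ∈ E, σ e = true}ᶜ := by
    ext σ
    simp
  have hm : MeasurableSet {σ : ι → Bool | ∀ e ∈ E, σ e = true} := by
    apply On.measurableSet (Λ := E)
    intro ω ω' h
    constructor
    · intro h1 e he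
      rw [← h e he]; exact h1 e he
    · intro h1 e he
      rw [h e he]; exact h1 e he
  rw [h1, probReal_compl_eq_one_sub hm, Attach_open]
  have h2 : (δ : ℝ) ^ c ≤ (δ : ℝ) ^ E.card := pow_le_pow_of_le_one δ.2.1 δ.2.2 hc
  linarith

/-- none of `T` pairwise disjoint blocks is fully open -/
theorem prob_no_block {ι : Type*} (δ : unitInterval) {c T : ℕ} (E : Fin T → Finset ι)
    (hdis : ∀ i j, i ≠ j → Disjoint (E i) (E j)) (hc : ∀ i, (E i).card ≤ c) :
    (prodBern ι δ).real {σ | ∀ i, ∃ e ∈ E i, σ e = false} ≤ (1 - (δ : ℝ) ^ c) ^ T := by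
  classical
  have key : ∀ S : Finset (Fin T),
      (prodBern ι δ).real {σ | ∀ i ∈ S, ∃ e ∈ E i, σ e = false} ≤ (1 - (δ : ℝ) ^ c) ^ S.card := by
    intro S
    induction S using Finset.induction_on with
    | empty => simp
    | insert i S hi ih =>
      have h1 : {σ : ι → Bool | ∀ j ∈ insert i S, ∃ e ∈ E j, σ e = false} =
          {σ : ι → Bool | ∃ e ∈ E i, σ e = false} ∩
            {σ : ι → Bool | ∀ j ∈ S, ∃ e ∈ E j, σ e = false} := by
        ext σ
        simp only [Finset.mem_insert, forall_eq_or_imp, Set.mem_ofPred_eq, Set.mem_inter_iff]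
      have hB : On (S.biUnion E : Finset ι) {σ : ι → Bool | ∀ j ∈ S, ∃ e ∈ E j, σ e = false} := by
        intro ω ω' h
        have h2 : ∀ j ∈ S, ∀ e ∈ E j, ω e = ω' e := fun j hj e he => h e (by
          rw [Finset.mem_coe, Finset.mem_biUnion]; exact ⟨j, hj, he⟩)
        constructor
        · intro h3 j hj
          obtain ⟨e, he, h4⟩ := h3 j hj
          exact ⟨e, he, by rw [← h2 j hj e he]; exact h4⟩
        · intro h3 j hj
          obtain ⟨e, he, h4⟩ := h3 j hj
          exact ⟨e, he, by rw [h2 j hj e he]; exact h4⟩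
      have hBE : On (E i : Set ι)ᶜ {σ : ι → Bool | ∀ j ∈ S, ∃ e ∈ E j, σ e = false} := by
        apply hB.mono
        intro e he hei
        rw [Finset.mem_coe, Finset.mem_biUnion] at he
        obtain ⟨j, hj, hej⟩ := he
        have hij : i ≠ j := fun h => hi (h ▸ hj)
        exact Finset.disjoint_left.1 (hdis i j hij) hei hej
      rw [h1, ← mu_const, mu_indep (fun _ => δ) (E i : Set ι) (Attach_on (E i)).measurableSet
        hB.measurableSet (Attach_on (E i)) hBE, mu_const, Finset.card_insert_of_notMem hi, pow_succ']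
      have h3 : 0 ≤ 1 - (δ : ℝ) ^ c := by
        have := pow_le_one₀ (n := c) δ.2.1 δ.2.2
        linarith
      exact mul_le_mul (Attach_one δ (E i) (hc i)) ih measureReal_nonneg h3
  have h := key Finset.univ
  simpa using h

theorem attach (κ : Kind) (δ : unitInterval) {ℓ T : ℕ} (u q : Fin T → V d)
    (huq : ∀ i a, |u i a - q i a| ≤ 7 * ℓ)
    (hsep : ∀ i j, i ≠ j → ∃ a, 16 * (ℓ : ℤ) < |u i a - u j a|) :
    (prodBern (El d) δ).real {σ | ∀ i, ¬ Joined κ σ (u i) (q i) (7 * d * ℓ)}
      ≤ (1 - (δ : ℝ) ^ ((7 * d * ℓ + 2) ^ 2)) ^ T := by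
  classical
  choose w hw1 hw2 using fun i => exists_walk (u i) (q i)
  have hlen : ∀ i, (w i).length ≤ 7 * d * ℓ := by
    intro i
    have h1 : ((w i).length : ℤ) ≤ 7 * d * ℓ := by
      rw [hw1 i]
      calc ∑ a, |q i a - u i a| ≤ ∑ _a : Fin d, (7 * (ℓ : ℤ)) := by
            apply Finset.sum_le_sum
            intro a _
            rw [abs_sub_comm]
            exact huq i a
        _ = 7 * d * ℓ := by
            rw [Finset.sum_const, Finset.card_univ, Fintype.card_fin]
            simp only [nsmul_eq_mul]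
            ring
    exact_mod_cast h1
  set Sp : Fin T → Finset (V d) := fun i => (w i).support.toFinset with hSp
  set E : Fin T → Finset (El d) := fun i => (Sp i ×ˢ Sp i).image (fun x => s(x.1, x.2)) with hE
  have hmem : ∀ i v, v ∈ Sp i → ∀ a, |v a - u i a| ≤ 7 * ℓ := by
    intro i v hv a
    rw [hSp, List.mem_toFinset] at hv
    have h1 := hw2 i v hv a
    have h2 := abs_le.1 (huq i a)
    have h3 : (0 : ℤ) ≤ ℓ := Int.natCast_nonneg _
    rw [abs_le]
    rcases le_total (u i a) (q i a) with h | h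
    · rw [min_eq_left h, max_eq_right h] at h1
      constructor <;> linarith [h1.1, h1.2, h2.1, h2.2]
    · rw [min_eq_right h, max_eq_left h] at h1
      constructor <;> linarith [h1.1, h1.2, h2.1, h2.2]
  have hcard : ∀ i, (E i).card ≤ (7 * d * ℓ + 2) ^ 2 := by
    intro i
    have h1 : (Sp i).card ≤ 7 * d * ℓ + 1 := by
      refine (List.toFinset_card_le _).trans ?_
      rw [SimpleGraph.Walk.length_support]
      exact Nat.add_le_add_right (hlen i) 1
    refine Finset.card_image_le.trans ?_
    rw [Finset.card_product, ← sq]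
    exact Nat.pow_le_pow_left (by omega) 2
  have hdis : ∀ i j, i ≠ j → Disjoint (E i) (E j) := by
    intro i j hij
    rw [Finset.disjoint_left]
    intro e hei hej
    rw [hE, Finset.mem_image] at hei hej
    obtain ⟨⟨a, b⟩, hab, rfl⟩ := hei
    obtain ⟨⟨a', b'⟩, hab', h'⟩ := hej
    rw [Finset.mem_product] at hab hab'
    have h1 : a ∈ Sp j := by
      have h2 : a ∈ s(a', b') := by rw [h']; exact Sym2.mem_mk_left _ _
      rcases Sym2.mem_iff.1 h2 with h3 | h3
      · rw [h3]; exact hab'.1
      · rw [h3]; exact hab'.2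
    obtain ⟨x, hx⟩ := hsep i j hij
    have h3 := abs_le.1 (hmem i a hab.1 x)
    have h4 := abs_le.1 (hmem j a h1 x)
    have h5 : |u i x - u j x| ≤ 14 * ℓ := by
      rw [abs_le]
      constructor <;> linarith [h3.1, h3.2, h4.1, h4.2]
    have h6 : (0 : ℤ) ≤ ℓ := Int.natCast_nonneg _
    linarith
  refine le_trans (measureReal_mono ?_) (prob_no_block δ E hdis hcard)
  intro σ hσ i
  by_contra hcon
  push Not at hcon
  apply hσ i
  have hop : ∀ a ∈ Sp i, ∀ b ∈ Sp i, σ s(a, b) = true := by
    intro a ha b hb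
    have h1 := hcon s(a, b) (by
      rw [hE, Finset.mem_image]
      exact ⟨(a, b), Finset.mem_product.2 ⟨ha, hb⟩, rfl⟩)
    rwa [ne_eq, Bool.not_eq_false] at h1
  have hed : ∀ e ∈ (w i).edges, e ∈ (Gr κ σ).edgeSet := by
    intro e he
    induction e using Sym2.ind with
    | _ a b =>
      have ha : a ∈ Sp i := List.mem_toFinset.2 ((w i).fst_mem_support_of_mem_edges he)
      have hb : b ∈ Sp i := List.mem_toFinset.2 ((w i).snd_mem_support_of_mem_edges he)
      have hadj : (Lat d).Adj a b := (w i).adj_of_mem_edges he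
      rw [SimpleGraph.mem_edgeSet]
      refine ⟨hadj, ?_⟩
      cases κ with
      | bond => exact hop a ha b hb
      | site => exact ⟨hop a ha a ha, hop b hb b hb⟩
  refine ⟨(w i).transfer (Gr κ σ) hed, ?_⟩
  rw [SimpleGraph.Walk.length_transfer]
  exact_mod_cast hlen i

end Pool.Agent.H47.GM
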