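import Pool.Agent.H47.GM.Basic
import Pool.Agent.H47.GM.Mu

/-!
# GM module Aut: lattice automorphisms (translations and signed permutations)
-/

open MeasureTheory Filter Topology
open Pool.Agent.H17.IIC Pool.Agent.H41.QC

namespace Pool.Agent.H47.GM

variable {d : ℕ}

/-- lattice automorphism preserving the boxes -/
structure IsAut (φ : V d ≃ V d) : Prop where
  adj : ∀ x y, LatAdj (φ x) (φ y) ↔ LatAdj x y
  box : ∀ (c y : V d) (r : ℕ), φ y ∈ Bx (φ c) r ↔ y ∈ Bx c r

/-- transported configuration -/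
def tr (φ : V d → V d) (ω : El d → Bool) : El d → Bool := fun e => ω (e.map φ)

lemma isAut_add (v : V d) : IsAut (Equiv.addRight v) where
  adj x y := by
    unfold LatAdj
    refine exists_congr fun s => ?_
    simp only [Equiv.coe_addRight]
    constructor
    · intro h
      have h2 : y + v = (x + stepVec s) + v := by rw [h]; abel
      exact add_right_cancel h2
    · rintro rfl
      abel
  box c y r := by
    simp only [Equiv.coe_addRight, mem_Bx]
    refine forall_congr' fun i => ?_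
    simp only [Pi.add_apply, add_sub_add_right_eq_sub]

/-- signed permutation of the coordinates -/
def sperm (π : Equiv.Perm (Fin d)) (τ : Fin d → Bool) : V d ≃ V d where
  toFun y := fun i => sg (τ i) * y (π i)
  invFun y := fun i => sg (τ (π.symm i)) * y (π.symm i)
  left_inv y := by
    funext i
    simp [← mul_assoc, sg_mul_self]
  right_inv y := by
    funext i
    simp [← mul_assoc, sg_mul_self]

lemma Aut_step (π : Equiv.Perm (Fin d)) (τ : Fin d → Bool) (x : V d) (k : Fin d) (c : Bool) :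
    sperm π τ (x + stepVec (π k, c)) = sperm π τ x + stepVec (k, if τ k then c else !c) := by
  funext i
  show sg (τ i) * (x (π i) + stepVec (π k, c) (π i)) =
    sg (τ i) * x (π i) + stepVec (k, if τ k then c else !c) i
  rw [mul_add]
  congr 1
  unfold stepVec
  by_cases h : i = k
  · subst h
    rw [Pi.single_eq_same, Pi.single_eq_same]
    cases τ i <;> cases c <;> simp [sg]
  · rw [Pi.single_eq_of_ne h, Pi.single_eq_of_ne (fun h' => h (π.injective h')), mul_zero]

lemma isAut_sperm (π : Equiv.Perm (Fin d)) (τ : Fin d → Bool) : IsAut (sperm π τ) where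
  adj x y := by
    constructor
    · rintro ⟨⟨k, c⟩, h⟩
      refine ⟨(π k, if τ k then c else !c), ?_⟩
      apply (sperm π τ).injective
      rw [h, Aut_step]
      cases τ k <;> simp
    · rintro ⟨⟨i, c⟩, rfl⟩
      refine ⟨(π.symm i, if τ (π.symm i) then c else !c), ?_⟩
      have := Aut_step π τ x (π.symm i) c
      rw [Equiv.apply_symm_apply] at this
      exact this
  box c y r := by
    simp only [mem_Bx]
    have key : ∀ i, |sperm π τ y i - sperm π τ c i| = |y (π i) - c (π i)| := by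
      intro i
      show |sg (τ i) * y (π i) - sg (τ i) * c (π i)| = _
      rw [← mul_sub, abs_mul]
      have : |sg (τ i)| = 1 := by cases τ i <;> simp [sg]
      rw [this, one_mul]
    constructor
    · intro h i
      have := h (π.symm i)
      rw [key, Equiv.apply_symm_apply] at this
      exact this
    · intro h i
      rw [key]
      exact h (π i)

/-- the law is invariant (`mu_comp` pattern: relabelling by an injective map) -/
theorem tr_law (φ : V d ≃ V d) (p : unitInterval) :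
    (prodBern (El d) p).map (tr φ) = prodBern (El d) p := by
  have h := mu_comp (fun _ : El d => p) (fun e : El d => e.map φ) (Sym2.map.injective φ.injective)
  exact h

lemma Aut_stE {κ : Kind} {φ : V d → V d} (ω : El d → Bool) (a b : V d) :
    tr φ ω (stE κ a b) = ω (stE κ (φ a) (φ b)) := by
  cases κ <;> rfl

lemma Aut_diag {φ : V d → V d} (ω : El d → Bool) (a : V d) :
    tr φ ω s(a, a) = ω s(φ a, φ a) := rfl

lemma rch_tr {κ : Kind} {φ : V d ≃ V d} (hφ : IsAut φ) (ω : El d → Bool) (D : Set (V d))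
    (a b : V d) : Rch κ (tr φ ω) D a b ↔ Rch κ ω (φ '' D) (φ a) (φ b) := by
  constructor
  · intro h
    refine Relation.ReflTransGen.lift φ ?_ _ _ h
    rintro u v ⟨h1, h2, h3⟩
    exact ⟨(hφ.adj u v).2 h1, ⟨v, h2, rfl⟩, by rw [← Aut_stE (φ := φ) ω u v]; exact h3⟩
  · intro h
    have h' : Relation.ReflTransGen (Stp κ (tr φ ω) D) (φ.symm (φ a)) (φ.symm (φ b)) := by
      refine Relation.ReflTransGen.lift φ.symm ?_ _ _ h
      rintro u v ⟨h1, ⟨w, hw, rfl⟩, h3⟩
      refine ⟨?_, ?_, ?_⟩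
      · rw [← hφ.adj, Equiv.apply_symm_apply, Equiv.apply_symm_apply]
        exact h1
      · rw [Equiv.symm_apply_apply]
        exact hw
      · rw [Aut_stE, Equiv.apply_symm_apply, Equiv.apply_symm_apply]
        exact h3
    rw [Equiv.symm_apply_apply, Equiv.symm_apply_apply] at h'
    exact h'

lemma fullOpen_tr {κ : Kind} {φ : V d ≃ V d} (hφ : IsAut φ) (ω : El d → Bool) (B : Set (V d)) :
    FullOpen κ (tr φ ω) B ↔ FullOpen κ ω (φ '' B) := by
  constructor
  · rintro ⟨h1, h2⟩
    refine ⟨?_, ?_⟩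
    · rintro _ ⟨a, ha, rfl⟩ _ ⟨b, hb, rfl⟩ hab
      rw [← Aut_stE (φ := φ) ω a b]
      exact h1 a ha b hb ((hφ.adj a b).1 hab)
    · rintro hκ _ ⟨a, ha, rfl⟩
      rw [← Aut_diag (φ := φ) ω a]
      exact h2 hκ a ha
  · rintro ⟨h1, h2⟩
    refine ⟨?_, ?_⟩
    · intro a ha b hb hab
      rw [Aut_stE]
      exact h1 _ ⟨a, ha, rfl⟩ _ ⟨b, hb, rfl⟩ ((hφ.adj a b).2 hab)
    · intro hκ a ha
      rw [Aut_diag]
      exact h2 hκ _ ⟨a, ha, rfl⟩

lemma Aut_box {φ : V d ≃ V d} (hφ : IsAut φ) (c : V d) (r : ℕ) :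
    φ '' (Bx c r : Set (V d)) = (Bx (φ c) r : Set (V d)) := by
  ext y
  constructor
  · rintro ⟨a, ha, rfl⟩
    exact Finset.mem_coe.2 ((hφ.box c a r).2 (Finset.mem_coe.1 ha))
  · intro hy
    refine ⟨φ.symm y, ?_, by simp⟩
    rw [Finset.mem_coe, ← hφ.box, Equiv.apply_symm_apply]
    exact hy

lemma hit_tr {κ : Kind} {φ : V d ≃ V d} (hφ : IsAut φ) (ω : El d → Bool) (D C : Set (V d))
    (x : V d) (m : ℕ) :
    Hit κ (tr φ ω) D x m C ↔ Hit κ ω (φ '' D) (φ x) m (φ '' C) := by
  unfold Hit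
  constructor
  · rintro ⟨c, hc, hf, u, hu, v, hv, hr⟩
    refine ⟨φ c, ⟨c, hc, rfl⟩, ?_, φ u, (hφ.box x u m).2 hu, φ v, (hφ.box c v m).2 hv,
      (rch_tr hφ ω D u v).1 hr⟩
    rw [← Aut_box hφ]
    exact (fullOpen_tr hφ ω _).1 hf
  · rintro ⟨_, ⟨c, hc, rfl⟩, hf, u, hu, v, hv, hr⟩
    refine ⟨c, hc, ?_, φ.symm u, ?_, φ.symm v, ?_, ?_⟩
    · rw [← Aut_box hφ] at hf
      exact (fullOpen_tr hφ ω _).2 hf
    · rw [← hφ.box, Equiv.apply_symm_apply]
      exact hu
    · rw [← hφ.box, Equiv.apply_symm_apply]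
      exact hv
    · rw [rch_tr hφ, Equiv.apply_symm_apply, Equiv.apply_symm_apply]
      exact hr

/-- probabilities of `Hit` are invariant -/
theorem hit_prob {κ : Kind} {φ : V d ≃ V d} (hφ : IsAut φ) (p : unitInterval)
    (D C D' C' : Finset (V d)) (x : V d) (m : ℕ)
    (hD : ∀ y, φ y ∈ D' ↔ y ∈ D) (hC : ∀ y, φ y ∈ C' ↔ y ∈ C) :
    (prodBern (El d) p).real {ω | Hit κ ω D' (φ x) m C'}
      = (prodBern (El d) p).real {ω | Hit κ ω D x m C} := by
  have himg : ∀ A A' : Finset (V d), (∀ y, φ y ∈ A' ↔ y ∈ A) →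
      φ '' (A : Set (V d)) = (A' : Set (V d)) := by
    intro A A' h
    ext y
    constructor
    · rintro ⟨a, ha, rfl⟩
      exact Finset.mem_coe.2 ((h a).2 (Finset.mem_coe.1 ha))
    · intro hy
      refine ⟨φ.symm y, ?_, by simp⟩
      rw [Finset.mem_coe, ← h, Equiv.apply_symm_apply]
      exact hy
  have hm : MeasurableSet {ω : El d → Bool | Hit κ ω D x m C} := by
    obtain ⟨Λ, hΛ⟩ := Hit.dep κ D C x m
    apply On.measurableSet (Λ := Λ)
    intro ω ω' h
    exact hΛ ω ω' (fun i hi => h i (by exact_mod_cast hi))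
  have htr : Measurable (tr φ : (El d → Bool) → (El d → Bool)) :=
    measurable_pi_iff.2 fun e => measurable_pi_apply _
  have hset : {ω : El d → Bool | Hit κ ω D' (φ x) m C'} =
      tr φ ⁻¹' {ω : El d → Bool | Hit κ ω D x m C} := by
    ext ω
    show Hit κ ω D' (φ x) m C' ↔ Hit κ (tr φ ω) D x m C
    rw [hit_tr hφ, himg D D' hD, himg C C' hC]
  rw [hset, ← map_measureReal_apply htr hm, tr_law]

end Pool.Agent.H47.GM
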