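import Pool.Agent.H41.QC.Boundary
import Pool.Agent.H41.QC.Split
import Pool.Agent.H47.GM.Defs

/-!
# GM module BackDef: backbones (definition)
-/

open MeasureTheory Filter Topology
open Pool.Agent.H17.IIC Pool.Agent.H41.QC

namespace Pool.Agent.H47.GM

variable {d : ℕ}

/-- a backbone: a set `Z` of macroscopic sites (seen from `v`, scale `6ℓ`), with representatives
`q z`, joined to `v` by open paths of linear length, and met by all long macroscopic walks -/
def Backbone (κ : Kind) (ℓ C : ℕ) (η : El d → Bool) : Prop :=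
  ∃ (v : V d) (Z : Set (V d)) (q : V d → V d),
    (∀ z ∈ Z, ∀ i, |q z i - (v i + cz ℓ z i)| ≤ ℓ) ∧
    (∀ j : ℕ, ∀ᶠ k : ℕ in atTop, ∀ z ∈ Z, (∀ i, |z i| ≤ 2 ^ (k - j)) →
      Joined κ η v (q z) (C * 2 ^ (k - j) + C * (k + 1) ^ (d + 1))) ∧
    (∀ᶠ k : ℕ in atTop, ∀ (x y : V d) (W : (Lat d).Walk x y),
      (∀ u ∈ W.support, ∀ i, |u i| ≤ 2 * 2 ^ k) →
      C * (k + 1) ^ (d + 1) < W.support.toFinset.card → ∃ z ∈ W.support, z ∈ Z)

end Pool.Agent.H47.GM
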