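import Pool.Agent.H47.GM.ExtJoin

/-!
# GM module DMeet: long walks meet the infinite component (deterministic)

Let `ω' = ofSet F`, `r = (d+2)(k+1)`, `N = 2^k`, `C` with `(5r+10)^d ≤ C (k+1)^(d+1)`.
`exitW` gives an exterior point `x'` on `W`; a path from `0` in `Rc` of length `N` (support
within `|u i| ≤ N`) has more than `(5r+10)^d` vertices, so it contains an exterior point `x''`
(`exitW` again), `x'' ∈ Rc`; `ext_joined` gives `x' ∈ Rc` (a path in `Gr .site ω'` from `Rc` stays in `Rc`).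
-/

open MeasureTheory Filter Topology
open Pool.Agent.H17.IIC Pool.Agent.H41.QC

namespace Pool.Agent.H47.GM

variable {d : ℕ}

/-- coordinates along a lattice walk -/
lemma dMeet_coord {a b : V d} (w : (Lat d).Walk a b) :
    ∀ u ∈ w.support, ∀ i, |u i - a i| ≤ w.length := by
  induction w with
  | nil =>
    intro u hu i
    rw [SimpleGraph.Walk.support_nil, List.mem_singleton] at hu
    subst hu; simp
  | @cons a c b h p ih =>
    intro u hu i
    rw [SimpleGraph.Walk.support_cons, List.mem_cons] at hu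
    rw [SimpleGraph.Walk.length_cons]
    push_cast
    rcases hu with rfl | hu
    · rw [sub_self, abs_zero]; positivity
    · have h1 := abs_le.mp (ih u hu i)
      have h2 := abs_le.mp (LatAdj.abs_le (bd_lat_adj.mp h) i)
      rw [abs_le]
      constructor <;> linarith [h1.1, h1.2, h2.1, h2.2]

/-- deterministic part of the density statement -/
theorem dense_meet (hd : 2 ≤ d) : ∃ C : ℕ, ∀ (F Rc : Set (V d)) (k : ℕ),
    (5 * ((d + 2) * (k + 1)) + 10) ^ d < 2 ^ k →
    (0 : V d) ∈ Rc → Disjoint Rc F → (∀ z ∈ Rc, ∀ z', LatAdj z z' → z' ∈ Rc ∨ z' ∈ F) →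
    (∀ z ∈ Rc, ∃ w : (Lat d).Walk 0 z, ∀ u ∈ w.support, u ∈ Rc) → Rc.Infinite →
    (∀ b : V d, Bad .site (ofSet F) b → (∀ i, |b i| ≤ 4 * 2 ^ k) →
      (clus .site (ofSet F) b).Finite ∧ (clus .site (ofSet F) b).ncard < (d + 2) * (k + 1)) →
    ∀ (x y : V d) (W : (Lat d).Walk x y), (∀ u ∈ W.support, ∀ i, |u i| ≤ 2 * 2 ^ k) →
      C * (k + 1) ^ (d + 1) < W.support.toFinset.card → ∃ z ∈ W.support, z ∈ Rc := by
  refine ⟨(5 * d + 20) ^ d, ?_⟩
  intro F Rc k hk h0 hdis hcl hconn hinf hbad x y W hW hcard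
  have hN1 : 1 ≤ 2 ^ k := Nat.one_le_two_pow
  have hlen : (5 * ((d + 2) * (k + 1)) + 10) ^ d < W.support.toFinset.card := by
    refine lt_of_le_of_lt ?_ hcard
    calc (5 * ((d + 2) * (k + 1)) + 10) ^ d ≤ ((5 * d + 20) * (k + 1)) ^ d := by
          apply Nat.pow_le_pow_left
          nlinarith
      _ = (5 * d + 20) ^ d * (k + 1) ^ d := mul_pow _ _ _
      _ ≤ (5 * d + 20) ^ d * (k + 1) ^ (d + 1) :=
          Nat.mul_le_mul_left _ (Nat.pow_le_pow_right (by omega) (by omega))
  have hbad' : ∀ b, Bad .site (ofSet F) b → (∀ i, |b i| ≤ 4 * ((2 ^ k : ℕ) : ℤ)) →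
      (clus .site (ofSet F) b).Finite ∧ (clus .site (ofSet F) b).ncard < (d + 2) * (k + 1) := by
    intro b hb h4
    refine hbad b hb (fun i => ?_)
    have := h4 i
    push_cast at this
    exact this
  obtain ⟨x', hx'W, hx'⟩ := exitW hd .site (ofSet F) hk hbad' W hlen
  -- a point of `Rc` outside the box
  obtain ⟨z, hzR, i, hzi⟩ : ∃ z ∈ Rc, ∃ i, ((2 ^ k : ℕ) : ℤ) < |z i| := by
    by_contra hcon
    push Not at hcon
    apply hinf
    apply Set.Finite.subset (Bx (0 : V d) (2 ^ k)).finite_toSet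
    intro z hz
    rw [Finset.mem_coe, mem_Bx]
    intro i
    have := hcon z hz i
    simpa using this
  obtain ⟨w, hw⟩ := hconn z hzR
  have hp := w.bypass_isPath
  have hpsub : ∀ u ∈ w.bypass.support, u ∈ Rc :=
    fun u hu => hw u (w.support_bypass_subset_support hu)
  have hplen : 2 ^ k < w.bypass.length := by
    have h1 := dMeet_coord w.bypass z w.bypass.end_mem_support i
    simp only [Pi.zero_apply, sub_zero] at h1
    exact_mod_cast lt_of_lt_of_le hzi h1
  set q := w.bypass.take (2 ^ k) with hq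
  have hqlen : q.length = 2 ^ k := by
    rw [hq, SimpleGraph.Walk.take_length]
    exact min_eq_left hplen.le
  have hqsub : ∀ u ∈ q.support, u ∈ Rc := fun u hu =>
    hpsub u ((SimpleGraph.Walk.isSubwalk_take _ _).support_subset hu)
  have hqcard : (5 * ((d + 2) * (k + 1)) + 10) ^ d < q.support.toFinset.card := by
    rw [List.toFinset_card_of_nodup (hp.take _).support_nodup, SimpleGraph.Walk.length_support,
      hqlen]
    omega
  obtain ⟨x'', hx''q, hx''⟩ := exitW hd .site (ofSet F) hk hbad' q hqcard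
  have hb1 : ∀ i, |x' i| ≤ 2 * ((2 ^ k : ℕ) : ℤ) := by
    intro i
    have := hW x' hx'W i
    push_cast
    exact this
  have hb2 : ∀ i, |x'' i| ≤ 2 * ((2 ^ k : ℕ) : ℤ) := by
    intro i
    have h1 := dMeet_coord q x'' hx''q i
    rw [hqlen] at h1
    simp only [Pi.zero_apply, sub_zero] at h1
    have h2 : (0 : ℤ) ≤ ((2 ^ k : ℕ) : ℤ) := by positivity
    linarith
  have hreach := ext_joined .site (ofSet F) hN1 hbad' hb2 hb1 hx'' hx'
  refine ⟨x', hx'W, ?_⟩
  obtain ⟨v⟩ := hreach
  have hstay : ∀ {a b : V d} (v : (Gr .site (ofSet F)).Walk a b), a ∈ Rc → b ∈ Rc := by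
    intro a b v
    induction v with
    | nil => exact id
    | @cons a c b h p ih =>
      intro ha
      apply ih
      rw [gr_ofSet] at h
      rcases hcl a ha c h.1 with h1 | h1
      · exact h1
      · exact absurd h1 h.2.2
  exact hstay v (hqsub x'' hx''q)

end Pool.Agent.H47.GM
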