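import Pool.Agent.H41.QC.Bad
import Pool.Agent.H41.QC.CubeCompl
import Pool.Agent.H47.GM.Defs

/-!
# GM module Basic: elementary facts on `Rch`, `FullOpen`, `Hit`, `growF`
-/

open MeasureTheory Filter Topology
open Pool.Agent.H17.IIC Pool.Agent.H41.QC

namespace Pool.Agent.H47.GM

variable {d : ℕ}

lemma LatAdj.symm {x y : V d} (h : LatAdj x y) : LatAdj y x := Split_latAdj_symm h

lemma LatAdj.abs_le {x y : V d} (h : LatAdj x y) (i : Fin d) : |x i - y i| ≤ 1 := by
  have := bd_adj_cl h i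
  exact_mod_cast this

lemma LatAdj.ne {x y : V d} (h : LatAdj x y) : x ≠ y :=
  (Lat d).ne_of_adj h

/-- the neighbours of a vertex -/
noncomputable def nb (z : V d) : Finset (V d) :=
  open Classical in Finset.univ.image fun s : Step d => z + stepVec s

lemma mem_nb {z w : V d} : w ∈ nb z ↔ LatAdj z w := by
  classical
  unfold nb
  rw [Finset.mem_image]
  constructor
  · rintro ⟨s, -, rfl⟩
    exact ⟨s, rfl⟩
  · rintro ⟨s, rfl⟩
    exact ⟨s, Finset.mem_univ _, rfl⟩

lemma card_nb_le (z : V d) : (nb z).card ≤ 2 * d := by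
  classical
  unfold nb
  refine Finset.card_image_le.trans ?_
  rw [Finset.card_univ, Fintype.card_prod, Fintype.card_fin, Fintype.card_bool]
  omega

lemma Rch.mono {κ : Kind} {ξ ξ' : El d → Bool} {D D' : Set (V d)} {a b : V d}
    (h : Rch κ ξ D a b) (hξ : ∀ e, ξ e = true → ξ' e = true) (hD : D ⊆ D') : Rch κ ξ' D' a b := by
  unfold Rch at h ⊢
  induction h with
  | refl => exact Relation.ReflTransGen.refl
  | tail _ hs ih => exact ih.tail ⟨hs.1, hD hs.2.1, hξ _ hs.2.2⟩

/-- the end of a path is its start or belongs to `D` -/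
lemma Rch.mem {κ : Kind} {ξ : El d → Bool} {D : Set (V d)} {a b : V d} (h : Rch κ ξ D a b) :
    b = a ∨ b ∈ D := by
  unfold Rch at h
  rcases Relation.ReflTransGen.cases_tail h with h | ⟨c, -, h⟩
  · exact Or.inl h
  · exact Or.inr h.2.1

/-- only the elements with a vertex in `D` and both vertices within distance one of `D` matter -/
lemma Rch.congr {κ : Kind} {ξ ξ' : El d → Bool} {D : Set (V d)} {a b : V d}
    (h : ∀ u v, LatAdj u v → v ∈ D → ξ (stE κ u v) = ξ' (stE κ u v)) :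
    Rch κ ξ D a b ↔ Rch κ ξ' D a b := by
  have h1 : Stp κ ξ D = Stp κ ξ' D := by
    funext u v
    apply propext
    constructor
    · rintro ⟨h1, h2, h3⟩
      exact ⟨h1, h2, by rw [← h u v h1 h2]; exact h3⟩
    · rintro ⟨h1, h2, h3⟩
      exact ⟨h1, h2, by rw [h u v h1 h2]; exact h3⟩
  unfold Rch
  rw [h1]

lemma FullOpen.mono {κ : Kind} {ξ ξ' : El d → Bool} {B : Set (V d)} (h : FullOpen κ ξ B)
    (hξ : ∀ e, ξ e = true → ξ' e = true) : FullOpen κ ξ' B :=
  ⟨fun a ha b hb hab => hξ _ (h.1 a ha b hb hab), fun hκ a ha => hξ _ (h.2 hκ a ha)⟩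

lemma Hit.mono {κ : Kind} {ξ ξ' : El d → Bool} {D D' C C' : Set (V d)} {x : V d} {m : ℕ}
    (h : Hit κ ξ D x m C) (hξ : ∀ e, ξ e = true → ξ' e = true) (hD : D ⊆ D') (hC : C ⊆ C') :
    Hit κ ξ' D' x m C' := by
  obtain ⟨c, hc, hf, u, hu, v, hv, hr⟩ := h
  exact ⟨c, hC hc, FullOpen.mono hf hξ, u, hu, v, hv, Rch.mono hr hξ hD⟩

lemma Basic_fullOpen_congr {κ : Kind} {ξ ξ' : El d → Bool} {B : Set (V d)}
    (h : ∀ a ∈ B, ∀ b ∈ B, ξ (stE κ a b) = ξ' (stE κ a b)) :
    FullOpen κ ξ B ↔ FullOpen κ ξ' B := by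
  unfold FullOpen
  constructor
  · rintro ⟨h1, h2⟩
    refine ⟨fun a ha b hb hab => by rw [← h a ha b hb]; exact h1 a ha b hb hab, ?_⟩
    intro hκ a ha
    subst hκ
    have h3 : ξ s(a, a) = ξ' s(a, a) := h a ha a ha
    rw [← h3]; exact h2 rfl a ha
  · rintro ⟨h1, h2⟩
    refine ⟨fun a ha b hb hab => by rw [h a ha b hb]; exact h1 a ha b hb hab, ?_⟩
    intro hκ a ha
    subst hκ
    have h3 : ξ s(a, a) = ξ' s(a, a) := h a ha a ha
    rw [h3]; exact h2 rfl a ha

/-- `Hit` depends on finitely many elements -/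
lemma Hit.dep (κ : Kind) (D C : Finset (V d)) (x : V d) (m : ℕ) :
    ∃ Λ : Finset (El d), ∀ ω ω' : El d → Bool, (∀ e ∈ Λ, ω e = ω' e) →
      (Hit κ ω D x m C ↔ Hit κ ω' D x m C) := by
  classical
  refine ⟨(D.biUnion fun v => (nb v).image fun u => stE κ u v) ∪
    C.biUnion fun c => ((Bx c m) ×ˢ (Bx c m)).image fun q => stE κ q.1 q.2, ?_⟩
  have key : ∀ ω ω' : El d → Bool, (∀ e ∈ (D.biUnion fun v => (nb v).image fun u => stE κ u v) ∪
    C.biUnion fun c => ((Bx c m) ×ˢ (Bx c m)).image fun q => stE κ q.1 q.2, ω e = ω' e) →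
      (Hit κ ω D x m C → Hit κ ω' D x m C) := by
    intro ω ω' h
    rintro ⟨c, hc, hf, u, hu, v, hv, hr⟩
    refine ⟨c, hc, ?_, u, hu, v, hv, ?_⟩
    · refine (Basic_fullOpen_congr ?_).1 hf
      intro a ha b hb
      apply h
      rw [Finset.mem_union]
      right
      rw [Finset.mem_biUnion]
      refine ⟨c, hc, ?_⟩
      rw [Finset.mem_image]
      exact ⟨(a, b), by rw [Finset.mem_product]; exact ⟨ha, hb⟩, rfl⟩
    · refine (Rch.congr ?_).1 hr
      intro a b hab hb
      apply h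
      rw [Finset.mem_union]
      left
      rw [Finset.mem_biUnion]
      refine ⟨b, hb, ?_⟩
      rw [Finset.mem_image]
      exact ⟨a, mem_nb.2 (LatAdj.symm hab), rfl⟩
  intro ω ω' h
  exact ⟨key ω ω' h, key ω' ω (fun e he => (h e he).symm)⟩

lemma Basic_walk_rch {κ : Kind} {ξ : El d → Bool} {B : Set (V d)} (h : FullOpen κ ξ B) {u v : V d}
    (w : (Lat d).Walk u v) (hw : ∀ z ∈ w.support, z ∈ B) : Rch κ ξ B u v := by
  induction w with
  | nil => exact Relation.ReflTransGen.refl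
  | @cons a b c hab p ih =>
    have ha : a ∈ B := hw a (by rw [SimpleGraph.Walk.support_cons]; exact List.mem_cons_self)
    have hb : b ∈ B := hw b (by
      rw [SimpleGraph.Walk.support_cons]
      exact List.mem_cons_of_mem _ p.start_mem_support)
    refine Relation.ReflTransGen.head ⟨hab, hb, h.1 a ha b hb hab⟩ (ih ?_)
    intro z hz
    exact hw z (by rw [SimpleGraph.Walk.support_cons]; exact List.mem_cons_of_mem _ hz)

/-- all vertices of a fully open box are connected inside the box -/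
lemma rch_box {κ : Kind} {ξ : El d → Bool} {c u v : V d} {m : ℕ}
    (h : FullOpen κ ξ (Bx c m : Set (V d))) (hu : u ∈ Bx c m) (hv : v ∈ Bx c m) :
    Rch κ ξ (Bx c m : Set (V d)) u v := by
  obtain ⟨w, -, hw⟩ := exists_walk u v
  refine Basic_walk_rch h w ?_
  intro z hz
  rw [Finset.mem_coe, mem_Bx]
  rw [mem_Bx] at hu hv
  intro i
  have h1 := hw z hz i
  have h2 := hu i
  have h3 := hv i
  rw [_root_.abs_le] at h2 h3 ⊢
  omega

lemma mem_growF {κ : Kind} {R D : Finset (V d)} {ξ : El d → Bool} {v : V d} :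
    v ∈ growF κ R D ξ ↔ ∃ a ∈ R, Rch κ ξ ((D : Set (V d)) \ R) a v := by
  classical
  unfold growF
  rw [Finset.mem_filter, Finset.mem_union]
  constructor
  · exact fun h => h.2
  · intro h
    refine ⟨?_, h⟩
    obtain ⟨a, ha, hr⟩ := h
    rcases Rch.mem hr with h1 | h1
    · left; rw [h1]; exact ha
    · right; exact h1.1

lemma subset_growF (κ : Kind) (R D : Finset (V d)) (ξ : El d → Bool) : R ⊆ growF κ R D ξ :=
  fun v hv => mem_growF.2 ⟨v, hv, Relation.ReflTransGen.refl⟩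

lemma growF_subset (κ : Kind) (R D : Finset (V d)) (ξ : El d → Bool) :
    growF κ R D ξ ⊆ R ∪ D := by
  classical
  unfold growF
  intro v hv
  rw [Finset.mem_filter] at hv
  exact (Finset.mem_union.2 (Finset.mem_union.1 hv.1))

lemma growF_mono (κ : Kind) (R : Finset (V d)) {D D' : Finset (V d)} (h : D ⊆ D')
    (ξ : El d → Bool) : growF κ R D ξ ⊆ growF κ R D' ξ := by
  intro v hv
  rw [mem_growF] at hv ⊢
  obtain ⟨a, ha, hr⟩ := hv
  exact ⟨a, ha, Rch.mono hr (fun _ h => h) (fun z hz => ⟨h hz.1, hz.2⟩)⟩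

lemma mix_le (κ : Kind) (R : Set (V d)) (ω σ : El d → Bool) (e : El d)
    (h : mix κ R ω σ e = true) : ω e = true ∨ σ e = true := by
  unfold mix at h
  split_ifs at h
  · exact Or.inr h
  · exact Or.inl h

lemma mix_touch {κ : Kind} {R : Set (V d)} {ω σ : El d → Bool} {e : El d} (h : touch κ R e) :
    mix κ R ω σ e = σ e := by
  unfold mix
  rw [if_pos h]

lemma mix_not_touch {κ : Kind} {R : Set (V d)} {ω σ : El d → Bool} {e : El d}
    (h : ¬ touch κ R e) : mix κ R ω σ e = ω e := by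
  unfold mix
  rw [if_neg h]

lemma touch_mono {κ : Kind} {R R' : Set (V d)} (h : R ⊆ R') {e : El d} (he : touch κ R e) :
    touch κ R' e := by
  obtain ⟨v, hv, h1⟩ := he
  refine ⟨v, hv, ?_⟩
  rcases h1 with h1 | ⟨hκ, a, ha, hav⟩
  · exact Or.inl (h h1)
  · exact Or.inr ⟨hκ, a, h ha, hav⟩

/-- the elements inside a set far from `R` do not touch `R` -/
lemma not_touch_of_far {κ : Kind} {R : Set (V d)} {B : Set (V d)}
    (h : ∀ v ∈ B, v ∉ R ∧ ∀ a ∈ R, ¬ LatAdj a v) {a b : V d} (ha : a ∈ B) (hb : b ∈ B) :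
    ¬ touch κ R (stE κ a b) ∧ ¬ touch κ R s(a, a) := by
  have key : ∀ v, v ∈ B → ¬ (v ∈ R ∨ (κ = .site ∧ ∃ a ∈ R, LatAdj a v)) := by
    intro v hv
    rintro (h1 | ⟨-, a, ha, hav⟩)
    · exact (h v hv).1 h1
    · exact (h v hv).2 a ha hav
  constructor
  · rintro ⟨v, hv, h1⟩
    refine key v ?_ h1
    cases κ
    · have hv' : v ∈ s(a, b) := hv
      rw [Sym2.mem_iff] at hv'
      rcases hv' with rfl | rfl
      · exact ha
      · exact hb
    · have hv' : v ∈ s(b, b) := hv
      rw [Sym2.mem_iff] at hv'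
      rcases hv' with rfl | rfl <;> exact hb
  · rintro ⟨v, hv, h1⟩
    refine key v ?_ h1
    rw [Sym2.mem_iff] at hv
    rcases hv with rfl | rfl <;> exact ha

lemma Basic_rch_walk {κ : Kind} {ξ : El d → Bool} {D : Finset (V d)} {a b : V d}
    (h : Rch κ ξ (D : Set (V d)) a b) (ha : κ = .site → ξ s(a, a) = true) :
    (∃ w : (Gr κ ξ).Walk a b, ∀ z ∈ w.support, z = a ∨ z ∈ D) ∧
      (κ = .site → ξ s(b, b) = true) := by
  unfold Rch at h
  induction h with
  | refl =>
    refine ⟨⟨SimpleGraph.Walk.nil, ?_⟩, ha⟩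
    intro z hz
    rw [SimpleGraph.Walk.support_nil, List.mem_singleton] at hz
    exact Or.inl hz
  | @tail b c _ h2 ih =>
    obtain ⟨⟨w, hw⟩, hb⟩ := ih
    obtain ⟨h3, h4, h5⟩ := h2
    have hadj : (Gr κ ξ).Adj b c := by
      refine ⟨h3, ?_⟩
      cases κ
      · exact h5
      · exact ⟨hb rfl, h5⟩
    refine ⟨⟨w.concat hadj, ?_⟩, ?_⟩
    · intro z hz
      rw [SimpleGraph.Walk.support_concat, List.mem_append, List.mem_singleton] at hz
      rcases hz with hz | hz
      · exact hw z hz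
      · right; rw [hz]; exact h4
    · intro hκ
      subst hκ
      exact h5

/-- a path landing in the finite set `D` gives an open path of length at most `|D| + 1`.
(Loop-erase: take a walk from `a` to `b` all of whose vertices but the first are in `D`, make it a
path.) For site percolation the start has to be open. -/
lemma Rch.joined {κ : Kind} {ξ : El d → Bool} {D : Finset (V d)} {a b : V d}
    (h : Rch κ ξ (D : Set (V d)) a b) (ha : κ = .site → ξ s(a, a) = true) :
    Joined κ ξ a b (D.card + 1) ∧ (κ = .site → ξ s(b, b) = true) := by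
  classical
  obtain ⟨⟨w, hw⟩, hb⟩ := Basic_rch_walk h ha
  refine ⟨⟨w.bypass, ?_⟩, hb⟩
  have h1 : w.bypass.support.toFinset ⊆ insert a D := by
    intro z hz
    rw [List.mem_toFinset] at hz
    rw [Finset.mem_insert]
    exact hw z (w.support_bypass_subset_support hz)
  have h2 := Finset.card_le_card h1
  rw [List.toFinset_card_of_nodup w.bypass_isPath.support_nodup,
    SimpleGraph.Walk.length_support] at h2
  have h3 := Finset.card_insert_le a D
  have h4 : w.bypass.length ≤ D.card + 1 := by omega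
  exact_mod_cast h4

lemma joined_mono {κ : Kind} {ξ ξ' : El d → Bool} {a b : V d} {r r' : ℝ}
    (h : Joined κ ξ a b r) (hξ : ∀ e, ξ e = true → ξ' e = true) (hr : r ≤ r') :
    Joined κ ξ' a b r' := by
  obtain ⟨w, hw⟩ := h
  have hle : Gr κ ξ ≤ Gr κ ξ' := by
    intro u v huv
    refine ⟨huv.1, ?_⟩
    have h2 := huv.2
    cases κ
    · exact hξ _ h2
    · exact ⟨hξ _ h2.1, hξ _ h2.2⟩
  refine ⟨w.mapLe hle, ?_⟩
  rw [SimpleGraph.Walk.length_mapLe]
  exact hw.trans hr

lemma ofSet_diag (F : Set (V d)) (v : V d) : ofSet F s(v, v) = true ↔ v ∉ F := by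
  classical
  unfold ofSet
  simp

lemma bad_ofSet (F : Set (V d)) (v : V d) : Bad .site (ofSet F) v ↔ v ∈ F := by
  change ofSet F s(v, v) = false ↔ v ∈ F
  rw [← not_iff_not, Bool.not_eq_false, ofSet_diag]

lemma gr_ofSet (F : Set (V d)) (v w : V d) :
    (Gr .site (ofSet F)).Adj v w ↔ LatAdj v w ∧ v ∉ F ∧ w ∉ F := by
  change (LatAdj v w ∧ (ofSet F s(v, v) = true ∧ ofSet F s(w, w) = true)) ↔ _
  rw [ofSet_diag, ofSet_diag]

end Pool.Agent.H47.GM
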