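import Pool.Agent.H41.QC.Cover

/-!
# GM module PGrow: union bound for connected sets of bad vertices

Copy of `prob_grow` (H41/QC/ProbBad); `P (B ⊆ F) ≤ ρ^|B|` replaces `prob_all_bad`.
-/

open MeasureTheory Filter Topology
open Pool.Agent.H17.IIC Pool.Agent.H41.QC

namespace Pool.Agent.H47.GM

variable {d : ℕ}

variable {Ω : Type*} [MeasurableSpace Ω]

theorem gen_grow (P : Measure Ω) [IsProbabilityMeasure P] (F : Ω → Set (V d)) {ρ : ℝ} (hρ : 0 ≤ ρ)
    (hF : ∀ B : Finset (V d), P.real {ω | (B : Set (V d)) ⊆ F ω} ≤ ρ ^ B.card)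
    (T₀ : Finset (V d)) (hT₀ : T₀.Nonempty) (m : ℕ) :
    P.real {ω | ∃ B : Finset (V d), (B : Set (V d)) ⊆ F ω ∧ Disjoint B T₀ ∧ B.card = m ∧
        Cn5 ((T₀ : Set (V d)) ∪ B)} ≤ (11 ^ d : ℝ) ^ (2 * (T₀.card + m)) * ρ ^ m := by
  classical
  obtain ⟨x₀, hx₀⟩ := hT₀
  set n := 2 * (T₀.card + m) with hn
  set I : Finset (Fin n → (Fin d → Fin 11)) := Finset.univ.filter
    (fun s => ((Finset.range (n + 1)).image (pos5 x₀ s) \ T₀).card = m) with hI
  have hsub : {ω | ∃ B : Finset (V d), (B : Set (V d)) ⊆ F ω ∧ Disjoint B T₀ ∧ B.card = m ∧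
        Cn5 ((T₀ : Set (V d)) ∪ B)}
      ⊆ ⋃ s ∈ I, {ω | (((Finset.range (n + 1)).image (pos5 x₀ s) \ T₀ : Finset (V d)) :
        Set (V d)) ⊆ F ω} := by
    rintro ω ⟨B, hbad, hdis, hcard, hcn⟩
    have hT : Cn5 (((T₀ ∪ B : Finset (V d))) : Set (V d)) := by
      rw [Finset.coe_union]; exact hcn
    have hcT : (T₀ ∪ B).card = T₀.card + m := by
      rw [Finset.card_union_of_disjoint hdis.symm, hcard]
    obtain ⟨s, hs⟩ := cover (T₀ ∪ B) hT (Finset.mem_union_left B hx₀) (n := n)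
      (by rw [hcT])
    have hF' : (Finset.range (n + 1)).image (pos5 x₀ s) \ T₀ = B := by
      rw [hs, Finset.union_sdiff_left]
      exact Finset.sdiff_eq_self_of_disjoint hdis
    rw [Set.mem_iUnion₂]
    refine ⟨s, ?_, ?_⟩
    · rw [hI, Finset.mem_filter]
      exact ⟨Finset.mem_univ _, by rw [hF', hcard]⟩
    · rw [Set.mem_ofPred_eq, hF']
      exact hbad
  have hnn : 0 ≤ ρ ^ m := by positivity
  refine (measureReal_mono hsub (measure_ne_top _ _)).trans
    ((measureReal_biUnion_finset_le _ _).trans ?_)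
  calc ∑ s ∈ I, P.real {ω | (((Finset.range (n + 1)).image (pos5 x₀ s) \ T₀ : Finset (V d)) :
        Set (V d)) ⊆ F ω}
      ≤ ∑ _s ∈ I, ρ ^ m := by
        apply Finset.sum_le_sum
        intro s hs
        rw [hI, Finset.mem_filter] at hs
        have h := hF ((Finset.range (n + 1)).image (pos5 x₀ s) \ T₀)
        rwa [hs.2] at h
    _ = (I.card : ℝ) * ρ ^ m := by
        rw [Finset.sum_const, nsmul_eq_mul]
    _ ≤ (11 ^ d : ℝ) ^ n * ρ ^ m := by
        apply mul_le_mul_of_nonneg_right _ hnn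
        have h1 : I.card ≤ (11 ^ d) ^ n := by
          calc I.card ≤ (Finset.univ : Finset (Fin n → (Fin d → Fin 11))).card :=
                Finset.card_le_card (Finset.filter_subset _ _)
            _ = (11 ^ d) ^ n := by
                rw [Finset.card_univ, Fintype.card_fun, Fintype.card_fun]
                simp
        exact_mod_cast h1

end Pool.Agent.H47.GM
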