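import Pool.Agent.H41.QC.ConnNear
import Pool.Agent.H47.GM.Basic
import Pool.Agent.H47.GM.PGrow

/-!
# GM module PLine: straight walks hit few clusters

Copy of `line_hits` (H41/QC/ConnNear) for the site configuration `ofSet (F ω)` (`bad_ofSet`), `gen_grow`
replaces `prob_grow`. The endpoint `y` ranges over the full box `|y i| ≤ 2^(k-j)` (at most
`3^d (2^(k-j))^d` points, an additional constant `3^d` in the sum).
-/

open MeasureTheory Filter Topology
open Pool.Agent.H17.IIC Pool.Agent.H41.QC

namespace Pool.Agent.H47.GM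

variable {d : ℕ}

variable {Ω : Type*} [MeasurableSpace Ω]

lemma PLine_card_Bx (n : ℕ) (hn : 1 ≤ n) : (Bx (0 : V d) n).card ≤ (3 * n) ^ d := by
  unfold Bx
  rw [Fintype.card_piFinset]
  refine le_trans (Finset.prod_le_pow_card _ _ (3 * n) ?_) ?_
  · intro i _
    rw [Int.card_Icc]
    have : ((0 : V d) i + (n : ℤ)) + 1 - ((0 : V d) i - n) ≤ ((3 * n : ℕ) : ℤ) := by
      push_cast
      have : (1 : ℤ) ≤ n := by exact_mod_cast hn
      linarith
    exact Int.toNat_le.2 this
  · simp

/-- straight walks hit few bad clusters -/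
theorem gen_line (hd : 1 ≤ d) (P : Measure Ω) [IsProbabilityMeasure P] (F : Ω → Set (V d)) {ρ : ℝ}
    (hρ : 0 ≤ ρ) (hρ1 : ρ ≤ 1 / (2 * ((11 : ℝ) ^ d) ^ 4))
    (hF : ∀ B : Finset (V d), P.real {ω | (B : Set (V d)) ⊆ F ω} ≤ ρ ^ B.card) (j : ℕ) :
    ∀ᵐ ω ∂P, ∀ᶠ k : ℕ in atTop, ∀ y : V d, (∀ i, |y i| ≤ 2 ^ (k - j)) →
      ∃ w : (Lat d).Walk 0 y, w.length ≤ 4 * d * 2 ^ (k - j) ∧
        (∀ u ∈ w.support, ∀ i, |u i| ≤ 2 ^ (k - j)) ∧
        (hitset .site (ofSet (F ω)) {u | u ∈ w.support}).Finite ∧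
        (hitset .site (ofSet (F ω)) {u | u ∈ w.support}).ncard ≤ 16 * d * 2 ^ (k - j) := by
  classical
  -- straight walks
  choose wk hwk1 hwk2 using fun y : V d => exists_walk (0 : V d) y
  have hmem : ∀ (n : ℕ) (y : V d), y ∈ Bx (0 : V d) n → ∀ i, |y i| ≤ n := by
    intro n y hy i
    have := mem_Bx.1 hy i
    simpa using this
  have hlen : ∀ (n : ℕ) (y : V d), y ∈ Bx (0 : V d) n → (wk y).length ≤ d * n := by
    intro n y hy
    have h1 := hwk1 y
    have h2 : ∑ i, |y i - (0 : V d) i| ≤ ∑ _i : Fin d, (n : ℤ) := by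
      apply Finset.sum_le_sum
      intro i _
      have := hmem n y hy i
      rw [Pi.zero_apply, sub_zero]
      exact this
    rw [Finset.sum_const, Finset.card_univ, Fintype.card_fin, nsmul_eq_mul] at h2
    have h3 : ((wk y).length : ℤ) ≤ ((d * n : ℕ) : ℤ) := by
      rw [h1]; push_cast; exact h2
    exact_mod_cast h3
  set T : V d → Finset (V d) := fun y => (wk y).support.toFinset with hT
  have hTc : ∀ (n : ℕ) (y : V d), y ∈ Bx (0 : V d) n → (T y).card ≤ d * n + 1 := by
    intro n y hy
    refine (List.toFinset_card_le _).trans ?_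
    rw [SimpleGraph.Walk.length_support]
    have := hlen n y hy
    omega
  have hTne : ∀ y, (T y).Nonempty := fun y =>
    ⟨0, List.mem_toFinset.2 (wk y).start_mem_support⟩
  set E : ℕ → Set Ω := fun k => ⋃ y ∈ Bx (0 : V d) (2 ^ (k - j)),
    {ω | ∃ B : Finset (V d), (B : Set (V d)) ⊆ F ω ∧ Disjoint B (T y) ∧
        B.card = 12 * d * 2 ^ (k - j) ∧ Cn5 ((T y : Set (V d)) ∪ B)} with hE
  have hEk : ∀ k, P.real (E k) ≤ (3 ^ d * 2 ^ j) * (1 / 2) ^ k := by
    intro k
    set n := 2 ^ (k - j) with hn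
    have hn1 : 1 ≤ n := Nat.one_le_two_pow
    have hdn : 1 ≤ d * n := Nat.one_le_iff_ne_zero.2 (by positivity)
    have h1 : P.real (E k) ≤
        ∑ _y ∈ Bx (0 : V d) n, ((11 : ℝ) ^ d) ^ 0 * (1 / 2) ^ (12 * d * n) := by
      refine (measureReal_biUnion_finset_le _ _).trans (Finset.sum_le_sum fun y hy => ?_)
      refine (gen_grow P F hρ hF (T y) (hTne y) (12 * d * n)).trans ?_
      have hc := hTc n y hy
      refine ConnNear_num d hρ hρ1 (T y).card (12 * d * n) 0 ?_
      have e1 : 12 * d * n = 12 * (d * n) := by ring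
      omega
    have hbc : ((Bx (0 : V d) n).card : ℝ) ≤ 3 ^ d * ((n ^ d : ℕ) : ℝ) := by
      have h0 := PLine_card_Bx (d := d) n hn1
      have h0' : ((Bx (0 : V d) n).card : ℝ) ≤ (((3 * n) ^ d : ℕ) : ℝ) := by exact_mod_cast h0
      refine h0'.trans (le_of_eq ?_)
      push_cast
      rw [mul_pow]
    rw [Finset.sum_const, nsmul_eq_mul, pow_zero, one_mul] at h1
    have h2 : ((n ^ d : ℕ) : ℝ) ≤ 2 ^ (d * n) := by
      have : n ^ d ≤ 2 ^ (d * n) := by
        rw [mul_comm d n, pow_mul]
        exact Nat.pow_le_pow_left (Nat.lt_two_pow_self).le d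
      exact_mod_cast this
    have hkn : k ≤ n + j := by
      have h3 : k - j < n := Nat.lt_two_pow_self
      omega
    calc P.real (E k) ≤ ((Bx (0 : V d) n).card : ℝ) * (1 / 2) ^ (12 * d * n) := h1
      _ ≤ (3 ^ d * 2 ^ (d * n)) * (1 / 2) ^ (12 * d * n) := by
          have h5 : ((Bx (0 : V d) n).card : ℝ) ≤ 3 ^ d * 2 ^ (d * n) :=
            hbc.trans (by gcongr)
          gcongr
      _ = 3 ^ d * (1 / 2) ^ (11 * (d * n)) := by
          have e1 : 12 * d * n = d * n + 11 * (d * n) := by ring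
          rw [e1, pow_add, mul_assoc, ← mul_assoc (2 ^ (d * n) : ℝ), ← mul_pow]
          norm_num
      _ ≤ 3 ^ d * (1 / 2) ^ n := by
          have h6 : ((1 : ℝ) / 2) ^ (11 * (d * n)) ≤ (1 / 2) ^ n := by
            apply pow_le_pow_of_le_one (by norm_num) (by norm_num)
            have : n ≤ d * n := Nat.le_mul_of_pos_left n (by omega)
            omega
          gcongr
      _ ≤ (3 ^ d * 2 ^ j) * (1 / 2) ^ k := by
          have h4 : ((1 : ℝ) / 2) ^ (n + j) ≤ (1 / 2) ^ k :=
            pow_le_pow_of_le_one (by norm_num) (by norm_num) hkn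
          calc 3 ^ d * ((1 : ℝ) / 2) ^ n = (3 ^ d * 2 ^ j) * (1 / 2) ^ (n + j) := by
                rw [pow_add, mul_comm (((1 : ℝ) / 2) ^ n), mul_assoc, ← mul_assoc ((2 : ℝ) ^ j),
                  ← mul_pow]
                norm_num
            _ ≤ (3 ^ d * 2 ^ j) * (1 / 2) ^ k := by gcongr
  have hBC := ConnNear_BC P E (by positivity) (by norm_num) (by norm_num) hEk
  filter_upwards [hBC] with ω hω
  filter_upwards [hω] with k hk y hy0
  set n := 2 ^ (k - j) with hn
  have hn1 : 1 ≤ n := Nat.one_le_two_pow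
  have hdn : 1 ≤ d * n := Nat.one_le_iff_ne_zero.2 (by positivity)
  have h3 : (n : ℤ) = 2 ^ (k - j) := by rw [hn]; push_cast; rfl
  have hy : y ∈ Bx (0 : V d) n := by
    rw [mem_Bx]
    intro i
    rw [Pi.zero_apply, sub_zero, h3]
    exact hy0 i
  refine ⟨wk y, ?_, ?_, ?_⟩
  · have := hlen n y hy
    have e1 : 4 * d * n = 4 * (d * n) := by ring
    omega
  · intro u hu i
    have h1 := hwk2 y u hu i
    have h2 := abs_le.1 (hmem n y hy i)
    rw [Pi.zero_apply] at h1
    rw [← h3, abs_le]
    have hn0 : (0 : ℤ) ≤ n := by positivity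
    constructor
    · refine le_trans ?_ h1.1
      exact le_min (by linarith) h2.1
    · refine h1.2.trans ?_
      exact max_le hn0 h2.2
  · by_contra hcon
    apply hk
    set H := hitset .site (ofSet (F ω)) {u | u ∈ (wk y).support} with hH
    have hTmem : ∀ u, u ∈ T y ↔ u ∈ (wk y).support := fun u => List.mem_toFinset
    have hTcn : Cn5 ((T y : Set (V d))) := by
      intro a ha b hb
      have ha' := (hTmem a).1 ha
      have hb' := (hTmem b).1 hb
      refine ⟨(((wk y).takeUntil a ha').reverse.append ((wk y).takeUntil b hb')).mapLe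
        ConnNear_lat_le, ?_⟩
      intro z hz
      rw [SimpleGraph.Walk.support_mapLe_eq_support, SimpleGraph.Walk.mem_support_append_iff,
        SimpleGraph.Walk.support_reverse, List.mem_reverse] at hz
      apply (hTmem z).2
      rcases hz with hz | hz
      · exact SimpleGraph.Walk.support_takeUntil_subset _ ha' hz
      · exact SimpleGraph.Walk.support_takeUntil_subset _ hb' hz
    -- every point is joined to `T y`
    have htoT : ∀ a ∈ (T y : Set (V d)) ∪ H, ∃ u ∈ (T y : Set (V d)), ∃ w : (G5 d).Walk a u,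
        ∀ z ∈ w.support, z ∈ (T y : Set (V d)) ∪ H := by
      rintro a (ha | ha)
      · refine ⟨a, ha, SimpleGraph.Walk.nil, ?_⟩
        intro z hz
        rw [SimpleGraph.Walk.support_nil, List.mem_singleton] at hz
        rw [hz]; exact Or.inl ha
      · obtain ⟨hbad, u, hu, c, hc, hcl⟩ := ha
        have hCH : clus .site (ofSet (F ω)) a ⊆ H := Detour_clus_subset .site (ofSet (F ω)) hbad hu ⟨c, hc, hcl⟩
        obtain ⟨w, hw⟩ := ConnNear_clus_walk .site (ofSet (F ω)) (Exit_self_mem .site (ofSet (F ω)) a) hc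
        have huT : u ∈ (T y : Set (V d)) := (hTmem u).2 hu
        refine ⟨u, huT, ?_⟩
        by_cases hcu : c = u
        · subst hcu
          exact ⟨w, fun z hz => Or.inr (hCH (hw z hz))⟩
        · have hadj : (G5 d).Adj c u := by
            refine ⟨hcu, fun i => ?_⟩
            have h1 := hcl i
            rw [abs_sub_comm] at h1
            refine h1.trans ?_
            norm_num
          refine ⟨w.concat hadj, ?_⟩
          intro z hz
          rw [SimpleGraph.Walk.support_concat, List.mem_append, List.mem_singleton] at hz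
          rcases hz with hz | hz
          · exact Or.inr (hCH (hw z hz))
          · rw [hz]; exact Or.inl huT
    have hUcn : Cn5 ((T y : Set (V d)) ∪ H) := by
      intro a ha b hb
      obtain ⟨u, hu, w1, hw1⟩ := htoT a ha
      obtain ⟨v, hv, w2, hw2⟩ := htoT b hb
      obtain ⟨w3, hw3⟩ := hTcn u hu v hv
      refine ⟨w1.append (w3.append w2.reverse), ?_⟩
      intro z hz
      rw [SimpleGraph.Walk.mem_support_append_iff, SimpleGraph.Walk.mem_support_append_iff,
        SimpleGraph.Walk.support_reverse, List.mem_reverse] at hz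
      rcases hz with hz | hz | hz
      · exact hw1 z hz
      · exact Or.inl (hw3 z hz)
      · exact hw2 z hz
    obtain ⟨B, hF1, hF2, hF3, hF4⟩ := grow (T y) hTcn (hTne y) H hUcn (12 * d * n) (by
      intro B hF hdF hcF
      by_contra hno
      push Not at hno
      apply hcon
      have hsub : H ⊆ ((T y ∪ B : Finset (V d)) : Set (V d)) := by
        intro u hu
        rw [Finset.coe_union]
        by_cases hub : u ∈ T y
        · exact Or.inl hub
        · exact Or.inr (hno u hu hub)
      have hfin : H.Finite := (Finset.finite_toSet _).subset hsub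
      refine ⟨hfin, ?_⟩
      have h1 := Set.ncard_le_ncard hsub (Finset.finite_toSet _)
      rw [Set.ncard_coe_finset] at h1
      have h2 := Finset.card_union_le (T y) B
      have h3 := hTc n y hy
      have e1 : 12 * d * n = 12 * (d * n) := by ring
      have e2 : 16 * d * n = 16 * (d * n) := by ring
      omega)
    rw [hE]
    simp only [Set.mem_iUnion, Set.mem_setOf_eq]
    exact ⟨y, hy, B, fun x hx => (bad_ofSet (F ω) x).1 (hF1 hx).1, hF2, hF3, hF4⟩

end Pool.Agent.H47.GM
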