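import Pool.Agent.H41.QC.ConnNear
import Pool.Agent.H47.GM.Basic
import Pool.Agent.H47.GM.PGrow

/-!
# GM module PSmall: clusters of bad vertices are small

Copy of `small_clusters` (H41/QC/ConnNear) for the site configuration `ofSet (F ω)`, whose bad vertices are
the elements of `F ω` (`bad_ofSet`); `gen_grow` replaces `prob_grow`.
-/

open MeasureTheory Filter Topology
open Pool.Agent.H17.IIC Pool.Agent.H41.QC

namespace Pool.Agent.H47.GM

variable {d : ℕ}

variable {Ω : Type*} [MeasurableSpace Ω]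

/-- all bad clusters meeting a large cube are small -/
theorem gen_small (hd : 1 ≤ d) (P : Measure Ω) [IsProbabilityMeasure P] (F : Ω → Set (V d)) {ρ : ℝ}
    (hρ : 0 ≤ ρ) (hρ1 : ρ ≤ 1 / (2 * ((11 : ℝ) ^ d) ^ 4))
    (hF : ∀ B : Finset (V d), P.real {ω | (B : Set (V d)) ⊆ F ω} ≤ ρ ^ B.card) :
    ∀ᵐ ω ∂P, ∀ᶠ k : ℕ in atTop, ∀ b : V d, Bad .site (ofSet (F ω)) b →
      (∀ i, |b i| ≤ 4 * 2 ^ k) → (clus .site (ofSet (F ω)) b).Finite ∧
        (clus .site (ofSet (F ω)) b).ncard < (d + 2) * (k + 1) := by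
  classical
  set cube : ℕ → Finset (V d) := fun k =>
    Fintype.piFinset fun _ => Finset.Icc (-(4 * 2 ^ k : ℤ)) (4 * 2 ^ k) with hcube
  have hcubec : ∀ k, ((cube k).card : ℝ) ≤ 9 ^ d * (2 ^ d) ^ k := by
    intro k
    have h1 : (cube k).card ≤ (9 * 2 ^ k) ^ d := by
      rw [hcube]
      simp only
      rw [Fintype.card_piFinset]
      refine le_trans (Finset.prod_le_pow_card _ _ (9 * 2 ^ k) ?_) ?_
      · intro i _
        rw [Int.card_Icc]
        have : (4 * 2 ^ k : ℤ) + 1 - -(4 * 2 ^ k) ≤ ((9 * 2 ^ k : ℕ) : ℤ) := by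
          push_cast
          have : (1 : ℤ) ≤ 2 ^ k := one_le_pow₀ (by norm_num)
          linarith
        exact Int.toNat_le.2 this
      · simp
    have h2 : ((cube k).card : ℝ) ≤ ((9 * 2 ^ k : ℕ) : ℝ) ^ d := by exact_mod_cast h1
    refine h2.trans (le_of_eq ?_)
    push_cast
    rw [mul_pow, ← pow_mul, ← pow_mul, mul_comm k d]
  set m : ℕ → ℕ := fun k => (d + 2) * (k + 1) - 1 with hm
  set E : ℕ → Set Ω := fun k => ⋃ b ∈ cube k,
    {ω | ∃ B : Finset (V d), (B : Set (V d)) ⊆ F ω ∧ Disjoint B ({b} : Finset (V d)) ∧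
        B.card = m k ∧ Cn5 (((({b} : Finset (V d)) : Set (V d))) ∪ B)} with hE
  have hEk : ∀ k, P.real (E k) ≤ (9 ^ d * ((11 : ℝ) ^ d) ^ 2) * (1 / 2) ^ k := by
    intro k
    have h1 : P.real (E k) ≤
        ∑ _b ∈ cube k, ((11 : ℝ) ^ d) ^ 2 * (1 / 2) ^ (m k) := by
      refine (measureReal_biUnion_finset_le _ _).trans (Finset.sum_le_sum fun b _ => ?_)
      refine (gen_grow P F hρ hF {b} (Finset.singleton_nonempty b) (m k)).trans ?_
      rw [Finset.card_singleton]
      exact ConnNear_num d hρ hρ1 1 (m k) 2 (by omega)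
    rw [Finset.sum_const, nsmul_eq_mul] at h1
    have hmk : (d + 1) * k + k + 0 ≤ m k := by
      simp only [hm]
      have : (d + 2) * (k + 1) = (d + 1) * k + k + (d + 2) := by ring
      omega
    have h2 : ((1 : ℝ) / 2) ^ (m k) ≤ (1 / 2) ^ ((d + 1) * k) :=
      pow_le_pow_of_le_one (by norm_num) (by norm_num) (by omega)
    calc P.real (E k)
        ≤ ((cube k).card : ℝ) * (((11 : ℝ) ^ d) ^ 2 * (1 / 2) ^ (m k)) := h1
      _ ≤ (9 ^ d * (2 ^ d) ^ k) * (((11 : ℝ) ^ d) ^ 2 * (1 / 2) ^ ((d + 1) * k)) := by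
          gcongr
          exact hcubec k
      _ = (9 ^ d * ((11 : ℝ) ^ d) ^ 2) * (((2 : ℝ) ^ d) ^ k * (1 / 2) ^ ((d + 1) * k)) := by ring
      _ = _ := by
          congr 1
          have e1 : ((1 : ℝ) / 2) ^ ((d + 1) * k) = (1 / 2) ^ (d * k) * (1 / 2) ^ k := by
            rw [← pow_add]; congr 1; ring
          rw [e1, ← pow_mul, ← mul_assoc, ← mul_pow]
          norm_num
  have hBC := ConnNear_BC P E (by positivity) (by norm_num) (by norm_num) hEk
  filter_upwards [hBC] with ω hω
  filter_upwards [hω] with k hk b hb hbk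
  by_contra hcon
  apply hk
  have hbc : b ∈ cube k := by
    rw [hcube]
    simp only
    rw [Fintype.mem_piFinset]
    intro i
    rw [Finset.mem_Icc]
    exact abs_le.1 (hbk i)
  have hmk : m k + 1 = (d + 2) * (k + 1) := by
    simp only [hm]
    have : 1 ≤ (d + 2) * (k + 1) := Nat.one_le_iff_ne_zero.2 (by positivity)
    omega
  have hself : b ∈ clus .site (ofSet (F ω)) b := Exit_self_mem .site (ofSet (F ω)) b
  have hun : (((({b} : Finset (V d)) : Set (V d))) ∪ clus .site (ofSet (F ω)) b) = clus .site (ofSet (F ω)) b := by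
    rw [Finset.coe_singleton, Set.singleton_union, Set.insert_eq_of_mem hself]
  obtain ⟨B, hF1, hF2, hF3, hF4⟩ := grow ({b} : Finset (V d)) (by
      intro x hx y hy
      rw [Finset.coe_singleton, Set.mem_singleton_iff] at hx hy
      subst hx
      subst hy
      refine ⟨SimpleGraph.Walk.nil, ?_⟩
      intro z hz
      simpa using hz) (Finset.singleton_nonempty b) (clus .site (ofSet (F ω)) b) (by
      rw [hun]
      intro x hx y hy
      exact ConnNear_clus_walk .site (ofSet (F ω)) hx hy) (m k) (by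
      intro B hB hdB hcB
      by_contra hno
      push Not at hno
      apply hcon
      have hsub : clus .site (ofSet (F ω)) b ⊆ ((insert b B : Finset (V d)) : Set (V d)) := by
        intro u hu
        rw [Finset.coe_insert, Set.mem_insert_iff]
        by_cases hub : u = b
        · exact Or.inl hub
        · right
          exact hno u hu (by rw [Finset.mem_singleton]; exact hub)
      have hfin : (clus .site (ofSet (F ω)) b).Finite := (Finset.finite_toSet _).subset hsub
      refine ⟨hfin, ?_⟩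
      have h1 := Set.ncard_le_ncard hsub (Finset.finite_toSet _)
      rw [Set.ncard_coe_finset] at h1
      have h2 := Finset.card_insert_le b B
      omega)
  rw [hE]
  simp only [Set.mem_iUnion, Set.mem_ofPred_eq]
  exact ⟨b, hbc, B, fun x hx => (bad_ofSet (F ω) x).1 (Detour_bad_of_clus .site (ofSet (F ω)) hb (hF1 hx)), hF2, hF3, hF4⟩

end Pool.Agent.H47.GM
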