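import Pool.Agent.H47.GM.Basic

/-!
# GM module Surround: a finite component is surrounded by a cluster of bad vertices

`Rc` is the component of `0` in the complement of `F` and it is finite. Let `O` be the component of a
far point in the complement of `Rc` (`outer Rc z`; since `d ≥ 2` and `Rc` is finite, all points outside
a large cube belong to `O`, see the proof of `hull_card` in H41/QC/Exit). Let `t ≥ 1` be maximal with
`(t-1) e_0 ∈ Rc`; then `t e_0` is in `O` and in `F`; similarly `-s e_0` in `O ∩ F` for some `s ≥ 1`. By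
`boundary_connected` (with `A = Rc`) there is a walk from `t e_0` to `-s e_0` each vertex `z` of which is
within sup distance `1` of some `a ∈ Rc` adjacent to some `b ∈ O`; then `b ∈ F`, and the `b`'s of
consecutive vertices of the walk are within distance `5`, so all of them are in the cluster of `t e_0`.
-/

open MeasureTheory Filter Topology
open Pool.Agent.H17.IIC Pool.Agent.H41.QC

namespace Pool.Agent.H47.GM

variable {d : ℕ}

lemma Surround_reach (F : Set (V d)) {x y : V d} (w : (Lat d).Walk x y) :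
    (∀ z ∈ w.support, ∃ b ∈ F, Cl 2 z b) → ∀ b ∈ F, Cl 2 x b → ∀ c ∈ F, Cl 2 y c →
      c ∈ clus .site (ofSet F) b := by
  induction w with
  | nil =>
    intro _ b hb hxb c hc hyc
    have h : Cl 5 b c := bd_Cl_mono (by norm_num) (bd_Cl_trans (bd_Cl_symm hxb) hyc)
    exact bad_clus_close ((bad_ofSet F b).2 hb) (bad_self_clus _ _ b) ((bad_ofSet F c).2 hc) h
  | @cons u v z h p ih =>
    intro hw b hb hxb c hc hyc
    obtain ⟨b', hb', hvb'⟩ := hw v (by
      rw [SimpleGraph.Walk.support_cons]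
      exact List.mem_cons_of_mem _ (SimpleGraph.Walk.start_mem_support p))
    have h1 := ih (fun q hq => hw q (by
      rw [SimpleGraph.Walk.support_cons]; exact List.mem_cons_of_mem _ hq)) b' hb' hvb' c hc hyc
    have h2 : Cl 5 b b' := by
      have h3 : Cl 1 u v := bd_adj_cl h
      exact bd_Cl_trans (bd_Cl_trans (bd_Cl_symm hxb) h3) hvb'
    have h4 := bad_clus_close ((bad_ofSet F b).2 hb) (bad_self_clus _ _ b)
      ((bad_ofSet F b').2 hb') h2
    rwa [bad_clus_eq h4] at h1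

lemma Surround_single_adj (i : Fin d) (k : ℤ) :
    LatAdj (Pi.single i k : V d) (Pi.single i (k + 1) : V d) := by
  have h : (Pi.single i (k + 1) : V d) = Pi.single i k + Pi.single i 1 := by
    rw [← Pi.single_add]
  rw [h]
  exact bd_latAdj_single _ i

/-- along the ray of direction `ε e_i` there is a last vertex of `Rc`; the next one is in `O ∩ F` -/
lemma Surround_ray (F Rc O : Set (V d)) (h0 : (0 : V d) ∈ Rc)
    (hcl : ∀ z ∈ Rc, ∀ z', LatAdj z z' → z' ∈ Rc ∨ z' ∈ F)
    (hO : ∀ x ∈ O, ∀ y, LatAdj x y → y ∉ Rc → y ∈ O) (M : ℕ) (hM : ∀ z ∈ Rc, ∀ i, |z i| ≤ M)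
    (hfar : ∀ z : V d, (∃ i, z i < -(M : ℤ) ∨ (M : ℤ) < z i) → z ∈ O)
    (i : Fin d) (ε : ℤ) (hε : ε = 1 ∨ ε = -1) :
    ∃ t : ℕ, 1 ≤ t ∧ (Pi.single i (ε * ((t : ℤ) - 1)) : V d) ∈ Rc ∧
      (Pi.single i (ε * (t : ℤ)) : V d) ∈ F ∧ (Pi.single i (ε * (t : ℤ)) : V d) ∈ O ∧
      LatAdj (Pi.single i (ε * ((t : ℤ) - 1)) : V d) (Pi.single i (ε * (t : ℤ)) : V d) := by
  classical
  have hadj : ∀ k : ℤ, LatAdj (Pi.single i (ε * (k - 1)) : V d) (Pi.single i (ε * k) : V d) := by
    intro k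
    rcases hε with rfl | rfl
    · have := Surround_single_adj i (k - 1)
      rw [one_mul, one_mul]
      rwa [sub_add_cancel] at this
    · have := bd_symm (Surround_single_adj i (-1 * k))
      have e : (-1 * k + 1 : ℤ) = -1 * (k - 1) := by ring
      rwa [e] at this
  have hnot : ∀ k : ℕ, (M : ℤ) < k → (Pi.single i (ε * (k : ℤ)) : V d) ∉ Rc := by
    intro k hk hmem
    have h1 := hM _ hmem i
    rw [Pi.single_eq_same] at h1
    rcases hε with rfl | rfl
    · rw [one_mul, abs_of_nonneg (by positivity)] at h1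
      omega
    · rw [neg_one_mul, abs_neg, abs_of_nonneg (by positivity)] at h1
      omega
  have hex : ∃ k : ℕ, (Pi.single i (ε * ((k : ℤ) + 1)) : V d) ∉ Rc ∧
      (Pi.single i (ε * (k : ℤ)) : V d) ∈ Rc ∧
      ∀ l : ℕ, k < l → (Pi.single i (ε * (l : ℤ)) : V d) ∉ Rc := by
    set k := Nat.findGreatest (fun k : ℕ => (Pi.single i (ε * (k : ℤ)) : V d) ∈ Rc) M with hk
    have h1 : (Pi.single i (ε * (k : ℤ)) : V d) ∈ Rc := by
      have := Nat.findGreatest_spec (P := fun k : ℕ => (Pi.single i (ε * (k : ℤ)) : V d) ∈ Rc)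
        (Nat.zero_le M) (by simpa using h0)
      exact this
    have h2 : ∀ l : ℕ, k < l → (Pi.single i (ε * (l : ℤ)) : V d) ∉ Rc := by
      intro l hl
      by_cases hlM : l ≤ M
      · exact Nat.findGreatest_is_greatest hl hlM
      · exact hnot l (by omega)
    refine ⟨k, ?_, h1, h2⟩
    have := h2 (k + 1) (by omega)
    push_cast at this
    exact this
  obtain ⟨k, hk1, hk2, hk3⟩ := hex
  have hk2' : (Pi.single i (ε * (((k + 1 : ℕ) : ℤ) - 1)) : V d) ∈ Rc := by
    have e : (((k + 1 : ℕ) : ℤ) - 1) = k := by push_cast; ring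
    rw [e]; exact hk2
  have hk1' : (Pi.single i (ε * ((k + 1 : ℕ) : ℤ)) : V d) ∉ Rc := hk3 (k + 1) (by omega)
  refine ⟨k + 1, by omega, hk2', ?_, ?_, hadj _⟩
  · rcases hcl _ hk2' _ (hadj _) with h | h
    · exact absurd h hk1'
    · exact h
  · have key : ∀ n l : ℕ, k < l → l + n = k + M + 2 → (Pi.single i (ε * (l : ℤ)) : V d) ∈ O := by
      intro n
      induction n with
      | zero =>
        intro l hl hln
        apply hfar
        refine ⟨i, ?_⟩
        rw [Pi.single_eq_same]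
        rcases hε with rfl | rfl
        · right; rw [one_mul]; omega
        · left; rw [neg_one_mul]; omega
      | succ n ih =>
        intro l hl hln
        have h1 := ih (l + 1) (by omega) (by omega)
        have h2 := bd_symm (hadj ((l + 1 : ℕ) : ℤ))
        have e : (((l + 1 : ℕ) : ℤ) - 1) = l := by push_cast; ring
        rw [e] at h2
        exact hO _ h1 _ h2 (hk3 l hl)
    exact key (M + 1) (k + 1) (by omega) (by omega)

theorem surround (hd : 2 ≤ d) (F Rc : Set (V d)) (h0 : (0 : V d) ∈ Rc) (hdis : Disjoint Rc F)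
    (hcl : ∀ z ∈ Rc, ∀ z', LatAdj z z' → z' ∈ Rc ∨ z' ∈ F)
    (hcon : ∀ z ∈ Rc, ∃ w : (Lat d).Walk 0 z, ∀ u ∈ w.support, u ∈ Rc) (hfin : Rc.Finite) :
    ∃ t : ℕ, 1 ≤ t ∧ (Pi.single ⟨0, by omega⟩ (t : ℤ) : V d) ∈ F ∧
      ∃ y ∈ clus .site (ofSet F) (Pi.single ⟨0, by omega⟩ (t : ℤ) : V d),
        y ⟨0, by omega⟩ ≤ -1 := by
  classical
  have _ := hdis
  obtain ⟨M, hM⟩ : ∃ M : ℕ, ∀ z ∈ Rc, ∀ i, |z i| ≤ M := by
    refine ⟨∑ z ∈ hfin.toFinset, ∑ i, (z i).natAbs, fun z hz i => ?_⟩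
    have h1 : (z i).natAbs ≤ ∑ i, (z i).natAbs :=
      Finset.single_le_sum (f := fun i => (z i).natAbs) (fun _ _ => Nat.zero_le _)
        (Finset.mem_univ i)
    have h2 : ∑ i, (z i).natAbs ≤ ∑ z ∈ hfin.toFinset, ∑ i, (z i).natAbs :=
      Finset.single_le_sum (f := fun z : V d => ∑ i, (z i).natAbs) (fun _ _ => Nat.zero_le _)
        (hfin.mem_toFinset.2 hz)
    rw [Int.abs_eq_natAbs]
    exact_mod_cast h1.trans h2
  set z0 : V d := fun _ => (M : ℤ) + 1 with hz0
  set O := outer Rc z0 with hO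
  have hfar : ∀ z : V d, (∃ i, z i < -(M : ℤ) ∨ (M : ℤ) < z i) → z ∈ O := by
    intro z hz
    obtain ⟨w, hw⟩ := cube_compl hd (fun _ => -(M : ℤ)) (fun _ => (M : ℤ)) (x := z) (y := z0) hz
      ⟨⟨0, by omega⟩, Or.inr (by show (M : ℤ) < (M : ℤ) + 1; omega)⟩
    refine ⟨w, fun u hu hmem => ?_⟩
    obtain ⟨i, hi⟩ := hw u hu
    have h1 := abs_le.1 (hM u hmem i)
    rcases hi with h | h
    · exact absurd h (not_lt.2 h1.1)
    · exact absurd h (not_lt.2 h1.2)
  have hclO := outer_closed Rc z0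
  obtain ⟨t, ht1, htR, htF, htO, htA⟩ := Surround_ray F Rc O h0 hcl hclO M hM hfar
    ⟨0, by omega⟩ 1 (Or.inl rfl)
  obtain ⟨s, hs1, hsR, hsF, hsO, hsA⟩ := Surround_ray F Rc O h0 hcl hclO M hM hfar
    ⟨0, by omega⟩ (-1) (Or.inr rfl)
  have hS : SCnd Rc := by
    have hstep : ∀ {x y : V d} (w : (Lat d).Walk x y), (∀ u ∈ w.support, u ∈ Rc) →
        Relation.ReflTransGen (fun p q => p ∈ Rc ∧ q ∈ Rc ∧ Cl 1 p q) x y := by
      intro x y w
      induction w with
      | nil => intro _; exact Relation.ReflTransGen.refl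
      | @cons a b c h p ih =>
        intro hw
        have ha : a ∈ Rc := hw a (by rw [SimpleGraph.Walk.support_cons]; exact List.mem_cons_self)
        have hb : b ∈ Rc := hw b (by
          rw [SimpleGraph.Walk.support_cons]
          exact List.mem_cons_of_mem _ (SimpleGraph.Walk.start_mem_support p))
        exact Relation.ReflTransGen.head ⟨ha, hb, bd_adj_cl h⟩ (ih fun u hu => hw u (by
          rw [SimpleGraph.Walk.support_cons]; exact List.mem_cons_of_mem _ hu))
    intro x hx y hy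
    obtain ⟨w1, hw1⟩ := hcon x hx
    obtain ⟨w2, hw2⟩ := hcon y hy
    refine (hstep w1.reverse fun u hu => ?_).trans (hstep w2 hw2)
    rw [SimpleGraph.Walk.support_reverse, List.mem_reverse] at hu
    exact hw1 u hu
  have hdO : Disjoint Rc O := by
    rw [Set.disjoint_left]
    intro x hx hxO
    exact bad_outer_not_mem hxO hx
  obtain ⟨w, hw⟩ := boundary_connected Rc O hS (outer_connected Rc z0) hdO hclO
    htR htO htA hsR hsO hsA
  have hw2 : ∀ z ∈ w.support, ∃ b ∈ F, Cl 2 z b := by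
    intro z hz
    obtain ⟨a, ha, b, hb, hab, hza⟩ := hw z hz
    refine ⟨b, ?_, bd_Cl_trans hza (bd_adj_cl hab)⟩
    rcases hcl a ha b hab with h | h
    · exact absurd h (bad_outer_not_mem hb)
    · exact h
  have hr := Surround_reach F w hw2 _ htF (bd_Cl_refl _ _) _ hsF (bd_Cl_refl _ _)
  rw [one_mul] at hr htF
  refine ⟨t, ht1, htF, _, hr, ?_⟩
  rw [Pi.single_eq_same]
  omega

end Pool.Agent.H47.GM
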