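import Pool.Agent.H41.QC.ConnNear
import Pool.Agent.H47.GM.PGrow
import Pool.Agent.H47.GM.Surround

/-!
# GM module Surv: the component of the origin is infinite with positive probability

By `surround`, if `Rc` is finite then for some `t ≥ 1` the cluster of `b = t e_0` contains a point `y` at
distance `≥ t + 1`; a path in `BG` from `b` to `y` has length at least `(t+1)/5`; so there is a set `B` of
exactly `m = (t+5)/5` (rounded down) elements of `F`, `b ∉ B`, `{b} ∪ B` connected (`Cn5`) (initial part of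
the path, or `grow`). By `gen_grow` with `T₀ = {b}` the probability is at most `K^(2(1+m)) ρ^m`,
`K = 11^d`, and `m ≥ 1`, `5 m ≥ t + 1`, `m ≤ t`. Take `ρ = (1/(8 K^4))^5`: then `ρ^m ≤ (1/(8 K^4))^(t+1)` and
`K^(2(1+m)) ≤ K^(2(t+1))`, so the sum over `t ≥ 1` is at most `∑ 8^(-(t+1)) < 1/2`.
-/

open MeasureTheory Filter Topology
open Pool.Agent.H17.IIC Pool.Agent.H41.QC

namespace Pool.Agent.H47.GM

variable {d : ℕ}

/-- the constant `ρ` -/
noncomputable def rho (d : ℕ) : ℝ := (1 / (8 * ((11 : ℝ) ^ d) ^ 4)) ^ 5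

lemma surv_base (d : ℕ) : 0 < 1 / (8 * ((11 : ℝ) ^ d) ^ 4) ∧ 1 / (8 * ((11 : ℝ) ^ d) ^ 4) ≤ 1 := by
  have h1 : (1 : ℝ) ≤ (11 : ℝ) ^ d := one_le_pow₀ (by norm_num)
  have h2 : (1 : ℝ) ≤ ((11 : ℝ) ^ d) ^ 4 := one_le_pow₀ h1
  refine ⟨by positivity, ?_⟩
  rw [div_le_one (by positivity)]
  linarith

lemma rho_pos (d : ℕ) : 0 < rho d := by
  unfold rho
  exact pow_pos (surv_base d).1 5

lemma rho_le (d : ℕ) : rho d ≤ 1 / (2 * ((11 : ℝ) ^ d) ^ 4) := by
  obtain ⟨h1, h2⟩ := surv_base d
  unfold rho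
  calc (1 / (8 * ((11 : ℝ) ^ d) ^ 4)) ^ 5 ≤ (1 / (8 * ((11 : ℝ) ^ d) ^ 4)) ^ 1 :=
        pow_le_pow_of_le_one h1.le h2 (by norm_num)
    _ = 1 / (8 * ((11 : ℝ) ^ d) ^ 4) := pow_one _
    _ ≤ 1 / (2 * ((11 : ℝ) ^ d) ^ 4) := by
        apply one_div_le_one_div_of_le (by positivity)
        have : (0 : ℝ) ≤ ((11 : ℝ) ^ d) ^ 4 := by positivity
        linarith

/-- a walk in `BG` changes a coordinate by at most `5` in each step -/
lemma surv_walk {κ : Kind} {ω : El d → Bool} {x y : V d} (w : (BG κ ω).Walk x y) (i : Fin d) :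
    x i - y i ≤ 5 * w.length := by
  induction w with
  | nil => simp
  | cons h p ih =>
    rename_i a b c
    have h1 := h.2.1 i
    have h2 := (abs_le.mp h1).2
    rw [SimpleGraph.Walk.length_cons]
    push_cast at h2 ⊢
    linarith

/-- the cluster of `b` contains many points if it contains a point far away -/
lemma surv_card {κ : Kind} {ω : El d → Bool} {b y : V d} (hy : y ∈ clus κ ω b) (i : Fin d)
    {t m : ℕ} (h : (t : ℤ) + 1 ≤ b i - y i) (hm : 5 * m ≤ t + 5) (S : Finset (V d))
    (hS : clus κ ω b ⊆ (S : Set (V d))) : m < S.card := by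
  classical
  obtain ⟨w₀⟩ := (show (BG κ ω).Reachable b y from hy)
  have hp := w₀.bypass_isPath
  set w := w₀.bypass with hw
  have h1 := surv_walk w i
  have h2 : w.support.toFinset ⊆ S := by
    intro z hz
    rw [List.mem_toFinset] at hz
    have : z ∈ clus κ ω b := (w.takeUntil z hz).reachable
    exact_mod_cast hS this
  have h3 : w.support.toFinset.card = w.length + 1 := by
    rw [List.toFinset_card_of_nodup hp.support_nodup, SimpleGraph.Walk.length_support]
  have h4 := Finset.card_le_card h2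
  have h5 : (t : ℤ) + 1 ≤ 5 * w.length := h.trans h1
  have h6 : t + 1 ≤ 5 * w.length := by exact_mod_cast h5
  omega

lemma surv_grow {F : Set (V d)} {b y : V d} (hb : b ∈ F) (hy : y ∈ clus .site (ofSet F) b)
    (i : Fin d) {t m : ℕ} (h : (t : ℤ) + 1 ≤ b i - y i) (hm : 5 * m ≤ t + 5) :
    ∃ B : Finset (V d), (B : Set (V d)) ⊆ F ∧ Disjoint B {b} ∧ B.card = m ∧
      Cn5 ((({b} : Finset (V d)) : Set (V d)) ∪ B) := by
  classical
  have hself : b ∈ clus .site (ofSet F) b := bad_self_clus _ _ _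
  have hbad : Bad .site (ofSet F) b := (bad_ofSet F b).mpr hb
  have hun : (((({b} : Finset (V d)) : Set (V d))) ∪ clus .site (ofSet F) b) =
      clus .site (ofSet F) b := by
    rw [Finset.coe_singleton, Set.singleton_union, Set.insert_eq_of_mem hself]
  obtain ⟨B, hB1, hB2, hB3, hB4⟩ := grow ({b} : Finset (V d)) (by
      intro x hx y hy
      rw [Finset.coe_singleton, Set.mem_singleton_iff] at hx hy
      subst hx
      subst hy
      refine ⟨SimpleGraph.Walk.nil, ?_⟩
      intro z hz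
      simpa using hz) (Finset.singleton_nonempty b) (clus .site (ofSet F) b) (by
      rw [hun]
      intro x hx y hy
      exact ConnNear_clus_walk _ _ hx hy) m (by
      intro G hG hdG hcG
      by_contra hno
      push Not at hno
      have hsub : clus .site (ofSet F) b ⊆ ((insert b G : Finset (V d)) : Set (V d)) := by
        intro u hu
        rw [Finset.coe_insert, Set.mem_insert_iff]
        by_cases hub : u = b
        · exact Or.inl hub
        · right
          exact hno u hu (by rw [Finset.mem_singleton]; exact hub)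
      have h1 := surv_card hy i h hm _ hsub
      have h2 := Finset.card_insert_le b G
      omega)
  exact ⟨B, fun z hz => (bad_ofSet F z).mp (bad_clus_bad hbad (hB1 hz)), hB2, hB3, hB4⟩

lemma surv_num (d t : ℕ) (ht : 1 ≤ t) :
    ((11 : ℝ) ^ d) ^ (2 * (1 + (t + 5) / 5)) * rho d ^ ((t + 5) / 5) ≤ (1 / 8) ^ (t + 1) := by
  set m := (t + 5) / 5 with hm
  have h5 : t + 1 ≤ 5 * m := by omega
  have h6 : m ≤ t := by omega
  obtain ⟨h1, h2⟩ := surv_base d
  have hK : (1 : ℝ) ≤ (11 : ℝ) ^ d := one_le_pow₀ (by norm_num)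
  set K : ℝ := (11 : ℝ) ^ d with hKd
  have hKpos : 0 < K := by linarith
  calc K ^ (2 * (1 + m)) * rho d ^ m
      ≤ K ^ (2 * (t + 1)) * (1 / (8 * K ^ 4)) ^ (t + 1) := by
        have hr : rho d ^ m = (1 / (8 * K ^ 4)) ^ (5 * m) := by
          unfold rho
          rw [← hKd, ← pow_mul]
        rw [hr]
        apply mul_le_mul
        · exact pow_le_pow_right₀ hK (by omega)
        · exact pow_le_pow_of_le_one h1.le h2 h5
        · positivity
        · positivity
    _ = (K ^ 2 * (1 / (8 * K ^ 4))) ^ (t + 1) := by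
        rw [pow_mul, mul_pow]
    _ ≤ (1 / 8) ^ (t + 1) := by
        apply pow_le_pow_left₀ (by positivity)
        have h7 : K ^ 2 * (1 / (8 * K ^ 4)) = 1 / (8 * K ^ 2) := by
          field_simp
        rw [h7]
        apply one_div_le_one_div_of_le (by norm_num)
        nlinarith [one_le_pow₀ hK (n := 2)]

theorem surv (hd : 2 ≤ d) {Ω : Type*} [MeasurableSpace Ω] (P : Measure Ω) [IsProbabilityMeasure P]
    (F Rc : Ω → Set (V d))
    (hF : ∀ B : Finset (V d), P.real {ω | (B : Set (V d)) ⊆ F ω} ≤ rho d ^ B.card)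
    (hRc : ∀ ω, (0 : V d) ∈ Rc ω ∧ Disjoint (Rc ω) (F ω) ∧
        (∀ z ∈ Rc ω, ∀ z', LatAdj z z' → z' ∈ Rc ω ∨ z' ∈ F ω) ∧
        (∀ z ∈ Rc ω, ∃ w : (Lat d).Walk 0 z, ∀ u ∈ w.support, u ∈ Rc ω)) :
    0 < P.real {ω | (Rc ω).Infinite} := by
  classical
  set i₀ : Fin d := ⟨0, by omega⟩ with hi₀
  set b : ℕ → V d := fun t => Pi.single i₀ (t : ℤ) with hb
  set E : ℕ → Set Ω := fun n => {ω | ∃ B : Finset (V d), (B : Set (V d)) ⊆ F ω ∧
    Disjoint B {b (n + 1)} ∧ B.card = (n + 1 + 5) / 5 ∧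
    Cn5 ((({b (n + 1)} : Finset (V d)) : Set (V d)) ∪ B)} with hE
  have hEn : ∀ n, P.real (E n) ≤ (1 / 8) ^ (n + 2) := by
    intro n
    have h1 := gen_grow P F (rho_pos d).le hF {b (n + 1)} (Finset.singleton_nonempty _)
      ((n + 1 + 5) / 5)
    rw [Finset.card_singleton] at h1
    exact h1.trans (surv_num d (n + 1) (by omega))
  have hsub : {ω | (Rc ω).Finite} ⊆ ⋃ n, E n := by
    intro ω hω
    obtain ⟨h1, h2, h3, h4⟩ := hRc ω
    obtain ⟨t, ht, ht2, y, hy, hy2⟩ := surround hd (F ω) (Rc ω) h1 h2 h3 h4 hω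
    rw [Set.mem_iUnion]
    refine ⟨t - 1, ?_⟩
    have ht' : t - 1 + 1 = t := by omega
    simp only [hE, Set.mem_ofPred_eq, ht']
    apply surv_grow (b := b t) (t := t) ht2 hy i₀
    · have : b t i₀ = t := by simp [hb]
      rw [this]
      have h5 : y i₀ ≤ -1 := hy2
      linarith
    · omega
  have hfin : P {ω | (Rc ω).Finite} ≤ ENNReal.ofReal (1 / 2) := by
    calc P {ω | (Rc ω).Finite} ≤ P (⋃ n, E n) := measure_mono hsub
      _ ≤ ∑' n, P (E n) := measure_iUnion_le _
      _ ≤ ∑' n, ENNReal.ofReal ((1 / 64) * (1 / 8) ^ n) := by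
          apply ENNReal.tsum_le_tsum
          intro n
          rw [← ENNReal.ofReal_toReal (measure_ne_top P (E n))]
          apply ENNReal.ofReal_le_ofReal
          have := hEn n
          rw [measureReal_def] at this
          refine this.trans (le_of_eq ?_)
          rw [pow_add]; ring
      _ = ENNReal.ofReal (∑' n, (1 / 64) * (1 / 8) ^ n) := by
          rw [ENNReal.ofReal_tsum_of_nonneg]
          · intro n; positivity
          · exact (summable_geometric_of_lt_one (by norm_num) (by norm_num)).mul_left _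
      _ ≤ ENNReal.ofReal (1 / 2) := by
          apply ENNReal.ofReal_le_ofReal
          rw [tsum_mul_left, tsum_geometric_of_lt_one (by norm_num) (by norm_num)]
          norm_num
  rw [measureReal_def, ENNReal.toReal_pos_iff]
  refine ⟨?_, measure_lt_top _ _⟩
  rw [pos_iff_ne_zero]
  intro h0
  have h1 : P Set.univ ≤ P {ω | (Rc ω).Infinite} + P {ω | (Rc ω).Finite} := by
    refine (measure_mono ?_).trans (measure_union_le _ _)
    intro ω _
    rcases (Rc ω).finite_or_infinite with h | h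
    · exact Or.inr h
    · exact Or.inl h
  rw [h0, zero_add, measure_univ] at h1
  have h2 := h1.trans hfin
  rw [← ENNReal.ofReal_one, ENNReal.ofReal_le_ofReal_iff (by norm_num)] at h2
  norm_num at h2

end Pool.Agent.H47.GM
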