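import Pool.Agent.H47.GM.DDepth
import Pool.Agent.H47.GM.DMeet
import Pool.Agent.H47.GM.PLine
import Pool.Agent.H47.GM.PSmall
import Pool.Agent.H47.GM.Surv

/-!
# GM module Dense: linear depth and density of the infinite component

`gen_small`, `gen_line` (for all `j`), `dense_depth`, `dense_meet` (`rho_le`, `rho_pos`).
-/

open MeasureTheory Filter Topology
open Pool.Agent.H17.IIC Pool.Agent.H41.QC

namespace Pool.Agent.H47.GM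

variable {d : ℕ}

lemma denseExp (d : ℕ) : ∀ᶠ k : ℕ in atTop, (5 * ((d + 2) * (k + 1)) + 10) ^ d < 2 ^ k := by
  have h := ConnNear_poly (((5 * (d + 2) + 10 : ℕ) : ℝ) ^ d) d (ε := 1 / 2) (by norm_num)
  filter_upwards [h] with k hk
  have h1 : (5 * ((d + 2) * (k + 1)) + 10) ≤ (5 * (d + 2) + 10) * (k + 1) := by nlinarith
  have h2 : (5 * ((d + 2) * (k + 1)) + 10) ^ d ≤ (5 * (d + 2) + 10) ^ d * (k + 1) ^ d := by
    rw [← mul_pow]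
    exact Nat.pow_le_pow_left h1 d
  have h3 : (((5 * (d + 2) + 10) ^ d * (k + 1) ^ d : ℕ) : ℝ) < ((2 ^ k : ℕ) : ℝ) := by
    push_cast
    push_cast at hk
    have h4 : (0 : ℝ) < 2 ^ k := by positivity
    linarith
  exact lt_of_le_of_lt h2 (by exact_mod_cast h3)

theorem macro_dense (hd : 2 ≤ d) : ∃ C : ℕ, ∀ {Ω : Type} [MeasurableSpace Ω]
    (P : Measure Ω) [IsProbabilityMeasure P] (F Rc : Ω → Set (V d)) (dep : Ω → V d → ℕ),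
    (∀ B : Finset (V d), P.real {ω | (B : Set (V d)) ⊆ F ω} ≤ rho d ^ B.card) →
    (∀ ω, (0 : V d) ∈ Rc ω ∧ Disjoint (Rc ω) (F ω) ∧
        (∀ z ∈ Rc ω, ∀ z', LatAdj z z' → z' ∈ Rc ω ∨ z' ∈ F ω) ∧
        (∀ z ∈ Rc ω, ∃ w : (Lat d).Walk 0 z, ∀ u ∈ w.support, u ∈ Rc ω)) →
    (∀ ω, dep ω 0 = 0 ∧ ∀ z ∈ Rc ω, ∀ z' ∈ Rc ω, LatAdj z z' → dep ω z' ≤ dep ω z + 1) →
    ∀ᵐ ω ∂P, (Rc ω).Infinite →
      (∀ j : ℕ, ∀ᶠ k : ℕ in atTop, ∀ z ∈ Rc ω, (∀ i, |z i| ≤ 2 ^ (k - j)) →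
        dep ω z ≤ C * 2 ^ (k - j) + C * (k + 1) ^ (d + 1)) ∧
      (∀ᶠ k : ℕ in atTop, ∀ (x y : V d) (W : (Lat d).Walk x y),
        (∀ u ∈ W.support, ∀ i, |u i| ≤ 2 * 2 ^ k) →
        C * (k + 1) ^ (d + 1) < W.support.toFinset.card → ∃ z ∈ W.support, z ∈ Rc ω) := by
  obtain ⟨C1, h1⟩ := dense_depth hd
  obtain ⟨C2, h2⟩ := dense_meet hd
  refine ⟨C1 + C2, ?_⟩
  intro Ω _ P _ F Rc dep hF hRc hdep
  have hd1 : 1 ≤ d := by omega
  have hs := gen_small hd1 P F (rho_pos d).le (rho_le d) hF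
  have hl := ae_all_iff.2 (fun j => gen_line hd1 P F (rho_pos d).le (rho_le d) hF j)
  filter_upwards [hs, hl] with ω hs hl hinf
  obtain ⟨h0, hdis, hnb, hwalk⟩ := hRc ω
  obtain ⟨hd0, hdst⟩ := hdep ω
  refine ⟨fun j => ?_, ?_⟩
  · filter_upwards [hs, hl j, denseExp d] with k hk1 hk2 hk3 z hz hzi
    have h3 := h1 (F ω) (Rc ω) (dep ω) k j hk3 h0 hdis hnb hwalk hinf hd0 hdst hk1 hk2 z hz hzi
    refine h3.trans ?_
    gcongr <;> omega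
  · filter_upwards [hs, denseExp d] with k hk1 hk3 x y W hW hcard
    refine h2 (F ω) (Rc ω) k hk3 h0 hdis hnb hwalk hinf hk1 x y W hW (lt_of_le_of_lt ?_ hcard)
    gcongr
    omega

end Pool.Agent.H47.GM
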