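import Pool.Agent.H47.GM.Basic

/-!
# GM module TubeGeo: geometry of the tubes

Two lattice edges without common end have disjoint projections on some coordinate axis (if
they have directions `i₀ ≠ i₁` and meet in all projections then the vertex with these coordinates is
an end of both), so the tubes are at sup distance at least `6ℓ - 4ℓ = 2ℓ`.
-/

open MeasureTheory Filter Topology
open Pool.Agent.H17.IIC Pool.Agent.H41.QC

namespace Pool.Agent.H47.GM

variable {d : ℕ}

/-- projections of tubes at distance at most one share an integer -/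
lemma TubeGeo_coord {L a a' c c' x y : ℤ} (hL : 1 ≤ L)
    (h1 : min (6 * L * a) (6 * L * a') - 2 * L ≤ x) (h2 : x ≤ max (6 * L * a) (6 * L * a') + 2 * L)
    (h3 : min (6 * L * c) (6 * L * c') - 2 * L ≤ y) (h4 : y ≤ max (6 * L * c) (6 * L * c') + 2 * L)
    (h : |x - y| ≤ 1) : min a a' ≤ max c c' ∧ min c c' ≤ max a a' := by
  rw [_root_.abs_le] at h
  have hmono : Monotone fun t : ℤ => 6 * L * t := by
    intro s t hst
    have : (0 : ℤ) ≤ 6 * L := by linarith
    exact mul_le_mul_of_nonneg_left hst this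
  have e1 : min (6 * L * a) (6 * L * a') = 6 * L * min a a' := (hmono.map_min (a := a) (b := a')).symm
  have e2 : max (6 * L * a) (6 * L * a') = 6 * L * max a a' := (hmono.map_max (a := a) (b := a')).symm
  have e3 : min (6 * L * c) (6 * L * c') = 6 * L * min c c' := (hmono.map_min (a := c) (b := c')).symm
  have e4 : max (6 * L * c) (6 * L * c') = 6 * L * max c c' := (hmono.map_max (a := c) (b := c')).symm
  rw [e1] at h1
  rw [e2] at h2
  rw [e3] at h3
  rw [e4] at h4
  constructor
  · by_contra hcon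
    rw [not_le] at hcon
    have : max c c' + 1 ≤ min a a' := hcon
    nlinarith
  · by_contra hcon
    rw [not_le] at hcon
    have : max a a' + 1 ≤ min c c' := hcon
    nlinarith

/-- the two ends of a lattice edge -/
lemma TubeGeo_step {z z' : V d} (h : LatAdj z z') :
    ∃ i₀ : Fin d, (∀ i, i ≠ i₀ → z' i = z i) ∧ (z' i₀ = z i₀ + 1 ∨ z' i₀ = z i₀ - 1) := by
  obtain ⟨⟨i₀, b⟩, rfl⟩ := h
  refine ⟨i₀, fun i hi => ?_, ?_⟩
  · simp [stepVec, Pi.single_eq_of_ne hi]
  · cases b
    · right
      simp [stepVec, sub_eq_add_neg]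
    · left
      simp [stepVec]

/-- two edges whose projections meet share an end -/
lemma TubeGeo_share {z z' w w' : V d} (hz : LatAdj z z') (hw : LatAdj w w')
    (h : ∀ i, min (z i) (z' i) ≤ max (w i) (w' i) ∧ min (w i) (w' i) ≤ max (z i) (z' i)) :
    z = w ∨ z = w' ∨ z' = w ∨ z' = w' := by
  obtain ⟨i₀, h0, h0'⟩ := TubeGeo_step hz
  obtain ⟨i₁, h1, h1'⟩ := TubeGeo_step hw
  have hout : ∀ i, i ≠ i₀ → i ≠ i₁ → z i = w i := by
    intro i hi hi'
    have := h i
    rw [h0 i hi, h1 i hi'] at this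
    simp only [min_self, max_self] at this
    omega
  by_cases hii : i₀ = i₁
  · subst hii
    have hi := h i₀
    have hcases : z i₀ = w i₀ ∨ z i₀ = w' i₀ ∨ z' i₀ = w i₀ ∨ z' i₀ = w' i₀ := by omega
    rcases hcases with hc | hc | hc | hc
    · left
      funext i
      by_cases hi : i = i₀
      · rw [hi, hc]
      · exact hout i hi hi
    · right; left
      funext i
      by_cases hi : i = i₀
      · rw [hi, hc]
      · rw [hout i hi hi, h1 i hi]
    · right; right; left
      funext i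
      by_cases hi : i = i₀
      · rw [hi, hc]
      · rw [h0 i hi, hout i hi hi]
    · right; right; right
      funext i
      by_cases hi : i = i₀
      · rw [hi, hc]
      · rw [h0 i hi, h1 i hi, hout i hi hi]
  · have ha : w i₀ = z i₀ ∨ w i₀ = z' i₀ := by
      have := h i₀
      rw [h1 i₀ hii] at this
      simp only [min_self, max_self] at this
      omega
    have hb : z i₁ = w i₁ ∨ z i₁ = w' i₁ := by
      have := h i₁
      rw [h0 i₁ (Ne.symm hii)] at this
      simp only [min_self, max_self] at this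
      omega
    have key : ∀ u v : V d, (∀ i, i ≠ i₀ → u i = z i) → (∀ i, i ≠ i₁ → v i = w i) →
        w i₀ = u i₀ → z i₁ = v i₁ → u = v := by
      intro u v hu hv h2 h3
      funext i
      by_cases hi : i = i₀
      · subst hi
        rw [hv i hii, h2]
      · by_cases hi' : i = i₁
        · subst hi'
          rw [hu i hi, h3]
        · rw [hu i hi, hv i hi', hout i hi hi']
    rcases ha with ha | ha <;> rcases hb with hb | hb
    · exact Or.inl (key z w (fun _ _ => rfl) (fun _ _ => rfl) ha hb)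
    · exact Or.inr (Or.inl (key z w' (fun _ _ => rfl) h1 ha hb))
    · exact Or.inr (Or.inr (Or.inl (key z' w h0 (fun _ _ => rfl) ha hb)))
    · exact Or.inr (Or.inr (Or.inr (key z' w' h0 h1 ha hb)))

/-- a point whose projections meet those of an edge is an end of it -/
lemma TubeGeo_point {z w w' : V d} (hw : LatAdj w w')
    (h : ∀ i, z i ≤ max (w i) (w' i) ∧ min (w i) (w' i) ≤ z i) : z = w ∨ z = w' := by
  obtain ⟨i₁, h1, h1'⟩ := TubeGeo_step hw
  have hout : ∀ i, i ≠ i₁ → z i = w i := by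
    intro i hi
    have := h i
    rw [h1 i hi] at this
    simp only [min_self, max_self] at this
    omega
  have hi := h i₁
  have hcases : z i₁ = w i₁ ∨ z i₁ = w' i₁ := by omega
  rcases hcases with hc | hc
  · left
    funext i
    by_cases hi : i = i₁
    · rw [hi, hc]
    · exact hout i hi
  · right
    funext i
    by_cases hi : i = i₁
    · rw [hi, hc]
    · rw [hout i hi, h1 i hi]

/-- tubes within sup distance one share an end -/
theorem tube_share {ℓ : ℕ} (hℓ : 1 ≤ ℓ) {z z' w w' b b' : V d} (hz : LatAdj z z')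
    (hw : LatAdj w w') (hb : b ∈ Tube ℓ z z') (hb' : b' ∈ Tube ℓ w w')
    (h : ∀ i, |b i - b' i| ≤ 1) : z = w ∨ z = w' ∨ z' = w ∨ z' = w' := by
  have hL : (1 : ℤ) ≤ ℓ := by exact_mod_cast hℓ
  refine TubeGeo_share hz hw fun i => ?_
  have h1 := mem_Tube.1 hb i
  have h2 := mem_Tube.1 hb' i
  simp only [cz] at h1 h2
  exact TubeGeo_coord hL h1.1 h1.2 h2.1 h2.2 (h i)

/-- a tube within sup distance one of the ball of radius `2ℓ` at `cz z` ends at `z` -/
theorem tube_ball {ℓ : ℕ} (hℓ : 1 ≤ ℓ) {z w w' b b' : V d}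
    (hw : LatAdj w w') (hb : ∀ i, |b i - cz ℓ z i| ≤ 2 * (ℓ : ℤ)) (hb' : b' ∈ Tube ℓ w w')
    (h : ∀ i, |b i - b' i| ≤ 1) : z = w ∨ z = w' := by
  have hL : (1 : ℤ) ≤ ℓ := by exact_mod_cast hℓ
  refine TubeGeo_point hw fun i => ?_
  have h1 := _root_.abs_le.1 (hb i)
  have h2 := mem_Tube.1 hb' i
  simp only [cz] at h1 h2
  have h3 := TubeGeo_coord (a := z i) (a' := z i) (c := w i) (c' := w' i) hL
    (x := b i) (y := b' i) (by rw [min_self]; linarith [h1.1]) (by rw [max_self]; linarith [h1.2])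
    h2.1 h2.2 (h i)
  simpa using h3

/-- two balls of radius `2ℓ` within distance one have the same centre -/
theorem ball_ball {ℓ : ℕ} (hℓ : 1 ≤ ℓ) {z w b b' : V d}
    (hb : ∀ i, |b i - cz ℓ z i| ≤ 2 * (ℓ : ℤ)) (hb' : ∀ i, |b' i - cz ℓ w i| ≤ 2 * (ℓ : ℤ))
    (h : ∀ i, |b i - b' i| ≤ 1) : z = w := by
  have hL : (1 : ℤ) ≤ ℓ := by exact_mod_cast hℓ
  funext i
  have h1 := _root_.abs_le.1 (hb i)
  have h2 := _root_.abs_le.1 (hb' i)
  simp only [cz] at h1 h2
  have h3 := TubeGeo_coord (a := z i) (a' := z i) (c := w i) (c' := w i) hL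
    (x := b i) (y := b' i) (by rw [min_self]; linarith [h1.1]) (by rw [max_self]; linarith [h1.2])
    (by rw [min_self]; linarith [h2.1]) (by rw [max_self]; linarith [h2.2]) (h i)
  simp only [min_self, max_self] at h3
  omega

/-- a tube contains the target boxes -/
theorem box_sub_tube {ℓ m : ℕ} (hm : m ≤ ℓ) {z z' c : V d} (hc : c ∈ Bx (cz ℓ z') ℓ) :
    Bx c m ⊆ Tube ℓ z z' := by
  intro y hy
  rw [mem_Tube]
  intro i
  have h1 := _root_.abs_le.1 (mem_Bx.1 hy i)
  have h2 := _root_.abs_le.1 (mem_Bx.1 hc i)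
  have hm' : (m : ℤ) ≤ ℓ := by exact_mod_cast hm
  have h3 := min_le_right (cz ℓ z i) (cz ℓ z' i)
  have h4 := le_max_right (cz ℓ z i) (cz ℓ z' i)
  constructor <;> linarith

theorem tube_card {ℓ : ℕ} {z z' : V d} (hz : LatAdj z z') :
    (Tube ℓ z z').card ≤ (10 * ℓ + 1) ^ d := by
  unfold Tube
  rw [Fintype.card_piFinset]
  calc ∏ i : Fin d, (Finset.Icc (min (cz ℓ z i) (cz ℓ z' i) - 2 * (ℓ : ℤ))
          (max (cz ℓ z i) (cz ℓ z' i) + 2 * (ℓ : ℤ))).card
      ≤ ∏ _i : Fin d, (10 * ℓ + 1) := by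
        refine Finset.prod_le_prod' fun i _ => ?_
        rw [Int.card_Icc]
        have h1 := _root_.abs_le.1 (LatAdj.abs_le hz i)
        have hL : (0 : ℤ) ≤ ℓ := by positivity
        have h2 : max (cz ℓ z i) (cz ℓ z' i) - min (cz ℓ z i) (cz ℓ z' i) ≤ 6 * (ℓ : ℤ) := by
          rw [max_sub_min_eq_abs']
          simp only [cz]
          rw [← mul_sub, abs_mul]
          have h3 : |6 * (ℓ : ℤ)| = 6 * ℓ := abs_of_nonneg (by linarith)
          rw [h3]
          have h4 : |z i - z' i| ≤ 1 := LatAdj.abs_le hz i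
          nlinarith
        omega
    _ = (10 * ℓ + 1) ^ d := by simp

/-- neighbouring macroscopic sites have different parity -/
theorem parity_ne {z z' : V d} (hz : LatAdj z z') : (Even (∑ i, z i)) ↔ ¬ Even (∑ i, z' i) := by
  have hsum : ∑ i, z' i = ∑ i, z i + 1 ∨ ∑ i, z' i = ∑ i, z i - 1 := by
    obtain ⟨i₀, h0, h0'⟩ := TubeGeo_step hz
    have e1 : ∑ i, z' i = z' i₀ + ∑ i ∈ Finset.univ.erase i₀, z' i :=
      (Finset.add_sum_erase _ _ (Finset.mem_univ i₀)).symm
    have e2 : ∑ i, z i = z i₀ + ∑ i ∈ Finset.univ.erase i₀, z i :=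
      (Finset.add_sum_erase _ _ (Finset.mem_univ i₀)).symm
    have e3 : ∑ i ∈ Finset.univ.erase i₀, z' i = ∑ i ∈ Finset.univ.erase i₀, z i :=
      Finset.sum_congr rfl fun i hi => h0 i (Finset.ne_of_mem_erase hi)
    rw [e1, e2, e3]
    omega
  rcases hsum with h | h <;> rw [h, Int.even_iff, Int.even_iff] <;> omega

end Pool.Agent.H47.GM
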