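import Pool.Agent.H47.GM.MDefs
import Pool.Agent.H47.GM.TubeGeo

/-!
# GM module MInv: the macroscopic exploration preserves the good states

Everything is a case distinction old/new. For `dep_nb`: if `z` is processed and `z' ∈ nb z` was
examined before, then `z' = 0` or `dep z' = dep (exB z') + 1` with `exB z'` processed before `z`, so
`dep (exB z') ≤ dep z` by `dep_order`. `dep_order`: `z` has minimal depth among the unprocessed
reached sites, new sites have depth `dep z + 1`. Note that `exB`, `dep` of an examined site never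
change, since only unexamined sites are updated.
-/

open MeasureTheory Filter Topology
open Pool.Agent.H17.IIC Pool.Agent.H41.QC

namespace Pool.Agent.H47.GM

variable {d : ℕ}

lemma nxt_some {s : MS d} {z : V d} (h : nxt s = some z) :
    z ∈ s.reached ∧ z ∉ s.done ∧ ∀ z' ∈ s.reached \ s.done, s.dep z ≤ s.dep z' := by
  classical
  unfold nxt at h
  split_ifs at h with hne
  have h1 := (Finset.exists_min_image (s.reached \ s.done) s.dep hne).choose_spec
  have h2 : (Finset.exists_min_image (s.reached \ s.done) s.dep hne).choose = z := by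
    simpa using h
  rw [h2] at h1
  obtain ⟨h3, h4⟩ := h1
  rw [Finset.mem_sdiff] at h3
  refine ⟨h3.1, h3.2, fun z' hz' => h4 z' ?_⟩
  simpa using hz'

lemma nxt_none {s : MS d} (h : nxt s = none) : s.reached ⊆ s.done := by
  classical
  unfold nxt at h
  split_ifs at h with hne
  rw [Finset.not_nonempty_iff_eq_empty] at hne
  have h1 := Finset.sdiff_eq_empty_iff_subset.1 hne
  exact h1

lemma MInv_mem_U {s : MS d} {z y : V d} : y ∈ s.U z ↔ LatAdj z y ∧ y ∉ s.exam := by
  classical
  unfold MS.U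
  rw [Finset.mem_sdiff, mem_nb]

lemma MInv_mem_D {s : MS d} {ℓ : ℕ} {z v : V d} :
    v ∈ s.D ℓ z ↔ ∃ z' ∈ s.U z, v ∈ Tube ℓ z z' := by
  classical
  unfold MS.D
  rw [Finset.mem_biUnion]

theorem MP.good_init (P : MP) : P.good (P.init : MS d) := by
  classical
  refine
    { zero := ?_, done_sub := ?_, reached_sub := ?_, ctr_near := ?_, ctr_box := ?_
      exB_done := ?_, exB_zero := ?_, R_tube := ?_, nb_exam := ?_, dep_zero := ?_
      dep_exB := ?_, dep_order := ?_, dep_nb := ?_ }
  · simp [MP.init]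
  · simp [MP.init]
  · simp [MP.init]
  · intro z hz i
    have hz0 : z = 0 := by simpa [MP.init] using hz
    subst hz0
    simp [MP.init, cz]
  · intro z _
    simp [MP.init]
  · intro z hz hz0
    exact absurd (by simpa [MP.init] using hz) hz0
  · simp [MP.init]
  · intro v hv
    exact Or.inl hv
  · intro z hz
    simp [MP.init] at hz
  · simp [MP.init]
  · intro z hz hz0
    exact absurd (by simpa [MP.init] using hz) hz0
  · intro z hz
    simp [MP.init] at hz
  · intro z hz
    simp [MP.init] at hz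

theorem MInv_good_proc (P : MP) (s : MS d) (ω : Fin (2 + 1) × El d → Bool) (hs : P.good s)
    {z : V d} (hz : nxt s = some z) : P.good (P.proc s z ω) := by
  classical
  obtain ⟨hzr, hzd, hmin⟩ := nxt_some hz
  have hze : z ∈ s.exam := hs.reached_sub hzr
  have hU : ∀ y, y ∈ s.exam → y ∉ s.U z := fun y hy h => (MInv_mem_U.1 h).2 hy
  have hdepo : ∀ y, y ∈ s.exam → (P.proc s z ω).dep y = s.dep y := by
    intro y hy
    simp [MP.proc, hU y hy]
  have hexo : ∀ y, y ∈ s.exam → (P.proc s z ω).exB y = s.exB y := by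
    intro y hy
    simp [MP.proc, hU y hy]
  have hcto : ∀ y, y ∈ s.exam → (P.proc s z ω).ctr y = s.ctr y := by
    intro y hy
    simp [MP.proc, hU y hy]
  have hdepn : ∀ y, y ∈ s.U z → (P.proc s z ω).dep y = s.dep z + 1 := by
    intro y hy
    simp [MP.proc, hy]
  have hexn : ∀ y, y ∈ s.U z → (P.proc s z ω).exB y = z := by
    intro y hy
    simp [MP.proc, hy]
  have hctn : ∀ y, y ∈ s.U z → (P.val s z ω y).Nonempty →
      (P.proc s z ω).ctr y ∈ P.val s z ω y := by
    intro y hy hv
    have h : y ∈ s.U z ∧ (P.val s z ω y).Nonempty := ⟨hy, hv⟩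
    have h1 : (P.proc s z ω).ctr y = h.2.choose := by
      simp only [MP.proc]
      rw [dif_pos h]
    rw [h1]
    exact h.2.choose_spec
  have hval : ∀ y c, c ∈ P.val s z ω y → c ∈ Bx (cz P.ℓ y) P.ℓ ∧ Bx c P.m ⊆ P.newR s z ω := by
    intro y c hc
    unfold MP.val at hc
    rw [Finset.mem_filter] at hc
    exact ⟨hc.1, hc.2.2⟩
  have hreach : ∀ y, y ∈ (P.proc s z ω).reached →
      y ∈ s.reached ∨ (y ∈ s.U z ∧ (P.val s z ω y).Nonempty) := by
    intro y hy
    simpa [MP.proc] using hy
  have hexam : ∀ y, y ∈ (P.proc s z ω).exam ↔ y ∈ s.exam ∨ y ∈ s.U z := by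
    intro y
    simp [MP.proc]
  have hdone : ∀ y, y ∈ (P.proc s z ω).done ↔ y = z ∨ y ∈ s.done := by
    intro y
    simp [MP.proc]
  have h0e : (0 : V d) ∈ s.exam := hs.reached_sub hs.zero
  have hRsub : s.R ⊆ (P.proc s z ω).R := subset_growF _ _ _ _
  have hde : ∀ y, y ∈ s.done → y ∈ s.exam := fun y hy => hs.reached_sub (hs.done_sub hy)
  refine
    { zero := ?_, done_sub := ?_, reached_sub := ?_, ctr_near := ?_, ctr_box := ?_
      exB_done := ?_, exB_zero := ?_, R_tube := ?_, nb_exam := ?_, dep_zero := ?_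
      dep_exB := ?_, dep_order := ?_, dep_nb := ?_ }
  · simp only [MP.proc, Finset.mem_union]
    exact Or.inl hs.zero
  · intro y hy
    rcases (hdone y).1 hy with rfl | hy
    · simp only [MP.proc, Finset.mem_union]
      exact Or.inl hzr
    · simp only [MP.proc, Finset.mem_union]
      exact Or.inl (hs.done_sub hy)
  · intro y hy
    rcases hreach y hy with hy | hy
    · exact (hexam y).2 (Or.inl (hs.reached_sub hy))
    · exact (hexam y).2 (Or.inr hy.1)
  · intro y hy i
    rcases hreach y hy with hy | hy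
    · rw [hcto y (hs.reached_sub hy)]
      exact hs.ctr_near y hy i
    · exact mem_Bx.1 (hval y _ (hctn y hy.1 hy.2)).1 i
  · intro y hy
    rcases hreach y hy with hy | hy
    · rw [hcto y (hs.reached_sub hy)]
      exact (hs.ctr_box y hy).trans hRsub
    · exact (hval y _ (hctn y hy.1 hy.2)).2
  · intro y hy hy0
    rcases (hexam y).1 hy with hy | hy
    · rw [hexo y hy]
      obtain ⟨h1, h2⟩ := hs.exB_done y hy hy0
      exact ⟨(hdone _).2 (Or.inr h1), h2⟩
    · rw [hexn y hy]
      exact ⟨(hdone _).2 (Or.inl rfl), (MInv_mem_U.1 hy).1⟩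
  · rw [hexo 0 h0e]
    exact hs.exB_zero
  · intro v hv
    have hv' : v ∈ s.R ∪ s.D P.ℓ z := growF_subset _ _ _ _ hv
    rcases Finset.mem_union.1 hv' with hv' | hv'
    · rcases hs.R_tube v hv' with h | ⟨w, hw, w', hw', h1, h2, h3⟩
      · exact Or.inl h
      · exact Or.inr ⟨w, (hdone _).2 (Or.inr hw), w', (hexam _).2 (Or.inl hw'), h1,
          by rw [hexo w' hw', h2], h3⟩
    · obtain ⟨z', hz', h3⟩ := MInv_mem_D.1 hv'
      exact Or.inr ⟨z, (hdone _).2 (Or.inl rfl), z', (hexam _).2 (Or.inr hz'),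
        (MInv_mem_U.1 hz').1, hexn z' hz', h3⟩
  · intro y hy w hw
    rcases (hdone y).1 hy with rfl | hy
    · by_cases hwe : w ∈ s.exam
      · exact (hexam w).2 (Or.inl hwe)
      · exact (hexam w).2 (Or.inr (MInv_mem_U.2 ⟨mem_nb.1 hw, hwe⟩))
    · exact (hexam w).2 (Or.inl (hs.nb_exam y hy hw))
  · rw [hdepo 0 h0e]
    exact hs.dep_zero
  · intro y hy hy0
    rcases (hexam y).1 hy with hy | hy
    · obtain ⟨h1, h2⟩ := hs.exB_done y hy hy0
      rw [hexo y hy, hdepo y hy, hdepo _ (hde _ h1)]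
      exact hs.dep_exB y hy hy0
    · rw [hexn y hy, hdepn y hy, hdepo z hze]
  · intro w hw y hy
    rw [Finset.mem_sdiff] at hy
    obtain ⟨hyr, hyd⟩ := hy
    have hyz : y ≠ z := fun h => hyd ((hdone y).2 (Or.inl h))
    have hyd' : y ∉ s.done := fun h => hyd ((hdone y).2 (Or.inr h))
    rcases (hdone w).1 hw with rfl | hw
    · rw [hdepo w hze]
      rcases hreach y hyr with hy | hy
      · rw [hdepo y (hs.reached_sub hy)]
        exact hmin y (Finset.mem_sdiff.2 ⟨hy, hyd'⟩)
      · rw [hdepn y hy.1]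
        omega
    · rw [hdepo w (hde w hw)]
      rcases hreach y hyr with hy | hy
      · rw [hdepo y (hs.reached_sub hy)]
        exact hs.dep_order w hw y (Finset.mem_sdiff.2 ⟨hy, hyd'⟩)
      · rw [hdepn y hy.1]
        have := hs.dep_order w hw z (Finset.mem_sdiff.2 ⟨hzr, hzd⟩)
        omega
  · intro w hw y hy
    rcases (hdone w).1 hw with rfl | hw
    · rw [hdepo w hze]
      by_cases hye : y ∈ s.exam
      · rw [hdepo y hye]
        by_cases hy0 : y = 0
        · subst hy0
          rw [hs.dep_zero]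
          omega
        · obtain ⟨h1, h2⟩ := hs.exB_done y hye hy0
          rw [hs.dep_exB y hye hy0]
          have := hs.dep_order _ h1 w (Finset.mem_sdiff.2 ⟨hzr, hzd⟩)
          omega
      · rw [hdepn y (MInv_mem_U.2 ⟨mem_nb.1 hy, hye⟩)]
    · rw [hdepo w (hde w hw), hdepo y (hs.nb_exam w hw hy)]
      exact hs.dep_nb w hw y hy

theorem MP.good_step (P : MP) (s : MS d) (ω : Fin (2 + 1) × El d → Bool) (hs : P.good s) :
    P.good (P.step s ω) := by
  cases hz : nxt s with
  | none =>
    have : P.step s ω = s := by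
      unfold MP.step
      rw [hz]
    rw [this]
    exact hs
  | some z =>
    have : P.step s ω = P.proc s z ω := by
      unfold MP.step
      rw [hz]
    rw [this]
    exact MInv_good_proc P s ω hs hz

/-- a vertex near the ball -/
lemma MInv_ball {m ℓ : ℕ} (hm : m ≤ ℓ) {a : V d} (ha : a ∈ Bx (0 : V d) m) (i : Fin d) :
    |a i - cz ℓ (0 : V d) i| ≤ 2 * (ℓ : ℤ) := by
  have h := mem_Bx.1 ha i
  have hm' : (m : ℤ) ≤ ℓ := by exact_mod_cast hm
  have h0 : cz ℓ (0 : V d) i = 0 := by simp [cz]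
  rw [h0]
  simp only [Pi.zero_apply] at h
  linarith

/-- the target boxes at an unexamined neighbour are inside the region and far from the cluster:
`R_tube`, `tube_ball`, `ball_ball`, `box_sub_tube` (`z'` unexamined is different from all `w`, `w'`, `0`
there; the box has radius `m ≤ ℓ` around a centre at distance `≤ ℓ` of `cz z'`) -/
theorem MP.far (P : MP) (hm : P.m ≤ P.ℓ) (hℓ : 1 ≤ P.ℓ) {s : MS d} (hs : P.good s) {z : V d}
    (hz : nxt s = some z) {z' : V d} (hz' : z' ∈ s.U z) {c : V d} (hc : c ∈ Bx (cz P.ℓ z') P.ℓ) :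
    Bx c P.m ⊆ s.D P.ℓ z ∧ ∀ v ∈ Bx c P.m, v ∉ s.R ∧ ∀ a ∈ s.R, ¬ LatAdj a v := by
  classical
  obtain ⟨hadj, hne⟩ := MInv_mem_U.1 hz'
  refine ⟨fun v hv => MInv_mem_D.2 ⟨z', hz', box_sub_tube hm hc hv⟩, ?_⟩
  have key : ∀ v ∈ Bx c P.m, ∀ a ∈ s.R, (∀ i, |v i - a i| ≤ 1) → False := by
    intro v hv a ha hva
    have hv2 : ∀ i, |v i - cz P.ℓ z' i| ≤ 2 * (P.ℓ : ℤ) := by
      intro i
      have h1 := mem_Bx.1 hv i
      have h2 := mem_Bx.1 hc i
      have hm' : (P.m : ℤ) ≤ P.ℓ := by exact_mod_cast hm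
      have h3 : |v i - cz P.ℓ z' i| ≤ |v i - c i| + |c i - cz P.ℓ z' i| := abs_sub_le _ _ _
      linarith
    rcases hs.R_tube a ha with h | ⟨w, hw, w', hw', h1, h2, h3⟩
    · have h0 := ball_ball hℓ hv2 (MInv_ball hm h) hva
      subst h0
      exact hne (hs.reached_sub hs.zero)
    · rcases tube_ball hℓ h1 hv2 h3 hva with h | h
      · subst h
        exact hne (hs.reached_sub (hs.done_sub hw))
      · subst h
        exact hne hw'
  intro v hv
  refine ⟨fun hvR => key v hv v hvR fun i => by simp, fun a ha hav => key v hv a ha fun i => ?_⟩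
  rw [abs_sub_comm]
  exact LatAdj.abs_le hav i

/-- locality: a vertex of the cluster within distance one of the region comes from the step of
the examiner of `z` (or `z = 0` and it is in the initial box): by `R_tube` and `tube_share` the pair
`(w, w')` shares an end with `(z, z')`, `z'` is unexamined and `z` is not processed, so `w' = z` -/
theorem MP.local_ (P : MP) (hm : P.m ≤ P.ℓ) (hℓ : 1 ≤ P.ℓ) {s : MS d} (hs : P.good s) {z : V d}
    (hz : nxt s = some z) {a b : V d} (hb : b ∈ s.D P.ℓ z) (hab : ∀ i, |a i - b i| ≤ 1) :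
    (a ∈ Bx (0 : V d) P.m → z = 0) ∧
    ∀ w ∈ s.done, ∀ w' ∈ s.exam, LatAdj w w' → s.exB w' = w → a ∈ Tube P.ℓ w w' →
      w' = z ∧ z ≠ 0 ∧ w = s.exB z ∧ s.dep z = s.dep w + 1 := by
  classical
  obtain ⟨hzr, hzd, hmin⟩ := nxt_some hz
  obtain ⟨z', hz', hbt⟩ := MInv_mem_D.1 hb
  obtain ⟨hadj, hne⟩ := MInv_mem_U.1 hz'
  refine ⟨fun ha => ?_, ?_⟩
  · rcases tube_ball hℓ hadj (MInv_ball hm ha) hbt hab with h | h
    · exact h.symm
    · subst h
      exact absurd (hs.reached_sub hs.zero) hne
  · intro w hw w' hw' hww hex ha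
    have hba : ∀ i, |b i - a i| ≤ 1 := fun i => by
      rw [abs_sub_comm]
      exact hab i
    have hw'z : w' = z := by
      rcases tube_share hℓ hadj hww hbt ha hba with h | h | h | h
      · subst h
        exact absurd hw hzd
      · exact h.symm
      · subst h
        exact absurd (hs.reached_sub (hs.done_sub hw)) hne
      · subst h
        exact absurd hw' hne
    subst hw'z
    have hz0 : w' ≠ 0 := by
      rintro rfl
      rw [hs.exB_zero] at hex
      subst hex
      exact LatAdj.ne hww rfl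
    refine ⟨rfl, hz0, hex.symm, ?_⟩
    rw [hs.dep_exB w' hw' hz0, hex]

end Pool.Agent.H47.GM
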