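import Pool.Agent.H47.GM.Basic

/-!
# GM module StepLoc: the enlarged cluster is determined by the elements that touch it

Every element `stE κ a b` with `a` in the new cluster and `b ∈ D \ R` touches the new cluster
(bond: it contains `a`; site: `b` is adjacent to `a`). If it touches `R` its state is given by the
sprinkled field (it contains `b ∈ D`), otherwise by the base field.
-/

open MeasureTheory Filter Topology
open Pool.Agent.H17.IIC Pool.Agent.H41.QC

namespace Pool.Agent.H47.GM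

variable {d : ℕ}

lemma StepLoc_touch {κ : Kind} {R : Set (V d)} {a b : V d} (ha : a ∈ R) (hab : LatAdj a b) :
    touch κ R (stE κ a b) := by
  cases κ
  · exact ⟨a, Sym2.mem_mk_left a b, Or.inl ha⟩
  · exact ⟨b, Sym2.mem_mk_left b b, Or.inr ⟨rfl, a, ha, hab⟩⟩

lemma StepLoc_right_mem (κ : Kind) (a b : V d) : b ∈ stE κ a b := by
  cases κ
  · exact Sym2.mem_mk_right a b
  · exact Sym2.mem_mk_left b b

/-- paths stay in the cluster, and their steps can be copied to a second configuration -/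
lemma StepLoc_copy {κ : Kind} {R D : Finset (V d)} {ξ ξ' : El d → Bool}
    (h : ∀ a b, a ∈ growF κ R D ξ → LatAdj a b → b ∈ D → b ∉ R →
      ξ' (stE κ a b) = ξ (stE κ a b)) :
    growF κ R D ξ' = growF κ R D ξ := by
  ext v
  constructor
  · intro hv
    rw [mem_growF] at hv
    obtain ⟨a, ha, hr⟩ := hv
    unfold Rch at hr
    induction hr with
    | refl => exact subset_growF κ R D ξ ha
    | @tail b c _ hs ih =>
      obtain ⟨h1, h2, h3⟩ := hs
      rw [h b c ih h1 h2.1 h2.2] at h3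
      rw [mem_growF] at ih ⊢
      obtain ⟨a', ha', hr'⟩ := ih
      exact ⟨a', ha', Relation.ReflTransGen.tail hr' ⟨h1, h2, h3⟩⟩
  · intro hv
    rw [mem_growF] at hv
    obtain ⟨a, ha, hr⟩ := hv
    have key : v ∈ growF κ R D ξ ∧ Rch κ ξ' ((D : Set (V d)) \ R) a v := by
      unfold Rch at hr ⊢
      induction hr with
      | refl => exact ⟨subset_growF κ R D ξ ha, Relation.ReflTransGen.refl⟩
      | @tail b c hab hs ih =>
        obtain ⟨h1, h2, h3⟩ := hs
        refine ⟨mem_growF.2 ⟨a, ha, Relation.ReflTransGen.tail hab ⟨h1, h2, h3⟩⟩,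
          Relation.ReflTransGen.tail ih.2 ⟨h1, h2, ?_⟩⟩
        rw [h b c ih.1 h1 h2.1 h2.2]
        exact h3
    exact mem_growF.2 ⟨a, ha, key.2⟩

theorem grow_loc (κ : Kind) (R D : Finset (V d)) {ω ω' σ σ' : El d → Bool}
    (h1 : ∀ e, touch κ (growF κ R D (mix κ (R : Set (V d)) ω σ) : Set (V d)) e →
      ¬ touch κ (R : Set (V d)) e → ω e = ω' e)
    (h2 : ∀ e, (∃ b ∈ e, b ∈ D) → σ e = σ' e) :
    growF κ R D (mix κ (R : Set (V d)) ω' σ') = growF κ R D (mix κ (R : Set (V d)) ω σ) := by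
  refine StepLoc_copy ?_
  intro a b ha hab hbD _
  by_cases ht : touch κ (R : Set (V d)) (stE κ a b)
  · rw [mix_touch ht, mix_touch ht]
    exact (h2 _ ⟨b, StepLoc_right_mem κ a b, hbD⟩).symm
  · rw [mix_not_touch ht, mix_not_touch ht]
    exact (h1 _ (StepLoc_touch (Finset.mem_coe.2 ha) hab) ht).symm

/-- the seed test is local too -/
theorem full_loc (κ : Kind) (R R' B : Finset (V d)) {ω ω' : El d → Bool} (hB : B ⊆ R')
    (hfar : ∀ v ∈ B, v ∉ R ∧ ∀ a ∈ R, ¬ LatAdj a v)
    (h1 : ∀ e, touch κ (R' : Set (V d)) e → ¬ touch κ (R : Set (V d)) e → ω e = ω' e) :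
    FullOpen κ ω (B : Set (V d)) ↔ FullOpen κ ω' (B : Set (V d)) := by
  refine Basic_fullOpen_congr ?_
  intro a ha b hb
  refine h1 _ ?_ (not_touch_of_far (R := (R : Set (V d))) (B := (B : Set (V d))) ?_ ha hb).1
  · exact ⟨b, StepLoc_right_mem κ a b, Or.inl (hB hb)⟩
  · intro v hv
    exact hfar v hv

/-- finite dependence of the enlarged cluster -/
theorem grow_fin (κ : Kind) (R D : Finset (V d)) :
    ∃ Λ : Finset (El d), ∀ ω ω' σ σ' : El d → Bool, (∀ e ∈ Λ, ω e = ω' e) →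
      (∀ e ∈ Λ, σ e = σ' e) →
      growF κ R D (mix κ (R : Set (V d)) ω' σ') = growF κ R D (mix κ (R : Set (V d)) ω σ) := by
  classical
  refine ⟨((R ∪ D) ×ˢ D).image fun q => stE κ q.1 q.2, ?_⟩
  intro ω ω' σ σ' hω hσ
  refine StepLoc_copy ?_
  intro a b ha _ hbD _
  have hmem : stE κ a b ∈ ((R ∪ D) ×ˢ D).image fun q => stE κ q.1 q.2 := by
    rw [Finset.mem_image]
    exact ⟨(a, b), Finset.mem_product.2 ⟨growF_subset κ R D _ ha, hbD⟩, rfl⟩
  by_cases ht : touch κ (R : Set (V d)) (stE κ a b)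
  · rw [mix_touch ht, mix_touch ht]
    exact (hσ _ hmem).symm
  · rw [mix_not_touch ht, mix_not_touch ht]
    exact (hω _ hmem).symm

theorem full_fin (κ : Kind) (B : Finset (V d)) :
    ∃ Λ : Finset (El d), ∀ ω ω' : El d → Bool, (∀ e ∈ Λ, ω e = ω' e) →
      (FullOpen κ ω (B : Set (V d)) ↔ FullOpen κ ω' (B : Set (V d))) := by
  classical
  refine ⟨(B ×ˢ B).image fun q => stE κ q.1 q.2, ?_⟩
  intro ω ω' hω
  refine Basic_fullOpen_congr ?_
  intro a ha b hb
  apply hω
  rw [Finset.mem_image]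
  exact ⟨(a, b), Finset.mem_product.2 ⟨ha, hb⟩, rfl⟩

end Pool.Agent.H47.GM
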