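import Pool.Agent.H47.GM.Expl
import Pool.Agent.H47.GM.MInv
import Pool.Agent.H47.GM.StepLoc

/-!
# GM module MExpl: the macroscopic exploration is an exploration

`mono`: `R ⊆ newR`, `done`, `exam` increase, `exB` of examined sites does not change.
`loc`: let `z = nxt s`. By `grow_loc` it is enough that `ω = ω'` on the base coordinates touching the
new cluster but not `R` (they are in `E (step s ω) \ E s`), and on the coordinates `(pr z, e)` with a
vertex `b ∈ e`, `b ∈ Tube z z'`, `z' ∈ U z`. These are in `E (step s ω)` (`z` is processed, `z'` examined,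
`exB z' = z`), and not in `E s`: otherwise some `b' ∈ e`, `b' ∈ Tube w w'` with `w` processed, `w'`
examined, `exB w' = w`, `pr w = pr z`; `b`, `b'` are equal or adjacent?? (`e` may be any element; use
only elements `stE κ u v`, whose vertices are equal or adjacent, as in `grow_loc`), so by
`tube_share` the edges share an end; `z' ≠ w, w'` (unexamined), `z ≠ w` (unprocessed), so `w' = z`,
and `w`, `z` are adjacent, contradicting `pr w = pr z` (`parity_ne`). The seeds: `full_loc`, `MP.far`.
-/

open MeasureTheory Filter Topology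
open Pool.Agent.H17.IIC Pool.Agent.H41.QC

namespace Pool.Agent.H47.GM

variable {d : ℕ}

/-- the end of a step is a vertex of its element -/
lemma MExpl_mem_stE (κ : Kind) (u v : V d) : v ∈ stE κ u v := by
  cases κ <;> simp [stE]

/-- the vertices of the element of a step are the ends of the step -/
lemma MExpl_of_mem_stE {κ : Kind} {u v b : V d} (h : b ∈ stE κ u v) : b = u ∨ b = v := by
  cases κ
  · simpa [stE] using h
  · exact Or.inr (by simpa [stE] using h)

/-- one half of `grow_loc'`, with touching elements -/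
lemma MExpl_rch (κ : Kind) (R D : Finset (V d)) {ω ω' σ σ' : El d → Bool}
    (h1 : ∀ e, touch κ (growF κ R D (mix κ (R : Set (V d)) ω σ) : Set (V d)) e →
      ¬ touch κ (R : Set (V d)) e → ω e = ω' e)
    (h2 : ∀ u v, LatAdj u v → v ∈ D → σ (stE κ u v) = σ' (stE κ u v))
    {u v : V d} (hu : u ∈ growF κ R D (mix κ (R : Set (V d)) ω σ)) (huv : LatAdj u v)
    (hv : v ∈ D) :
    mix κ (R : Set (V d)) ω σ (stE κ u v) = mix κ (R : Set (V d)) ω' σ' (stE κ u v) := by
  by_cases ht : touch κ (R : Set (V d)) (stE κ u v)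
  · rw [mix_touch ht, mix_touch ht]
    exact h2 u v huv hv
  · rw [mix_not_touch ht, mix_not_touch ht]
    refine h1 _ ?_ ht
    cases κ
    · exact ⟨u, by simp [stE], Or.inl hu⟩
    · exact ⟨v, by simp [stE], Or.inr ⟨rfl, u, hu, huv⟩⟩

/-- a version of `grow_loc` which looks at the elements of lattice steps only -/
theorem grow_loc' (κ : Kind) (R D : Finset (V d)) {ω ω' σ σ' : El d → Bool}
    (h1 : ∀ e, touch κ (growF κ R D (mix κ (R : Set (V d)) ω σ) : Set (V d)) e →
      ¬ touch κ (R : Set (V d)) e → ω e = ω' e)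
    (h2 : ∀ u v, LatAdj u v → v ∈ D → σ (stE κ u v) = σ' (stE κ u v)) :
    growF κ R D (mix κ (R : Set (V d)) ω' σ') = growF κ R D (mix κ (R : Set (V d)) ω σ) := by
  apply Finset.Subset.antisymm
  · intro v hv
    obtain ⟨a, ha, hav⟩ := mem_growF.1 hv
    unfold Rch at hav
    induction hav with
    | refl => exact subset_growF κ R D _ ha
    | @tail b c hab hbc ih =>
      have hb : b ∈ growF κ R D (mix κ (R : Set (V d)) ω σ) :=
        ih (mem_growF.2 ⟨a, ha, hab⟩)
      obtain ⟨a', ha', h'⟩ := mem_growF.1 hb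
      refine mem_growF.2 ⟨a', ha', h'.tail ⟨hbc.1, hbc.2.1, ?_⟩⟩
      rw [MExpl_rch κ R D h1 h2 hb hbc.1 hbc.2.1.1]
      exact hbc.2.2
  · intro v hv
    obtain ⟨a, ha, hav⟩ := mem_growF.1 hv
    unfold Rch at hav
    induction hav with
    | refl => exact subset_growF κ R D _ ha
    | @tail b c hab hbc ih =>
      have hb : b ∈ growF κ R D (mix κ (R : Set (V d)) ω σ) := mem_growF.2 ⟨a, ha, hab⟩
      obtain ⟨a', ha', h'⟩ := mem_growF.1 (ih hb)
      refine mem_growF.2 ⟨a', ha', h'.tail ⟨hbc.1, hbc.2.1, ?_⟩⟩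
      rw [← MExpl_rch κ R D h1 h2 hb hbc.1 hbc.2.1.1]
      exact hbc.2.2

/-- the sprinkling fields are not the base field -/
lemma MExpl_pr_ne (z : V d) : pr z ≠ 0 := by
  unfold pr
  split_ifs <;> decide

/-- the parities of neighbours differ -/
lemma MExpl_pr_adj {z w : V d} (h : LatAdj z w) : pr z ≠ pr w := by
  unfold pr
  have := parity_ne h
  by_cases hz : Even (∑ i, z i)
  · rw [if_pos hz, if_neg (this.1 hz)]
    decide
  · have hw : Even (∑ i, w i) := by
      by_contra hw
      exact hz (this.2 hw)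
    rw [if_neg hz, if_pos hw]
    decide

lemma MExpl_mem_U {s : MS d} {z y : V d} : y ∈ s.U z ↔ LatAdj z y ∧ y ∉ s.exam := by
  unfold MS.U
  rw [Finset.mem_sdiff, mem_nb]

lemma MExpl_mem_D {s : MS d} {ℓ : ℕ} {z y : V d} :
    y ∈ s.D ℓ z ↔ ∃ z' ∈ s.U z, y ∈ Tube ℓ z z' := by
  unfold MS.D
  rw [Finset.mem_biUnion]

/-- the coordinates looked at by the sprinkling in the step `z` are new -/
lemma MExpl_new (P : MP) (hℓ : 1 ≤ P.ℓ) {s : MS d} (hs : P.good s) {z : V d}
    (hz : nxt s = some z) {u v : V d} (huv : LatAdj u v) (hv : v ∈ s.D P.ℓ z) :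
    ((pr z, stE P.κ u v) : Fin (2 + 1) × El d) ∉ P.E s := by
  obtain ⟨z', hz', hvT⟩ := MExpl_mem_D.1 hv
  obtain ⟨hzz', hz'e⟩ := MExpl_mem_U.1 hz'
  obtain ⟨hzr, hzd, -⟩ := nxt_some hz
  rintro (⟨h0, -⟩ | ⟨w, hw, w', hw', hww', hex, hpr, b, hb, hbT⟩)
  · exact MExpl_pr_ne z h0
  · have hpr' : pr z = pr w := hpr
    have hb' : b = u ∨ b = v := MExpl_of_mem_stE hb
    have hcl : ∀ i, |v i - b i| ≤ 1 := by
      intro i
      rcases hb' with rfl | rfl
      · have := LatAdj.abs_le huv i
        rwa [abs_sub_comm] at this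
      · simp
    rcases tube_share hℓ hzz' hww' hvT hbT hcl with h | h | h | h
    · exact hzd (h ▸ hw)
    · subst h
      exact MExpl_pr_adj hww' hpr'.symm
    · subst h
      exact hz'e (hs.reached_sub (hs.done_sub hw))
    · subst h
      exact hz'e hw'

/-- the state after processing `z`, with new cluster `R'` and admissible seeds `val` -/
lemma MExpl_proc_congr (P : MP) (s : MS d) (z : V d) (ω ω' : Fin (2 + 1) × El d → Bool)
    (hR : P.newR s z ω' = P.newR s z ω)
    (hval : ∀ y ∈ s.U z, P.val s z ω' y = P.val s z ω y) :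
    P.proc s z ω' = P.proc s z ω := by
  have h1 : (s.U z).filter (fun z' => (P.val s z ω' z').Nonempty)
      = (s.U z).filter (fun z' => (P.val s z ω z').Nonempty) := by
    apply Finset.filter_congr
    intro y hy
    rw [hval y hy]
  have h2 : (fun y => if h : y ∈ s.U z ∧ (P.val s z ω' y).Nonempty then h.2.choose else s.ctr y)
      = (fun y => if h : y ∈ s.U z ∧ (P.val s z ω y).Nonempty then h.2.choose else s.ctr y) := by
    funext y
    by_cases hy : y ∈ s.U z
    · have := hval y hy
      simp only [this]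
    · rw [dif_neg (fun h => hy h.1), dif_neg (fun h => hy h.1)]
  unfold MP.proc
  rw [hR]
  congr 1
  · rw [h1]

theorem MP.loc (P : MP) (hm : P.m ≤ P.ℓ) (hℓ : 1 ≤ P.ℓ) (s : MS d)
    (ω ω' : Fin (2 + 1) × El d → Bool) (hs : P.good s)
    (h : ∀ i ∈ P.E (P.step s ω) \ P.E s, ω i = ω' i) : P.step s ω' = P.step s ω := by
  classical
  cases hz : nxt s with
  | none => simp only [MP.step, hz]
  | some z =>
    have hst : ∀ ω'', P.step s ω'' = P.proc s z ω'' := by
      intro ω''
      simp only [MP.step, hz]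
    rw [hst, hst]
    rw [hst] at h
    obtain ⟨hzr, hzd, -⟩ := nxt_some hz
    -- base coordinates
    have hbase : ∀ e, touch P.κ (P.newR s z ω : Set (V d)) e →
        ¬ touch P.κ (s.R : Set (V d)) e → fld 0 ω e = fld 0 ω' e := by
      intro e he hne
      refine h (0, e) ⟨Or.inl ⟨rfl, he⟩, ?_⟩
      rintro (⟨-, h'⟩ | ⟨w, -, w', -, -, -, h', -⟩)
      · exact hne h'
      · exact MExpl_pr_ne w h'.symm
    -- sprinkling coordinates
    have hspr : ∀ u v, LatAdj u v → v ∈ s.D P.ℓ z →
        fld (pr z) ω (stE P.κ u v) = fld (pr z) ω' (stE P.κ u v) := by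
      intro u v huv hv
      refine h (pr z, stE P.κ u v) ⟨?_, MExpl_new P hℓ hs hz huv hv⟩
      obtain ⟨z', hz', hvT⟩ := MExpl_mem_D.1 hv
      refine Or.inr ⟨z, Finset.mem_insert_self _ _, z',
        Finset.mem_union_right _ hz', (MExpl_mem_U.1 hz').1, ?_, rfl, v, MExpl_mem_stE _ _ _, hvT⟩
      exact if_pos hz'
    have hR : P.newR s z ω' = P.newR s z ω := grow_loc' P.κ s.R (s.D P.ℓ z) hbase hspr
    refine MExpl_proc_congr P s z ω ω' hR ?_
    intro y hy
    unfold MP.val
    rw [hR]
    apply Finset.filter_congr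
    intro c hc
    by_cases hB : Bx c P.m ⊆ P.newR s z ω
    · have := full_loc P.κ s.R (P.newR s z ω) (Bx c P.m) hB (P.far hm hℓ hs hz hy hc).2 hbase
      simp only [hB, and_true]
      exact this.symm
    · simp only [hB, and_false]

theorem MP.fin (P : MP) (s : MS d) : ∃ Λ : Finset (Fin (2 + 1) × El d),
    ∀ ω ω', (∀ i ∈ Λ, ω i = ω' i) → P.step s ω = P.step s ω' := by
  classical
  cases hz : nxt s with
  | none => exact ⟨∅, fun ω ω' _ => by simp only [MP.step, hz]⟩
  | some z =>
    obtain ⟨Λ₀, hΛ₀⟩ := grow_fin P.κ s.R (s.D P.ℓ z)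
    choose Λ₁ hΛ₁ using fun c : V d => full_fin P.κ (Bx c P.m)
    let Λ : Finset (El d) := Λ₀ ∪ (s.U z).biUnion fun y => (Bx (cz P.ℓ y) P.ℓ).biUnion Λ₁
    refine ⟨Finset.univ ×ˢ Λ, fun ω ω' h => ?_⟩
    have hf : ∀ j, ∀ e ∈ Λ, fld j ω e = fld j ω' e := by
      intro j e he
      exact h (j, e) (Finset.mem_product.2 ⟨Finset.mem_univ _, he⟩)
    have hst : ∀ ω'', P.step s ω'' = P.proc s z ω'' := by
      intro ω''
      simp only [MP.step, hz]
    rw [hst, hst]
    have hR : P.newR s z ω = P.newR s z ω' := by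
      refine hΛ₀ _ _ _ _ (fun e he => ?_) (fun e he => ?_)
      · exact (hf 0 e (Finset.mem_union_left _ he)).symm
      · exact (hf (pr z) e (Finset.mem_union_left _ he)).symm
    refine MExpl_proc_congr P s z ω' ω hR ?_
    intro y hy
    unfold MP.val
    rw [hR]
    apply Finset.filter_congr
    intro c hc
    have := hΛ₁ c (fld 0 ω) (fld 0 ω') (fun e he => hf 0 e (Finset.mem_union_right _
      (Finset.mem_biUnion.2 ⟨y, hy, Finset.mem_biUnion.2 ⟨c, hc, he⟩⟩)))
    rw [this]

/-- the exploration -/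
noncomputable def MP.expl (P : MP) (hm : P.m ≤ P.ℓ) (hℓ : 1 ≤ P.ℓ) :
    Expl (Fin (2 + 1) × El d) (MS d) (V d) where
  good := P.good
  step := P.step
  E := P.E
  lab := nxt
  done s := (s.done : Set (V d))
  good_step := P.good_step
  mono := by
    intro s ω hs
    cases hz : nxt s with
    | none =>
      have : P.step s ω = s := by simp only [MP.step, hz]
      rw [this]
    | some z =>
      have hst : P.step s ω = P.proc s z ω := by simp only [MP.step, hz]
      rw [hst]
      rintro ⟨j, e⟩ (⟨h0, ht⟩ | ⟨w, hw, w', hw', hww', hex, hpr, b, hb, hbT⟩)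
      · refine Or.inl ⟨h0, touch_mono ?_ ht⟩
        intro x hx
        exact subset_growF _ _ _ _ hx
      · refine Or.inr ⟨w, Finset.mem_insert_of_mem hw, w', Finset.mem_union_left _ hw', hww', ?_,
          hpr, b, hb, hbT⟩
        have : w' ∉ s.U z := fun h' => (MExpl_mem_U.1 h').2 hw'
        exact (if_neg this).trans hex
  loc := P.loc hm hℓ
  fin := P.fin
  lab_done := by
    intro s l _ hl
    exact fun h => (nxt_some hl).2.1 h
  done_some := by
    intro s ω l _ hl
    have hst : P.step s ω = P.proc s l ω := by simp only [MP.step, hl]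
    rw [hst]
    exact Finset.coe_insert _ _
  done_none := by
    intro s ω _ hl
    have hst : P.step s ω = s := by simp only [MP.step, hl]
    rw [hst]

end Pool.Agent.H47.GM
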