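import Pool.Agent.H41.QC.Detour
import Pool.Agent.H47.GM.MExpl

/-!
# GM module MDist: linear distances along the exploration

Invariant along the run from `init`, for a configuration `ω` with `FullOpen κ (fld 0 ω) (Bx 0 m)`,
with `M = 2 d (10 ℓ + 1)^d + (2m+1)^d + 3`: every `v ∈ R` satisfies `κ = .site → tot ω s(v,v) = true` and
either `v ∈ Bx 0 m` and `Joined κ (tot ω) 0 v M`, or there are `w ∈ done`, `w' ∈ exam`, `LatAdj w w'`,
`exB w' = w`, `v ∈ Tube w w'` and `Joined κ (tot ω) 0 v (M (dep w + 2))`.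
Step: a new vertex `v` is reached from some `a ∈ R` by a path landing in `D \ R`, which has at
most `|D| ≤ 2d (10ℓ+1)^d` vertices (`Rch.joined`); its first vertex `b ∈ D` is a neighbour of `a`, so by
`MP.local_` either `a ∈ Bx 0 m` (and `z = 0`) or `a` is at distance `≤ M (dep w + 2) = M (dep z + 1)`; hence
`v` is at distance `≤ M (dep z + 2)`. (If the path is trivial `v = a ∈ R` is old.)
For `z' ∈ reached`, `ctr z' ∈ Bx (ctr z') m ⊆ R` was added when `z'` was reached by processing `exB z'`, at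
distance `≤ M (dep (exB z') + 2) = M (dep z' + 1)`; include this in the induction.
-/

open MeasureTheory Filter Topology
open Pool.Agent.H17.IIC Pool.Agent.H41.QC

namespace Pool.Agent.H47.GM

variable {d : ℕ}

/-- length constant -/
def MP.M (P : MP) (d : ℕ) : ℕ := 2 * d * (10 * P.ℓ + 1) ^ d + (2 * P.m + 1) ^ d + 3

/-- the invariant -/
def MDist_Inv (P : MP) (ω : Fin (2 + 1) × El d → Bool) (s : MS d) : Prop :=
  (∀ v ∈ s.R, (P.κ = .site → tot ω s(v, v) = true) ∧
      ((v ∈ Bx (0 : V d) P.m ∧ Joined P.κ (tot ω) 0 v (P.M d)) ∨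
        ∃ w ∈ s.done, ∃ w' ∈ s.exam,
          LatAdj w w' ∧ s.exB w' = w ∧ v ∈ Tube P.ℓ w w' ∧
          Joined P.κ (tot ω) 0 v (P.M d * (s.dep w + 2)))) ∧
    (∀ z ∈ s.reached,
      Joined P.κ (tot ω) 0 (s.ctr z) (P.M d * (s.dep z + 1)))

lemma MDist_card_Bx (c : V d) (m : ℕ) : (Bx c m).card = (2 * m + 1) ^ d := by
  unfold Bx
  rw [Fintype.card_piFinset]
  simp only [Int.card_Icc]
  rw [Finset.prod_congr rfl (g := fun _ => 2 * m + 1) (fun i _ => by omega)]
  simp

lemma MDist_self (c : V d) (m : ℕ) : c ∈ Bx c m := by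
  rw [mem_Bx]
  intro i
  simp

lemma MDist_card_D (P : MP) (s : MS d) (z : V d) :
    (s.D P.ℓ z).card ≤ 2 * d * (10 * P.ℓ + 1) ^ d := by
  classical
  unfold MS.D
  refine le_trans (Finset.card_biUnion_le_card_mul _ _ ((10 * P.ℓ + 1) ^ d) ?_) ?_
  · intro z' hz'
    refine tube_card ?_
    unfold MS.U at hz'
    rw [Finset.mem_sdiff] at hz'
    exact mem_nb.1 hz'.1
  · refine Nat.mul_le_mul_right _ ?_
    refine le_trans (Finset.card_le_card ?_) (card_nb_le z)
    unfold MS.U
    exact Finset.sdiff_subset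

/-- the new vertices -/
lemma MDist_new (P : MP) (hm : P.m ≤ P.ℓ) (hℓ : 1 ≤ P.ℓ) (ω : Fin (2 + 1) × El d → Bool)
    {s : MS d} (hs : P.good s) (hI : MDist_Inv P ω s) {z : V d} (hz : nxt s = some z)
    {v : V d} (hv : v ∈ P.newR s z ω) (hvR : v ∉ s.R) :
    (P.κ = .site → tot ω s(v, v) = true) ∧
      Joined P.κ (tot ω) 0 v (P.M d * (s.dep z + 2)) ∧ v ∈ s.D P.ℓ z := by
  classical
  unfold MP.newR at hv
  rw [mem_growF] at hv
  obtain ⟨a, haR, hav⟩ := hv
  have hmem := Rch.mem hav
  have hvD : v ∈ s.D P.ℓ z := by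
    rcases hmem with h | h
    · exact absurd (h ▸ haR) hvR
    · exact h.1
  -- the path in the total configuration
  have hav' : Rch P.κ (tot ω) ((s.D P.ℓ z \ s.R : Finset (V d)) : Set (V d)) a v := by
    refine Rch.mono hav ?_ ?_
    · intro e he
      rcases mix_le _ _ _ _ _ he with h | h
      · exact fld_le_tot _ _ _ h
      · exact fld_le_tot _ _ _ h
    · rw [Finset.coe_sdiff]
  obtain ⟨hsa, hja⟩ := hI.1 a haR
  -- distance of `a`
  have hda : Joined P.κ (tot ω) 0 a (P.M d * (s.dep z + 1)) := by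
    rcases Relation.ReflTransGen.cases_head hav with h | ⟨b, hb, -⟩
    · exact absurd (h ▸ haR) hvR
    · have hloc := P.local_ hm hℓ hs hz (a := a) (b := b) hb.2.1.1 (fun i => LatAdj.abs_le hb.1 i)
      rcases hja with ⟨h0, h1⟩ | ⟨w, hw, w', hw', had, hex, htu, hj⟩
      · have hz0 := hloc.1 h0
        subst hz0
        refine joined_mono h1 (fun _ h => h) ?_
        rw [hs.dep_zero]
        simp
      · obtain ⟨-, -, -, hdep⟩ := hloc.2 w hw w' hw' had hex htu
        refine joined_mono hj (fun _ h => h) ?_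
        rw [hdep]
        push_cast
        nlinarith
  obtain ⟨hj2, hsv⟩ := Rch.joined hav' hsa
  refine ⟨hsv, ?_, hvD⟩
  refine joined_mono (Detour_joined_trans hda hj2) (fun _ h => h) ?_
  have hc : ((s.D P.ℓ z \ s.R : Finset (V d)).card : ℝ) + 1 ≤ P.M d := by
    have h1 : (s.D P.ℓ z \ s.R : Finset (V d)).card ≤ (s.D P.ℓ z).card :=
      Finset.card_le_card Finset.sdiff_subset
    have h2 := MDist_card_D P s z
    have h3 : (s.D P.ℓ z \ s.R : Finset (V d)).card + 1 ≤ P.M d := by
      unfold MP.M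
      omega
    exact_mod_cast h3
  nlinarith

lemma MDist_proc (P : MP) (hm : P.m ≤ P.ℓ) (hℓ : 1 ≤ P.ℓ) (ω : Fin (2 + 1) × El d → Bool)
    {s : MS d} (hs : P.good s) (hI : MDist_Inv P ω s) {z : V d} (hz : nxt s = some z) :
    MDist_Inv P ω (P.proc s z ω) := by
  classical
  obtain ⟨hzr, hzd, -⟩ := nxt_some hz
  have hzU : z ∉ s.U z := by
    intro h
    unfold MS.U at h
    exact (Finset.mem_sdiff.1 h).2 (hs.reached_sub hzr)
  have hold : ∀ y ∈ s.exam, y ∉ s.U z := by
    intro y hy h
    unfold MS.U at h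
    exact (Finset.mem_sdiff.1 h).2 hy
  have hdepz : (P.proc s z ω).dep z = s.dep z := by
    simp only [MP.proc]
    rw [if_neg hzU]
  constructor
  · intro v hv
    by_cases hvR : v ∈ s.R
    · obtain ⟨h1, h2⟩ := hI.1 v hvR
      refine ⟨h1, ?_⟩
      rcases h2 with h2 | ⟨w, hw, w', hw', had, hex, htu, hj⟩
      · exact Or.inl h2
      · refine Or.inr ⟨w, ?_, w', ?_, had, ?_, htu, ?_⟩
        · exact Finset.mem_insert_of_mem hw
        · exact Finset.mem_union_left _ hw'
        · simp only [MP.proc]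
          rw [if_neg (hold w' hw')]
          exact hex
        · have : (P.proc s z ω).dep w = s.dep w := by
            simp only [MP.proc]
            rw [if_neg (hold w (hs.reached_sub (hs.done_sub hw)))]
          rw [this]
          exact hj
    · obtain ⟨h1, h2, h3⟩ := MDist_new P hm hℓ ω hs hI hz hv hvR
      refine ⟨h1, Or.inr ?_⟩
      unfold MS.D at h3
      rw [Finset.mem_biUnion] at h3
      obtain ⟨z', hz', hvt⟩ := h3
      refine ⟨z, Finset.mem_insert_self _ _, z', Finset.mem_union_right _ hz', ?_, ?_, hvt, ?_⟩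
      · unfold MS.U at hz'
        exact mem_nb.1 (Finset.mem_sdiff.1 hz').1
      · simp only [MP.proc]
        rw [if_pos hz']
      · rw [hdepz]
        exact h2
  · intro y hy
    by_cases hyU : y ∈ s.U z
    · have hyr : y ∉ s.reached := fun h => hold y (hs.reached_sub h) hyU
      have hval : (P.val s z ω y).Nonempty := by
        rcases Finset.mem_union.1 hy with h | h
        · exact absurd h hyr
        · exact (Finset.mem_filter.1 h).2
      have hctr : (P.proc s z ω).ctr y ∈ P.val s z ω y := by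
        have h : y ∈ s.U z ∧ (P.val s z ω y).Nonempty := ⟨hyU, hval⟩
        simp only [MP.proc]
        rw [dif_pos h]
        exact h.2.choose_spec
      set c := (P.proc s z ω).ctr y with hc
      have hc1 := Finset.mem_filter.1 hctr
      have hcR : c ∈ P.newR s z ω := hc1.2.2 (MDist_self c P.m)
      have hfar := P.far hm hℓ hs hz hyU hc1.1
      have hcn : c ∉ s.R := (hfar.2 c (MDist_self c P.m)).1
      obtain ⟨-, h2, -⟩ := MDist_new P hm hℓ ω hs hI hz hcR hcn
      refine joined_mono h2 (fun _ h => h) (le_of_eq ?_)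
      have : (P.proc s z ω).dep y = s.dep z + 1 := by
        simp only [MP.proc]
        rw [if_pos hyU]
      rw [this]
      push_cast
      ring
    · have hyr : y ∈ s.reached := by
        rcases Finset.mem_union.1 hy with h | h
        · exact h
        · exact absurd (Finset.mem_filter.1 h).1 hyU
      have h1 : (P.proc s z ω).ctr y = s.ctr y := by
        simp only [MP.proc]
        rw [dif_neg (fun h => hyU h.1)]
      have h2 : (P.proc s z ω).dep y = s.dep y := by
        simp only [MP.proc]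
        rw [if_neg hyU]
      rw [h1, h2]
      exact hI.2 y hyr

lemma MDist_init (P : MP) (ω : Fin (2 + 1) × El d → Bool)
    (hfull : FullOpen P.κ (fld 0 ω) (Bx (0 : V d) P.m : Set (V d))) :
    MDist_Inv P ω (P.init : MS d) := by
  have hfull' : FullOpen P.κ (tot ω) (Bx (0 : V d) P.m : Set (V d)) :=
    hfull.mono (fun e he => fld_le_tot 0 ω e he)
  have hM : (((Bx (0 : V d) P.m).card : ℝ)) + 1 ≤ P.M d := by
    rw [MDist_card_Bx]
    have : (2 * P.m + 1) ^ d + 1 ≤ P.M d := by
      unfold MP.M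
      omega
    exact_mod_cast this
  constructor
  · intro v hv
    have hv' : v ∈ Bx (0 : V d) P.m := hv
    refine ⟨fun hκ => hfull'.2 hκ v hv', Or.inl ⟨hv', ?_⟩⟩
    have h0 : (0 : V d) ∈ Bx (0 : V d) P.m := MDist_self 0 P.m
    obtain ⟨hj, -⟩ := Rch.joined (rch_box hfull' h0 hv') (fun hκ => hfull'.2 hκ 0 h0)
    exact joined_mono hj (fun _ h => h) hM
  · intro z _
    change Joined P.κ (tot ω) 0 0 ((P.M d : ℝ) * (((0 : ℕ) : ℝ) + 1))
    refine ⟨SimpleGraph.Walk.nil, ?_⟩
    rw [SimpleGraph.Walk.length_nil, Nat.cast_zero]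
    positivity

theorem MP.dist_inv (P : MP) (hm : P.m ≤ P.ℓ) (hℓ : 1 ≤ P.ℓ) (ω : Fin (2 + 1) × El d → Bool)
    (hfull : FullOpen P.κ (fld 0 ω) (Bx (0 : V d) P.m : Set (V d))) (n : ℕ) :
    (∀ v ∈ ((P.expl hm hℓ).run n P.init ω).R, (P.κ = .site → tot ω s(v, v) = true) ∧
      ((v ∈ Bx (0 : V d) P.m ∧ Joined P.κ (tot ω) 0 v (P.M d)) ∨
        ∃ w ∈ ((P.expl hm hℓ).run n P.init ω).done, ∃ w' ∈ ((P.expl hm hℓ).run n P.init ω).exam,
          LatAdj w w' ∧ ((P.expl hm hℓ).run n P.init ω).exB w' = w ∧ v ∈ Tube P.ℓ w w' ∧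
          Joined P.κ (tot ω) 0 v (P.M d * (((P.expl hm hℓ).run n P.init ω).dep w + 2)))) ∧
    (∀ z ∈ ((P.expl hm hℓ).run n P.init ω).reached,
      Joined P.κ (tot ω) 0 (((P.expl hm hℓ).run n P.init ω).ctr z)
        (P.M d * (((P.expl hm hℓ).run n P.init ω).dep z + 1))) := by
  have key : MDist_Inv P ω ((P.expl hm hℓ).run n P.init ω) := by
    induction n with
    | zero => exact MDist_init P ω hfull
    | succ n ih =>
      rw [Expl.run_succ]
      have hs : P.good ((P.expl hm hℓ).run n P.init ω) :=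
        (P.expl hm hℓ).good_run n ω P.good_init
      change MDist_Inv P ω (P.step ((P.expl hm hℓ).run n P.init ω) ω)
      generalize (P.expl hm hℓ).run n P.init ω = s at ih hs
      unfold MP.step
      split
      · exact ih
      · rename_i z hz
        exact MDist_proc P hm hℓ ω hs ih hz
  exact key

end Pool.Agent.H47.GM
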