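import Pool.Agent.H47.GM.MBadDef
import Pool.Agent.H47.GM.MExpl

/-!
# GM module MFail: probability of failed sites

If every site of `B` has failed by time `n` then the set `B'` of the examiners (`exB`) of the sites of `B`
(neighbours of the sites of `B`; `0` is reached, so `0 ∉ B`) consists of sites whose processing was bad, and
`|B| ≤ 2d |B'|`. (By induction along the run: if `z` is examined, `z ≠ 0` and not reached at time `n`, then
`exB z` was processed at some time `k < n` and this step was bad.) Union over the subsets `B'` of the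
neighbourhood of `B` (at most `2^{2d|B|}` of them) and `seq_bound`: probability at most
`4^{d|B|} ε₂^{|B'|} ≤ (4^d ρ₁)^{|B|}` if `ε₂ = ρ₁^{2d}`, `ρ₁ ≤ 1`.
-/

open MeasureTheory Filter Topology
open Pool.Agent.H17.IIC Pool.Agent.H41.QC

namespace Pool.Agent.H47.GM

variable {d : ℕ}

/-- a failed site was examined in a bad step -/
lemma MFail_key (P : MP) (hm : P.m ≤ P.ℓ) (hℓ : 1 ≤ P.ℓ) (ω : Fin (2 + 1) × El d → Bool) (n : ℕ) :
    ∀ z ∈ ((P.expl hm hℓ).run n P.init ω).exam, z ∉ ((P.expl hm hℓ).run n P.init ω).reached →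
      ∃ k < n, nxt ((P.expl hm hℓ).run k P.init ω) =
          some (((P.expl hm hℓ).run n P.init ω).exB z) ∧
        mbad ((P.expl hm hℓ).run k P.init ω) ((P.expl hm hℓ).run (k + 1) P.init ω) := by
  classical
  induction n with
  | zero =>
    intro z hz hz'
    exact absurd hz hz'
  | succ n ih =>
    intro z hz hz'
    have hrun : (P.expl hm hℓ).run (n + 1) P.init ω =
        P.step ((P.expl hm hℓ).run n P.init ω) ω := Expl.run_succ _ n P.init ω
    rw [hrun] at hz hz' ⊢
    cases hn : nxt ((P.expl hm hℓ).run n P.init ω) with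
    | none =>
      have h1 : P.step ((P.expl hm hℓ).run n P.init ω) ω = (P.expl hm hℓ).run n P.init ω := by
        unfold MP.step
        rw [hn]
      rw [h1] at hz hz' ⊢
      obtain ⟨k, hk, h2⟩ := ih z hz hz'
      exact ⟨k, by omega, h2⟩
    | some w =>
      have h1 : P.step ((P.expl hm hℓ).run n P.init ω) ω =
          P.proc ((P.expl hm hℓ).run n P.init ω) w ω := by
        unfold MP.step
        rw [hn]
      by_cases hU : z ∈ ((P.expl hm hℓ).run n P.init ω).U w
      · refine ⟨n, by omega, ?_, ?_⟩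
        · rw [hn, h1]
          change some w = some (if z ∈ ((P.expl hm hℓ).run n P.init ω).U w then w else _)
          rw [if_pos hU]
        · rw [hrun]
          exact ⟨w, hn, z, hU, hz'⟩
      · rw [h1] at hz hz' ⊢
        have hz1 : z ∈ ((P.expl hm hℓ).run n P.init ω).exam := by
          rcases Finset.mem_union.1 (show z ∈ ((P.expl hm hℓ).run n P.init ω).exam ∪
            ((P.expl hm hℓ).run n P.init ω).U w from hz) with h | h
          · exact h
          · exact absurd h hU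
        have hz2 : z ∉ ((P.expl hm hℓ).run n P.init ω).reached := by
          intro h
          exact hz' (Finset.mem_union_left _ h)
        obtain ⟨k, hk, h2, h3⟩ := ih z hz1 hz2
        refine ⟨k, by omega, ?_, h3⟩
        rw [h2]
        change _ = some (if z ∈ ((P.expl hm hℓ).run n P.init ω).U w then w else _)
        rw [if_neg hU]

theorem MP.failed_bound (P : MP) (hm : P.m ≤ P.ℓ) (hℓ : 1 ≤ P.ℓ) (hd : 1 ≤ d)
    {p δ : unitInterval} {ρ₁ : ℝ} (hρ₀ : 0 ≤ ρ₁) (hρ₁ : ρ₁ ≤ 1)
    (hbad : ∀ s : MS d, P.good s → ∀ z, nxt s = some z →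
      (mu (parJ d 2 p δ)).real {ω | mbad s (P.step s ω)} ≤ ρ₁ ^ (2 * d))
    (B : Finset (V d)) (n : ℕ) :
    (mu (parJ d 2 p δ)).real {ω | ∀ z ∈ B, z ∈ ((P.expl hm hℓ).run n P.init ω).exam ∧
      z ∉ ((P.expl hm hℓ).run n P.init ω).reached} ≤ (4 ^ d * ρ₁) ^ B.card := by
  classical
  set N : Finset (V d) := B.biUnion nb with hN
  set 𝒮 : Finset (Finset (V d)) := N.powerset.filter fun B' => B.card ≤ 2 * d * B'.card with h𝒮
  set Ev : Finset (V d) → Set (Fin (2 + 1) × El d → Bool) := fun B' =>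
    {ω | ∀ b ∈ B', ∃ k < n, (P.expl hm hℓ).lab ((P.expl hm hℓ).run k P.init ω) = some b ∧
      mbad ((P.expl hm hℓ).run k P.init ω) ((P.expl hm hℓ).run (k + 1) P.init ω)} with hEv
  have hNcard : N.card ≤ 2 * d * B.card := by
    calc N.card ≤ ∑ z ∈ B, (nb z).card := Finset.card_biUnion_le
      _ ≤ ∑ z ∈ B, 2 * d := Finset.sum_le_sum fun z _ => card_nb_le z
      _ = 2 * d * B.card := by rw [Finset.sum_const, smul_eq_mul, mul_comm]
  have hsub : {ω | ∀ z ∈ B, z ∈ ((P.expl hm hℓ).run n P.init ω).exam ∧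
      z ∉ ((P.expl hm hℓ).run n P.init ω).reached} ⊆ ⋃ B' ∈ 𝒮, Ev B' := by
    intro ω hω
    have hgood : P.good ((P.expl hm hℓ).run n P.init ω) :=
      Expl.good_run (P.expl hm hℓ) n ω P.good_init
    set s := (P.expl hm hℓ).run n P.init ω with hs
    have hne : ∀ z ∈ B, z ≠ 0 := by
      intro z hz h0
      exact (hω z hz).2 (h0 ▸ hgood.zero)
    have hadj : ∀ z ∈ B, LatAdj (s.exB z) z := fun z hz =>
      (hgood.exB_done z (hω z hz).1 (hne z hz)).2
    have hcard : B.card ≤ 2 * d * (B.image s.exB).card := by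
      have h1 : B ⊆ (B.image s.exB).biUnion nb := by
        intro z hz
        exact Finset.mem_biUnion.2 ⟨s.exB z, Finset.mem_image_of_mem _ hz, mem_nb.2 (hadj z hz)⟩
      calc B.card ≤ ((B.image s.exB).biUnion nb).card := Finset.card_le_card h1
        _ ≤ ∑ w ∈ B.image s.exB, (nb w).card := Finset.card_biUnion_le
        _ ≤ ∑ w ∈ B.image s.exB, 2 * d := Finset.sum_le_sum fun z _ => card_nb_le z
        _ = 2 * d * (B.image s.exB).card := by rw [Finset.sum_const, smul_eq_mul, mul_comm]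
    have hmem : B.image s.exB ∈ 𝒮 := by
      rw [h𝒮, Finset.mem_filter, Finset.mem_powerset]
      refine ⟨?_, hcard⟩
      intro w hw
      obtain ⟨z, hz, rfl⟩ := Finset.mem_image.1 hw
      exact Finset.mem_biUnion.2 ⟨z, hz, mem_nb.2 (LatAdj.symm (hadj z hz))⟩
    refine Set.mem_iUnion₂.2 ⟨B.image s.exB, hmem, ?_⟩
    intro w hw
    obtain ⟨z, hz, rfl⟩ := Finset.mem_image.1 hw
    exact MFail_key P hm hℓ ω n z (hω z hz).1 (hω z hz).2
  have hone : ∀ B' ∈ 𝒮, (mu (parJ d 2 p δ)).real (Ev B') ≤ ρ₁ ^ B.card := by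
    intro B' hB'
    rw [h𝒮, Finset.mem_filter] at hB'
    have h1 := Expl.seq_bound (P.expl hm hℓ) (parJ d 2 p δ) mbad (ε := ρ₁ ^ (2 * d))
      (pow_nonneg hρ₀ _) hbad P.good_init B' n
    refine h1.trans ?_
    rw [← pow_mul]
    exact pow_le_pow_of_le_one hρ₀ hρ₁ hB'.2
  calc (mu (parJ d 2 p δ)).real {ω | ∀ z ∈ B, z ∈ ((P.expl hm hℓ).run n P.init ω).exam ∧
      z ∉ ((P.expl hm hℓ).run n P.init ω).reached}
      ≤ (mu (parJ d 2 p δ)).real (⋃ B' ∈ 𝒮, Ev B') := measureReal_mono hsub (measure_ne_top _ _)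
    _ ≤ ∑ B' ∈ 𝒮, (mu (parJ d 2 p δ)).real (Ev B') := measureReal_biUnion_finset_le _ _
    _ ≤ ∑ B' ∈ 𝒮, ρ₁ ^ B.card := Finset.sum_le_sum hone
    _ = 𝒮.card * ρ₁ ^ B.card := by rw [Finset.sum_const, nsmul_eq_mul]
    _ ≤ (4 ^ d) ^ B.card * ρ₁ ^ B.card := by
      refine mul_le_mul_of_nonneg_right ?_ (pow_nonneg hρ₀ _)
      have h1 : 𝒮.card ≤ 2 ^ N.card := by
        rw [← Finset.card_powerset]
        exact Finset.card_filter_le _ _
      have h2 : 2 ^ N.card ≤ 2 ^ (2 * d * B.card) := Nat.pow_le_pow_right (by norm_num) hNcard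
      have h3 : (2 : ℕ) ^ (2 * d * B.card) = (4 ^ d) ^ B.card := by
        rw [pow_mul, pow_mul]
        norm_num
      have h4 : 𝒮.card ≤ (4 ^ d) ^ B.card := h3 ▸ (h1.trans h2)
      exact_mod_cast h4
    _ = (4 ^ d * ρ₁) ^ B.card := by rw [mul_pow]

end Pool.Agent.H47.GM
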