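import Pool.Agent.H47.GM.MLimit

/-!
# GM module MLimA: survival of the exploration

If `nxt` is `none` at time `n` the state is constant afterwards. If it is never `none`, at time `n`
exactly `n` sites are processed, so `Rc` is infinite. `A_dep`: `Expl.run_dep`, `full_fin`.
-/

open MeasureTheory Filter Topology
open Pool.Agent.H17.IIC Pool.Agent.H41.QC

namespace Pool.Agent.H47.GM

variable {d : ℕ}

variable (P : MP) (hm : P.m ≤ P.ℓ) (hℓ : 1 ≤ P.ℓ)

/-- the exploration survives `n` steps, with an open initial seed -/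
def MP.A (n : ℕ) : Set (Fin (2 + 1) × El d → Bool) :=
  {ω | FullOpen P.κ (fld 0 ω) (Bx (0 : V d) P.m : Set (V d)) ∧
    nxt (P.st hm hℓ n ω) ≠ none}

lemma MP.mLimA_step (n : ℕ) (ω : Fin (2 + 1) × El d → Bool) :
    P.st hm hℓ (n + 1) ω = P.step (P.st hm hℓ n ω) ω :=
  (P.expl hm hℓ).run_succ n (P.init : MS d) ω

lemma MP.mLimA_const (n : ℕ) (ω : Fin (2 + 1) × El d → Bool)
    (h : nxt (P.st hm hℓ n ω) = none) {k : ℕ} (hk : n ≤ k) :
    P.st hm hℓ k ω = P.st hm hℓ n ω := by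
  induction k, hk using Nat.le_induction with
  | base => rfl
  | succ k _ ih =>
    rw [P.mLimA_step hm hℓ k ω, ih]
    unfold MP.step
    rw [h]

lemma MP.mLimA_good (n : ℕ) (ω : Fin (2 + 1) × El d → Bool) : P.good (P.st hm hℓ n ω) :=
  (P.expl hm hℓ).good_run n ω (s := (P.init : MS d)) P.good_init

lemma MP.mLimA_card (ω : Fin (2 + 1) × El d → Bool)
    (h : ∀ n, nxt (P.st hm hℓ n ω) ≠ none) (n : ℕ) :
    (P.st hm hℓ n ω).done.card = n := by
  induction n with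
  | zero => rfl
  | succ n ih =>
    obtain ⟨z, hz⟩ := Option.ne_none_iff_exists'.1 (h n)
    obtain ⟨_, h2, _⟩ := nxt_some hz
    rw [P.mLimA_step hm hℓ n ω]
    have h3 : (P.step (P.st hm hℓ n ω) ω).done = insert z (P.st hm hℓ n ω).done := by
      unfold MP.step
      rw [hz]
      simp only [MP.proc]
    rw [h3, Finset.card_insert_of_notMem h2, ih]

theorem MP.A_anti : Antitone (P.A hm hℓ : ℕ → Set (Fin (2 + 1) × El d → Bool)) := by
  intro n k hnk ω hω
  refine ⟨hω.1, ?_⟩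
  intro h
  apply hω.2
  rw [P.mLimA_const hm hℓ n ω h hnk]
  exact h

theorem MP.A_dep (n : ℕ) : ∃ Λ : Finset (Fin (2 + 1) × El d),
    On (Λ : Set (Fin (2 + 1) × El d)) (P.A hm hℓ n) := by
  classical
  obtain ⟨Λ₁, h1⟩ := (P.expl hm hℓ).run_dep n (P.init : MS d)
  obtain ⟨Λ₂, h2⟩ := full_fin (d := d) P.κ (Bx (0 : V d) P.m)
  refine ⟨Λ₁ ∪ Λ₂.image (fun e => ((0 : Fin (2 + 1)), e)), ?_⟩
  intro ω ω' hω
  have h3 : P.st hm hℓ n ω = P.st hm hℓ n ω' :=
    h1 ω ω' (fun i hi => hω i (Finset.mem_coe.2 (Finset.mem_union_left _ hi)))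
  have h4 : FullOpen P.κ (fld 0 ω) (Bx (0 : V d) P.m : Set (V d)) ↔
      FullOpen P.κ (fld 0 ω') (Bx (0 : V d) P.m : Set (V d)) :=
    h2 (fld 0 ω) (fld 0 ω') (fun e he => hω (0, e)
      (Finset.mem_coe.2 (Finset.mem_union_right _ (Finset.mem_image_of_mem _ he))))
  show (_ ∧ _) ↔ (_ ∧ _)
  rw [h3, h4]

theorem MP.A_inter : (⋂ n, P.A hm hℓ n) = {ω : Fin (2 + 1) × El d → Bool |
    (P.Rc hm hℓ ω).Infinite ∧ FullOpen P.κ (fld 0 ω) (Bx (0 : V d) P.m : Set (V d))} := by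
  classical
  ext ω
  rw [Set.mem_iInter]
  constructor
  · intro h
    refine ⟨?_, (h 0).1⟩
    intro hfin
    have hcard := P.mLimA_card hm hℓ ω (fun n => (h n).2) (hfin.toFinset.card + 1)
    have hsub : (P.st hm hℓ (hfin.toFinset.card + 1) ω).done ⊆ hfin.toFinset := by
      intro z hz
      rw [Set.Finite.mem_toFinset]
      exact ⟨_, (P.mLimA_good hm hℓ _ ω).done_sub hz⟩
    have := Finset.card_le_card hsub
    omega
  · rintro ⟨hinf, hfull⟩ n
    refine ⟨hfull, ?_⟩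
    intro h
    apply hinf
    refine (P.st hm hℓ n ω).reached.finite_toSet.subset ?_
    rintro z ⟨k, hk⟩
    rw [Finset.mem_coe]
    rcases le_total k n with hkn | hkn
    · exact (P.st_mono hm hℓ ω hkn).1 hk
    · rwa [P.mLimA_const hm hℓ n ω h hkn] at hk

end Pool.Agent.H47.GM
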