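import Pool.Agent.H47.GM.Basic

/-!
# GM module CondGeo: useful boundary elements

Let `X = useful κ R D C m ω` be the set of elements `stE κ a b` with `a ∈ R`, `b ∈ D \ R`, `LatAdj a b`,
such that `b` is connected, inside `D \ R` by elements not touching `R`, to a vertex of a fully open box
`Bx c m`, `c ∈ C`.

`exists_useful`: take a path from `u ∈ Bx x m ⊆ R` to `v ∈ Bx c m` and the LAST step `u_i → u_{i+1}` whose
element touches `R` (the first step does). Bond: the later edges do not touch `R`, so `u_{i+1} ∉ R`, hence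
`u_i ∈ R`. Site: `u_{i+1}` is in `R` or adjacent to `R`; it is not `v` (the box is far from `R`), the next
vertex does not touch `R`, so `u_{i+1} ∉ R` and `u_{i+1}` is adjacent to some `a ∈ R`.

`grow_of_useful`: `a → b` is open in `mix` (it touches `R`), the rest does not touch `R`, the box is
connected (`rch_box`, `not_touch_of_far`).
-/

open MeasureTheory Filter Topology
open Pool.Agent.H17.IIC Pool.Agent.H41.QC

namespace Pool.Agent.H47.GM

variable {d : ℕ}

open Classical in
/-- the set of useful boundary elements -/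
noncomputable def useful (κ : Kind) (R D C : Finset (V d)) (m : ℕ) (ω : El d → Bool) :
    Finset (El d) :=
  ((R ×ˢ D).filter fun q => LatAdj q.1 q.2 ∧ q.2 ∉ R ∧ ∃ c ∈ C,
    FullOpen κ ω (Bx c m : Set (V d)) ∧ ∃ v ∈ Bx c m,
      Rch κ (mix κ (R : Set (V d)) ω (fun _ => false)) ((D : Set (V d)) \ R) q.2 v).image
    fun q => stE κ q.1 q.2

lemma CondGeo_mix_le {κ : Kind} {R : Set (V d)} {ω σ : El d → Bool} {e : El d}
    (h : mix κ R ω (fun _ => false) e = true) : mix κ R ω σ e = true := by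
  by_cases ht : touch κ R e
  · rw [mix_touch ht] at h
    exact absurd h (by simp)
  · rw [mix_not_touch ht] at h ⊢
    exact h

/-- a vertex of `R` has no step which does not touch `R` -/
lemma CondGeo_touch_left {κ : Kind} {R : Set (V d)} {a b : V d} (ha : a ∈ R) (hab : LatAdj a b) :
    touch κ R (stE κ a b) := by
  cases κ
  · exact ⟨a, Sym2.mem_mk_left a b, Or.inl ha⟩
  · exact ⟨b, Sym2.mem_mk_left b b, Or.inr ⟨rfl, a, ha, hab⟩⟩

lemma CondGeo_not_mem_of_not_touch {κ : Kind} {R : Set (V d)} {a b : V d}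
    (h : ¬ touch κ R (stE κ a b)) : b ∉ R := by
  intro hb
  apply h
  cases κ
  · exact ⟨b, Sym2.mem_mk_right a b, Or.inl hb⟩
  · exact ⟨b, Sym2.mem_mk_left b b, Or.inl hb⟩

lemma CondGeo_start {κ : Kind} {R D : Set (V d)} {ω : El d → Bool} {b v : V d}
    (h : Rch κ (mix κ R ω (fun _ => false)) D b v) (hv : v ∉ R) : b ∉ R := by
  intro hb
  unfold Rch at h
  rcases Relation.ReflTransGen.cases_head h with h | ⟨c, h1, -⟩
  · subst h
    exact hv hb
  · obtain ⟨h2, -, h3⟩ := h1
    rw [mix_touch (CondGeo_touch_left hb h2)] at h3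
    exact absurd h3 (by simp)

lemma CondGeo_split {κ : Kind} {R D : Set (V d)} {ω : El d → Bool} {u v : V d}
    (h : Rch κ ω D u v) :
    Rch κ (mix κ R ω (fun _ => false)) (D \ R) u v ∨
      ∃ a b, LatAdj a b ∧ b ∈ D ∧ ω (stE κ a b) = true ∧ touch κ R (stE κ a b) ∧
        Rch κ (mix κ R ω (fun _ => false)) (D \ R) b v := by
  unfold Rch at h
  induction h using Relation.ReflTransGen.head_induction_on with
  | refl => exact Or.inl Relation.ReflTransGen.refl
  | @head a b hab _ ih =>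
    rcases ih with ih | ih
    · by_cases ht : touch κ R (stE κ a b)
      · exact Or.inr ⟨a, b, hab.1, hab.2.1, hab.2.2, ht, ih⟩
      · left
        refine Relation.ReflTransGen.head ⟨hab.1, ⟨hab.2.1, CondGeo_not_mem_of_not_touch ht⟩, ?_⟩ ih
        rw [mix_not_touch ht]
        exact hab.2.2
    · exact Or.inr ih

lemma exists_useful (κ : Kind) {R D C : Finset (V d)} {x : V d} {m : ℕ}
    (hx : Bx x m ⊆ R) (hCD : ∀ c ∈ C, Bx c m ⊆ D)
    (hfar : ∀ c ∈ C, ∀ v ∈ Bx c m, v ∉ R ∧ ∀ a ∈ R, ¬ LatAdj a v) {ω : El d → Bool}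
    (h : Hit κ ω D x m C) : ∃ e ∈ useful κ R D C m ω, ω e = true := by
  classical
  obtain ⟨c, hc, hf, u, hu, v, hv, hr⟩ := h
  have hc' : c ∈ C := hc
  have hvR : v ∉ (R : Set (V d)) := fun h => (hfar c hc' v hv).1 (by exact_mod_cast h)
  have huR : u ∈ (R : Set (V d)) := by exact_mod_cast hx hu
  rcases CondGeo_split (R := (R : Set (V d))) hr with h1 | h1
  · exact absurd huR (CondGeo_start h1 hvR)
  · obtain ⟨a, b, hab, hbD, hω, ht, hb⟩ := h1
    have hbR : b ∉ (R : Set (V d)) := CondGeo_start hb hvR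
    have key : ∀ a' : V d, a' ∈ R → LatAdj a' b → stE κ a' b = stE κ a b →
        ∃ e ∈ useful κ R D C m ω, ω e = true := by
      intro a' ha' hadj heq
      refine ⟨stE κ a' b, ?_, by rw [heq]; exact hω⟩
      unfold useful
      rw [Finset.mem_image]
      refine ⟨(a', b), ?_, rfl⟩
      rw [Finset.mem_filter, Finset.mem_product]
      refine ⟨⟨ha', by exact_mod_cast hbD⟩, hadj, by exact_mod_cast hbR, c, hc', hf, v, hv, hb⟩
    cases κ
    · obtain ⟨w, hw, h2⟩ := ht
      have hw' : w ∈ s(a, b) := hw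
      rw [Sym2.mem_iff] at hw'
      have h3 : w ∈ (R : Set (V d)) := by
        rcases h2 with h2 | ⟨h2, -⟩
        · exact h2
        · exact absurd h2 (by simp)
      rcases hw' with rfl | rfl
      · exact key w (by exact_mod_cast h3) hab rfl
      · exact absurd h3 hbR
    · obtain ⟨w, hw, h2⟩ := ht
      have hw' : w ∈ s(b, b) := hw
      rw [Sym2.mem_iff] at hw'
      have hwb : w = b := by rcases hw' with h | h <;> exact h
      subst hwb
      rcases h2 with h2 | ⟨-, a', ha', hadj⟩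
      · exact absurd h2 hbR
      · exact key a' (by exact_mod_cast ha') hadj rfl

lemma grow_of_useful (κ : Kind) {R D C : Finset (V d)} {m : ℕ}
    (hCD : ∀ c ∈ C, Bx c m ⊆ D)
    (hfar : ∀ c ∈ C, ∀ v ∈ Bx c m, v ∉ R ∧ ∀ a ∈ R, ¬ LatAdj a v) {ω σ : El d → Bool} {e : El d}
    (he : e ∈ useful κ R D C m ω) (hσ : σ e = true) :
    ∃ c ∈ C, FullOpen κ ω (Bx c m : Set (V d)) ∧
      Bx c m ⊆ growF κ R D (mix κ (R : Set (V d)) ω σ) := by
  classical
  unfold useful at he
  rw [Finset.mem_image] at he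
  obtain ⟨⟨a, b⟩, hq, rfl⟩ := he
  rw [Finset.mem_filter, Finset.mem_product] at hq
  obtain ⟨⟨haR, hbD⟩, hab, hbR, c, hc, hf, v, hv, hr⟩ := hq
  refine ⟨c, hc, hf, ?_⟩
  have hfar' : ∀ v ∈ (Bx c m : Set (V d)), v ∉ (R : Set (V d)) ∧ ∀ a ∈ (R : Set (V d)),
      ¬ LatAdj a v := by
    intro v hv
    have := hfar c hc v (by exact_mod_cast hv)
    exact ⟨by exact_mod_cast this.1, fun a ha => this.2 a (by exact_mod_cast ha)⟩
  have hf' : FullOpen κ (mix κ (R : Set (V d)) ω σ) (Bx c m : Set (V d)) := by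
    refine (Basic_fullOpen_congr ?_).1 hf
    intro a ha b hb
    rw [mix_not_touch (not_touch_of_far hfar' ha hb).1]
  have hsub : (Bx c m : Set (V d)) ⊆ (D : Set (V d)) \ R := by
    intro w hw
    exact ⟨by exact_mod_cast hCD c hc (by exact_mod_cast hw), (hfar' w hw).1⟩
  intro w hw
  rw [mem_growF]
  refine ⟨a, haR, ?_⟩
  have h1 : Stp κ (mix κ (R : Set (V d)) ω σ) ((D : Set (V d)) \ R) a b := by
    refine ⟨hab, ⟨by exact_mod_cast hbD, by exact_mod_cast hbR⟩, ?_⟩
    rw [mix_touch (CondGeo_touch_left (by exact_mod_cast haR) hab)]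
    exact hσ
  have h2 : Rch κ (mix κ (R : Set (V d)) ω σ) ((D : Set (V d)) \ R) b v :=
    Rch.mono hr (fun e he => CondGeo_mix_le he) (fun _ h => h)
  have h3 : Rch κ (mix κ (R : Set (V d)) ω σ) ((D : Set (V d)) \ R) v w :=
    Rch.mono (rch_box hf' hv hw) (fun _ h => h) hsub
  exact Relation.ReflTransGen.head h1 (Relation.ReflTransGen.trans h2 h3)

end Pool.Agent.H47.GM
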