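import Pool.Agent.H41.QC.ProbBad
import Pool.Agent.H47.GM.CondGeo
import Pool.Agent.H47.GM.Mu

/-!
# GM module Cond: the conditioning lemma for an arbitrary explored cluster

Let `X(ω) = useful κ R D C m ω`. All elements of `X` touch `R`; `X` depends only on the elements not
touching `R` (`mix_not_touch`; the boxes are far from `R`) and takes finitely many values.
(1) `Hit κ ω D x m C` implies that some element of `X(ω)` is `ω`-open (`exists_useful`).
(2) So `E (1-p)^{|X|} = P(no element of X is open) ≤ η`, and `P(|X| < t) ≤ η (1-p)^{-t}`.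
(3) If some element of `X(ω)` is open in the sprinkled configuration then the event holds
(`grow_of_useful`). So the probability of failure is at most
`E (1-δ)^{|X|} ≤ (1-δ)^t + P(|X| < t) ≤ ε` for `t` large with `(1-δ)^t ≤ ε/2` and then
`η = (ε/2) (1-p)^t`.

Independence of the elements touching `R` and not touching `R`: `mu_indep` (`mu_const`), sum over the
finitely many values of `X`.
-/

open MeasureTheory Filter Topology
open Pool.Agent.H17.IIC Pool.Agent.H41.QC

namespace Pool.Agent.H47.GM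

variable {d : ℕ}

section absCond
variable {ι : Type*}

/-- law of the event that all elements of a random finite set, determined by the coordinates outside
`T`, contained in `T`, with finitely many values, are closed -/
lemma Cond_same {ι : Type*} (T : Set ι) (X : (ι → Bool) → Finset ι) (F : Finset ι)
    (hF : ∀ ω, X ω ⊆ F) (hT : ∀ ω, ∀ e ∈ X ω, e ∈ T)
    (hdep : ∀ ω ω' : ι → Bool, (∀ i ∈ Tᶜ, ω i = ω' i) → X ω = X ω') (Λ : Finset ι)
    (hΛ : ∀ ω ω' : ι → Bool, (∀ i ∈ Λ, ω i = ω' i) → X ω = X ω') (p : unitInterval) :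
    MeasurableSet {ω : ι → Bool | ∀ e ∈ X ω, ω e = false} ∧
    (prodBern ι p).real {ω | ∀ e ∈ X ω, ω e = false}
      = ∑ S ∈ F.powerset, (prodBern ι p).real {ω | X ω = S} * (1 - (p : ℝ)) ^ S.card := by
  classical
  have hmX : ∀ S, MeasurableSet {ω : ι → Bool | X ω = S} := fun S =>
    On.measurableSet (Λ := Λ) (fun ω ω' h => by
      simp only [Set.mem_ofPred_eq]
      rw [hΛ ω ω' h])
  have hmC : ∀ S : Finset ι, MeasurableSet {ω : ι → Bool | ∀ e ∈ S, ω e = false} := fun S =>
    On.measurableSet (Λ := S) (fun ω ω' h => by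
      simp only [Set.mem_ofPred_eq]
      refine forall₂_congr fun e he => ?_
      rw [h e he])
  have hdec : {ω : ι → Bool | ∀ e ∈ X ω, ω e = false}
      = ⋃ S ∈ F.powerset, ({ω | ∀ e ∈ S, ω e = false} ∩ {ω | X ω = S}) := by
    ext ω
    simp only [Set.mem_ofPred_eq, Set.mem_iUnion, Set.mem_inter_iff, Finset.mem_powerset,
      exists_prop]
    constructor
    · intro h
      exact ⟨X ω, hF ω, h, rfl⟩
    · rintro ⟨S, -, h, rfl⟩
      exact h
  refine ⟨?_, ?_⟩
  · rw [hdec]
    exact Finset.measurableSet_biUnion _ fun S _ => (hmC S).inter (hmX S)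
  · rw [hdec, measureReal_biUnion_finset]
    · refine Finset.sum_congr rfl fun S hS => ?_
      by_cases hST : ∀ e ∈ S, e ∈ T
      · have h := mu_indep (fun _ : ι => p) T (hmC S) (hmX S)
          (fun ω ω' h => by
            simp only [Set.mem_ofPred_eq]
            refine forall₂_congr fun e he => ?_
            rw [h e (hST e he)])
          (fun ω ω' h => by
            simp only [Set.mem_ofPred_eq]
            rw [hdep ω ω' h])
        rw [mu_const] at h
        rw [h, ProbBad_closed, mul_comm]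
      · have hemp : {ω : ι → Bool | X ω = S} = ∅ := by
          ext ω
          simp only [Set.mem_ofPred_eq, Set.mem_empty_iff_false, iff_false]
          rintro rfl
          exact hST (hT ω)
        rw [hemp]
        simp
    · intro S _ S' _ hne
      refine Set.disjoint_left.2 ?_
      rintro ω ⟨-, h⟩ ⟨-, h'⟩
      exact hne (h.symm.trans h')
    · intro S _
      exact (hmC S).inter (hmX S)

/-- the same for an independent configuration -/
lemma Cond_prod {ι : Type*} (X : (ι → Bool) → Finset ι) (F : Finset ι)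
    (hF : ∀ ω, X ω ⊆ F) (Λ : Finset ι)
    (hΛ : ∀ ω ω' : ι → Bool, (∀ i ∈ Λ, ω i = ω' i) → X ω = X ω') (p δ : unitInterval) :
    MeasurableSet {q : (ι → Bool) × (ι → Bool) | ∀ e ∈ X q.1, q.2 e = false} ∧
    ((prodBern ι p).prod (prodBern ι δ)).real {q | ∀ e ∈ X q.1, q.2 e = false}
      = ∑ S ∈ F.powerset, (prodBern ι p).real {ω | X ω = S} * (1 - (δ : ℝ)) ^ S.card := by
  classical
  have hmX : ∀ S, MeasurableSet {ω : ι → Bool | X ω = S} := fun S =>
    On.measurableSet (Λ := Λ) (fun ω ω' h => by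
      simp only [Set.mem_ofPred_eq]
      rw [hΛ ω ω' h])
  have hmC : ∀ S : Finset ι, MeasurableSet {ω : ι → Bool | ∀ e ∈ S, ω e = false} := fun S =>
    On.measurableSet (Λ := S) (fun ω ω' h => by
      simp only [Set.mem_ofPred_eq]
      refine forall₂_congr fun e he => ?_
      rw [h e he])
  have hdec : {q : (ι → Bool) × (ι → Bool) | ∀ e ∈ X q.1, q.2 e = false}
      = ⋃ S ∈ F.powerset, ({ω | X ω = S} ×ˢ {ω | ∀ e ∈ S, ω e = false}) := by
    ext q
    simp only [Set.mem_ofPred_eq, Set.mem_iUnion, Set.mem_prod, Finset.mem_powerset,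
      exists_prop]
    constructor
    · intro h
      exact ⟨X q.1, hF q.1, rfl, h⟩
    · rintro ⟨S, -, h1, h2⟩
      rw [h1]
      exact h2
  refine ⟨?_, ?_⟩
  · rw [hdec]
    exact Finset.measurableSet_biUnion _ fun S _ => (hmX S).prod (hmC S)
  · rw [hdec, measureReal_biUnion_finset]
    · refine Finset.sum_congr rfl fun S hS => ?_
      rw [measureReal_prod_prod, ProbBad_closed]
    · intro S _ S' _ hne
      refine Set.disjoint_left.2 ?_
      rintro ω ⟨h, -⟩ ⟨h', -⟩
      exact hne (h.symm.trans h')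
    · intro S _
      exact (hmX S).prod (hmC S)

end absCond

theorem cond_lemma (κ : Kind) (d : ℕ) {p δ : unitInterval} (hp1 : (p : ℝ) < 1)
    (hδ : 0 < (δ : ℝ)) {ε : ℝ} (hε : 0 < ε) :
    ∃ η : ℝ, 0 < η ∧ ∀ (x : V d) (m : ℕ) (R D C : Finset (V d)), Bx x m ⊆ R →
      (∀ c ∈ C, Bx c m ⊆ D) → (∀ c ∈ C, ∀ v ∈ Bx c m, v ∉ R ∧ ∀ a ∈ R, ¬ LatAdj a v) →
      1 - η ≤ (prodBern (El d) p).real {ω | Hit κ ω D x m C} →
      1 - ε ≤ ((prodBern (El d) p).prod (prodBern (El d) δ)).real
        {q | ∃ c ∈ C, FullOpen κ q.1 (Bx c m : Set (V d)) ∧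
          Bx c m ⊆ growF κ R D (mix κ (R : Set (V d)) q.1 q.2)} := by
  classical
  have hδ1 : (δ : ℝ) ≤ 1 := δ.2.2
  have hp0 : 0 ≤ (p : ℝ) := p.2.1
  obtain ⟨t, ht⟩ := exists_pow_lt_of_lt_one (half_pos hε) (show 1 - (δ : ℝ) < 1 by linarith)
  have hq : 0 < 1 - (p : ℝ) := by linarith
  refine ⟨ε / 2 * (1 - (p : ℝ)) ^ t, by positivity, ?_⟩
  intro x m R D C hx hCD hfar hHit
  set X : (El d → Bool) → Finset (El d) := useful κ R D C m with hX
  set F : Finset (El d) := (R ×ˢ D).image fun q => stE κ q.1 q.2 with hFdef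
  have hF : ∀ ω, X ω ⊆ F := by
    intro ω
    rw [hX, hFdef]
    exact Finset.image_subset_image (Finset.filter_subset _ _)
  set T : Set (El d) := {e | touch κ (R : Set (V d)) e} with hTdef
  have hT : ∀ ω, ∀ e ∈ X ω, e ∈ T := by
    intro ω e he
    rw [hX, useful, Finset.mem_image] at he
    obtain ⟨⟨a, b⟩, hab, rfl⟩ := he
    rw [Finset.mem_filter, Finset.mem_product] at hab
    obtain ⟨⟨ha, -⟩, hadj, -⟩ := hab
    simp only at ha hadj ⊢
    cases κ with
    | bond => exact ⟨a, by simp [stE], Or.inl ha⟩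
    | site => exact ⟨b, by simp [stE], Or.inr ⟨rfl, a, ha, hadj⟩⟩
  -- congruence of `FullOpen` and `Rch`
  have hcong : ∀ ω ω' : El d → Bool,
      (∀ c ∈ C, (FullOpen κ ω (Bx c m : Set (V d)) ↔ FullOpen κ ω' (Bx c m : Set (V d)))) →
      (∀ u v, LatAdj u v → v ∈ ((D : Set (V d)) \ R) →
        mix κ (R : Set (V d)) ω (fun _ => false) (stE κ u v)
          = mix κ (R : Set (V d)) ω' (fun _ => false) (stE κ u v)) → X ω = X ω' := by
    intro ω ω' h1 h2
    rw [hX, useful, useful]
    congr 1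
    refine Finset.filter_congr ?_
    rintro ⟨a, b⟩ -
    refine and_congr_right fun _ => and_congr_right fun _ => ?_
    refine exists_congr fun c => and_congr_right fun hc => ?_
    refine and_congr (h1 c hc) ?_
    refine exists_congr fun v => and_congr_right fun _ => ?_
    exact Rch.congr h2
  have hfull : ∀ (ω ω' : El d → Bool) (B : Set (V d)),
      (∀ a ∈ B, ∀ b ∈ B, LatAdj a b → ω (stE κ a b) = ω' (stE κ a b)) →
      (∀ a ∈ B, ω s(a, a) = ω' s(a, a)) → (FullOpen κ ω B ↔ FullOpen κ ω' B) := by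
    intro ω ω' B h1 h2
    refine and_congr ?_ ?_
    · refine forall₂_congr fun a ha => forall₂_congr fun b hb => forall_congr' fun h => ?_
      rw [h1 a ha b hb h]
    · refine forall_congr' fun _ => forall₂_congr fun a ha => ?_
      rw [h2 a ha]
  have hdep : ∀ ω ω' : El d → Bool, (∀ i ∈ Tᶜ, ω i = ω' i) → X ω = X ω' := by
    intro ω ω' h
    refine hcong ω ω' ?_ ?_
    · intro c hc
      have hfar' : ∀ v ∈ (Bx c m : Set (V d)), v ∉ (R : Set (V d)) ∧
          ∀ a ∈ (R : Set (V d)), ¬ LatAdj a v := fun v hv => hfar c hc v hv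
      refine hfull ω ω' _ ?_ ?_
      · intro a ha b hb _
        exact h _ (not_touch_of_far hfar' ha hb).1
      · intro a ha
        exact h _ (not_touch_of_far hfar' ha ha).2
    · intro u v _ _
      unfold mix
      by_cases ht : touch κ (R : Set (V d)) (stE κ u v)
      · rw [if_pos ht, if_pos ht]
      · rw [if_neg ht, if_neg ht]
        exact h _ ht
  set Λ : Finset (El d) := (D.biUnion fun v => (nb v).image fun u => stE κ u v)
    ∪ D.image (fun a => s(a, a)) with hΛdef
  have hΛ : ∀ ω ω' : El d → Bool, (∀ i ∈ Λ, ω i = ω' i) → X ω = X ω' := by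
    intro ω ω' h
    have h1 : ∀ u v, LatAdj u v → v ∈ D → ω (stE κ u v) = ω' (stE κ u v) := by
      intro u v huv hv
      apply h
      rw [hΛdef, Finset.mem_union]
      left
      rw [Finset.mem_biUnion]
      exact ⟨v, hv, Finset.mem_image.2 ⟨u, mem_nb.2 (LatAdj.symm huv), rfl⟩⟩
    refine hcong ω ω' ?_ ?_
    · intro c hc
      refine hfull ω ω' _ ?_ ?_
      · intro a ha b hb hab
        exact h1 a b hab (hCD c hc hb)
      · intro a ha
        apply h
        rw [hΛdef, Finset.mem_union]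
        right
        exact Finset.mem_image.2 ⟨a, hCD c hc ha, rfl⟩
    · intro u v huv hv
      unfold mix
      by_cases ht : touch κ (R : Set (V d)) (stE κ u v)
      · rw [if_pos ht, if_pos ht]
      · rw [if_neg ht, if_neg ht]
        exact h1 u v huv hv.1
  obtain ⟨hm1, he1⟩ := Cond_same T X F hF hT hdep Λ hΛ p
  obtain ⟨hm2, he2⟩ := Cond_prod X F hF Λ hΛ p δ
  -- (1) the closed event has small probability
  have hA : (prodBern (El d) p).real {ω | ∀ e ∈ X ω, ω e = false}
      ≤ ε / 2 * (1 - (p : ℝ)) ^ t := by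
    have hsub : {ω | Hit κ ω D x m C} ⊆ {ω | ∀ e ∈ X ω, ω e = false}ᶜ := by
      intro ω hω
      simp only [Set.mem_ofPred_eq, Set.mem_compl_iff] at hω ⊢
      intro hcl
      obtain ⟨e, he, heo⟩ := exists_useful κ hx hCD hfar hω
      rw [hcl e he] at heo
      exact Bool.false_ne_true heo
    have h1 := measureReal_mono (μ := prodBern (El d) p) hsub
    rw [probReal_compl_eq_one_sub hm1] at h1
    linarith
  -- (2) comparison of the sums
  have hw : ∀ S : Finset (El d), 0 ≤ (prodBern (El d) p).real {ω | X ω = S} := fun S =>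
    measureReal_nonneg
  have hsum1 : ∑ S ∈ F.powerset, (prodBern (El d) p).real {ω | X ω = S} ≤ 1 := by
    have hmX : ∀ S, MeasurableSet {ω : El d → Bool | X ω = S} := fun S =>
      On.measurableSet (Λ := Λ) (fun ω ω' h => by
        simp only [Set.mem_ofPred_eq]
        rw [hΛ ω ω' h])
    rw [← measureReal_biUnion_finset]
    · exact measureReal_le_one
    · intro S _ S' _ hne
      refine Set.disjoint_left.2 ?_
      intro ω h h'
      exact hne (h.symm.trans h')
    · intro S _
      exact hmX S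
  have hd0 : 0 ≤ 1 - (δ : ℝ) := by linarith
  have hd1 : 1 - (δ : ℝ) ≤ 1 := by linarith
  have hp1' : 1 - (p : ℝ) ≤ 1 := by linarith
  have hterm : ∀ S ∈ F.powerset, (prodBern (El d) p).real {ω | X ω = S} * (1 - (δ : ℝ)) ^ S.card
      ≤ (prodBern (El d) p).real {ω | X ω = S} * (1 - (p : ℝ)) ^ S.card
          * ((1 - (p : ℝ)) ^ t)⁻¹ + (prodBern (El d) p).real {ω | X ω = S} * (ε / 2) := by
    intro S _
    have hpt : 0 < (1 - (p : ℝ)) ^ t := by positivity
    by_cases hS : S.card ≤ t
    · have h1 : (1 - (p : ℝ)) ^ t ≤ (1 - (p : ℝ)) ^ S.card :=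
        pow_le_pow_of_le_one hq.le hp1' hS
      have h2 : 1 ≤ (1 - (p : ℝ)) ^ S.card * ((1 - (p : ℝ)) ^ t)⁻¹ := by
        rw [← div_eq_mul_inv, le_div_iff₀ hpt, one_mul]
        exact h1
      have h3 : (1 - (δ : ℝ)) ^ S.card ≤ 1 := pow_le_one₀ hd0 hd1
      have h4 := mul_le_mul_of_nonneg_left (h3.trans h2) (hw S)
      have h5 : 0 ≤ (prodBern (El d) p).real {ω | X ω = S} * (ε / 2) :=
        mul_nonneg (hw S) (half_pos hε).le
      rw [mul_assoc]
      linarith
    · push Not at hS
      have h1 : (1 - (δ : ℝ)) ^ S.card ≤ (1 - (δ : ℝ)) ^ t :=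
        pow_le_pow_of_le_one hd0 hd1 hS.le
      have h2 := mul_le_mul_of_nonneg_left (h1.trans ht.le) (hw S)
      have h3 : 0 ≤ (prodBern (El d) p).real {ω | X ω = S} * (1 - (p : ℝ)) ^ S.card
          * ((1 - (p : ℝ)) ^ t)⁻¹ :=
        mul_nonneg (mul_nonneg (hw S) (by positivity)) (by positivity)
      linarith
  have hB : ((prodBern (El d) p).prod (prodBern (El d) δ)).real
      {q | ∀ e ∈ X q.1, q.2 e = false} ≤ ε := by
    rw [he2]
    refine (Finset.sum_le_sum hterm).trans ?_
    rw [Finset.sum_add_distrib, ← Finset.sum_mul, ← Finset.sum_mul, ← he1]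
    have hpt : 0 < (1 - (p : ℝ)) ^ t := by positivity
    have h1 : (prodBern (El d) p).real {ω | ∀ e ∈ X ω, ω e = false} * ((1 - (p : ℝ)) ^ t)⁻¹
        ≤ ε / 2 := by
      rw [← div_eq_mul_inv, div_le_iff₀ hpt]
      exact hA
    have h2 : (∑ S ∈ F.powerset, (prodBern (El d) p).real {ω | X ω = S}) * (ε / 2)
        ≤ 1 * (ε / 2) := mul_le_mul_of_nonneg_right hsum1 (half_pos hε).le
    linarith
  -- (3) conclusion
  have hsub : {q : (El d → Bool) × (El d → Bool) | ∀ e ∈ X q.1, q.2 e = false}ᶜ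
      ⊆ {q | ∃ c ∈ C, FullOpen κ q.1 (Bx c m : Set (V d)) ∧
          Bx c m ⊆ growF κ R D (mix κ (R : Set (V d)) q.1 q.2)} := by
    intro q hq
    simp only [Set.mem_ofPred_eq, Set.mem_compl_iff, not_forall, Bool.not_eq_false] at hq
    obtain ⟨e, he, heo⟩ := hq
    exact grow_of_useful κ hCD hfar he heo
  have h1 := measureReal_mono (μ := (prodBern (El d) p).prod (prodBern (El d) δ)) hsub
  rw [probReal_compl_eq_one_sub hm2] at h1
  linarith

end Pool.Agent.H47.GM
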