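import Pool.Agent.H47.GM.ChainInv
import Pool.Agent.H47.GM.Cond

/-!
# GM module StatLink: the static link lemma

Let `p < p' < 1`, `(1 - p') = (1 - p)(1 - δ)^7`. Given `η`, let `ε = η/7`, `η₀` from `cond_lemma`
(for `p, δ, ε`), `m, n` from `base_link` for `η₀`, `ℓ = n + m + 1`. By `hit_prob` (translation) the hypothesis
of `cond_lemma` holds at every good ok state, so every step of the chain is bad with
probability at most `ε` (`law_pair`); `seq_bound` with `B = {l}`, union bound over `l < 7`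
(`bad_of_not_ok`), `hit_of_ok` and `law_tot`.
-/

open MeasureTheory Filter Topology
open Pool.Agent.H17.IIC Pool.Agent.H41.QC

namespace Pool.Agent.H47.GM

variable {d : ℕ}

/-- a set of pairs of configurations depending on finitely many elements is measurable -/
lemma StatLink_meas {Λ : Finset (El d)} {G : Set ((El d → Bool) × (El d → Bool))}
    (h : ∀ q q' : (El d → Bool) × (El d → Bool), (∀ e ∈ Λ, q.1 e = q'.1 e) →
      (∀ e ∈ Λ, q.2 e = q'.2 e) → (q ∈ G ↔ q' ∈ G)) : MeasurableSet G := by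
  set r : (El d → Bool) × (El d → Bool) → (Λ → Bool) × (Λ → Bool) :=
    fun q => (fun e => q.1 e, fun e => q.2 e) with hr
  have hrm : Measurable r := by
    apply Measurable.prodMk
    · exact measurable_pi_iff.2 fun e => (measurable_pi_apply (e : El d)).comp measurable_fst
    · exact measurable_pi_iff.2 fun e => (measurable_pi_apply (e : El d)).comp measurable_snd
  have hG : G = r ⁻¹' (r '' G) := by
    ext q
    constructor
    · intro hq
      exact ⟨q, hq, rfl⟩
    · rintro ⟨q', hq', he⟩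
      have h1 := congrArg Prod.fst he
      have h2 := congrArg Prod.snd he
      exact (h q' q (fun e he => congrFun h1 ⟨e, he⟩) (fun e he => congrFun h2 ⟨e, he⟩)).1 hq'
  rw [hG]
  exact hrm (Set.toFinite _).measurableSet

/-- one step of the chain is bad with small probability -/
theorem CP.step_bad (P : CP d) (hmn : 2 * P.m + 1 ≤ P.n) {p δ : unitInterval} {ε η₀ : ℝ}
    (hc : ∀ (x : V d) (m : ℕ) (R D C : Finset (V d)), Bx x m ⊆ R →
      (∀ c ∈ C, Bx c m ⊆ D) → (∀ c ∈ C, ∀ v ∈ Bx c m, v ∉ R ∧ ∀ a ∈ R, ¬ LatAdj a v) →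
      1 - η₀ ≤ (prodBern (El d) p).real {ω | Hit P.κ ω D x m C} →
      1 - ε ≤ ((prodBern (El d) p).prod (prodBern (El d) δ)).real
        {q | ∃ c ∈ C, FullOpen P.κ q.1 (Bx c m : Set (V d)) ∧
          Bx c m ⊆ growF P.κ R D (mix P.κ (R : Set (V d)) q.1 q.2)})
    (hb : ∀ (i₀ : Fin d) (τ : Fin d → Bool), 1 - η₀ ≤ (prodBern (El d) p).real
        {ω | Hit P.κ ω (Dq P.n P.m i₀ τ) 0 P.m (Cq P.n P.m i₀ τ)})
    {s : CS d} (hs : P.good s) (hok : s.ok = true) (ht : s.t < 7) :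
    (mu (parJ d 7 p δ)).real {ω | (P.step s ω).ok = false} ≤ ε := by
  classical
  set j : Fin (7 + 1) := Fin.ofNat (7 + 1) (s.t + 1) with hj
  have hj0 : j ≠ 0 := by
    intro h
    have := congrArg Fin.val h
    rw [hj] at this
    simp only [Fin.ofNat] at this
    have h2 : (s.t + 1) % (7 + 1) = 0 := by simpa using this
    omega
  have hφ := isAut_add (s.x)
  have hhit : 1 - η₀ ≤ (prodBern (El d) p).real
      {ω | Hit P.κ ω (P.D s.x) s.x P.m (P.C s.x)} := by
    have h1 := hit_prob (κ := P.κ) hφ p (Dq P.n P.m P.i₀ (steer P.i₀ P.b P.c₀ s.x))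
      (Cq P.n P.m P.i₀ (steer P.i₀ P.b P.c₀ s.x)) (P.D s.x) (P.C s.x) 0 P.m
      (fun y => by unfold CP.D; rw [mem_shF]; simp)
      (fun y => by unfold CP.C; rw [mem_shF]; simp)
    have h2 : (Equiv.addRight s.x) (0 : V d) = s.x := by simp
    rw [h2] at h1
    rw [h1]
    exact hb _ _
  have hmain := hc s.x P.m s.R (P.D s.x) (P.C s.x) (hs.2 hok).1
    (fun c hc => (P.far hmn hs hok hc).1) (fun c hc => (P.far hmn hs hok hc).2) hhit
  set G : Set ((El d → Bool) × (El d → Bool)) := {q | ∃ c ∈ P.C s.x,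
    FullOpen P.κ q.1 (Bx c P.m : Set (V d)) ∧
      Bx c P.m ⊆ growF P.κ s.R (P.D s.x) (mix P.κ (s.R : Set (V d)) q.1 q.2)} with hG
  have hGm : MeasurableSet G := by
    obtain ⟨Λ₁, h1⟩ := grow_fin P.κ s.R (P.D s.x)
    choose Λ₂ h2 using fun c : V d => full_fin P.κ (Bx c P.m)
    apply StatLink_meas (Λ := Λ₁ ∪ (P.C s.x).biUnion Λ₂)
    intro q q' hq1 hq2
    have hg : growF P.κ s.R (P.D s.x) (mix P.κ (s.R : Set (V d)) q'.1 q'.2) =
        growF P.κ s.R (P.D s.x) (mix P.κ (s.R : Set (V d)) q.1 q.2) :=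
      h1 _ _ _ _ (fun e he => hq1 e (Finset.mem_union_left _ he))
        (fun e he => hq2 e (Finset.mem_union_left _ he))
    have hf : ∀ c ∈ P.C s.x, (FullOpen P.κ q.1 (Bx c P.m : Set (V d)) ↔
        FullOpen P.κ q'.1 (Bx c P.m : Set (V d))) := by
      intro c hc
      apply h2 c
      intro e he
      exact hq1 e (Finset.mem_union_right _ (Finset.mem_biUnion.2 ⟨c, hc, he⟩))
    rw [hG]
    constructor
    · rintro ⟨c, hc, h3, h4⟩
      exact ⟨c, hc, (hf c hc).1 h3, by rw [hg]; exact h4⟩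
    · rintro ⟨c, hc, h3, h4⟩
      exact ⟨c, hc, (hf c hc).2 h3, by rw [← hg]; exact h4⟩
  have hev : {ω | (P.step s ω).ok = false} = (fun ω => (fld 0 ω, fld j ω)) ⁻¹' Gᶜ := by
    ext ω
    have hval : (P.val s ω).Nonempty ↔ (fld 0 ω, fld j ω) ∈ G := by
      unfold CP.val CP.newR
      rw [Finset.filter_nonempty_iff]
      rfl
    show (P.step s ω).ok = false ↔ ¬ (fld 0 ω, fld j ω) ∈ G
    rw [← hval]
    unfold CP.step
    rw [if_pos ⟨hok, ht⟩]
    by_cases h : (P.val s ω).Nonempty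
    · rw [dif_pos h]
      simp [h]
    · rw [dif_neg h]
      simp [h]
  have hmeas : Measurable (fun ω : Fin (7 + 1) × El d → Bool => (fld 0 ω, fld j ω)) :=
    (measurable_fld 0).prodMk (measurable_fld j)
  rw [hev, ← map_measureReal_apply hmeas hGm.compl, law_pair p δ hj0, probReal_compl_eq_one_sub hGm]
  linarith

lemma StatLink_delta {p p' : unitInterval} (hpp : (p : ℝ) < p') (hp' : (p' : ℝ) < 1) :
    ∃ δ : unitInterval, 0 < (δ : ℝ) ∧ (1 - p' : ℝ) = (1 - p) * (1 - δ) ^ 7 := by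
  have h1 : 0 < 1 - (p : ℝ) := by linarith
  have h2 : 0 < 1 - (p' : ℝ) := by linarith
  set r : ℝ := (1 - (p' : ℝ)) / (1 - p) with hr
  have hr0 : 0 < r := div_pos h2 h1
  have hr1 : r < 1 := by rw [hr, div_lt_one h1]; linarith
  have hq0 : 0 < r ^ (1 / 7 : ℝ) := Real.rpow_pos_of_pos hr0 _
  have hq1 : r ^ (1 / 7 : ℝ) < 1 := Real.rpow_lt_one hr0.le hr1 (by norm_num)
  refine ⟨⟨1 - r ^ (1 / 7 : ℝ), by constructor <;> linarith⟩, ?_, ?_⟩
  · show 0 < 1 - r ^ (1 / 7 : ℝ)
    linarith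
  · show (1 - p' : ℝ) = (1 - p) * (1 - (1 - r ^ (1 / 7 : ℝ))) ^ 7
    have h3 : (1 - (1 - r ^ (1 / 7 : ℝ))) ^ 7 = r := by
      rw [sub_sub_cancel, ← Real.rpow_natCast, ← Real.rpow_mul hr0.le]
      norm_num
    rw [h3, hr]
    field_simp

theorem static_link (κ : Kind) (hd : 1 ≤ d) (p p' : unitInterval) (hpp : (p : ℝ) < p')
    (hp' : (p' : ℝ) < 1) (hθ : 0 < theta κ d p) {η : ℝ} (hη : 0 < η) :
    ∃ m ℓ : ℕ, 1 ≤ m ∧ 2 * m ≤ ℓ ∧ ∀ z z' : V d, LatAdj z z' → ∀ x : V d,
      (∀ i, |x i - cz ℓ z i| ≤ ℓ) →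
      1 - η ≤ (prodBern (El d) p').real
        {ω | Hit κ ω (Tube ℓ z z' : Set (V d)) x m (Bx (cz ℓ z') ℓ : Set (V d))} := by
  classical
  have hp1 : (p : ℝ) < 1 := hpp.trans hp'
  obtain ⟨δ, hδ, hδe⟩ := StatLink_delta hpp hp'
  have hε : 0 < η / 7 := by positivity
  obtain ⟨η₀, hη₀, hc⟩ := cond_lemma κ d hp1 hδ hε
  obtain ⟨m, n, hm, hmn, hb⟩ := base_link κ hd p hp1 hθ hη₀
  refine ⟨m, n + m + 1, hm, by omega, ?_⟩
  rintro z z' ⟨s, hs⟩ x hx
  obtain ⟨i₀, b⟩ := s
  set P : CP d := ⟨κ, n, m, i₀, b, cz (n + m + 1) z⟩ with hP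
  have hmn' : 2 * P.m + 1 ≤ P.n := hmn
  set X := P.expl hmn' with hX
  set μ := mu (parJ d 7 p δ) with hμ
  have hμp : IsProbabilityMeasure μ := by rw [hμ]; infer_instance
  have hgood : X.good (P.init x) := by
    refine ⟨by simp [CP.init], fun _ => ⟨Finset.Subset.refl _, ?_⟩⟩
    intro y hy
    have hy' : y ∈ Bx x m := hy
    rw [mem_Bx] at hy'
    have h1 := hy' i₀
    show sg b * (y i₀ - x i₀) ≤ m
    have h2 := abs_le.1 h1
    cases b
    · simp only [sg, Bool.false_eq_true, if_false]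
      linarith [h2.1]
    · simp only [sg, if_true]
      linarith [h2.2]
  have hbad : ∀ s, X.good s → ∀ l, X.lab s = some l →
      μ.real {ω | (X.step s ω).ok = false} ≤ η / 7 := by
    intro s hs l hl
    have hl' : P.lab s = some l := hl
    unfold CP.lab at hl'
    split_ifs at hl' with h
    exact P.step_bad hmn' hc hb hs h.1 h.2
  have hseq : ∀ l : ℕ, μ.real {ω | ∃ k < 7, X.lab (X.run k (P.init x) ω) = some l ∧
      (X.run (k + 1) (P.init x) ω).ok = false} ≤ η / 7 := by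
    intro l
    have h1 := X.seq_bound (parJ d 7 p δ) (fun _ s' => s'.ok = false) hε.le hbad hgood {l} 7
    simpa using h1
  set A : Set (Fin (7 + 1) × El d → Bool) := {ω | (X.run 7 (P.init x) ω).ok = true} with hA
  have hAm : MeasurableSet A := by
    obtain ⟨Λ, hΛ⟩ := X.run_dep 7 (P.init x)
    apply On.measurableSet (Λ := Λ)
    intro ω ω' h
    show (X.run 7 (P.init x) ω).ok = true ↔ (X.run 7 (P.init x) ω').ok = true
    rw [hΛ ω ω' (fun i hi => h i (by exact_mod_cast hi))]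
  have hAc : μ.real Aᶜ ≤ η := by
    have hsub : Aᶜ ⊆ ⋃ l ∈ Finset.range 7, {ω | ∃ k < 7,
        X.lab (X.run k (P.init x) ω) = some l ∧ (X.run (k + 1) (P.init x) ω).ok = false} := by
      intro ω hω
      have hω' : (X.run 7 (P.init x) ω).ok = false := by
        have : ¬ (X.run 7 (P.init x) ω).ok = true := hω
        simpa using this
      obtain ⟨l, hl, k, hk, h1, h2⟩ := P.bad_of_not_ok hmn' x ω hω'
      simp only [Set.mem_iUnion]
      exact ⟨l, Finset.mem_range.2 hl, k, hk, h1, h2⟩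
    refine (measureReal_mono hsub (measure_ne_top _ _)).trans ?_
    refine (measureReal_biUnion_finset_le _ _).trans ?_
    refine (Finset.sum_le_sum (fun l _ => hseq l)).trans ?_
    rw [Finset.sum_const, Finset.card_range, nsmul_eq_mul]
    push_cast
    linarith
  have hHm : MeasurableSet {ω : El d → Bool |
      Hit κ ω (Tube (n + m + 1) z z' : Set (V d)) x m (Bx (cz (n + m + 1) z') (n + m + 1) : Set (V d))} := by
    obtain ⟨Λ, hΛ⟩ := Hit.dep κ (Tube (n + m + 1) z z') (Bx (cz (n + m + 1) z') (n + m + 1)) x m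
    apply On.measurableSet (Λ := Λ)
    intro ω ω' h
    exact hΛ ω ω' (fun i hi => h i (by exact_mod_cast hi))
  have hlaw := law_tot (d := d) (J := 7) p δ p' hδe
  rw [← hlaw, map_measureReal_apply measurable_tot hHm]
  have h1 : 1 - η ≤ μ.real A := by
    have := probReal_compl_eq_one_sub (μ := μ) hAm
    linarith
  refine h1.trans (measureReal_mono ?_ (measure_ne_top _ _))
  intro ω hω
  exact P.hit_of_ok hmn' hm hs rfl hx ω hω

end Pool.Agent.H47.GM
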