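import Pool.Agent.H47.GM.MBad
import Pool.Agent.H47.GM.MDist
import Pool.Agent.H47.GM.MFail
import Pool.Agent.H47.GM.MLimA
import Pool.Agent.H47.GM.StatLink

/-!
# GM module MacroThm: the macroscopic exploration, summary

Given `ρ`, let `ρ₁ ≤ 1` with `4^d ρ₁ ≤ ρ`, `ε = ρ₁^(2d) / (2d)`, `η₀` from `cond_lemma` (for `p, δ, ε`), `m, ℓ`
from `static_link` for `η₀`. The bound on `F`: `{B ⊆ F}` is the increasing union over `n` of the events of
`failed_bound` (`st_mono`). The last item: by `run_off` the event `{Rc infinite}` depends only on the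
coordinates outside `E init`, the openness of the seed on coordinates inside `E init`; `mu_indep`,
and the seed is open with positive probability.
-/

open MeasureTheory Filter Topology
open Pool.Agent.H17.IIC Pool.Agent.H41.QC

namespace Pool.Agent.H47.GM

variable {d : ℕ}

/-- the seed at the origin is open with positive probability -/
lemma macroThm_seed_pos (κ : Kind) (m : ℕ) (p δ : unitInterval) (hp : 0 < (p : ℝ)) :
    0 < (mu (parJ d 2 p δ)).real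
      {ω : Fin (2 + 1) × El d → Bool | FullOpen κ (fld 0 ω) (Bx (0 : V d) m : Set (V d))} := by
  classical
  obtain ⟨Λ, hΛ⟩ := full_fin (d := d) κ (Bx (0 : V d) m)
  have hsub : Set.pi ((Λ : Finset (El d)) : Set (El d)) (fun _ => ({true} : Set Bool)) ⊆
      {ξ : El d → Bool | FullOpen κ ξ (Bx (0 : V d) m : Set (V d))} := by
    intro ξ hξ
    have h1 : FullOpen κ (fun _ : El d => true) (Bx (0 : V d) m : Set (V d)) :=
      ⟨fun _ _ _ _ _ => rfl, fun _ _ _ => rfl⟩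
    refine (hΛ ξ (fun _ => true) ?_).2 h1
    intro e he
    exact hξ e he
  have hmeas : MeasurableSet
      {ξ : El d → Bool | FullOpen κ ξ (Bx (0 : V d) m : Set (V d))} :=
    On.measurableSet (Λ := Λ) (fun ω ω' hω => hΛ ω ω' (fun e he => hω e he))
  have hpos : 0 < (prodBern (El d) p)
      (Set.pi ((Λ : Finset (El d)) : Set (El d)) (fun _ => ({true} : Set Bool))) := by
    rw [prodBern, Measure.infinitePi_pi (μ := fun _ : El d => bern p)
      (fun i _ => MeasurableSet.of_discrete)]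
    rw [pos_iff_ne_zero, Finset.prod_ne_zero_iff]
    intro e _
    rw [coupling_bern_apply]
    simp [hp]
  have h2 : 0 < (mu (parJ d 2 p δ))
      {ω : Fin (2 + 1) × El d → Bool | FullOpen κ (fld 0 ω) (Bx (0 : V d) m : Set (V d))} := by
    have h3 : (mu (parJ d 2 p δ)).map (fld 0)
        {ξ : El d → Bool | FullOpen κ ξ (Bx (0 : V d) m : Set (V d))}
        = (mu (parJ d 2 p δ))
          {ω : Fin (2 + 1) × El d → Bool |
            FullOpen κ (fld 0 ω) (Bx (0 : V d) m : Set (V d))} := by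
      rw [Measure.map_apply (measurable_fld 0) hmeas]
      rfl
    rw [← h3, law_fld]
    exact lt_of_lt_of_le hpos (measure_mono hsub)
  exact ENNReal.toReal_pos h2.ne' (measure_ne_top _ _)

/-- the set of reached sites depends measurably on the configuration -/
lemma macroThm_meas_inf (P : MP) (hm : P.m ≤ P.ℓ) (hℓ : 1 ≤ P.ℓ) :
    MeasurableSet {ω : Fin (2 + 1) × El d → Bool | (P.Rc hm hℓ ω).Infinite} := by
  classical
  have h1 : ∀ z : V d, MeasurableSet {ω : Fin (2 + 1) × El d → Bool | z ∈ P.Rc hm hℓ ω} := by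
    intro z
    have h2 : {ω : Fin (2 + 1) × El d → Bool | z ∈ P.Rc hm hℓ ω}
        = ⋃ n, {ω : Fin (2 + 1) × El d → Bool | z ∈ (P.st hm hℓ n ω).reached} := by
      ext ω
      simp [MP.Rc]
    rw [h2]
    refine MeasurableSet.iUnion fun n => ?_
    obtain ⟨Λ, hΛ⟩ := (P.expl hm hℓ).run_dep n (P.init : MS d)
    refine On.measurableSet (Λ := Λ) (fun ω ω' hω => ?_)
    have h3 : P.st hm hℓ n ω = P.st hm hℓ n ω' := hΛ ω ω' (fun i hi => hω i hi)
    show z ∈ (P.st hm hℓ n ω).reached ↔ z ∈ (P.st hm hℓ n ω').reached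
    rw [h3]
  have h4 : {ω : Fin (2 + 1) × El d → Bool | (P.Rc hm hℓ ω).Infinite}
      = ⋂ B : Finset (V d), ⋃ z : {z : V d // z ∉ B},
        {ω : Fin (2 + 1) × El d → Bool | (z : V d) ∈ P.Rc hm hℓ ω} := by
    ext ω
    simp only [Set.mem_ofPred_eq, Set.mem_iInter, Set.mem_iUnion, Subtype.exists, exists_prop]
    constructor
    · intro h B
      obtain ⟨z, hz, hzB⟩ := h.exists_notMem_finset B
      exact ⟨z, hzB, hz⟩
    · intro h hfin
      obtain ⟨z, hz, hz'⟩ := h hfin.toFinset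
      exact hz (hfin.mem_toFinset.2 hz')
  rw [h4]
  exact MeasurableSet.iInter fun B => MeasurableSet.iUnion fun z => h1 z

/-- infinitely many reached sites and an open seed -/
lemma macroThm_pos (P : MP) (hm : P.m ≤ P.ℓ) (hℓ : 1 ≤ P.ℓ) (p δ : unitInterval)
    (hp : 0 < (p : ℝ))
    (hinf : 0 < (mu (parJ d 2 p δ)).real {ω | (P.Rc hm hℓ ω).Infinite}) :
    0 < (mu (parJ d 2 p δ)).real {ω : Fin (2 + 1) × El d → Bool | (P.Rc hm hℓ ω).Infinite ∧
      FullOpen P.κ (fld 0 ω) (Bx (0 : V d) P.m : Set (V d))} := by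
  classical
  have hset : {ω : Fin (2 + 1) × El d → Bool | (P.Rc hm hℓ ω).Infinite ∧
      FullOpen P.κ (fld 0 ω) (Bx (0 : V d) P.m : Set (V d))}
      = {ω : Fin (2 + 1) × El d → Bool |
          FullOpen P.κ (fld 0 ω) (Bx (0 : V d) P.m : Set (V d))} ∩
        {ω : Fin (2 + 1) × El d → Bool | (P.Rc hm hℓ ω).Infinite} := by
    ext ω
    simp only [Set.mem_ofPred_eq, Set.mem_inter_iff]
    exact and_comm
  obtain ⟨Λ, hΛ⟩ := full_fin (d := d) P.κ (Bx (0 : V d) P.m)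
  have hmeas : MeasurableSet {ω : Fin (2 + 1) × El d → Bool |
      FullOpen P.κ (fld 0 ω) (Bx (0 : V d) P.m : Set (V d))} := by
    have h0 : MeasurableSet
        {ξ : El d → Bool | FullOpen P.κ ξ (Bx (0 : V d) P.m : Set (V d))} :=
      On.measurableSet (Λ := Λ) (fun ω ω' hω => hΛ ω ω' (fun e he => hω e he))
    exact measurable_fld 0 h0
  have hon1 : On (P.E (P.init : MS d)) {ω : Fin (2 + 1) × El d → Bool |
      FullOpen P.κ (fld 0 ω) (Bx (0 : V d) P.m : Set (V d))} := by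
    have key : ∀ ω ω' : Fin (2 + 1) × El d → Bool,
        (∀ i ∈ P.E (P.init : MS d), ω i = ω' i) →
        FullOpen P.κ (fld 0 ω) (Bx (0 : V d) P.m : Set (V d)) →
        FullOpen P.κ (fld 0 ω') (Bx (0 : V d) P.m : Set (V d)) := by
      intro ω ω' hω hf
      have ht : ∀ e : El d, touch P.κ (Bx (0 : V d) P.m : Set (V d)) e → fld 0 ω e = fld 0 ω' e := by
        intro e he
        exact hω (0, e) (Or.inl ⟨rfl, he⟩)
      constructor
      · intro a ha b hb hab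
        have h5 : touch P.κ (Bx (0 : V d) P.m : Set (V d)) (stE P.κ a b) := by
          refine ⟨b, ?_, Or.inl hb⟩
          unfold stE
          cases P.κ <;> simp
        rw [← ht _ h5]
        exact hf.1 a ha b hb hab
      · intro hκ a ha
        have h5 : touch P.κ (Bx (0 : V d) P.m : Set (V d)) s(a, a) :=
          ⟨a, by simp, Or.inl ha⟩
        rw [← ht _ h5]
        exact hf.2 hκ a ha
    intro ω ω' hω
    exact ⟨key ω ω' hω, key ω' ω (fun i hi => (hω i hi).symm)⟩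
  have hon2 : On (P.E (P.init : MS d))ᶜ
      {ω : Fin (2 + 1) × El d → Bool | (P.Rc hm hℓ ω).Infinite} := by
    intro ω ω' hω
    have h6 : ∀ n, P.st hm hℓ n ω = P.st hm hℓ n ω' := fun n =>
      (P.expl hm hℓ).run_off n (s := (P.init : MS d)) P.good_init (fun i hi => hω i hi)
    have h7 : P.Rc hm hℓ ω = P.Rc hm hℓ ω' := by
      unfold MP.Rc
      simp only [h6]
    show (P.Rc hm hℓ ω).Infinite ↔ (P.Rc hm hℓ ω').Infinite
    rw [h7]
  rw [hset, mu_indep (parJ d 2 p δ) (P.E (P.init : MS d)) hmeas (macroThm_meas_inf P hm hℓ)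
    hon1 hon2]
  exact mul_pos (macroThm_seed_pos P.κ P.m p δ hp) hinf

/-- the bound on the failed sites in the limit -/
lemma macroThm_fail (P : MP) (hm : P.m ≤ P.ℓ) (hℓ : 1 ≤ P.ℓ) (p δ : unitInterval) {c : ℝ}
    (hc : 0 ≤ c) (B : Finset (V d))
    (h : ∀ n, (mu (parJ d 2 p δ)).real {ω | ∀ z ∈ B, z ∈ ((P.expl hm hℓ).run n P.init ω).exam ∧
      z ∉ ((P.expl hm hℓ).run n P.init ω).reached} ≤ c) :
    (mu (parJ d 2 p δ)).real {ω | (B : Set (V d)) ⊆ P.F hm hℓ ω} ≤ c := by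
  classical
  set S : ℕ → Set (Fin (2 + 1) × El d → Bool) := fun n =>
    {ω | ∀ z ∈ B, z ∈ (P.st hm hℓ n ω).exam ∧ z ∉ (P.st hm hℓ n ω).reached} with hS
  have hmono : Monotone S := by
    intro n k hnk ω hω z hz
    obtain ⟨h1, h2⟩ := hω z hz
    obtain ⟨_, h4, _, h5⟩ := P.st_mono hm hℓ ω hnk
    exact ⟨h4 h1, fun h6 => h2 ((h5 z h1).1.1 h6)⟩
  have hsub : {ω | (B : Set (V d)) ⊆ P.F hm hℓ ω} ⊆ ⋃ n, S n := by
    intro ω hω
    have hz : ∀ z ∈ B, ∃ n, z ∈ (P.st hm hℓ n ω).exam ∧ z ∉ (P.st hm hℓ n ω).reached :=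
      fun z hz => hω hz
    choose! N hN using hz
    rw [Set.mem_iUnion]
    refine ⟨B.sup N, ?_⟩
    intro z hzB
    have hle : N z ≤ B.sup N := Finset.le_sup hzB
    obtain ⟨_, h4, _, h5⟩ := P.st_mono hm hℓ ω hle
    obtain ⟨h1, h2⟩ := hN z hzB
    exact ⟨h4 h1, fun h6 => h2 ((h5 z h1).1.1 h6)⟩
  have hle : (mu (parJ d 2 p δ)) {ω | (B : Set (V d)) ⊆ P.F hm hℓ ω} ≤ ENNReal.ofReal c := by
    refine (measure_mono hsub).trans ?_
    rw [hmono.measure_iUnion]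
    refine iSup_le fun n => ?_
    have h1 := h n
    rw [← ENNReal.ofReal_toReal (measure_ne_top (mu (parJ d 2 p δ)) (S n))]
    exact ENNReal.ofReal_le_ofReal h1
  calc (mu (parJ d 2 p δ)).real {ω | (B : Set (V d)) ⊆ P.F hm hℓ ω}
      ≤ (ENNReal.ofReal c).toReal := ENNReal.toReal_mono ENNReal.ofReal_ne_top hle
    _ = c := ENNReal.toReal_ofReal hc

theorem macro_thm (κ : Kind) (hd : 1 ≤ d) (p₀ p δ : unitInterval) (h : (p₀ : ℝ) < p)
    (hp1 : (p : ℝ) < 1) (hθ : 0 < theta κ d p₀) (hδ : 0 < (δ : ℝ)) {ρ : ℝ} (hρ : 0 < ρ) :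
    ∃ (m ℓ M : ℕ) (F Rc : (Fin (2 + 1) × El d → Bool) → Set (V d))
      (ctr : (Fin (2 + 1) × El d → Bool) → V d → V d)
      (dep : (Fin (2 + 1) × El d → Bool) → V d → ℕ)
      (A : ℕ → Set (Fin (2 + 1) × El d → Bool)),
      1 ≤ m ∧ m ≤ ℓ ∧
      (∀ B : Finset (V d), (mu (parJ d 2 p δ)).real {ω | (B : Set (V d)) ⊆ F ω} ≤ ρ ^ B.card) ∧
      (∀ ω, (0 : V d) ∈ Rc ω ∧ Disjoint (Rc ω) (F ω) ∧
        (∀ z ∈ Rc ω, ∀ z', LatAdj z z' → z' ∈ Rc ω ∨ z' ∈ F ω) ∧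
        (∀ z ∈ Rc ω, ∃ w : (Lat d).Walk 0 z, ∀ u ∈ w.support, u ∈ Rc ω)) ∧
      (∀ ω, dep ω 0 = 0 ∧ ∀ z ∈ Rc ω, ∀ z' ∈ Rc ω, LatAdj z z' → dep ω z' ≤ dep ω z + 1) ∧
      (∀ ω, ∀ z ∈ Rc ω, (∀ i, |ctr ω z i - cz ℓ z i| ≤ ℓ) ∧
        (FullOpen κ (fld 0 ω) (Bx (0 : V d) m : Set (V d)) →
          (κ = .site → tot ω s(ctr ω z, ctr ω z) = true) ∧
          Joined κ (tot ω) 0 (ctr ω z) (M * (dep ω z + 1)))) ∧
      Antitone A ∧
      (∀ n, ∃ Λ : Finset (Fin (2 + 1) × El d), On (Λ : Set (Fin (2 + 1) × El d)) (A n)) ∧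
      (⋂ n, A n) = {ω | (Rc ω).Infinite ∧
        FullOpen κ (fld 0 ω) (Bx (0 : V d) m : Set (V d))} ∧
      (0 < (mu (parJ d 2 p δ)).real {ω | (Rc ω).Infinite} →
        0 < (mu (parJ d 2 p δ)).real (⋂ n, A n)) := by
  classical
  have hdR : (1 : ℝ) ≤ d := by exact_mod_cast hd
  have hp : 0 < (p : ℝ) := lt_of_le_of_lt p₀.2.1 h
  have h4d : (0 : ℝ) < 4 ^ d := by positivity
  set ρ₁ : ℝ := min 1 (ρ / 4 ^ d) with hρ₁
  have hρ₁pos : 0 < ρ₁ := lt_min one_pos (div_pos hρ h4d)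
  have hρ₁1 : ρ₁ ≤ 1 := min_le_left _ _
  have hρ₁ρ : 4 ^ d * ρ₁ ≤ ρ := by
    have h1 : ρ₁ ≤ ρ / 4 ^ d := min_le_right _ _
    calc 4 ^ d * ρ₁ ≤ 4 ^ d * (ρ / 4 ^ d) := mul_le_mul_of_nonneg_left h1 h4d.le
      _ = ρ := by field_simp
  set ε : ℝ := ρ₁ ^ (2 * d) / (2 * d) with hε
  have hεpos : 0 < ε := by positivity
  obtain ⟨η₀, hη₀, hcond⟩ := cond_lemma κ d (p := p) (δ := δ) hp1 hδ hεpos
  obtain ⟨m, ℓ, hm1, hmℓ, hstat⟩ := static_link κ hd p₀ p h hp1 hθ hη₀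
  have hm : m ≤ ℓ := by omega
  have hℓ : 1 ≤ ℓ := by omega
  let P : MP := ⟨κ, m, ℓ⟩
  have hbad : ∀ s : MS d, P.good s → ∀ z, nxt s = some z →
      (mu (parJ d 2 p δ)).real {ω | mbad s (P.step s ω)} ≤ ρ₁ ^ (2 * d) := by
    intro s hs z hz
    have h1 := MP.step_bad P hm hℓ (p := p) (δ := δ) (ε := ε) (η₀ := η₀) hεpos.le hcond hstat hs hz
    have h2 : 2 * (d : ℝ) * ε = ρ₁ ^ (2 * d) := by
      rw [hε]
      field_simp
    rw [h2] at h1
    exact h1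
  refine ⟨m, ℓ, P.M d, P.F hm hℓ, P.Rc hm hℓ, P.ctr hm hℓ, P.dep hm hℓ, P.A hm hℓ, hm1, hm,
    ?_, ?_, ?_, ?_, P.A_anti hm hℓ, P.A_dep hm hℓ, P.A_inter hm hℓ, ?_⟩
  · intro B
    have h1 := macroThm_fail P hm hℓ p δ (c := (4 ^ d * ρ₁) ^ B.card) (by positivity) B
      (fun n => P.failed_bound hm hℓ hd hρ₁pos.le hρ₁1 hbad B n)
    exact h1.trans (pow_le_pow_left₀ (by positivity) hρ₁ρ _)
  · intro ω
    obtain ⟨h1, h2, h3, _, _, _, h7⟩ := P.limit_closed hm hℓ ω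
    exact ⟨h1, h2, h3, h7⟩
  · intro ω
    obtain ⟨_, _, _, h4, h5, _, _⟩ := P.limit_closed hm hℓ ω
    exact ⟨h4, h5⟩
  · intro ω z hz
    obtain ⟨_, _, _, _, _, h6, _⟩ := P.limit_closed hm hℓ ω
    refine ⟨h6 z hz, ?_⟩
    intro hfull
    obtain ⟨n, hn⟩ := hz
    obtain ⟨h8, h9⟩ := P.dist_inv hm hℓ ω hfull n
    obtain ⟨e1, e2⟩ := P.ctr_eq hm hℓ ω hn
    have hgood : P.good (P.st hm hℓ n ω) :=
      (P.expl hm hℓ).good_run n ω (s := (P.init : MS d)) P.good_init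
    rw [e1, e2]
    refine ⟨?_, ?_⟩
    · have h10 : (P.st hm hℓ n ω).ctr z ∈ (P.st hm hℓ n ω).R := by
        apply hgood.ctr_box z hn
        rw [mem_Bx]
        intro i
        simp
      exact (h8 _ h10).1
    · have h11 := h9 z hn
      exact_mod_cast h11
  · intro hinf
    have h1 := macroThm_pos P hm hℓ p δ hp hinf
    rw [P.A_inter hm hℓ]
    exact h1

end Pool.Agent.H47.GM
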