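import Pool.Agent.H47.GM.BackDef
import Pool.Agent.H47.GM.Dense
import Pool.Agent.H47.GM.MacroThm

/-!
# GM module Backbone: the backbone of the sprinkled configuration

Let `m, ℓ, M, F, Rc, ctr, dep, A` be from `macro_thm` with `ρ = rho d`, `C'` from `macro_dense`. Shifts:
`s k (j, e) = (j, e.map (· + k e_0))`. By `surv` and the last item of `macro_thm`, `⋂ A n` has positive
probability, so by `erg` almost surely some shifted configuration `ω' = ω ∘ s k` is in `⋂ A n`; all shifted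
configurations have the same law (`mu_comp`, `QuasiMeasurePreserving.ae`), so almost surely the conclusion
of `macro_dense` holds for all of them. Take `v = k e_0`, `Z = Rc ω'`, `q z = ctr ω' z + v`. Then
`tot ω' = tr (· + v) (tot ω)`, so open paths for `tot ω'` translated by `v` are open for `tot ω`.
Length: `M (dep + 1) ≤ M C' 2^(k-j) + M (C' + 1) (k+1)^(d+1)`; take `C = (M + 1) (C' + 1)`.
-/

open MeasureTheory Filter Topology
open Pool.Agent.H17.IIC Pool.Agent.H41.QC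

namespace Pool.Agent.H47.GM

variable {d : ℕ}

/-- translation of open walks -/
lemma joined_shift {κ : Kind} {η : El d → Bool} {v x y : V d} {r : ℝ}
    (h : Joined κ (fun e => η (e.map (· + v))) x y r) : Joined κ η (x + v) (y + v) r := by
  obtain ⟨w, hw⟩ := h
  let f : (Gr κ (fun e => η (e.map (· + v)))) →g (Gr κ η) :=
    { toFun := fun z => z + v
      map_rel' := by
        intro a b hab
        obtain ⟨⟨s, hs⟩, h2⟩ := hab
        refine ⟨⟨s, ?_⟩, ?_⟩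
        · rw [hs]; abel
        · cases κ
          · exact h2
          · exact h2 }
  refine ⟨w.map f, ?_⟩
  rw [SimpleGraph.Walk.length_map]
  exact hw

/-- the shift -/
noncomputable def Backbone_s (hd : 0 < d) (k : ℕ) (x : Fin (2 + 1) × El d) : Fin (2 + 1) × El d :=
  (x.1, x.2.map (· + (Pi.single ⟨0, hd⟩ (k : ℤ) : V d)))

lemma Backbone_inj (hd : 0 < d) (k : ℕ) : Function.Injective (Backbone_s hd k) := by
  rintro ⟨j, e⟩ ⟨j', e'⟩ h
  unfold Backbone_s at h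
  rw [Prod.mk.injEq] at h
  obtain ⟨h1, h2⟩ := h
  simp only at h1
  subst h1
  have h3 : e = e' := Sym2.map.injective (add_left_injective _) h2
  rw [h3]

lemma Backbone_far (hd : 0 < d) (Λ : Finset (Fin (2 + 1) × El d)) :
    ∃ M : ℕ, 1 ≤ M ∧ ∀ k l : ℕ, k ≠ l → ∀ i ∈ Λ, ∀ j ∈ Λ,
      Backbone_s hd (M * k) i ≠ Backbone_s hd (M * l) j := by
  classical
  -- bound for the first coordinates
  have hb : ∃ L : ℕ, ∀ i ∈ Λ, ∀ v ∈ i.2, |v ⟨0, hd⟩| ≤ L := by
    induction Λ using Finset.induction_on with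
    | empty => exact ⟨0, fun i hi => absurd hi (Finset.notMem_empty i)⟩
    | insert a S _ ih =>
      obtain ⟨L, hL⟩ := ih
      obtain ⟨L', hL'⟩ : ∃ L' : ℕ, ∀ v ∈ a.2, |v ⟨0, hd⟩| ≤ L' := by
        obtain ⟨j, e⟩ := a
        induction e using Sym2.ind with
        | _ u w =>
          refine ⟨(|u ⟨0, hd⟩| + |w ⟨0, hd⟩|).toNat, ?_⟩
          intro v hv
          have hv' : v ∈ s(u, w) := hv
          rw [Sym2.mem_iff] at hv'
          have h1 := abs_nonneg (u ⟨0, hd⟩)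
          have h2 := abs_nonneg (w ⟨0, hd⟩)
          rw [Int.toNat_of_nonneg (by linarith)]
          rcases hv' with rfl | rfl <;> linarith
      refine ⟨L + L', ?_⟩
      intro i hi v hv
      rw [Finset.mem_insert] at hi
      push_cast
      rcases hi with rfl | hi
      · have := hL' v hv
        have h0 : (0 : ℤ) ≤ L := Int.natCast_nonneg _
        linarith
      · have := hL i hi v hv
        have h0 : (0 : ℤ) ≤ L' := Int.natCast_nonneg _
        linarith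
  obtain ⟨L, hL⟩ := hb
  refine ⟨2 * L + 1, by omega, ?_⟩
  rintro k l hkl ⟨j, e⟩ hi ⟨j', e'⟩ hj heq
  unfold Backbone_s at heq
  rw [Prod.mk.injEq] at heq
  obtain ⟨-, h2⟩ := heq
  simp only at h2
  obtain ⟨v, hv⟩ : ∃ v, v ∈ e := by
    induction e using Sym2.ind with
    | _ u w => exact ⟨u, Sym2.mem_mk_left u w⟩
  have h3 : v + (Pi.single ⟨0, hd⟩ (((2 * L + 1) * k : ℕ) : ℤ) : V d) ∈
      e'.map (· + (Pi.single ⟨0, hd⟩ (((2 * L + 1) * l : ℕ) : ℤ) : V d)) := by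
    rw [← h2]
    rw [Sym2.mem_map]
    exact ⟨v, hv, rfl⟩
  rw [Sym2.mem_map] at h3
  obtain ⟨v', hv', h4⟩ := h3
  have h5 := congrFun h4 ⟨0, hd⟩
  simp only [Pi.add_apply, Pi.single_eq_same] at h5
  have h6 := hL _ hi v hv
  have h7 := hL _ hj v' hv'
  rw [abs_le] at h6 h7
  have h8 : ((2 * L + 1 : ℕ) : ℤ) * ((l : ℤ) - k) = v ⟨0, hd⟩ - v' ⟨0, hd⟩ := by
    push_cast at h5 ⊢
    linarith
  rcases lt_or_gt_of_ne hkl with h | h
  · have h9 : (1 : ℤ) ≤ (l : ℤ) - k := by omega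
    have h10 : ((2 * L + 1 : ℕ) : ℤ) * 1 ≤ ((2 * L + 1 : ℕ) : ℤ) * ((l : ℤ) - k) :=
      mul_le_mul_of_nonneg_left h9 (by positivity)
    rw [h8] at h10
    push_cast at h10
    linarith
  · have h9 : (1 : ℤ) ≤ (k : ℤ) - l := by omega
    have h10 : ((2 * L + 1 : ℕ) : ℤ) * 1 ≤ ((2 * L + 1 : ℕ) : ℤ) * ((k : ℤ) - l) :=
      mul_le_mul_of_nonneg_left h9 (by positivity)
    have h11 : ((2 * L + 1 : ℕ) : ℤ) * ((k : ℤ) - l) = v' ⟨0, hd⟩ - v ⟨0, hd⟩ := by
      linarith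
    rw [h11] at h10
    push_cast at h10
    linarith

theorem backbone (κ : Kind) (hd : 2 ≤ d) (p₀ p δ : unitInterval) (h : (p₀ : ℝ) < p)
    (hp1 : (p : ℝ) < 1) (hθ : 0 < theta κ d p₀) (hδ : 0 < (δ : ℝ)) :
    ∃ ℓ C : ℕ, 1 ≤ ℓ ∧ ∀ᵐ ω ∂(mu (parJ d 2 p δ)), Backbone κ ℓ C (tot ω) := by
  classical
  obtain ⟨C', hC'⟩ := macro_dense hd
  obtain ⟨m, ℓ, M, F, Rc, ctr, dep, A, hm1, hmℓ, hF, hRc, hdep, hctr, hanti, hAdep, hAinter,
    hApos⟩ := macro_thm κ (by omega) p₀ p δ h hp1 hθ hδ (rho_pos d)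
  have hd0 : 0 < d := by omega
  set par := parJ d 2 p δ with hpar
  have hpar' : ∀ k i, par (Backbone_s hd0 k i) = par i := fun k i => rfl
  refine ⟨ℓ, (M + 1) * (C' + 1), by omega, ?_⟩
  have hsurv := surv hd (mu par) F Rc hF hRc
  have herg := erg par (Backbone_s hd0) (Backbone_inj hd0) hpar' (Backbone_far hd0) A hanti hAdep
    (hApos hsurv)
  obtain ⟨Q, hQ⟩ : ∃ Q : (Fin (2 + 1) × El d → Bool) → Prop, Q = fun ω => (Rc ω).Infinite →
      (∀ j : ℕ, ∀ᶠ k : ℕ in atTop, ∀ z ∈ Rc ω, (∀ i, |z i| ≤ 2 ^ (k - j)) →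
        dep ω z ≤ C' * 2 ^ (k - j) + C' * (k + 1) ^ (d + 1)) ∧
      (∀ᶠ k : ℕ in atTop, ∀ (x y : V d) (W : (Lat d).Walk x y),
        (∀ u ∈ W.support, ∀ i, |u i| ≤ 2 * 2 ^ k) →
        C' * (k + 1) ^ (d + 1) < W.support.toFinset.card → ∃ z ∈ W.support, z ∈ Rc ω) := ⟨_, rfl⟩
  have hden : ∀ᵐ ω ∂(mu par), Q ω := by
    rw [hQ]
    exact hC' (mu par) F Rc dep hF hRc hdep
  have hmap : ∀ k : ℕ, (mu par).map (fun ω i => ω (Backbone_s hd0 k i)) = mu par := by
    intro k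
    rw [mu_comp par (Backbone_s hd0 k) (Backbone_inj hd0 k)]
    exact congrArg mu (funext fun i => hpar' k i)
  have hmeas : ∀ k : ℕ, Measurable (fun (ω : Fin (2 + 1) × El d → Bool) i =>
      ω (Backbone_s hd0 k i)) := by
    intro k
    rw [measurable_pi_iff]
    intro i
    exact measurable_pi_apply _
  have hden2 : ∀ᵐ ω ∂(mu par), ∀ k : ℕ, Q (fun i => ω (Backbone_s hd0 k i)) := by
    rw [ae_all_iff]
    intro k
    have h1 := hden
    rw [← hmap k] at h1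
    exact ae_of_ae_map (hmeas k).aemeasurable h1
  filter_upwards [herg, hden2] with ω h1 h2
  obtain ⟨k, hk⟩ := h1
  have h2k := h2 k
  rw [hQ] at h2k
  set ω' : Fin (2 + 1) × El d → Bool := fun i => ω (Backbone_s hd0 k i) with hω'
  have hmem : ω' ∈ ⋂ n, A n := Set.mem_iInter.2 hk
  rw [hAinter] at hmem
  obtain ⟨hinf, hfull⟩ := hmem
  obtain ⟨hdepth, hdens⟩ := h2k hinf
  set v : V d := Pi.single ⟨0, hd0⟩ (k : ℤ) with hv
  refine ⟨v, Rc ω', fun z => ctr ω' z + v, ?_, ?_, ?_⟩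
  · intro z hz i
    have h3 := (hctr ω' z hz).1 i
    have e1 : (ctr ω' z + v) i - (v i + cz ℓ z i) = ctr ω' z i - cz ℓ z i := by
      rw [Pi.add_apply]; ring
    rw [e1]; exact h3
  · intro j
    filter_upwards [hdepth j] with k' hk' z hz hzn
    have h3 := hk' z hz hzn
    have h4 := ((hctr ω' z hz).2 hfull).2
    have h5 : Joined κ (tot ω) (0 + v) (ctr ω' z + v) (M * (dep ω' z + 1)) := joined_shift h4
    rw [zero_add] at h5
    refine joined_mono h5 (fun _ h => h) ?_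
    have h6 : ((dep ω' z : ℕ) : ℝ) ≤ C' * 2 ^ (k' - j) + C' * (k' + 1) ^ (d + 1) := by
      exact_mod_cast h3
    have h7 : (1 : ℝ) ≤ ((k' : ℝ) + 1) ^ (d + 1) := by
      apply one_le_pow₀
      have : (0 : ℝ) ≤ k' := Nat.cast_nonneg _
      linarith
    have hM : (0 : ℝ) ≤ M := Nat.cast_nonneg _
    have hCn : (0 : ℝ) ≤ C' := Nat.cast_nonneg _
    have h8 : (0 : ℝ) < 2 ^ (k' - j) := by positivity
    push_cast
    calc (M : ℝ) * ((dep ω' z : ℝ) + 1)
        ≤ M * ((C' * 2 ^ (k' - j) + C' * (k' + 1) ^ (d + 1)) + (k' + 1) ^ (d + 1)) := by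
          gcongr
      _ = M * C' * 2 ^ (k' - j) + M * (C' + 1) * (k' + 1) ^ (d + 1) := by ring
      _ ≤ (M + 1) * (C' + 1) * 2 ^ (k' - j) + (M + 1) * (C' + 1) * (k' + 1) ^ (d + 1) := by
          gcongr <;> linarith
  · filter_upwards [hdens] with k' hk' x y W hW hc
    refine hk' x y W hW (lt_of_le_of_lt ?_ hc)
    apply Nat.mul_le_mul_right
    nlinarith [Nat.zero_le M, Nat.zero_le C']

end Pool.Agent.H47.GM
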