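import Pool.Agent.H47.GM.Defs

/-!
# GM module Bdry: the boundary vertices reached from a box (definition)
-/

open MeasureTheory Filter Topology
open Pool.Agent.H17.IIC Pool.Agent.H41.QC

namespace Pool.Agent.H47.GM

variable {d : ℕ}

open Classical in
/-- vertices of the boundary of `Bx 0 n` reached from `Bx 0 m` inside `Bx 0 n` -/
noncomputable def Un (κ : Kind) (ω : El d → Bool) (m n : ℕ) : Finset (V d) :=
  (Bx (0 : V d) n).filter fun y => (∃ i, |y i| = (n : ℤ)) ∧
    ∃ u ∈ Bx (0 : V d) m, Rch κ ω (Bx (0 : V d) n : Set (V d)) u y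

end Pool.Agent.H47.GM
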