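import Pool.Agent.H41.QC.Boundary
import Pool.Agent.H41.QC.Path
import Pool.Agent.H47.GM.Defs

/-!
# GM module Cell: macroscopic cells

`cell v ℓ u` is the macroscopic cell of `u` (side `6ℓ`, seen from `v`).
-/

open MeasureTheory Filter Topology
open Pool.Agent.H17.IIC Pool.Agent.H41.QC

namespace Pool.Agent.H47.GM

variable {d : ℕ}

/-- macroscopic cell -/
def cell (v : V d) (ℓ : ℕ) (u : V d) : V d := fun i => (u i - v i) / (6 * ℓ)

lemma cell_near {v u : V d} {ℓ : ℕ} (hℓ : 1 ≤ ℓ) (i : Fin d) :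
    0 ≤ u i - (v i + cz ℓ (cell v ℓ u) i) ∧ u i - (v i + cz ℓ (cell v ℓ u) i) < 6 * ℓ := by
  have hl : (0 : ℤ) < 6 * (ℓ : ℤ) := by
    have : (1 : ℤ) ≤ ℓ := by exact_mod_cast hℓ
    linarith
  have e : cz ℓ (cell v ℓ u) i = 6 * (ℓ : ℤ) * ((u i - v i) / (6 * (ℓ : ℤ))) := rfl
  have h1 := Int.emod_nonneg (u i - v i) hl.ne'
  have h2 := Int.emod_lt_of_pos (u i - v i) hl
  have h3 := Int.mul_ediv_add_emod (u i - v i) (6 * (ℓ : ℤ))
  rw [e]
  constructor <;> linarith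

lemma cell_step_aux {v u : V d} {ℓ : ℕ} (hℓ : 1 ≤ ℓ) (i : Fin d) :
    cell v ℓ (u + Pi.single i 1) = cell v ℓ u ∨
      cell v ℓ (u + Pi.single i 1) = cell v ℓ u + Pi.single i 1 := by
  have hl : (1 : ℤ) < 6 * (ℓ : ℤ) := by
    have : (1 : ℤ) ≤ ℓ := by exact_mod_cast hℓ
    linarith
  have key : (u i - v i + 1) / (6 * (ℓ : ℤ)) = (u i - v i) / (6 * (ℓ : ℤ)) ∨
      (u i - v i + 1) / (6 * (ℓ : ℤ)) = (u i - v i) / (6 * (ℓ : ℤ)) + 1 := by
    have h1 := Int.emod_nonneg (u i - v i) (by linarith : 6 * (ℓ : ℤ) ≠ 0)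
    have h2 := Int.emod_lt_of_pos (u i - v i) (by linarith : 0 < 6 * (ℓ : ℤ))
    have h3 := Int.mul_ediv_add_emod (u i - v i) (6 * (ℓ : ℤ))
    set q := (u i - v i) / (6 * (ℓ : ℤ)) with hq
    set r := (u i - v i) % (6 * (ℓ : ℤ)) with hr
    rcases lt_or_ge (r + 1) (6 * (ℓ : ℤ)) with h4 | h4
    · left
      rw [Int.ediv_eq_iff_of_pos (by linarith)]
      constructor <;> nlinarith
    · right
      rw [Int.ediv_eq_iff_of_pos (by linarith)]
      constructor <;> nlinarith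
  have hoff : ∀ j, j ≠ i → cell v ℓ (u + Pi.single i 1) j = cell v ℓ u j := by
    intro j hj
    unfold cell
    rw [Pi.add_apply, Pi.single_eq_of_ne hj, add_zero]
  have hon : cell v ℓ (u + Pi.single i 1) i = (u i - v i + 1) / (6 * (ℓ : ℤ)) := by
    unfold cell
    rw [Pi.add_apply, Pi.single_eq_same]
    congr 1
    ring
  rcases key with h | h
  · left
    funext j
    by_cases hj : j = i
    · subst hj
      rw [hon, h]
      rfl
    · exact hoff j hj
  · right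
    funext j
    by_cases hj : j = i
    · subst hj
      rw [hon, h, Pi.add_apply, Pi.single_eq_same]
      rfl
    · rw [hoff j hj, Pi.add_apply, Pi.single_eq_of_ne hj, add_zero]

lemma cell_adj {v u u' : V d} {ℓ : ℕ} (hℓ : 1 ≤ ℓ) (h : LatAdj u u') :
    cell v ℓ u = cell v ℓ u' ∨ LatAdj (cell v ℓ u) (cell v ℓ u') := by
  obtain ⟨i, h | h⟩ := bd_latAdj_iff.1 h
  · rcases cell_step_aux (v := v) (u := u) hℓ i with h1 | h1
    · left; rw [h, h1]
    · right
      rw [h]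
      exact bd_latAdj_iff.2 ⟨i, Or.inl h1⟩
  · rcases cell_step_aux (v := v) (u := u') hℓ i with h1 | h1
    · left; rw [h, h1]
    · right
      rw [h]
      exact bd_latAdj_iff.2 ⟨i, Or.inr h1⟩

/-- the vertices of a cell -/
lemma cell_card {v : V d} {ℓ : ℕ} (hℓ : 1 ≤ ℓ) (z : V d) (S : Finset (V d))
    (hS : ∀ u ∈ S, cell v ℓ u = z) : S.card ≤ (6 * ℓ) ^ d := by
  have hsub : S ⊆ Fintype.piFinset fun i =>
      Finset.Ico (v i + 6 * (ℓ : ℤ) * z i) (v i + 6 * (ℓ : ℤ) * z i + 6 * (ℓ : ℤ)) := by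
    intro u hu
    rw [Fintype.mem_piFinset]
    intro i
    obtain ⟨h1, h2⟩ := cell_near (v := v) (u := u) hℓ i
    rw [hS u hu] at h1 h2
    have e : cz ℓ z i = 6 * (ℓ : ℤ) * z i := rfl
    rw [e] at h1 h2
    rw [Finset.mem_Ico]
    constructor <;> linarith
  refine (Finset.card_le_card hsub).trans ?_
  rw [Fintype.card_piFinset]
  have : ∀ i : Fin d, (Finset.Ico (v i + 6 * (ℓ : ℤ) * z i)
      (v i + 6 * (ℓ : ℤ) * z i + 6 * (ℓ : ℤ))).card = 6 * ℓ := by
    intro i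
    rw [Int.card_Ico]
    have e : v i + 6 * (ℓ : ℤ) * z i + 6 * (ℓ : ℤ) - (v i + 6 * (ℓ : ℤ) * z i) =
        ((6 * ℓ : ℕ) : ℤ) := by push_cast; ring
    rw [e, Int.toNat_natCast]
  rw [Finset.prod_congr rfl fun i _ => this i]
  simp

/-- the cells along a piece of a path form a lattice walk -/
lemma cell_walk {v : V d} {ℓ : ℕ} (hℓ : 1 ≤ ℓ) {N : ℕ} (x : V d) (s : Fin N → Step d) {a b : ℕ}
    (hab : a ≤ b) (hb : b ≤ N) :
    ∃ W : (Lat d).Walk (cell v ℓ (x + pos s a)) (cell v ℓ (x + pos s b)),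
      ∀ z, z ∈ W.support ↔ ∃ t, a ≤ t ∧ t ≤ b ∧ z = cell v ℓ (x + pos s t) := by
  induction b, hab using Nat.le_induction with
  | base =>
    refine ⟨SimpleGraph.Walk.nil, fun z => ?_⟩
    rw [SimpleGraph.Walk.support_nil, List.mem_singleton]
    constructor
    · intro h
      exact ⟨a, le_rfl, le_rfl, h⟩
    · rintro ⟨t, h1, h2, h3⟩
      have : t = a := le_antisymm h2 h1
      rw [h3, this]
  | succ b hab ih =>
    obtain ⟨W, hW⟩ := ih (by omega)
    have hstep : LatAdj (x + pos s b) (x + pos s (b + 1)) := by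
      refine ⟨s ⟨b, by omega⟩, ?_⟩
      have := pos_succ s ⟨b, by omega⟩
      rw [this, add_assoc]
    have hiff : ∀ z, (∃ t, a ≤ t ∧ t ≤ b + 1 ∧ z = cell v ℓ (x + pos s t)) ↔
        (∃ t, a ≤ t ∧ t ≤ b ∧ z = cell v ℓ (x + pos s t)) ∨
          z = cell v ℓ (x + pos s (b + 1)) := by
      intro z
      constructor
      · rintro ⟨t, h1, h2, h3⟩
        rcases Nat.lt_or_ge b t with h4 | h4
        · have : t = b + 1 := by omega
          right; rw [h3, this]
        · left; exact ⟨t, h1, h4, h3⟩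
      · rintro (⟨t, h1, h2, h3⟩ | h)
        · exact ⟨t, h1, by omega, h3⟩
        · exact ⟨b + 1, by omega, le_rfl, h⟩
    rcases cell_adj (v := v) hℓ hstep with h | h
    · refine ⟨W.copy rfl h, fun z => ?_⟩
      rw [SimpleGraph.Walk.support_copy, hW, hiff]
      constructor
      · exact Or.inl
      · rintro (h1 | h1)
        · exact h1
        · exact ⟨b, hab, le_rfl, by rw [h1, h]⟩
    · refine ⟨W.concat (bd_lat_adj.2 h), fun z => ?_⟩
      rw [SimpleGraph.Walk.support_concat, List.mem_append,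
        List.mem_singleton, hW, hiff]

end Pool.Agent.H47.GM
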