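import Pool.Agent.H41.QC.Defs
import Pool.Agent.H47.GM.Mu

/-!
# GM module Fields: a base field and finitely many sprinkling fields

Coordinates `Fin (J+1) × El d`; field `0` has parameter `p`, the other `J` fields have
parameter `δ`; everything is independent.
-/

open MeasureTheory Filter Topology
open Pool.Agent.H17.IIC Pool.Agent.H41.QC

namespace Pool.Agent.H47.GM

variable {d J : ℕ}

/-- parameters of the fields -/
noncomputable def parJ (d J : ℕ) (p δ : unitInterval) : Fin (J + 1) × El d → unitInterval :=
  fun x => if x.1 = 0 then p else δ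

/-- the field number `j` -/
def fld (j : Fin (J + 1)) (ω : Fin (J + 1) × El d → Bool) : El d → Bool := fun e => ω (j, e)

/-- union of all fields -/
def tot (ω : Fin (J + 1) × El d → Bool) : El d → Bool := fun e => decide (∃ j, ω (j, e) = true)

lemma fld_le_tot (j : Fin (J + 1)) (ω : Fin (J + 1) × El d → Bool) (e : El d)
    (h : fld j ω e = true) : tot ω e = true := by
  unfold tot
  exact decide_eq_true ⟨j, h⟩

lemma measurable_fld (j : Fin (J + 1)) :
    Measurable (fld j : (Fin (J + 1) × El d → Bool) → El d → Bool) := by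
  rw [measurable_pi_iff]
  intro e
  exact measurable_pi_apply (j, e)

lemma measurable_tot : Measurable (tot : (Fin (J + 1) × El d → Bool) → El d → Bool) := by
  rw [measurable_pi_iff]
  intro e
  apply measurable_to_bool
  have : (fun ω : Fin (J + 1) × El d → Bool => tot ω e) ⁻¹' {true} =
      ⋃ j : Fin (J + 1), {ω | ω (j, e) = true} := by
    ext ω
    simp [tot]
  rw [this]
  apply MeasurableSet.iUnion
  intro j
  exact measurableSet_eq_fun (measurable_pi_apply _) measurable_const

/-- law of one field -/
lemma fields_law (p δ : unitInterval) (j : Fin (J + 1)) :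
    (mu (parJ d J p δ)).map (fld j) = prodBern (El d) (if j = 0 then p else δ) := by
  have h := mu_comp (parJ d J p δ) (fun e : El d => (j, e)) (fun a b hab => (Prod.ext_iff.mp hab).2)
  rw [← mu_const]
  exact h

/-- `mu_comp` -/
theorem law_fld (p δ : unitInterval) :
    (mu (parJ d J p δ)).map (fld 0) = prodBern (El d) p := by
  have h := fields_law (d := d) p δ (0 : Fin (J + 1))
  rwa [if_pos rfl] at h

theorem law_pair (p δ : unitInterval) {j : Fin (J + 1)} (hj : j ≠ 0) :
    (mu (parJ d J p δ)).map (fun ω => (fld 0 ω, fld j ω))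
      = (prodBern (El d) p).prod (prodBern (El d) δ) := by
  symm
  apply Measure.prod_eq
  intro A B hA hB
  have hm : Measurable (fun ω : Fin (J + 1) × El d → Bool => (fld 0 ω, fld j ω)) :=
    (measurable_fld 0).prodMk (measurable_fld j)
  rw [Measure.map_apply hm (hA.prod hB)]
  have h1 : (mu (parJ d J p δ)) (fld 0 ⁻¹' A) = prodBern (El d) p A := by
    rw [← law_fld (J := J) p δ, Measure.map_apply (measurable_fld 0) hA]
  have h2 : (mu (parJ d J p δ)) (fld j ⁻¹' B) = prodBern (El d) δ B := by
    have h := fields_law (d := d) p δ j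
    rw [if_neg hj] at h
    rw [← h, Measure.map_apply (measurable_fld j) hB]
  have h3 : (fun ω : Fin (J + 1) × El d → Bool => (fld 0 ω, fld j ω)) ⁻¹' (A ×ˢ B) =
      (fld 0 ⁻¹' A) ∩ (fld j ⁻¹' B) := by
    ext ω; simp
  have h4 := mu_indep (parJ d J p δ) {x : Fin (J + 1) × El d | x.1 = 0}
    (measurable_fld 0 hA) (measurable_fld j hB)
    (by
      intro ω ω' h
      have : fld 0 ω = fld 0 ω' := by
        funext e
        exact h (0, e) rfl
      simp only [Set.mem_preimage, this])
    (by
      intro ω ω' h
      have : fld j ω = fld j ω' := by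
        funext e
        exact h (j, e) (fun h' => hj h')
      simp only [Set.mem_preimage, this])
  rw [h3, ← h1, ← h2]
  rw [measureReal_def, measureReal_def, measureReal_def, ← ENNReal.toReal_mul] at h4
  exact (ENNReal.toReal_eq_toReal_iff' (measure_ne_top _ _)
    (ENNReal.mul_ne_top (measure_ne_top _ _) (measure_ne_top _ _))).mp h4

/-- the sets of configurations vanishing on a finite set -/
def FieldsZero (ι : Type*) : Set (Set (ι → Bool)) :=
  Set.range fun s : Finset ι => {ω : ι → Bool | ∀ e ∈ s, ω e = false}

lemma fields_zero_pi (ι : Type*) : IsPiSystem (FieldsZero ι) := by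
  classical
  rintro _ ⟨s, rfl⟩ _ ⟨t, rfl⟩ _
  refine ⟨s ∪ t, ?_⟩
  ext ω
  simp only [Set.mem_ofPred_eq, Set.mem_inter_iff, Finset.mem_union]
  constructor
  · intro h
    exact ⟨fun e he => h e (Or.inl he), fun e he => h e (Or.inr he)⟩
  · rintro ⟨h1, h2⟩ e (he | he)
    · exact h1 e he
    · exact h2 e he

lemma fields_zero_meas {ι : Type*} (s : Finset ι) :
    MeasurableSet {ω : ι → Bool | ∀ e ∈ s, ω e = false} := by
  have : {ω : ι → Bool | ∀ e ∈ s, ω e = false} = ⋂ e ∈ s, {ω : ι → Bool | ω e = false} := by
    ext ω; simp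
  rw [this]
  apply Finset.measurableSet_biInter
  intro e _
  exact measurableSet_eq_fun (measurable_pi_apply _) measurable_const

lemma fields_zero_gen (ι : Type*) :
    (MeasurableSpace.pi : MeasurableSpace (ι → Bool)) =
      MeasurableSpace.generateFrom (FieldsZero ι) := by
  apply le_antisymm
  · apply iSup_le
    intro e
    rw [MeasurableSpace.comap_le_iff_le_map]
    change Measurable[MeasurableSpace.generateFrom (FieldsZero ι)] (fun ω : ι → Bool => ω e)
    refine @measurable_to_bool _ (MeasurableSpace.generateFrom (FieldsZero ι)) _ ?_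
    have h1 : (fun ω : ι → Bool => ω e) ⁻¹' {true} =
        {ω : ι → Bool | ∀ e' ∈ ({e} : Finset ι), ω e' = false}ᶜ := by
      ext ω; simp
    rw [h1]
    exact @MeasurableSet.compl _ _ (MeasurableSpace.generateFrom (FieldsZero ι))
      (MeasurableSpace.measurableSet_generateFrom ⟨{e}, rfl⟩)
  · apply MeasurableSpace.generateFrom_le
    rintro _ ⟨s, rfl⟩
    exact fields_zero_meas s

lemma fields_mu_zero {ι : Type*} (par : ι → unitInterval) (s : Finset ι) :
    mu par {ω : ι → Bool | ∀ e ∈ s, ω e = false} = ∏ e ∈ s, ENNReal.ofReal (1 - (par e : ℝ)) := by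
  have h1 : {ω : ι → Bool | ∀ e ∈ s, ω e = false} = Set.pi s (fun _ => {false}) := by
    ext ω; simp
  rw [h1, mu, Measure.infinitePi_pi (μ := fun i : ι => bern (par i))
    (fun i _ => MeasurableSet.singleton false)]
  apply Finset.prod_congr rfl
  intro e _
  unfold bern
  simp

/-- induction on `J` with `map_or`, or directly with `Measure.eq_infinitePi` -/
theorem law_tot (p δ p' : unitInterval) (h : (1 - p' : ℝ) = (1 - p) * (1 - δ) ^ J) :
    (mu (parJ d J p δ)).map tot = prodBern (El d) p' := by
  classical
  have hprob : IsProbabilityMeasure ((mu (parJ d J p δ)).map tot) :=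
    Measure.isProbabilityMeasure_map (measurable_tot (d := d) (J := J)).aemeasurable
  apply ext_of_generate_finite (FieldsZero (El d)) (fields_zero_gen _) (fields_zero_pi _)
  · rintro _ ⟨s, rfl⟩
    rw [Measure.map_apply measurable_tot (fields_zero_meas s), ← mu_const, fields_mu_zero]
    have h1 : (tot ⁻¹' {ω : El d → Bool | ∀ e ∈ s, ω e = false} : Set (Fin (J + 1) × El d → Bool))
        = {ω | ∀ x ∈ (Finset.univ : Finset (Fin (J + 1))) ×ˢ s, ω x = false} := by
      ext ω
      simp only [Set.mem_preimage, Set.mem_ofPred_eq, Finset.mem_product, Finset.mem_univ, true_and,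
        tot, decide_eq_false_iff_not, not_exists, Bool.not_eq_true]
      constructor
      · rintro h2 ⟨j, e⟩ he
        exact h2 e he j
      · intro h2 e he j
        exact h2 (j, e) he
    rw [h1, fields_mu_zero, Finset.prod_product_right]
    apply Finset.prod_congr rfl
    intro e _
    rw [h, Fin.prod_univ_succ]
    have h2 : ∀ j : Fin J, ENNReal.ofReal (1 - (parJ d J p δ (j.succ, e) : ℝ)) =
        ENNReal.ofReal (1 - (δ : ℝ)) := by
      intro j
      unfold parJ
      rw [if_neg (Fin.succ_ne_zero j)]
    rw [Finset.prod_congr rfl (fun j _ => h2 j), Finset.prod_const, Finset.card_univ,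
      Fintype.card_fin, ENNReal.ofReal_mul (by linarith [p.2.2]), ENNReal.ofReal_pow
      (by linarith [δ.2.2])]
    unfold parJ
    rw [if_pos rfl]
  · simp

end Pool.Agent.H47.GM
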