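import Pool.Agent.H47.GM.Defs
import Pool.Agent.H47.GM.Fields

/-!
# GM module ChainDefs: a chain of seven steps in direction `i₀` with sign `b`

State: explored cluster `R`, centre `x` of the current seed, number `t` of steps done, `ok`.
Step `t` uses the base field and the sprinkling field number `t + 1` (of `7`).
The transversal coordinates are steered towards `c₀`.
-/

open MeasureTheory Filter Topology
open Pool.Agent.H17.IIC Pool.Agent.H41.QC

namespace Pool.Agent.H47.GM

variable {d : ℕ}

/-- state of the chain -/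
structure CS (d : ℕ) where
  R : Finset (V d)
  x : V d
  t : ℕ
  ok : Bool

/-- translate of a finite set -/
noncomputable def shF (x : V d) (D : Finset (V d)) : Finset (V d) :=
  open Classical in D.image fun y => y + x

lemma mem_shF {x y : V d} {D : Finset (V d)} : y ∈ shF x D ↔ y - x ∈ D := by
  classical
  unfold shF
  rw [Finset.mem_image]
  constructor
  · rintro ⟨a, ha, rfl⟩
    simpa using ha
  · intro h
    exact ⟨y - x, h, by simp⟩

/-- quadrant steering the transversal coordinates towards `c₀`, direction sign `b` -/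
def steer (i₀ : Fin d) (b : Bool) (c₀ x : V d) : Fin d → Bool :=
  fun i => if i = i₀ then b else decide (x i ≤ c₀ i)

/-- parameters of the chain -/
structure CP (d : ℕ) where
  κ : Kind
  n : ℕ
  m : ℕ
  i₀ : Fin d
  b : Bool
  c₀ : V d

/-- region and target centres of the step from `x` -/
noncomputable def CP.D (P : CP d) (x : V d) : Finset (V d) :=
  shF x (Dq P.n P.m P.i₀ (steer P.i₀ P.b P.c₀ x))

noncomputable def CP.C (P : CP d) (x : V d) : Finset (V d) :=
  shF x (Cq P.n P.m P.i₀ (steer P.i₀ P.b P.c₀ x))

open Classical in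
/-- new cluster -/
noncomputable def CP.newR (P : CP d) (s : CS d) (ω : Fin (7 + 1) × El d → Bool) : Finset (V d) :=
  growF P.κ s.R (P.D s.x)
    (mix P.κ (s.R : Set (V d)) (fld 0 ω) (fld (Fin.ofNat (7 + 1) (s.t + 1)) ω))

open Classical in
/-- fully open target boxes contained in the new cluster -/
noncomputable def CP.val (P : CP d) (s : CS d) (ω : Fin (7 + 1) × El d → Bool) : Finset (V d) :=
  (P.C s.x).filter fun c =>
    FullOpen P.κ (fld 0 ω) (Bx c P.m : Set (V d)) ∧ Bx c P.m ⊆ P.newR s ω

open Classical in
/-- one step -/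
noncomputable def CP.step (P : CP d) (s : CS d) (ω : Fin (7 + 1) × El d → Bool) : CS d :=
  if s.ok = true ∧ s.t < 7 then
    if h : (P.val s ω).Nonempty then ⟨P.newR s ω, h.choose, s.t + 1, true⟩
    else ⟨P.newR s ω, s.x, s.t + 1, false⟩
  else s

/-- revealed coordinates -/
def CP.E (P : CP d) (s : CS d) : Set (Fin (7 + 1) × El d) :=
  {q | (q.1 = 0 ∧ touch P.κ (s.R : Set (V d)) q.2) ∨ (q.1 ≠ 0 ∧ (q.1 : ℕ) ≤ s.t)}

/-- good states: while the chain is alive the seed is in the cluster, which does not reach beyond
the seed in direction `i₀` -/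
def CP.good (P : CP d) (s : CS d) : Prop :=
  s.t ≤ 7 ∧ (s.ok = true → Bx s.x P.m ⊆ s.R ∧
    ∀ y ∈ s.R, sg P.b * (y P.i₀ - s.x P.i₀) ≤ P.m)

open Classical in
noncomputable def CP.lab (_P : CP d) (s : CS d) : Option ℕ :=
  if s.ok = true ∧ s.t < 7 then some s.t else none

/-- initial state -/
noncomputable def CP.init (P : CP d) (x : V d) : CS d := ⟨Bx x P.m, x, 0, true⟩

end Pool.Agent.H47.GM
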