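import Pool.Agent.H47.GM.Mu

/-!
# GM module Expl: sequential exploration

An exploration is a deterministic algorithm; in state `s` the coordinates in `E s` have been
revealed; `step s ω` is the next state, it is determined by the newly revealed coordinates
(`loc`) and depends on finitely many coordinates only (`fin`). Steps may carry a label (`lab`),
a label is used at most once.

`seq_bound`: if every labelled step is bad with (unconditional) probability at most `ε`, then all
labels of `B` are bad with probability at most `ε ^ |B|`.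

Proof by induction on `n` for all good states `s` and all `B`. `n = 0` clear. Step: the values
`s' = step s ω` form a finite set (by `fin`), the event `{step s ω = s'}` depends only on
`E s'` (by `loc`, `mono`), and the event for `n` steps from `s'` depends only on `(E s')ᶜ`
(`run_off`) and on finitely many coordinates (`run_dep`, so it is measurable); by `mu_indep` and
the induction hypothesis the probability is at most the sum over `s'` of
`mu {step s ω = s'} * ε ^ |B|` if the label of `s` is not in `B`, and, if it is `l ∈ B`, the sum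
over the bad `s'` of `mu {step s ω = s'} * ε ^ |B \ {l}|` (the label `l` is not used again, since
it belongs to `done s'`, which increases).
-/

open MeasureTheory Filter Topology
open Pool.Agent.H17.IIC Pool.Agent.H41.QC

namespace Pool.Agent.H47.GM

variable {ι S L : Type*}

/-- exploration algorithm -/
structure Expl (ι S L : Type*) where
  good : S → Prop
  step : S → (ι → Bool) → S
  E : S → Set ι
  lab : S → Option L
  done : S → Set L
  good_step : ∀ s ω, good s → good (step s ω)
  mono : ∀ s ω, good s → E s ⊆ E (step s ω)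
  loc : ∀ s ω ω', good s → (∀ i ∈ E (step s ω) \ E s, ω i = ω' i) → step s ω' = step s ω
  fin : ∀ s, ∃ Λ : Finset ι, ∀ ω ω', (∀ i ∈ Λ, ω i = ω' i) → step s ω = step s ω'
  lab_done : ∀ s l, good s → lab s = some l → l ∉ done s
  done_some : ∀ s ω l, good s → lab s = some l → done (step s ω) = insert l (done s)
  done_none : ∀ s ω, good s → lab s = none → done (step s ω) = done s

/-- `n` steps -/
def Expl.run (X : Expl ι S L) : ℕ → S → (ι → Bool) → S
  | 0, s, _ => s
  | n + 1, s, ω => X.run n (X.step s ω) ω

lemma Expl.run_succ (X : Expl ι S L) (n : ℕ) (s : S) (ω : ι → Bool) :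
    X.run (n + 1) s ω = X.step (X.run n s ω) ω := by
  induction n generalizing s with
  | zero => rfl
  | succ n ih => exact ih (X.step s ω)

lemma Expl.good_run (X : Expl ι S L) (n : ℕ) {s : S} (ω : ι → Bool) (hs : X.good s) :
    X.good (X.run n s ω) := by
  induction n generalizing s with
  | zero => exact hs
  | succ n ih => exact ih (X.good_step s ω hs)

theorem Expl.run_off (X : Expl ι S L) (n : ℕ) {s : S} (hs : X.good s) {ω ω' : ι → Bool}
    (h : ∀ i, i ∉ X.E s → ω i = ω' i) : X.run n s ω = X.run n s ω' := by
  induction n generalizing s with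
  | zero => rfl
  | succ n ih =>
    have h1 : X.step s ω' = X.step s ω := X.loc s ω ω' hs fun i hi => h i hi.2
    show X.run n (X.step s ω) ω = X.run n (X.step s ω') ω'
    rw [h1]
    exact ih (X.good_step s ω hs) fun i hi => h i fun hi' => hi (X.mono s ω hs hi')

/-- one step has finitely many outcomes -/
lemma Expl.finite_step (X : Expl ι S L) (s : S) : (Set.range (X.step s)).Finite := by
  classical
  obtain ⟨Λ, hΛ⟩ := X.fin s
  have h1 : Set.range (X.step s) ⊆
      Set.range (fun g : Λ → Bool => X.step s (fun i => if h : i ∈ Λ then g ⟨i, h⟩ else false)) := by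
    rintro _ ⟨ω, rfl⟩
    refine ⟨fun i => ω i, ?_⟩
    apply hΛ
    intro i hi
    simp [hi]
  exact (Set.finite_range _).subset h1

theorem Expl.run_dep (X : Expl ι S L) (n : ℕ) (s : S) :
    ∃ Λ : Finset ι, ∀ ω ω', (∀ i ∈ Λ, ω i = ω' i) → X.run n s ω = X.run n s ω' := by
  classical
  induction n generalizing s with
  | zero => exact ⟨∅, fun _ _ _ => rfl⟩
  | succ n ih =>
    obtain ⟨Λ, hΛ⟩ := X.fin s
    choose Λ' hΛ' using ih
    refine ⟨Λ ∪ (X.finite_step s).toFinset.biUnion Λ', fun ω ω' h => ?_⟩
    have h1 : X.step s ω = X.step s ω' := hΛ ω ω' fun i hi => h i (Finset.mem_union_left _ hi)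
    show X.run n (X.step s ω) ω = X.run n (X.step s ω') ω'
    rw [← h1]
    apply hΛ'
    intro i hi
    apply h
    apply Finset.mem_union_right
    rw [Finset.mem_biUnion]
    exact ⟨X.step s ω, by simp, hi⟩

/-- done labels stay done -/
lemma Expl.done_run (X : Expl ι S L) (n : ℕ) {s : S} (ω : ι → Bool) (hs : X.good s) :
    X.done s ⊆ X.done (X.run n s ω) := by
  induction n generalizing s with
  | zero => exact subset_rfl
  | succ n ih =>
    have h1 : X.done s ⊆ X.done (X.step s ω) := by
      cases hl : X.lab s with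
      | none => rw [X.done_none s ω hs hl]
      | some l => rw [X.done_some s ω l hs hl]; exact Set.subset_insert _ _
    exact h1.trans (ih (X.good_step s ω hs))

/-- the outcome of a step depends on the revealed coordinates -/
lemma Expl.step_on (X : Expl ι S L) {s : S} (hs : X.good s) (s' : S) :
    On (X.E s') {ω | X.step s ω = s'} := by
  intro ω ω' h
  simp only [Set.mem_ofPred_eq]
  constructor
  · intro h1
    rw [X.loc s ω ω' hs fun i hi => h i (h1 ▸ hi.1)]
    exact h1
  · intro h1
    rw [X.loc s ω' ω hs fun i hi => (h i (h1 ▸ hi.1)).symm]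
    exact h1

lemma Expl.step_meas (X : Expl ι S L) (s s' : S) : MeasurableSet {ω | X.step s ω = s'} := by
  obtain ⟨Λ, hΛ⟩ := X.fin s
  apply On.measurableSet (Λ := Λ)
  intro ω ω' h
  simp only [Set.mem_ofPred_eq]
  rw [hΛ ω ω' fun i hi => h i hi]

/-- first step analysis -/
lemma Expl.first_step (X : Expl ι S L) (par : ι → unitInterval) {s : S} (hs : X.good s)
    (P : S → Prop) (C : S → Set (ι → Bool)) {c : ℝ} (hc : 0 ≤ c)
    (hC : ∀ s' ∈ Set.range (X.step s), (mu par).real (C s') ≤ c)
    (hOn : ∀ s' ∈ Set.range (X.step s), On (X.E s')ᶜ (C s'))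
    (hM : ∀ s' ∈ Set.range (X.step s), MeasurableSet (C s')) :
    (mu par).real {ω | P (X.step s ω) ∧ ω ∈ C (X.step s ω)} ≤
      (mu par).real {ω | P (X.step s ω)} * c := by
  classical
  set I : Finset S := (X.finite_step s).toFinset.filter P with hI
  have hmem : ∀ s', s' ∈ I ↔ s' ∈ Set.range (X.step s) ∧ P s' := by
    intro s'
    rw [hI, Finset.mem_filter, Set.Finite.mem_toFinset]
  have h1 : {ω | P (X.step s ω) ∧ ω ∈ C (X.step s ω)} ⊆
      ⋃ s' ∈ I, ({ω | X.step s ω = s'} ∩ C s') := by
    rintro ω ⟨h1, h2⟩
    simp only [Set.mem_iUnion]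
    exact ⟨X.step s ω, (hmem _).mpr ⟨⟨ω, rfl⟩, h1⟩, rfl, h2⟩
  have h2 : (⋃ s' ∈ I, {ω | X.step s ω = s'}) = {ω | P (X.step s ω)} := by
    ext ω
    simp only [Set.mem_iUnion, Set.mem_ofPred_eq, exists_prop]
    constructor
    · rintro ⟨s', h3, rfl⟩
      exact ((hmem _).mp h3).2
    · intro h3
      exact ⟨_, (hmem _).mpr ⟨⟨ω, rfl⟩, h3⟩, rfl⟩
  calc (mu par).real {ω | P (X.step s ω) ∧ ω ∈ C (X.step s ω)}
      ≤ (mu par).real (⋃ s' ∈ I, ({ω | X.step s ω = s'} ∩ C s')) :=
        measureReal_mono h1 (measure_ne_top _ _)
    _ ≤ ∑ s' ∈ I, (mu par).real ({ω | X.step s ω = s'} ∩ C s') :=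
        measureReal_biUnion_finset_le _ _
    _ ≤ ∑ s' ∈ I, (mu par).real {ω | X.step s ω = s'} * c := by
        apply Finset.sum_le_sum
        intro s' hs'
        have h3 := ((hmem s').mp hs').1
        rw [mu_indep par (X.E s') (X.step_meas s s') (hM s' h3) (X.step_on hs s') (hOn s' h3)]
        exact mul_le_mul_of_nonneg_left (hC s' h3) measureReal_nonneg
    _ = (∑ s' ∈ I, (mu par).real {ω | X.step s ω = s'}) * c := by rw [Finset.sum_mul]
    _ = (mu par).real {ω | P (X.step s ω)} * c := by
        rw [← h2, measureReal_biUnion_finset]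
        · intro a _ b _ hab
          rw [Function.onFun, Set.disjoint_left]
          intro ω h3 h4
          exact hab (h3.symm.trans h4)
        · intro s' _
          exact X.step_meas s s'

theorem Expl.seq_bound (X : Expl ι S L) (par : ι → unitInterval) (bad : S → S → Prop) {ε : ℝ}
    (hε : 0 ≤ ε)
    (hbad : ∀ s, X.good s → ∀ l, X.lab s = some l →
      (mu par).real {ω | bad s (X.step s ω)} ≤ ε)
    {s : S} (hs : X.good s) (B : Finset L) (n : ℕ) :
    (mu par).real {ω | ∀ b ∈ B, ∃ k < n, X.lab (X.run k s ω) = some b ∧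
      bad (X.run k s ω) (X.run (k + 1) s ω)} ≤ ε ^ B.card := by
  classical
  induction n generalizing s B with
  | zero =>
    rcases B.eq_empty_or_nonempty with rfl | ⟨b, hb⟩
    · simp
    · have : {ω : ι → Bool | ∀ b ∈ B, ∃ k < 0, X.lab (X.run k s ω) = some b ∧
          bad (X.run k s ω) (X.run (k + 1) s ω)} = ∅ := by
        ext ω
        simp only [Set.mem_ofPred_eq, Set.mem_empty_iff_false, iff_false]
        intro h
        obtain ⟨k, hk, _⟩ := h b hb
        omega
      rw [this]
      simp only [measureReal_empty]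
      positivity
  | succ n ih =>
    set C : Finset L → S → Set (ι → Bool) := fun B s' => {ω | ∀ b ∈ B, ∃ k < n,
      X.lab (X.run k s' ω) = some b ∧ bad (X.run k s' ω) (X.run (k + 1) s' ω)} with hCdef
    have hgood : ∀ s' ∈ Set.range (X.step s), X.good s' := by
      rintro _ ⟨ω, rfl⟩
      exact X.good_step s ω hs
    have hOn : ∀ B', ∀ s' ∈ Set.range (X.step s), On (X.E s')ᶜ (C B' s') := by
      intro B' s' hs' ω ω' h
      have h1 : ∀ k, X.run k s' ω = X.run k s' ω' :=
        fun k => X.run_off k (hgood s' hs') fun i hi => h i hi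
      simp only [hCdef, Set.mem_ofPred_eq, h1]
    have hM : ∀ B', ∀ s' ∈ Set.range (X.step s), MeasurableSet (C B' s') := by
      intro B' s' hs'
      choose Λ hΛ using fun k => X.run_dep k s'
      apply On.measurableSet (Λ := (Finset.range (n + 1)).biUnion Λ)
      intro ω ω' h
      have h1 : ∀ k < n + 1, X.run k s' ω = X.run k s' ω' := by
        intro k hk
        apply hΛ k
        intro i hi
        apply h
        rw [Finset.mem_coe, Finset.mem_biUnion]
        exact ⟨k, Finset.mem_range.mpr hk, hi⟩
      simp only [hCdef, Set.mem_ofPred_eq]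
      refine forall_congr' fun b => forall_congr' fun _ => exists_congr fun k => ?_
      refine and_congr_right fun hk => ?_
      rw [h1 k (by omega), h1 (k + 1) (by omega)]
    have hC : ∀ B', ∀ s' ∈ Set.range (X.step s), (mu par).real (C B' s') ≤ ε ^ B'.card :=
      fun B' s' hs' => ih (hgood s' hs') B'
    have key : ∀ ω : ι → Bool, (∀ b ∈ B, ∃ k < n + 1, X.lab (X.run k s ω) = some b ∧
        bad (X.run k s ω) (X.run (k + 1) s ω)) → ∀ b ∈ B,
        (X.lab s = some b ∧ bad s (X.step s ω)) ∨ (∃ k < n,
          X.lab (X.run k (X.step s ω) ω) = some b ∧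
          bad (X.run k (X.step s ω) ω) (X.run (k + 1) (X.step s ω) ω)) := by
      intro ω h b hb
      obtain ⟨k, hk, h1, h2⟩ := h b hb
      cases k with
      | zero => left; exact ⟨h1, h2⟩
      | succ k => right; exact ⟨k, by omega, h1, h2⟩
    by_cases hl : ∃ l ∈ B, X.lab s = some l
    · obtain ⟨l, hlB, hl⟩ := hl
      have h1 : {ω : ι → Bool | ∀ b ∈ B, ∃ k < n + 1, X.lab (X.run k s ω) = some b ∧
          bad (X.run k s ω) (X.run (k + 1) s ω)} ⊆
          {ω | bad s (X.step s ω) ∧ ω ∈ C (B.erase l) (X.step s ω)} := by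
        intro ω hω
        have h2 := key ω hω
        have hg := X.good_step s ω hs
        refine ⟨?_, ?_⟩
        · rcases h2 l hlB with h3 | ⟨k, hk, h3, h4⟩
          · exact h3.2
          · exfalso
            have h5 : l ∈ X.done (X.step s ω) := by
              rw [X.done_some s ω l hs hl]; exact Set.mem_insert _ _
            exact X.lab_done _ l (X.good_run k ω hg) h3 (X.done_run k ω hg h5)
        · intro b hb
          rw [Finset.mem_erase] at hb
          rcases h2 b hb.2 with h3 | h3
          · exfalso
            have h4 := h3.1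
            rw [hl] at h4
            exact hb.1 (Option.some.inj h4).symm
          · exact h3
      have h3 := X.first_step par hs (fun s' => bad s s') (C (B.erase l)) (pow_nonneg hε _)
        (hC (B.erase l)) (hOn (B.erase l)) (hM (B.erase l))
      have h4 : ε * ε ^ (B.erase l).card = ε ^ B.card := by
        rw [← pow_succ', Finset.card_erase_add_one hlB]
      calc _ ≤ _ := measureReal_mono h1 (measure_ne_top _ _)
        _ ≤ _ := h3
        _ ≤ ε * ε ^ (B.erase l).card :=
          mul_le_mul_of_nonneg_right (hbad s hs l hl) (pow_nonneg hε _)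
        _ = ε ^ B.card := h4
    · push Not at hl
      have h1 : {ω : ι → Bool | ∀ b ∈ B, ∃ k < n + 1, X.lab (X.run k s ω) = some b ∧
          bad (X.run k s ω) (X.run (k + 1) s ω)} ⊆
          {ω | (fun _ : S => True) (X.step s ω) ∧ ω ∈ C B (X.step s ω)} := by
        intro ω hω
        have h2 := key ω hω
        refine ⟨trivial, ?_⟩
        intro b hb
        rcases h2 b hb with h3 | h3
        · exact absurd h3.1 (hl b hb)
        · exact h3
      have h3 := X.first_step par hs (fun _ => True) (C B) (pow_nonneg hε _) (hC B) (hOn B) (hM B)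
      calc _ ≤ _ := measureReal_mono h1 (measure_ne_top _ _)
        _ ≤ _ := h3
        _ ≤ 1 * ε ^ B.card :=
          mul_le_mul_of_nonneg_right measureReal_le_one (pow_nonneg hε _)
        _ = ε ^ B.card := one_mul _

end Pool.Agent.H47.GM
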