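import Pool.Agent.H47.GM.BaseLink
import Pool.Agent.H47.GM.ChainDefs
import Pool.Agent.H47.GM.Expl
import Pool.Agent.H47.GM.StepLoc

/-!
# GM module ChainExpl: the chain is an exploration

Needs `2 m + 1 ≤ n` (so that the target boxes are far from `R`).
`good_step`: `newR ⊆ R ∪ D`; a vertex of `D` satisfies `sg b (y - x)_{i₀} ≤ n + 2m + 1`, the new
centre satisfies `sg b (c - x)_{i₀} = n + m + 1`.
`loc`: `grow_loc`, `full_loc`; the newly revealed coordinates are the base coordinates touching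
the new cluster but not the old one, and the whole field `t + 1`. The choice of `c` depends only on
`val`.
-/

open MeasureTheory Filter Topology
open Pool.Agent.H17.IIC Pool.Agent.H41.QC

namespace Pool.Agent.H47.GM

variable {d : ℕ}

lemma ChainExpl_abs_sg (b : Bool) (y : ℤ) : |sg b * y| = |y| := by
  cases b <;> simp [sg]

lemma ChainExpl_steer (P : CP d) (x : V d) : steer P.i₀ P.b P.c₀ x P.i₀ = P.b := by
  unfold steer
  rw [if_pos rfl]

lemma ChainExpl_C (P : CP d) {x c : V d} (hc : c ∈ P.C x) :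
    sg P.b * (c P.i₀ - x P.i₀) = (P.n : ℤ) + P.m + 1 ∧
      ∀ i, i ≠ P.i₀ → (P.m : ℤ) ≤ sg (steer P.i₀ P.b P.c₀ x i) * (c i - x i) ∧
        sg (steer P.i₀ P.b P.c₀ x i) * (c i - x i) ≤ (P.n : ℤ) - P.m := by
  unfold CP.C at hc
  rw [mem_shF, mem_Cq, ChainExpl_steer] at hc
  exact hc

lemma ChainExpl_D (P : CP d) {x y : V d} (hy : y ∈ P.D x) :
    sg P.b * (y P.i₀ - x P.i₀) ≤ (P.n : ℤ) + 2 * P.m + 1 := by
  unfold CP.D at hy
  rw [mem_shF, Dq, Finset.mem_union, mem_Bx, mem_Tq, ChainExpl_steer] at hy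
  rcases hy with hy | hy
  · have h := hy P.i₀
    have h1 : |y P.i₀ - x P.i₀| ≤ P.n := by simpa using h
    have h2 := le_abs_self (sg P.b * (y P.i₀ - x P.i₀))
    rw [ChainExpl_abs_sg] at h2
    linarith
  · exact hy.1.2

/-- the target boxes are inside the region and far from the cluster -/
lemma CP.far (P : CP d) (hmn : 2 * P.m + 1 ≤ P.n) {s : CS d} (hs : P.good s) (hok : s.ok = true)
    {c : V d} (hc : c ∈ P.C s.x) :
    Bx c P.m ⊆ P.D s.x ∧ ∀ v ∈ Bx c P.m, v ∉ s.R ∧ ∀ a ∈ s.R, ¬ LatAdj a v := by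
  obtain ⟨h1, h2⟩ := ChainExpl_C P hc
  have hR := (hs.2 hok).2
  have hbd : ∀ (b : Bool) (u w : ℤ), |u - w| ≤ P.m →
      sg b * (u - w) ≤ P.m ∧ -(P.m : ℤ) ≤ sg b * (u - w) := by
    intro b u w h
    rw [← ChainExpl_abs_sg b, abs_le] at h
    exact ⟨h.2, h.1⟩
  have key : ∀ v ∈ Bx c P.m, ((P.n : ℤ) + 1 ≤ sg P.b * (v P.i₀ - s.x P.i₀) ∧
      sg P.b * (v P.i₀ - s.x P.i₀) ≤ (P.n : ℤ) + 2 * P.m + 1) ∧
      ∀ i, i ≠ P.i₀ → (0 : ℤ) ≤ sg (steer P.i₀ P.b P.c₀ s.x i) * (v i - s.x i) ∧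
        sg (steer P.i₀ P.b P.c₀ s.x i) * (v i - s.x i) ≤ (P.n : ℤ) := by
    intro v hv
    rw [mem_Bx] at hv
    have e : ∀ (b : Bool) (i : Fin d), sg b * (v i - s.x i) =
        sg b * (v i - c i) + sg b * (c i - s.x i) := by
      intro b i
      ring
    refine ⟨?_, fun i hi => ?_⟩
    · obtain ⟨h3, h4⟩ := hbd P.b _ _ (hv P.i₀)
      rw [e]
      constructor <;> linarith
    · obtain ⟨h3, h4⟩ := hbd (steer P.i₀ P.b P.c₀ s.x i) _ _ (hv i)
      obtain ⟨h5, h6⟩ := h2 i hi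
      rw [e]
      constructor <;> linarith
  refine ⟨fun v hv => ?_, fun v hv => ⟨fun hvR => ?_, fun a ha hav => ?_⟩⟩
  · unfold CP.D
    rw [mem_shF, Dq, Finset.mem_union, mem_Tq, ChainExpl_steer]
    right
    exact key v hv
  · have h3 := hR v hvR
    have h4 := (key v hv).1.1
    have : ((2 * P.m + 1 : ℕ) : ℤ) ≤ P.n := by exact_mod_cast hmn
    push_cast at this
    linarith
  · have h3 := hR a ha
    have h4 := (key v hv).1.1
    have h5 := LatAdj.abs_le hav P.i₀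
    rw [← ChainExpl_abs_sg P.b, abs_le] at h5
    have h6 : sg P.b * (v P.i₀ - s.x P.i₀) =
        sg P.b * (a P.i₀ - s.x P.i₀) - sg P.b * (a P.i₀ - v P.i₀) := by ring
    have h7 : ((2 * P.m + 1 : ℕ) : ℤ) ≤ P.n := by exact_mod_cast hmn
    push_cast at h7
    rw [h6] at h4
    have h8 := h5.1
    have h9 : (0 : ℤ) ≤ P.m := Int.natCast_nonneg _
    linarith

open Classical in
/-- the step as a function of the new cluster and the set of target boxes -/
noncomputable def ChainExpl_F (s : CS d) (N W : Finset (V d)) : CS d :=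
  if s.ok = true ∧ s.t < 7 then
    if h : W.Nonempty then ⟨N, h.choose, s.t + 1, true⟩
    else ⟨N, s.x, s.t + 1, false⟩
  else s

lemma ChainExpl_step (P : CP d) (s : CS d) (ω : Fin (7 + 1) × El d → Bool) :
    P.step s ω = ChainExpl_F s (P.newR s ω) (P.val s ω) := rfl

lemma ChainExpl_step_pos (P : CP d) {s : CS d} (h : s.ok = true ∧ s.t < 7)
    (ω : Fin (7 + 1) × El d → Bool) :
    (P.step s ω).R = P.newR s ω ∧ (P.step s ω).t = s.t + 1 ∧
      ((P.step s ω).ok = true → (P.step s ω).x ∈ P.val s ω) := by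
  unfold CP.step
  rw [if_pos h]
  by_cases hv : (P.val s ω).Nonempty
  · rw [dif_pos hv]
    exact ⟨rfl, rfl, fun _ => hv.choose_spec⟩
  · rw [dif_neg hv]
    exact ⟨rfl, rfl, fun h0 => absurd h0 (by simp)⟩

lemma ChainExpl_step_neg (P : CP d) {s : CS d} (h : ¬ (s.ok = true ∧ s.t < 7))
    (ω : Fin (7 + 1) × El d → Bool) : P.step s ω = s := by
  unfold CP.step
  rw [if_neg h]

theorem CP.good_step (P : CP d) (hmn : 2 * P.m + 1 ≤ P.n) (s : CS d)
    (ω : Fin (7 + 1) × El d → Bool) (hs : P.good s) : P.good (P.step s ω) := by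
  by_cases h : s.ok = true ∧ s.t < 7
  · obtain ⟨h1, h2, h3⟩ := ChainExpl_step_pos P h ω
    refine ⟨by rw [h2]; omega, fun hok => ?_⟩
    have h4 := h3 hok
    classical
    unfold CP.val at h4
    rw [Finset.mem_filter] at h4
    obtain ⟨h5, h6, h7⟩ := h4
    rw [h1]
    refine ⟨h7, fun y hy => ?_⟩
    obtain ⟨h8, -⟩ := ChainExpl_C P h5
    have e : sg P.b * (y P.i₀ - (P.step s ω).x P.i₀) =
        sg P.b * (y P.i₀ - s.x P.i₀) - sg P.b * ((P.step s ω).x P.i₀ - s.x P.i₀) := by ring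
    rw [e, h8]
    have h9 : y ∈ s.R ∪ P.D s.x := growF_subset _ _ _ _ hy
    rw [Finset.mem_union] at h9
    have hm0 : (0 : ℤ) ≤ P.m := Int.natCast_nonneg _
    have hn0 : (0 : ℤ) ≤ P.n := Int.natCast_nonneg _
    rcases h9 with h9 | h9
    · have := (hs.2 h.1).2 y h9
      linarith
    · have := ChainExpl_D P h9
      linarith
  · rw [ChainExpl_step_neg P h]
    exact hs

lemma ChainExpl_fin {t : ℕ} (h : t < 7) : ((Fin.ofNat (7 + 1) (t + 1) : Fin (7 + 1)) : ℕ) = t + 1 := by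
  rw [Fin.val_ofNat]
  exact Nat.mod_eq_of_lt (by omega)

theorem CP.loc (P : CP d) (hmn : 2 * P.m + 1 ≤ P.n) (s : CS d)
    (ω ω' : Fin (7 + 1) × El d → Bool) (hs : P.good s)
    (h : ∀ i ∈ P.E (P.step s ω) \ P.E s, ω i = ω' i) : P.step s ω' = P.step s ω := by
  by_cases hc : s.ok = true ∧ s.t < 7
  · obtain ⟨h1, h2, -⟩ := ChainExpl_step_pos P hc ω
    have hb : ∀ e, touch P.κ (P.newR s ω : Set (V d)) e → ¬ touch P.κ (s.R : Set (V d)) e →
        fld 0 ω e = fld 0 ω' e := by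
      intro e he1 he2
      refine h (0, e) ⟨Or.inl ⟨rfl, ?_⟩, ?_⟩
      · rw [h1]
        exact he1
      · rintro (⟨-, h3⟩ | ⟨h3, -⟩)
        · exact he2 h3
        · exact h3 rfl
    have hf : ∀ e, fld (Fin.ofNat (7 + 1) (s.t + 1)) ω e =
        fld (Fin.ofNat (7 + 1) (s.t + 1)) ω' e := by
      intro e
      have hv := ChainExpl_fin hc.2
      have hne : (Fin.ofNat (7 + 1) (s.t + 1) : Fin (7 + 1)) ≠ 0 := by
        intro h0
        rw [h0] at hv
        simp at hv
      refine h (Fin.ofNat (7 + 1) (s.t + 1), e) ⟨Or.inr ⟨hne, ?_⟩, ?_⟩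
      · rw [h2]
        exact hv.le
      · rintro (⟨h3, -⟩ | ⟨-, h3⟩)
        · exact hne h3
        · have h4 : ((Fin.ofNat (7 + 1) (s.t + 1) : Fin (7 + 1)) : ℕ) ≤ s.t := h3
          rw [hv] at h4
          omega
    have hN : P.newR s ω' = P.newR s ω := by
      unfold CP.newR at hb ⊢
      exact grow_loc P.κ s.R (P.D s.x) hb (fun e _ => hf e)
    have hV : P.val s ω' = P.val s ω := by
      classical
      unfold CP.val
      apply Finset.filter_congr
      intro c hcC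
      rw [hN]
      constructor
      · rintro ⟨h3, h4⟩
        exact ⟨(full_loc P.κ s.R (P.newR s ω) (Bx c P.m) h4 (CP.far P hmn hs hc.1 hcC).2 hb).2 h3,
          h4⟩
      · rintro ⟨h3, h4⟩
        exact ⟨(full_loc P.κ s.R (P.newR s ω) (Bx c P.m) h4 (CP.far P hmn hs hc.1 hcC).2 hb).1 h3,
          h4⟩
    rw [ChainExpl_step, ChainExpl_step, hN, hV]
  · rw [ChainExpl_step_neg P hc, ChainExpl_step_neg P hc]

theorem CP.fin (P : CP d) (s : CS d) : ∃ Λ : Finset (Fin (7 + 1) × El d),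
    ∀ ω ω', (∀ i ∈ Λ, ω i = ω' i) → P.step s ω = P.step s ω' := by
  classical
  obtain ⟨Λ₁, h1⟩ := grow_fin P.κ s.R (P.D s.x)
  choose Λ₂ h2 using fun c : V d => full_fin P.κ (Bx c P.m)
  refine ⟨Λ₁.image (fun e => ((0 : Fin (7 + 1)), e)) ∪
    Λ₁.image (fun e => ((Fin.ofNat (7 + 1) (s.t + 1) : Fin (7 + 1)), e)) ∪
    (P.C s.x).biUnion (fun c => (Λ₂ c).image (fun e => ((0 : Fin (7 + 1)), e))), ?_⟩
  intro ω ω' h
  have ha : ∀ e ∈ Λ₁, fld 0 ω e = fld 0 ω' e := by
    intro e he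
    exact h (0, e) (Finset.mem_union_left _ (Finset.mem_union_left _
      (Finset.mem_image_of_mem _ he)))
  have hb : ∀ e ∈ Λ₁, fld (Fin.ofNat (7 + 1) (s.t + 1)) ω e =
      fld (Fin.ofNat (7 + 1) (s.t + 1)) ω' e := by
    intro e he
    exact h (Fin.ofNat (7 + 1) (s.t + 1), e) (Finset.mem_union_left _ (Finset.mem_union_right _
      (Finset.mem_image_of_mem _ he)))
  have hc : ∀ c ∈ P.C s.x, ∀ e ∈ Λ₂ c, fld 0 ω e = fld 0 ω' e := by
    intro c hc e he
    exact h (0, e) (Finset.mem_union_right _ (Finset.mem_biUnion.2 ⟨c, hc,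
      Finset.mem_image_of_mem _ he⟩))
  have hN : P.newR s ω' = P.newR s ω := h1 _ _ _ _ ha hb
  have hV : P.val s ω' = P.val s ω := by
    unfold CP.val
    apply Finset.filter_congr
    intro c hcC
    rw [hN]
    exact and_congr_left fun _ => (h2 c _ _ (hc c hcC)).symm
  rw [ChainExpl_step, ChainExpl_step, hN, hV]

/-- the exploration -/
noncomputable def CP.expl (P : CP d) (hmn : 2 * P.m + 1 ≤ P.n) :
    Expl (Fin (7 + 1) × El d) (CS d) ℕ where
  good := P.good
  step := P.step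
  E := P.E
  lab := P.lab
  done s := {l | l < s.t}
  good_step := P.good_step hmn
  mono := by
    intro s ω _ q hq
    by_cases h : s.ok = true ∧ s.t < 7
    · obtain ⟨h1, h2, -⟩ := ChainExpl_step_pos P h ω
      rcases hq with ⟨h3, h4⟩ | ⟨h3, h4⟩
      · refine Or.inl ⟨h3, ?_⟩
        rw [h1]
        exact touch_mono (by exact_mod_cast subset_growF _ _ _ _) h4
      · refine Or.inr ⟨h3, ?_⟩
        rw [h2]
        exact h4.trans (Nat.le_succ _)
    · rw [ChainExpl_step_neg P h]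
      exact hq
  loc := P.loc hmn
  fin := P.fin
  lab_done := by
    intro s l _ hl
    unfold CP.lab at hl
    split_ifs at hl with h
    have : s.t = l := Option.some.inj hl
    rw [← this]
    exact Nat.lt_irrefl _
  done_some := by
    intro s ω l _ hl
    unfold CP.lab at hl
    split_ifs at hl with h
    have h1 : s.t = l := Option.some.inj hl
    obtain ⟨-, h2, -⟩ := ChainExpl_step_pos P h ω
    ext k
    simp only [Set.mem_ofPred_eq, Set.mem_insert_iff, h2]
    omega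
  done_none := by
    intro s ω _ hl
    unfold CP.lab at hl
    split_ifs at hl with h
    rw [ChainExpl_step_neg P h]

end Pool.Agent.H47.GM
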