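import Pool.Agent.H47.GM.ChainExpl

/-!
# GM module ChainInv: geometry of the chain

Let `|x₀ - cz z| ≤ ℓ = n + m + 1`, `z' = z + sg b e_{i₀}`, `c₀ = cz z`. Along the run, while the
state is ok: `sg b (x_t - x₀)_{i₀} = t ℓ`; `|x_t - c₀|_i ≤ ℓ` for `i ≠ i₀`
(if `x_i > c₀_i` the step subtracts a number in `[m, n-m]`, otherwise it adds one).
Let `τ` be the number of steps with `sg b (x_τ - cz z')_{i₀} ∈ (-ℓ, 0]`; `τ ≤ 7` since
`sg b (x₀ - cz z)_{i₀} ∈ [-ℓ, ℓ]` and `sg b (cz z' - cz z)_{i₀} = 6ℓ`. For `t < τ` the region `D` of step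
`t` is contained in `Tube ℓ z z'`. Every vertex `v` of the cluster at time `≤ τ` satisfies
`∃ u ∈ Bx x₀ m, Rch κ (tot ω) (Tube ℓ z z') u v` (`mix_le`, `fld_le_tot`), and the current box is fully open in
`tot ω` (for `t ≥ 1`). So if all `7` steps are ok then `Hit` holds for `tot ω`.
-/

open MeasureTheory Filter Topology
open Pool.Agent.H17.IIC Pool.Agent.H41.QC

namespace Pool.Agent.H47.GM

variable {d : ℕ}

lemma ChainInv_step_false (P : CP d) {s : CS d} (ω : Fin (7 + 1) × El d → Bool)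
    (h : s.ok = false) : P.step s ω = s := by
  unfold CP.step
  rw [if_neg]
  rintro ⟨h1, _⟩
  rw [h] at h1
  exact Bool.false_ne_true h1

lemma ChainInv_ok_of_succ (P : CP d) {s : CS d} {ω : Fin (7 + 1) × El d → Bool}
    (h : (P.step s ω).ok = true) : s.ok = true := by
  by_contra h1
  rw [Bool.not_eq_true] at h1
  rw [ChainInv_step_false P ω h1] at h
  rw [h] at h1
  exact Bool.false_ne_true h1.symm

/-- an alive step -/
lemma ChainInv_step_true (P : CP d) {s : CS d} {ω : Fin (7 + 1) × El d → Bool}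
    (h : (P.step s ω).ok = true) (ht : s.t < 7) :
    (P.step s ω).R = P.newR s ω ∧ (P.step s ω).t = s.t + 1 ∧
      (P.step s ω).x ∈ P.C s.x ∧
      FullOpen P.κ (fld 0 ω) (Bx (P.step s ω).x P.m : Set (V d)) ∧
      Bx (P.step s ω).x P.m ⊆ P.newR s ω := by
  classical
  have hok := ChainInv_ok_of_succ P h
  unfold CP.step at h ⊢
  rw [if_pos ⟨hok, ht⟩] at h ⊢
  by_cases hv : (P.val s ω).Nonempty
  · rw [dif_pos hv] at h ⊢
    have hc := hv.choose_spec
    unfold CP.val at hc
    rw [Finset.mem_filter] at hc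
    refine ⟨rfl, rfl, ?_, ?_, ?_⟩
    · exact hc.1
    · exact hc.2.1
    · exact hc.2.2
  · rw [dif_neg hv] at h
    exact absurd h Bool.false_ne_true

lemma ChainInv_t_le (P : CP d) (s : CS d) (ω : Fin (7 + 1) × El d → Bool) :
    (P.step s ω).t ≤ s.t + 1 := by
  classical
  unfold CP.step
  split_ifs <;> simp

lemma ChainInv_run_ok (P : CP d) (hmn : 2 * P.m + 1 ≤ P.n) (s : CS d)
    (ω : Fin (7 + 1) × El d → Bool) (N : ℕ)
    (hok : ((P.expl hmn).run N s ω).ok = true) :
    ∀ k ≤ N, ((P.expl hmn).run k s ω).ok = true := by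
  induction N with
  | zero =>
    intro k hk
    obtain rfl : k = 0 := by omega
    exact hok
  | succ N ih =>
    intro k hk
    have h1 : ((P.expl hmn).run N s ω).ok = true := by
      rw [Expl.run_succ] at hok
      exact ChainInv_ok_of_succ P hok
    rcases Nat.lt_or_ge N k with h | h
    · obtain rfl : k = N + 1 := by omega
      exact hok
    · exact ih h1 k h

lemma ChainInv_C (P : CP d) {x c : V d} (hc : c ∈ P.C x) :
    sg P.b * (c P.i₀ - x P.i₀) = (P.n : ℤ) + P.m + 1 ∧
      ∀ i, i ≠ P.i₀ → |c i - P.c₀ i| ≤ max |x i - P.c₀ i| (P.n : ℤ) := by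
  unfold CP.C at hc
  rw [mem_shF, mem_Cq] at hc
  obtain ⟨h1, h2⟩ := hc
  constructor
  · have h3 : steer P.i₀ P.b P.c₀ x P.i₀ = P.b := by simp [steer]
    rw [h3] at h1
    simpa using h1
  · intro i hi
    have h4 := h2 i hi
    have h5 : steer P.i₀ P.b P.c₀ x i = decide (x i ≤ P.c₀ i) := by simp [steer, hi]
    rw [h5] at h4
    have h6 : (c - x) i = c i - x i := rfl
    rw [h6] at h4
    have hm0 : (0 : ℤ) ≤ P.m := Int.natCast_nonneg _
    have hn0 : (0 : ℤ) ≤ P.n := Int.natCast_nonneg _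
    by_cases h7 : x i ≤ P.c₀ i
    · have h8 : sg (decide (x i ≤ P.c₀ i)) = 1 := by simp [sg, h7]
      rw [h8] at h4
      rw [abs_le]
      have h9 : |x i - P.c₀ i| = P.c₀ i - x i := by
        rw [abs_of_nonpos (by linarith)]; ring
      rw [h9]
      constructor
      · have := le_max_left (P.c₀ i - x i) (P.n : ℤ)
        linarith [h4.1]
      · have := le_max_right (P.c₀ i - x i) (P.n : ℤ)
        linarith [h4.2]
    · have h8 : sg (decide (x i ≤ P.c₀ i)) = -1 := by simp [sg, h7]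
      rw [h8] at h4
      rw [not_le] at h7
      rw [abs_le]
      have h9 : |x i - P.c₀ i| = x i - P.c₀ i := by
        rw [abs_of_nonneg (by linarith)]
      rw [h9]
      constructor
      · have := le_max_right (x i - P.c₀ i) (P.n : ℤ)
        linarith [h4.2]
      · have := le_max_left (x i - P.c₀ i) (P.n : ℤ)
        linarith [h4.1]

lemma ChainInv_D (P : CP d) {x y : V d} (hy : y ∈ P.D x) :
    (-(P.n : ℤ) ≤ sg P.b * (y P.i₀ - x P.i₀) ∧
      sg P.b * (y P.i₀ - x P.i₀) ≤ (P.n : ℤ) + 2 * P.m + 1) ∧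
      ∀ i, i ≠ P.i₀ → |y i - x i| ≤ (P.n : ℤ) := by
  unfold CP.D Dq at hy
  rw [mem_shF, Finset.mem_union, mem_Bx, mem_Tq] at hy
  have hm0 : (0 : ℤ) ≤ P.m := Int.natCast_nonneg _
  have hn0 : (0 : ℤ) ≤ P.n := Int.natCast_nonneg _
  have h3 : steer P.i₀ P.b P.c₀ x P.i₀ = P.b := by simp [steer]
  have h6 : ∀ i, (y - x) i = y i - x i := fun _ => rfl
  simp only [h6, h3] at hy
  rcases hy with hy | hy
  · have h1 : ∀ i, |y i - x i| ≤ (P.n : ℤ) := fun i => by simpa using hy i
    refine ⟨?_, fun i _ => h1 i⟩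
    have h2 := abs_le.1 (h1 P.i₀)
    cases P.b <;> simp only [sg, if_true, Bool.false_eq_true, if_false] <;>
      constructor <;> linarith [h2.1, h2.2]
  · refine ⟨⟨by linarith [hy.1.1], hy.1.2⟩, fun i hi => ?_⟩
    have h2 := hy.2 i hi
    rw [abs_le]
    rcases Bool.eq_false_or_eq_true (steer P.i₀ P.b P.c₀ x i) with h4 | h4 <;> rw [h4] at h2 <;>
      simp only [sg, if_true, Bool.false_eq_true, if_false] at h2 <;>
      constructor <;> linarith [h2.1, h2.2]

theorem CP.hit_of_ok (P : CP d) (hmn : 2 * P.m + 1 ≤ P.n) (hm : 1 ≤ P.m) {z z' x : V d}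
    (hz' : z' = z + stepVec (P.i₀, P.b)) (hc₀ : P.c₀ = cz (P.n + P.m + 1) z)
    (hx : ∀ i, |x i - cz (P.n + P.m + 1) z i| ≤ ((P.n + P.m + 1 : ℕ) : ℤ))
    (ω : Fin (7 + 1) × El d → Bool)
    (hok : ((P.expl hmn).run 7 (P.init x) ω).ok = true) :
    Hit P.κ (tot ω) (Tube (P.n + P.m + 1) z z' : Set (V d)) x P.m
      (Bx (cz (P.n + P.m + 1) z') (P.n + P.m + 1) : Set (V d)) := by
  classical
  have hoks := ChainInv_run_ok P hmn (P.init x) ω 7 hok
  set ℓ : ℕ := P.n + P.m + 1 with hℓ
  have hm0 : (0 : ℤ) ≤ P.m := Int.natCast_nonneg _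
  have hn0 : (0 : ℤ) ≤ P.n := Int.natCast_nonneg _
  have hℓz : (ℓ : ℤ) = (P.n : ℤ) + P.m + 1 := by rw [hℓ]; push_cast; ring
  -- coordinates of the centres
  have hcz : ∀ i, i ≠ P.i₀ → cz ℓ z' i = cz ℓ z i := by
    intro i hi
    unfold cz
    rw [hz']
    have h1 : stepVec (P.i₀, P.b) i = 0 := by
      simp [stepVec, hi]
    simp [h1]
  have hcz0 : sg P.b * (cz ℓ z' P.i₀ - cz ℓ z P.i₀) = 6 * ℓ := by
    unfold cz
    rw [hz']
    have h1 : stepVec (P.i₀, P.b) P.i₀ = sg P.b := by
      simp [stepVec, sg]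
    have h2 : (z + stepVec (P.i₀, P.b)) P.i₀ = z P.i₀ + sg P.b := by
      rw [Pi.add_apply, h1]
    rw [h2]
    have h3 := sg_mul_self P.b
    linear_combination (6 * (ℓ : ℤ)) * h3
  -- the stopping time
  set a : ℤ := sg P.b * (x P.i₀ - cz ℓ z P.i₀) with ha
  have haℓ : -(ℓ : ℤ) ≤ a ∧ a ≤ ℓ := by
    have h1 := abs_le.1 (hx P.i₀)
    rw [ha]
    cases P.b <;> simp only [sg, if_true, Bool.false_eq_true, if_false] <;>
      constructor <;> linarith [h1.1, h1.2]
  obtain ⟨τ, hτ7, hτ1, hτa, hτb⟩ : ∃ τ : ℕ, τ ≤ 7 ∧ 1 ≤ τ ∧ 5 * (ℓ : ℤ) < τ * ℓ + a ∧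
      (τ : ℤ) * ℓ + a ≤ 6 * ℓ := by
    rcases lt_or_ge 0 a with h | h
    · exact ⟨5, by norm_num, by norm_num, by push_cast; linarith, by push_cast; linarith [haℓ.2]⟩
    · rcases lt_or_ge (-(ℓ : ℤ)) a with h' | h'
      · exact ⟨6, by norm_num, by norm_num, by push_cast; linarith, by push_cast; linarith⟩
      · exact ⟨7, by norm_num, by norm_num, by push_cast; linarith [haℓ.1], by push_cast; linarith⟩
  have key : ∀ t ≤ 7, ((P.expl hmn).run t (P.init x) ω).t = t ∧
      sg P.b * (((P.expl hmn).run t (P.init x) ω).x P.i₀ - x P.i₀) = t * ℓ ∧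
      (∀ i, i ≠ P.i₀ → |((P.expl hmn).run t (P.init x) ω).x i - cz ℓ z i| ≤ ℓ) ∧
      (t ≤ τ → ∀ v ∈ ((P.expl hmn).run t (P.init x) ω).R, ∃ u ∈ Bx x P.m,
        Rch P.κ (tot ω) (Tube ℓ z z' : Set (V d)) u v) ∧
      (1 ≤ t → FullOpen P.κ (fld 0 ω)
          (Bx ((P.expl hmn).run t (P.init x) ω).x P.m : Set (V d)) ∧
        Bx ((P.expl hmn).run t (P.init x) ω).x P.m ⊆ ((P.expl hmn).run t (P.init x) ω).R) := by
    intro t
    induction t with
    | zero =>
      intro _
      refine ⟨rfl, ?_, ?_, ?_, fun h => absurd h (by norm_num)⟩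
      · show sg P.b * (x P.i₀ - x P.i₀) = _
        simp
      · intro i hi
        exact hx i
      · intro _ v hv
        exact ⟨v, hv, Relation.ReflTransGen.refl⟩
    | succ t ih =>
      intro ht
      obtain ⟨h1, h2, h3, h4, h5⟩ := ih (by omega)
      have hokt := hoks (t + 1) ht
      rw [Expl.run_succ] at hokt ⊢
      set s := (P.expl hmn).run t (P.init x) ω with hs
      have hst : s.t < 7 := by rw [h1]; omega
      obtain ⟨g1, g2, g3, g4, g5⟩ := ChainInv_step_true P (s := s) (ω := ω) hokt hst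
      have e1 : (P.expl hmn).step s ω = P.step s ω := rfl
      rw [e1]
      obtain ⟨c1, c2⟩ := ChainInv_C P g3
      refine ⟨by rw [g2, h1], ?_, ?_, ?_, ?_⟩
      · push_cast
        rw [hℓz] at h2 ⊢
        linear_combination c1 + h2
      · intro i hi
        have h6 := c2 i hi
        rw [hc₀] at h6
        refine h6.trans (max_le (h3 i hi) ?_)
        rw [hℓz]; linarith
      · intro hτ v hv
        rw [g1] at hv
        unfold CP.newR at hv
        rw [mem_growF] at hv
        obtain ⟨u', hu', hr⟩ := hv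
        obtain ⟨u, hu, hr'⟩ := h4 (by omega) u' hu'
        refine ⟨u, hu, Relation.ReflTransGen.trans hr' (Rch.mono hr ?_ ?_)⟩
        · intro e he
          rcases mix_le _ _ _ _ _ he with h | h
          · exact fld_le_tot _ _ _ h
          · exact fld_le_tot _ _ _ h
        · intro y hy
          have hyD : y ∈ P.D s.x := hy.1
          obtain ⟨⟨d1, d2⟩, d3⟩ := ChainInv_D P hyD
          show y ∈ (Tube ℓ z z' : Set (V d))
          rw [Finset.mem_coe, mem_Tube]
          intro i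
          by_cases hi : i = P.i₀
          · subst hi
            have e2 : (t : ℤ) * ℓ + a ≤ 5 * ℓ := by
              have h7 : ((t : ℤ) + 1) * ℓ ≤ τ * ℓ := by
                apply mul_le_mul_of_nonneg_right _ (Int.natCast_nonneg _)
                exact_mod_cast hτ
              linarith
            have e3 : 0 ≤ (t : ℤ) * ℓ := by positivity
            have e4 : sg P.b * (y P.i₀ - cz ℓ z P.i₀) =
                sg P.b * (y P.i₀ - s.x P.i₀) + t * ℓ + a := by
              rw [← h2, ha]; ring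
            have e5 : -(2 * (ℓ : ℤ)) ≤ sg P.b * (y P.i₀ - cz ℓ z P.i₀) := by
              rw [e4]
              rw [hℓz] at haℓ e3 ⊢
              linarith [haℓ.1]
            have e6 : sg P.b * (y P.i₀ - cz ℓ z P.i₀) ≤ 8 * ℓ := by
              rw [e4]
              have : (P.n : ℤ) + 2 * P.m + 1 ≤ 2 * ℓ := by rw [hℓz]; linarith
              linarith
            revert hcz0 e5 e6
            cases P.b <;> simp only [sg, if_true, Bool.false_eq_true, if_false] <;> intro f1 f2 f3
            · have f4 : cz ℓ z' P.i₀ ≤ cz ℓ z P.i₀ := by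
                have : (0 : ℤ) ≤ ℓ := Int.natCast_nonneg _
                linarith
              rw [min_eq_right f4, max_eq_left f4]
              constructor <;> linarith
            · have f4 : cz ℓ z P.i₀ ≤ cz ℓ z' P.i₀ := by
                have : (0 : ℤ) ≤ ℓ := Int.natCast_nonneg _
                linarith
              rw [min_eq_left f4, max_eq_right f4]
              constructor <;> linarith
          · rw [hcz i hi, min_self, max_self]
            have f1 := abs_le.1 (d3 i hi)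
            have f2 := abs_le.1 (h3 i hi)
            rw [hℓz] at f2 ⊢
            constructor <;> linarith [f1.1, f1.2, f2.1, f2.2]
      · intro _
        exact ⟨g4, by rw [g1]; exact g5⟩
  obtain ⟨k1, k2, k3, k4, k5⟩ := key τ hτ7
  obtain ⟨k6, k7⟩ := k5 hτ1
  set s := (P.expl hmn).run τ (P.init x) ω with hs
  have hcc : s.x ∈ Bx s.x P.m := by
    rw [mem_Bx]
    intro i
    simp
  obtain ⟨u, hu, hr⟩ := k4 le_rfl s.x (k7 hcc)
  refine ⟨s.x, ?_, k6.mono (fun e he => fld_le_tot _ _ _ he), u, hu, s.x, hcc, hr⟩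
  rw [Finset.mem_coe, mem_Bx]
  intro i
  by_cases hi : i = P.i₀
  · subst hi
    have e4 : sg P.b * (s.x P.i₀ - cz ℓ z' P.i₀) = τ * ℓ + a - 6 * ℓ := by
      rw [← k2, ha, ← hcz0]; ring
    rw [abs_le]
    have e5 : -(ℓ : ℤ) ≤ sg P.b * (s.x P.i₀ - cz ℓ z' P.i₀) := by rw [e4]; linarith
    have e6 : sg P.b * (s.x P.i₀ - cz ℓ z' P.i₀) ≤ ℓ := by
      rw [e4]
      have : (0 : ℤ) ≤ ℓ := Int.natCast_nonneg _
      linarith
    revert e5 e6
    cases P.b <;> simp only [sg, if_true, Bool.false_eq_true, if_false] <;> intro f2 f3 <;>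
      constructor <;> linarith
  · rw [hcz i hi]
    exact k3 i hi

/-- if the final state is not ok then some step was bad -/
theorem CP.bad_of_not_ok (P : CP d) (hmn : 2 * P.m + 1 ≤ P.n) (x : V d)
    (ω : Fin (7 + 1) × El d → Bool)
    (hok : ((P.expl hmn).run 7 (P.init x) ω).ok = false) :
    ∃ l < 7, ∃ k < 7, (P.expl hmn).lab ((P.expl hmn).run k (P.init x) ω) = some l ∧
      ((P.expl hmn).run (k + 1) (P.init x) ω).ok = false := by
  classical
  have ht : ∀ k, ((P.expl hmn).run k (P.init x) ω).t ≤ k := by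
    intro k
    induction k with
    | zero => exact le_rfl
    | succ k ih =>
      rw [Expl.run_succ]
      exact (ChainInv_t_le P _ ω).trans (by omega)
  have hex : ∃ k, k < 7 ∧ ((P.expl hmn).run k (P.init x) ω).ok = true ∧
      ((P.expl hmn).run (k + 1) (P.init x) ω).ok = false := by
    by_contra hcon
    push Not at hcon
    have : ∀ k ≤ 7, ((P.expl hmn).run k (P.init x) ω).ok = true := by
      intro k
      induction k with
      | zero => intro _; rfl
      | succ k ih =>
        intro hk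
        have h1 := hcon k (by omega) (ih (by omega))
        rwa [ne_eq, Bool.not_eq_false] at h1
    rw [this 7 le_rfl] at hok
    exact Bool.false_ne_true hok.symm
  obtain ⟨k, hk, h1, h2⟩ := hex
  refine ⟨((P.expl hmn).run k (P.init x) ω).t, lt_of_le_of_lt (ht k) hk, k, hk, ?_, h2⟩
  show P.lab _ = _
  unfold CP.lab
  rw [if_pos ⟨h1, lt_of_le_of_lt (ht k) hk⟩]

end Pool.Agent.H47.GM
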