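import Pool.Agent.H47.GM.Cell

/-!
# GM module Select: separated contacts of a long self-avoiding path with a dense set (deterministic)

`cell v ℓ u` is the macroscopic cell of `u` (side `6ℓ`, seen from `v`).

Let `c₀ = (42 ℓ)^d`, `b₀ = (6 ℓ)^d (D + 1)`. Induction on the number `k` of contacts: given `k` contacts,
consider the `k c₀ + 1` blocks of `b₀` consecutive times in `[0, (k c₀ + 1) b₀)`; call a vertex
forbidden if its cell is within sup distance `3` of the cell of an old contact; there are at most `k c₀` forbidden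
vertices (`7^d` cells of `(6ℓ)^d` vertices for each old contact), and the path is self-avoiding, so one of
the `k c₀ + 1` blocks contains no forbidden vertex. The cells along this block form a lattice walk
(consecutive cells are equal or adjacent) with at least `D + 1` distinct cells (each cell has `(6ℓ)^d`
vertices); it stays in the region of `hdens`, so it meets `Z`. The new contact has cell distance `≥ 4` from
the old ones in some coordinate `a`, so `|u a - u' a| ≥ 24 ℓ - (6 ℓ - 1) > 16 ℓ`.
-/

open MeasureTheory Filter Topology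
open Pool.Agent.H17.IIC Pool.Agent.H41.QC

namespace Pool.Agent.H47.GM

variable {d : ℕ}

/-- the vertices whose cell is within sup distance `3` of the cell `c` -/
noncomputable def select_box (v : V d) (ℓ : ℕ) (c : V d) : Finset (V d) :=
  Fintype.piFinset fun i => Finset.Ico (v i + 6 * (ℓ : ℤ) * (c i - 3)) (v i + 6 * (ℓ : ℤ) * (c i + 4))

lemma select_box_card (v : V d) (ℓ : ℕ) (c : V d) : (select_box v ℓ c).card = (42 * ℓ) ^ d := by
  unfold select_box
  rw [Fintype.card_piFinset]
  have : ∀ i : Fin d, (Finset.Ico (v i + 6 * (ℓ : ℤ) * (c i - 3))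
      (v i + 6 * (ℓ : ℤ) * (c i + 4))).card = 42 * ℓ := by
    intro i
    rw [Int.card_Ico]
    have e : v i + 6 * (ℓ : ℤ) * (c i + 4) - (v i + 6 * (ℓ : ℤ) * (c i - 3)) =
        ((42 * ℓ : ℕ) : ℤ) := by push_cast; ring
    rw [e, Int.toNat_natCast]
  rw [Finset.prod_congr rfl fun i _ => this i]
  simp

lemma select_far {ℓ : ℕ} (hℓ : 1 ≤ ℓ) {v u u' : V d}
    (h : u ∉ select_box v ℓ (cell v ℓ u')) : ∃ a, 16 * (ℓ : ℤ) < |u a - u' a| := by
  unfold select_box at h
  rw [Fintype.mem_piFinset] at h
  push Not at h
  obtain ⟨a, ha⟩ := h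
  obtain ⟨h1, h2⟩ := cell_near (v := v) (u := u') hℓ a
  have e : cz ℓ (cell v ℓ u') a = 6 * (ℓ : ℤ) * cell v ℓ u' a := rfl
  rw [e] at h1 h2
  refine ⟨a, ?_⟩
  have hl : (1 : ℤ) ≤ ℓ := by exact_mod_cast hℓ
  rw [Finset.mem_Ico, not_and_or, not_le, not_lt] at ha
  rcases ha with h3 | h3
  · have : 16 * (ℓ : ℤ) < -(u a - u' a) := by linarith
    exact lt_of_lt_of_le this (neg_le_abs _)
  · have : 16 * (ℓ : ℤ) < u a - u' a := by linarith
    exact lt_of_lt_of_le this (le_abs_self _)

theorem select {ℓ D T : ℕ} (hℓ : 1 ≤ ℓ) (v : V d) (Z : Set (V d)) (R : ℤ) {N : ℕ} (x : V d)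
    (s : Fin N → Step d) (hs : IsSAW s)
    (hN : (T * (42 * ℓ) ^ d + 1) * ((6 * ℓ) ^ d * (D + 1)) ≤ N)
    (hR : ∀ i, |x i| + |v i| + ((T * (42 * ℓ) ^ d + 1) * ((6 * ℓ) ^ d * (D + 1)) : ℕ) ≤ R)
    (hdens : ∀ (a b : V d) (W : (Lat d).Walk a b), (∀ u ∈ W.support, ∀ i, |u i| ≤ R) →
      D < W.support.toFinset.card → ∃ z ∈ W.support, z ∈ Z) :
    ∃ t : Fin T → ℕ, (∀ i, t i ≤ (T * (42 * ℓ) ^ d + 1) * ((6 * ℓ) ^ d * (D + 1))) ∧
      (∀ i, cell v ℓ (x + pos s (t i)) ∈ Z) ∧
      ∀ i j, i ≠ j → ∃ a, 16 * (ℓ : ℤ) < |(x + pos s (t i)) a - (x + pos s (t j)) a| := by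
  set c0 : ℕ := (42 * ℓ) ^ d with hc0
  set b0 : ℕ := (6 * ℓ) ^ d * (D + 1) with hb0
  have hb0p : 0 < b0 := by positivity
  have hinj : ∀ t t' : ℕ, t ≤ N → t' ≤ N → x + pos s t = x + pos s t' → t = t' := by
    intro t t' ht ht' h
    have h1 : pos s t = pos s t' := add_left_cancel h
    have h2 := hs (a₁ := ⟨t, by omega⟩) (a₂ := ⟨t', by omega⟩) h1
    simpa using h2
  have key : ∀ k : ℕ, k ≤ T → ∃ t : Fin k → ℕ, (∀ i, t i ≤ (T * c0 + 1) * b0) ∧
      (∀ i, cell v ℓ (x + pos s (t i)) ∈ Z) ∧
      ∀ i j, i ≠ j → ∃ a, 16 * (ℓ : ℤ) < |(x + pos s (t i)) a - (x + pos s (t j)) a| := by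
    intro k
    induction k with
    | zero => exact fun _ => ⟨Fin.elim0, fun i => i.elim0, fun i => i.elim0, fun i => i.elim0⟩
    | succ k ih =>
      intro hk
      obtain ⟨t, ht1, ht2, ht3⟩ := ih (by omega)
      set B : Finset (V d) := Finset.univ.biUnion fun i : Fin k =>
        select_box v ℓ (cell v ℓ (x + pos s (t i))) with hB
      have hBc : B.card ≤ k * c0 := by
        refine (Finset.card_biUnion_le_card_mul _ _ c0 ?_).trans (by simp)
        intro i _
        rw [select_box_card]
      have hkT : k * c0 + 1 ≤ T * c0 + 1 := by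
        have := Nat.mul_le_mul_right c0 (by omega : k ≤ T)
        omega
      have hLk : (k * c0 + 1) * b0 ≤ (T * c0 + 1) * b0 := Nat.mul_le_mul_right _ hkT
      -- a good block
      obtain ⟨j, hj, hjb⟩ : ∃ j ∈ Finset.range (k * c0 + 1), ∀ τ : ℕ, j * b0 ≤ τ →
          τ < (j + 1) * b0 → x + pos s τ ∉ B := by
        by_contra hcon
        push Not at hcon
        choose! τ h1 h2 h3 using hcon
        have hle : ∀ j ∈ Finset.range (k * c0 + 1), τ j ≤ N := by
          intro j hj
          have e1 := h2 j hj
          have e2 : (j + 1) * b0 ≤ (k * c0 + 1) * b0 :=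
            Nat.mul_le_mul_right _ (by have := Finset.mem_range.1 hj; omega)
          omega
        have hcard : (Finset.range (k * c0 + 1)).card ≤ B.card := by
          apply Finset.card_le_card_of_injOn (fun j => x + pos s (τ j))
          · intro j hj
            exact h3 j (Finset.mem_coe.1 hj)
          · intro i hi j hj hij
            have hi' := Finset.mem_coe.1 hi
            have hj' := Finset.mem_coe.1 hj
            have e1 : τ i = τ j := hinj _ _ (hle i hi') (hle j hj') hij
            have a1 := h1 i hi'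
            have a2 := h2 i hi'
            have b1 := h1 j hj'
            have b2 := h2 j hj'
            rw [e1] at a1 a2
            by_contra hne
            rcases Nat.lt_or_gt_of_ne hne with hlt | hlt
            · have : (i + 1) * b0 ≤ j * b0 := Nat.mul_le_mul_right _ hlt
              omega
            · have : (j + 1) * b0 ≤ i * b0 := Nat.mul_le_mul_right _ hlt
              omega
        rw [Finset.card_range] at hcard
        omega
      have hjk : (j + 1) * b0 ≤ (k * c0 + 1) * b0 :=
        Nat.mul_le_mul_right _ (by have := Finset.mem_range.1 hj; omega)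
      have hj1 : (j + 1) * b0 = j * b0 + b0 := by ring
      set a : ℕ := j * b0 with ha
      set b : ℕ := j * b0 + (b0 - 1) with hb
      have hab : a ≤ b := by omega
      have hbN : b ≤ N := by omega
      obtain ⟨W, hW⟩ := cell_walk (v := v) hℓ x s hab hbN
      have hsup : W.support.toFinset =
          (Finset.Icc a b).image (fun τ => cell v ℓ (x + pos s τ)) := by
        ext z
        rw [List.mem_toFinset, hW, Finset.mem_image]
        constructor
        · rintro ⟨τ, h1, h2, h3⟩
          exact ⟨τ, Finset.mem_Icc.2 ⟨h1, h2⟩, h3.symm⟩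
        · rintro ⟨τ, h1, h2⟩
          have := Finset.mem_Icc.1 h1
          exact ⟨τ, this.1, this.2, h2.symm⟩
      have hcard : D < W.support.toFinset.card := by
        rw [hsup]
        have h1 : (Finset.Icc a b).card ≤ (6 * ℓ) ^ d *
            ((Finset.Icc a b).image (fun τ => cell v ℓ (x + pos s τ))).card := by
          apply Finset.card_le_mul_card_image
          intro z _
          have h2 : (((Finset.Icc a b).filter (fun τ => cell v ℓ (x + pos s τ) = z)).image
              (fun τ => x + pos s τ)).card ≤ (6 * ℓ) ^ d := by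
            apply cell_card (v := v) hℓ z
            intro u hu
            obtain ⟨τ, h3, rfl⟩ := Finset.mem_image.1 hu
            exact (Finset.mem_filter.1 h3).2
          rwa [Finset.card_image_of_injOn] at h2
          intro τ hτ τ' hτ' h3
          have e1 := Finset.mem_Icc.1 (Finset.mem_filter.1 (Finset.mem_coe.1 hτ)).1
          have e2 := Finset.mem_Icc.1 (Finset.mem_filter.1 (Finset.mem_coe.1 hτ')).1
          exact hinj _ _ (by omega) (by omega) h3
        have h2 : (Finset.Icc a b).card = (6 * ℓ) ^ d * (D + 1) := by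
          rw [Nat.card_Icc, ← hb0]
          omega
        rw [h2] at h1
        have h3 : 0 < (6 * ℓ) ^ d := by positivity
        have := Nat.le_of_mul_le_mul_left h1 h3
        omega
      have hreg : ∀ u ∈ W.support, ∀ i, |u i| ≤ R := by
        intro u hu i
        obtain ⟨τ, h1, h2, rfl⟩ := (hW u).1 hu
        have h3 : |((x + pos s τ) i - v i) / (6 * (ℓ : ℤ))| ≤ |(x + pos s τ) i - v i| := by
          rw [Int.abs_eq_natAbs, Int.abs_eq_natAbs]
          exact_mod_cast Int.natAbs_ediv_le_natAbs _ _
        have h4 : cell v ℓ (x + pos s τ) i = ((x + pos s τ) i - v i) / (6 * (ℓ : ℤ)) := rfl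
        rw [h4]
        refine h3.trans ?_
        have h5 := abs_pos_le s τ i
        have h6 : (τ : ℤ) ≤ (((T * c0 + 1) * b0 : ℕ) : ℤ) := by
          exact_mod_cast (by omega : τ ≤ (T * c0 + 1) * b0)
        have h7 := hR i
        have h8 : |(x + pos s τ) i - v i| ≤ |x i| + |v i| + |pos s τ i| := by
          rw [Pi.add_apply]
          calc |x i + pos s τ i - v i| ≤ |x i + pos s τ i| + |v i| := abs_sub _ _
            _ ≤ |x i| + |pos s τ i| + |v i| := by
                have := abs_add_le (x i) (pos s τ i)
                linarith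
            _ = _ := by ring
        linarith
      obtain ⟨z, hz1, hz2⟩ := hdens _ _ W hreg hcard
      obtain ⟨t0, h1, h2, h3⟩ := (hW z).1 hz1
      have hnB : x + pos s t0 ∉ B := hjb t0 h1 (by omega)
      have hfar : ∀ i : Fin k, ∃ a, 16 * (ℓ : ℤ) <
          |(x + pos s t0) a - (x + pos s (t i)) a| := by
        intro i
        apply select_far hℓ (v := v)
        intro hmem
        exact hnB (Finset.mem_biUnion.2 ⟨i, Finset.mem_univ _, hmem⟩)
      refine ⟨Fin.cons t0 t, ?_, ?_, ?_⟩
      · intro i
        refine Fin.cases ?_ (fun i => ?_) i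
        · rw [Fin.cons_zero]; omega
        · rw [Fin.cons_succ]; exact ht1 i
      · intro i
        refine Fin.cases ?_ (fun i => ?_) i
        · rw [Fin.cons_zero, ← h3]; exact hz2
        · rw [Fin.cons_succ]; exact ht2 i
      · intro i i' hne
        induction i using Fin.cases with
        | zero =>
          induction i' using Fin.cases with
          | zero => exact absurd rfl hne
          | succ i' =>
            rw [Fin.cons_zero, Fin.cons_succ]
            exact hfar i'
        | succ i =>
          induction i' using Fin.cases with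
          | zero =>
            rw [Fin.cons_zero, Fin.cons_succ]
            obtain ⟨a, ha⟩ := hfar i
            refine ⟨a, ?_⟩
            rw [abs_sub_comm]
            exact ha
          | succ i' =>
            rw [Fin.cons_succ, Fin.cons_succ]
            exact ht3 i i' (fun h => hne (by rw [h]))
  exact key T le_rfl

end Pool.Agent.H47.GM
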