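import Pool.Agent.H41.QC.ConnNear
import Pool.Agent.H47.GM.Attach
import Pool.Agent.H47.GM.BackDef
import Pool.Agent.H47.GM.Basic
import Pool.Agent.H47.GM.Select

/-!
# GM module ConnOne: attaching long open paths to the backbone

Fix `X ≤ Y` with a backbone `v, Z, q` of `Y`; `k` large, `T = k^2`, `D = C (k+1)^(d+1)`,
`n₁ = (T (42ℓ)^d + 1) ((6ℓ)^d (D + 1))`, a polynomial in `k`; `|y i| ≤ 2^(k-j)`,
`0 < Pn κ X (2^k) y`. `select` (with `R = 2 2^k`) gives `T` contacts `u_i` on an open self-avoiding path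
of `X` from `y`, at times `≤ n₁`, with `z_i = cell (u_i) ∈ Z`, `|u_i - q z_i| ≤ 7ℓ` (`cell_near`); by `attach`
with `σ`-probability at least `1 - (1 - δ^c)^(k^2)` one of the short walks is open in `σ`, then
`Joined κ (Y ∨ σ) y v r` with `r = n₁ + 7dℓ + C 2^(k-j) + C (k+1)^(d+1)` (`Exit_walk` for the piece of the
path; here `|z_i| ≤ 2^(k-j)`, since `|z_i| ≤ (|u_i| + |v|)/(6ℓ) + 1 ≤ (2^(k-j) + n₁ + |v|)/6 + 1 ≤ 2^(k-j)`), and
`r ≤ (ε/2) 2^k` since `4 C < ε 2^j` and `k` is large (`ConnNear_poly`). The number of `y` is at most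
`3^d 2^(kd)`, so the probability that this fails for some such `y` is at most
`3^d 2^(kd) (1 - δ^c)^(k^2)`, which is at most `C' 2^(-k)`; Borel-Cantelli (`ConnNear_BC`).
-/

open MeasureTheory Filter Topology
open Pool.Agent.H17.IIC Pool.Agent.H41.QC

namespace Pool.Agent.H47.GM

variable {d : ℕ}

/-- the number of steps needed for `k^2` contacts -/
def ConnOne_n (d ℓ C k : ℕ) : ℕ :=
  (k ^ 2 * (42 * ℓ) ^ d + 1) * ((6 * ℓ) ^ d * (C * (k + 1) ^ (d + 1) + 1))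

lemma ConnOne_n_le (d ℓ C k : ℕ) :
    ConnOne_n d ℓ C k ≤ ((42 * ℓ) ^ d + 1) * ((6 * ℓ) ^ d * (C + 1)) * (k + 1) ^ (d + 3) := by
  unfold ConnOne_n
  have h1 : k ^ 2 * (42 * ℓ) ^ d + 1 ≤ ((42 * ℓ) ^ d + 1) * (k + 1) ^ 2 := by
    have h3 : k ^ 2 ≤ (k + 1) ^ 2 := Nat.pow_le_pow_left (by omega) 2
    have h4 : 1 ≤ (k + 1) ^ 2 := Nat.one_le_pow _ _ (by omega)
    have h5 := Nat.mul_le_mul_right ((42 * ℓ) ^ d) h3
    calc k ^ 2 * (42 * ℓ) ^ d + 1 ≤ (k + 1) ^ 2 * (42 * ℓ) ^ d + (k + 1) ^ 2 := add_le_add h5 h4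
      _ = ((42 * ℓ) ^ d + 1) * (k + 1) ^ 2 := by ring
  have h2 : C * (k + 1) ^ (d + 1) + 1 ≤ (C + 1) * (k + 1) ^ (d + 1) := by
    have : 1 ≤ (k + 1) ^ (d + 1) := Nat.one_le_pow _ _ (by omega)
    rw [add_mul, one_mul]
    exact Nat.add_le_add_left this _
  calc (k ^ 2 * (42 * ℓ) ^ d + 1) * ((6 * ℓ) ^ d * (C * (k + 1) ^ (d + 1) + 1))
      ≤ ((42 * ℓ) ^ d + 1) * (k + 1) ^ 2 * ((6 * ℓ) ^ d * ((C + 1) * (k + 1) ^ (d + 1))) := by
        gcongr
    _ = ((42 * ℓ) ^ d + 1) * ((6 * ℓ) ^ d * (C + 1)) * (k + 1) ^ (d + 3) := by ring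

lemma ConnOne_trans {κ : Kind} {ω : El d → Bool} {x y z : V d} {r s : ℝ}
    (h1 : Joined κ ω x y r) (h2 : Joined κ ω y z s) : Joined κ ω x z (r + s) := by
  obtain ⟨w1, h1⟩ := h1
  obtain ⟨w2, h2⟩ := h2
  refine ⟨w1.append w2, ?_⟩
  rw [SimpleGraph.Walk.length_append]
  push_cast
  linarith

lemma ConnOne_symm {κ : Kind} {ω : El d → Bool} {x y : V d} {r : ℝ}
    (h1 : Joined κ ω x y r) : Joined κ ω y x r := by
  obtain ⟨w1, h1⟩ := h1
  exact ⟨w1.reverse, by rwa [SimpleGraph.Walk.length_reverse]⟩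

/-- one scale, one starting point -/
lemma ConnOne_fixed (κ : Kind) {ℓ C k j : ℕ} (hℓ : 1 ≤ ℓ) (X Y : El d → Bool)
    (hXY : ∀ e, X e = true → Y e = true) {v : V d} {Z : Set (V d)} {q : V d → V d}
    (hq : ∀ z ∈ Z, ∀ i, |q z i - (v i + cz ℓ z i)| ≤ ℓ)
    (hjn : ∀ z ∈ Z, (∀ i, |z i| ≤ 2 ^ (k - j)) →
      Joined κ Y v (q z) (C * 2 ^ (k - j) + C * (k + 1) ^ (d + 1)))
    (hdens : ∀ (x y : V d) (W : (Lat d).Walk x y), (∀ u ∈ W.support, ∀ i, |u i| ≤ 2 * 2 ^ k) →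
      C * (k + 1) ^ (d + 1) < W.support.toFinset.card → ∃ z ∈ W.support, z ∈ Z)
    (hn1 : ConnOne_n d ℓ C k ≤ 2 ^ k)
    (hv1 : ∀ i, |v i| + (ConnOne_n d ℓ C k : ℤ) ≤ 2 ^ k)
    (hv2 : ∀ i, |v i| + (ConnOne_n d ℓ C k : ℤ) + 6 * ℓ ≤ 5 * 2 ^ (k - j)) {r : ℝ}
    (hr : (ConnOne_n d ℓ C k : ℝ) + 7 * d * ℓ + (C * 2 ^ (k - j) + C * (k + 1) ^ (d + 1)) ≤ r)
    (δ : unitInterval) {y : V d} (hy : ∀ i, |y i| ≤ 2 ^ (k - j)) (hP : 0 < Pn κ X (2 ^ k) y) :
    (prodBern (El d) δ).real {σ | ¬ Joined κ (fun e => Y e || σ e) y v r}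
      ≤ (1 - (δ : ℝ) ^ ((7 * d * ℓ + 2) ^ 2)) ^ (k ^ 2) := by
  classical
  obtain ⟨s, hs⟩ := Finset.card_pos.1 hP
  rw [Finset.mem_filter] at hs
  obtain ⟨hsaw, hop, hst⟩ := hs
  have hinj : IsSAW s := mem_saws.1 hsaw
  have hkj : (2 : ℤ) ^ (k - j) ≤ 2 ^ k := pow_le_pow_right₀ (by norm_num) (by omega)
  obtain ⟨t, ht1, ht2, ht3⟩ := select (T := k ^ 2) (D := C * (k + 1) ^ (d + 1)) hℓ v Z (2 * 2 ^ k)
    y s hinj hn1 (by
      intro i
      have h1 := hy i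
      have h2 := hv1 i
      have h3 : ((ConnOne_n d ℓ C k : ℕ) : ℤ) = (((k ^ 2 * (42 * ℓ) ^ d + 1) *
        ((6 * ℓ) ^ d * (C * (k + 1) ^ (d + 1) + 1)) : ℕ) : ℤ) := rfl
      rw [← h3]
      linarith) hdens
  have hnear : ∀ i a, |(y + pos s (t i)) a - q (cell v ℓ (y + pos s (t i))) a| ≤ 7 * ℓ := by
    intro i a
    have h1 := hq _ (ht2 i) a
    have h2 := cell_near (v := v) (u := y + pos s (t i)) hℓ a
    rw [abs_le] at h1 ⊢
    constructor <;> linarith [h1.1, h1.2, h2.1, h2.2]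
  have hcell : ∀ i a, |cell v ℓ (y + pos s (t i)) a| ≤ 2 ^ (k - j) := by
    intro i a
    have h2 := cell_near (v := v) (u := y + pos s (t i)) hℓ a
    have h3 := hv2 a
    have h4 := hy a
    have h5 := abs_pos_le s (t i) a
    have h6 : ((t i : ℕ) : ℤ) ≤ (ConnOne_n d ℓ C k : ℤ) := by exact_mod_cast ht1 i
    have h7 : (y + pos s (t i)) a = y a + pos s (t i) a := rfl
    have hl : (1 : ℤ) ≤ ℓ := by exact_mod_cast hℓ
    set c := cell v ℓ (y + pos s (t i)) a with hc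
    have h8 : cz ℓ (cell v ℓ (y + pos s (t i))) a = 6 * ℓ * c := rfl
    rw [h7, h8] at h2
    rw [abs_le] at h4 h5
    have hva := abs_le.1 (le_refl |v a|)
    have hM : (0 : ℤ) < 2 ^ (k - j) := by positivity
    set M : ℤ := 2 ^ (k - j) with hMdef
    have hlM : M ≤ ℓ * M := le_mul_of_one_le_left hM.le hl
    have hlv : 0 ≤ |v a| := abs_nonneg _
    have h9 : 6 * ℓ * c ≤ 6 * ℓ * M := by linarith [h2.1, h2.2, h4.1, h4.2, h5.1, h5.2, hva.1, hva.2]
    have h10 : -(6 * ℓ * M) ≤ 6 * ℓ * c := by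
      linarith [h2.1, h2.2, h4.1, h4.2, h5.1, h5.2, hva.1, hva.2]
    have hl0 : (0 : ℤ) < 6 * ℓ := by linarith only [hl]
    rw [abs_le]
    constructor
    · refine le_of_mul_le_mul_left ?_ hl0
      linarith only [h10]
    · exact le_of_mul_le_mul_left h9 hl0
  refine le_trans (measureReal_mono ?_) (attach κ δ (fun i => y + pos s (t i))
    (fun i => q (cell v ℓ (y + pos s (t i)))) hnear ht3)
  intro σ hσ i hJ
  apply hσ
  have hle : t i ≤ 2 ^ k := le_trans (ht1 i) hn1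
  obtain ⟨w, hw⟩ := Exit_walk κ X y s hop hst (t i) hle
  have hJ1 : Joined κ X y (y + pos s (t i)) (t i : ℝ) := ⟨w, by rw [hw]⟩
  have hYσ : ∀ e, Y e = true → (Y e || σ e) = true := by
    intro e he
    simp [he]
  have hσσ : ∀ e, σ e = true → (Y e || σ e) = true := by
    intro e he
    simp [he]
  have hJ1' := joined_mono (ξ' := fun e => Y e || σ e) hJ1 (fun e he => hYσ e (hXY e he)) le_rfl
  have hJ2' := joined_mono (ξ' := fun e => Y e || σ e) hJ hσσ le_rfl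
  have hJ3' := joined_mono (ξ' := fun e => Y e || σ e)
    (ConnOne_symm (hjn _ (ht2 i) (hcell i))) hYσ le_rfl
  refine joined_mono (ConnOne_trans (ConnOne_trans hJ1' hJ2') hJ3') (fun e he => he) ?_
  refine le_trans ?_ hr
  have h6 : ((t i : ℕ) : ℝ) ≤ (ConnOne_n d ℓ C k : ℝ) := by exact_mod_cast ht1 i
  linarith

theorem conn_one (κ : Kind) (hd : 1 ≤ d) {ℓ C : ℕ} (hℓ : 1 ≤ ℓ) (X Y : El d → Bool)
    (hXY : ∀ e, X e = true → Y e = true) (hB : Backbone κ ℓ C Y) (δ : unitInterval)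
    (hδ : 0 < (δ : ℝ)) {ε : ℝ} (hε : 0 < ε) {j : ℕ} (hj : 4 * C < ε * 2 ^ j) :
    ∃ v : V d, ∀ᵐ σ ∂(prodBern (El d) δ), ∀ᶠ k : ℕ in atTop, ∀ y : V d,
      (∀ i, |y i| ≤ 2 ^ (k - j)) → 0 < Pn κ X (2 ^ k) y →
        Joined κ (fun e => Y e || σ e) y v (ε / 2 * 2 ^ k) := by
  classical
  obtain ⟨v, Z, q, hq, hjn, hdens⟩ := hB
  refine ⟨v, ?_⟩
  set c : ℕ := (7 * d * ℓ + 2) ^ 2 with hc
  set a : ℝ := 1 - (δ : ℝ) ^ c with ha
  have hδ1 : (δ : ℝ) ≤ 1 := δ.2.2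
  have hdc : 0 < (δ : ℝ) ^ c := pow_pos hδ c
  have hdc1 : (δ : ℝ) ^ c ≤ 1 := pow_le_one₀ hδ.le hδ1
  have ha0 : 0 ≤ a := by linarith
  have ha1 : a < 1 := by linarith
  -- the number of starting points against the probability
  have hsmall : ∀ᶠ k : ℕ in atTop, 2 ^ d * a ^ k ≤ 1 / 2 := by
    have h1 := (tendsto_pow_atTop_nhds_zero_of_lt_one ha0 ha1).const_mul (2 ^ d : ℝ)
    rw [mul_zero] at h1
    exact h1.eventually_le_const (by norm_num)
  -- polynomial bounds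
  set K : ℕ := ((42 * ℓ) ^ d + 1) * ((6 * ℓ) ^ d * (C + 1)) with hK
  set vm : ℤ := ∑ i, |v i| with hvm
  have hvi : ∀ i, |v i| ≤ vm := fun i =>
    Finset.single_le_sum (f := fun i => |v i|) (fun i _ => abs_nonneg _) (Finset.mem_univ i)
  have hvm0 : 0 ≤ vm := Finset.sum_nonneg fun i _ => abs_nonneg _
  set Q : ℝ := vm + K + 6 * ℓ + 7 * d * ℓ + C with hQ
  have hQ0 : (0 : ℝ) ≤ vm := by exact_mod_cast hvm0
  have hpos : (0 : ℝ) < min (min (5 / 2 ^ j) (ε / 4)) 1 := by positivity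
  have hpoly := ConnNear_poly Q (d + 3) hpos
  have hev := (hjn j).and (hdens.and (hpoly.and (hsmall.and (eventually_ge_atTop j))))
  obtain ⟨k0, hk0⟩ := eventually_atTop.1 hev
  set E : ℕ → Set (El d → Bool) := fun k => {σ | k0 ≤ k ∧ ∃ y : V d, (∀ i, |y i| ≤ 2 ^ (k - j)) ∧
    0 < Pn κ X (2 ^ k) y ∧ ¬ Joined κ (fun e => Y e || σ e) y v (ε / 2 * 2 ^ k)} with hE
  have hEk : ∀ k, (prodBern (El d) δ).real (E k) ≤ 3 ^ d * (1 / 2) ^ k := by
    intro k
    by_cases hk : k0 ≤ k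
    · obtain ⟨h1, h2, h3, h4, h5⟩ := hk0 k hk
      have hk1 : (1 : ℝ) ≤ (k : ℝ) + 1 := by
        have : (0 : ℝ) ≤ k := Nat.cast_nonneg k
        linarith
      have hk2 : (1 : ℝ) ≤ ((k : ℝ) + 1) ^ (d + 3) := one_le_pow₀ hk1
      have hk3 : ((k : ℝ) + 1) ^ (d + 1) ≤ ((k : ℝ) + 1) ^ (d + 3) :=
        pow_le_pow_right₀ hk1 (by omega)
      have hk4 : (0 : ℝ) ≤ ((k : ℝ) + 1) ^ (d + 1) := by positivity
      have hn : (ConnOne_n d ℓ C k : ℝ) ≤ K * ((k : ℝ) + 1) ^ (d + 3) := by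
        have := ConnOne_n_le d ℓ C k
        rw [← hK] at this
        exact_mod_cast this
      have hℓ0 : (0 : ℝ) ≤ (ℓ : ℝ) := Nat.cast_nonneg _
      have hd0 : (0 : ℝ) ≤ (d : ℝ) := Nat.cast_nonneg _
      have hC0 : (0 : ℝ) ≤ (C : ℝ) := Nat.cast_nonneg _
      -- the sum of all lower order terms
      have hsum : (vm : ℝ) + ConnOne_n d ℓ C k + 6 * ℓ + 7 * d * ℓ + C * ((k : ℝ) + 1) ^ (d + 1)
          ≤ Q * ((k : ℝ) + 1) ^ (d + 3) := by
        have e1 : (vm : ℝ) ≤ vm * ((k : ℝ) + 1) ^ (d + 3) := le_mul_of_one_le_right hQ0 hk2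
        have e2 : (6 * ℓ : ℝ) ≤ (6 * ℓ) * ((k : ℝ) + 1) ^ (d + 3) :=
          le_mul_of_one_le_right (by positivity) hk2
        have e3 : (7 * d * ℓ : ℝ) ≤ (7 * d * ℓ) * ((k : ℝ) + 1) ^ (d + 3) :=
          le_mul_of_one_le_right (by positivity) hk2
        have e4 : (C : ℝ) * ((k : ℝ) + 1) ^ (d + 1) ≤ C * ((k : ℝ) + 1) ^ (d + 3) :=
          mul_le_mul_of_nonneg_left hk3 hC0
        rw [hQ]
        have e5 : ((vm : ℝ) + K + 6 * ℓ + 7 * d * ℓ + C) * ((k : ℝ) + 1) ^ (d + 3) =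
            vm * ((k : ℝ) + 1) ^ (d + 3) + K * ((k : ℝ) + 1) ^ (d + 3) +
              6 * ℓ * ((k : ℝ) + 1) ^ (d + 3) + 7 * d * ℓ * ((k : ℝ) + 1) ^ (d + 3) +
              C * ((k : ℝ) + 1) ^ (d + 3) := by ring
        rw [e5]
        linarith only [e1, hn, e2, e3, e4]
      have h2k : (0 : ℝ) < 2 ^ k := by positivity
      have hkj : (2 : ℝ) ^ k = 2 ^ (k - j) * 2 ^ j := by
        rw [← pow_add]
        congr 1
        omega
      have hb1 : Q * ((k : ℝ) + 1) ^ (d + 3) ≤ 5 * 2 ^ (k - j) := by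
        refine le_trans h3 ?_
        calc min (min (5 / 2 ^ j) (ε / 4)) 1 * (2 : ℝ) ^ k ≤ 5 / 2 ^ j * 2 ^ k := by
              refine mul_le_mul_of_nonneg_right ?_ h2k.le
              exact le_trans (min_le_left _ _) (min_le_left _ _)
          _ = 5 * 2 ^ (k - j) := by
              rw [hkj]
              field_simp
      have hb2 : Q * ((k : ℝ) + 1) ^ (d + 3) ≤ ε / 4 * 2 ^ k := by
        refine le_trans h3 ?_
        refine mul_le_mul_of_nonneg_right ?_ h2k.le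
        exact le_trans (min_le_left _ _) (min_le_right _ _)
      have hb3 : Q * ((k : ℝ) + 1) ^ (d + 3) ≤ 2 ^ k := by
        refine le_trans h3 ?_
        calc min (min (5 / 2 ^ j) (ε / 4)) 1 * (2 : ℝ) ^ k ≤ 1 * 2 ^ k :=
              mul_le_mul_of_nonneg_right (min_le_right _ _) h2k.le
          _ = 2 ^ k := one_mul _
      have hrest1 : (0 : ℝ) ≤ 6 * ℓ := by positivity
      have hrest2 : (0 : ℝ) ≤ 7 * d * ℓ := by positivity
      have hrest3 : (0 : ℝ) ≤ C * ((k : ℝ) + 1) ^ (d + 1) := by positivity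
      have hn0 : (0 : ℝ) ≤ (ConnOne_n d ℓ C k : ℝ) := Nat.cast_nonneg _
      have hv1 : vm + (ConnOne_n d ℓ C k : ℤ) ≤ 2 ^ k := by
        have : (vm : ℝ) + ConnOne_n d ℓ C k ≤ 2 ^ k := by linarith
        exact_mod_cast this
      have hv2 : vm + (ConnOne_n d ℓ C k : ℤ) + 6 * ℓ ≤ 5 * 2 ^ (k - j) := by
        have : (vm : ℝ) + ConnOne_n d ℓ C k + 6 * ℓ ≤ 5 * 2 ^ (k - j) := by linarith
        exact_mod_cast this
      have hn1 : ConnOne_n d ℓ C k ≤ 2 ^ k := by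
        have : (ConnOne_n d ℓ C k : ℝ) ≤ 2 ^ k := by linarith
        exact_mod_cast this
      have hr : (ConnOne_n d ℓ C k : ℝ) + 7 * d * ℓ + (C * 2 ^ (k - j) + C * (k + 1) ^ (d + 1))
          ≤ ε / 2 * 2 ^ k := by
        have e1 : (C : ℝ) * 2 ^ (k - j) ≤ ε / 4 * 2 ^ k := by
          rw [hkj]
          have h6 : (0 : ℝ) < 2 ^ (k - j) := by positivity
          have h7 := mul_le_mul_of_nonneg_right hj.le h6.le
          linarith only [h7]
        linarith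
      -- the cube of starting points
      set B : Finset (V d) := Fintype.piFinset fun _ => Finset.Icc (-(2 ^ (k - j) : ℤ)) (2 ^ (k - j))
        with hB
      have hBc : (B.card : ℝ) ≤ 3 ^ d * (2 ^ d) ^ k := by
        have h6 : B.card ≤ (3 * 2 ^ k) ^ d := by
          rw [hB, Fintype.card_piFinset]
          refine le_trans (Finset.prod_le_pow_card _ _ (3 * 2 ^ k) ?_) (by simp)
          intro i _
          rw [Int.card_Icc]
          have h7 : (2 : ℤ) ^ (k - j) ≤ 2 ^ k := pow_le_pow_right₀ (by norm_num) (by omega)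
          have h8 : (1 : ℤ) ≤ 2 ^ k := one_le_pow₀ (by norm_num)
          refine Int.toNat_le.2 ?_
          push_cast
          linarith
        calc (B.card : ℝ) ≤ (((3 * 2 ^ k) ^ d : ℕ) : ℝ) := by exact_mod_cast h6
          _ = 3 ^ d * (2 ^ d) ^ k := by
              push_cast
              rw [mul_pow, ← pow_mul, ← pow_mul, mul_comm k d]
      have hsub : E k ⊆ ⋃ y ∈ B.filter (fun y => 0 < Pn κ X (2 ^ k) y),
          {σ | ¬ Joined κ (fun e => Y e || σ e) y v (ε / 2 * 2 ^ k)} := by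
        rintro σ ⟨-, y, hy, hP, hJ⟩
        refine Set.mem_biUnion (x := y) ?_ hJ
        rw [Finset.mem_coe, Finset.mem_filter, hB, Fintype.mem_piFinset]
        refine ⟨fun i => ?_, hP⟩
        rw [Finset.mem_Icc]
        exact abs_le.1 (hy i)
      calc (prodBern (El d) δ).real (E k)
          ≤ (prodBern (El d) δ).real (⋃ y ∈ B.filter (fun y => 0 < Pn κ X (2 ^ k) y),
          {σ | ¬ Joined κ (fun e => Y e || σ e) y v (ε / 2 * 2 ^ k)}) :=
            measureReal_mono hsub (measure_ne_top _ _)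
        _ ≤ ∑ y ∈ B.filter (fun y => 0 < Pn κ X (2 ^ k) y), (prodBern (El d) δ).real
            {σ | ¬ Joined κ (fun e => Y e || σ e) y v (ε / 2 * 2 ^ k)} :=
            measureReal_biUnion_finset_le _ _
        _ ≤ ∑ y ∈ B.filter (fun y => 0 < Pn κ X (2 ^ k) y), a ^ (k ^ 2) := by
            refine Finset.sum_le_sum fun y hy => ?_
            rw [Finset.mem_filter, hB, Fintype.mem_piFinset] at hy
            refine ConnOne_fixed κ hℓ X Y hXY hq h1 h2 hn1 (fun i => ?_) (fun i => ?_) hr δ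
              (fun i => ?_) hy.2
            · have := hvi i
              linarith
            · have := hvi i
              linarith
            · have h6 := hy.1 i
              rw [Finset.mem_Icc] at h6
              exact abs_le.2 h6
        _ ≤ B.card * a ^ (k ^ 2) := by
            rw [Finset.sum_const, nsmul_eq_mul]
            refine mul_le_mul_of_nonneg_right ?_ (by positivity)
            exact_mod_cast Finset.card_filter_le _ _
        _ ≤ 3 ^ d * (2 ^ d) ^ k * a ^ (k ^ 2) := mul_le_mul_of_nonneg_right hBc (by positivity)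
        _ = 3 ^ d * (2 ^ d * a ^ k) ^ k := by
            rw [mul_pow, ← pow_mul a k k, sq, mul_assoc]
        _ ≤ 3 ^ d * (1 / 2) ^ k := by
            refine mul_le_mul_of_nonneg_left ?_ (by positivity)
            exact pow_le_pow_left₀ (by positivity) h4 k
    · have h0 : E k = ∅ := by
        rw [Set.eq_empty_iff_forall_notMem]
        rintro σ ⟨h1, -⟩
        exact hk h1
      rw [h0, measureReal_empty]
      positivity
  have hBC := ConnNear_BC (prodBern (El d) δ) E (by positivity) (by norm_num) (by norm_num) hEk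
  filter_upwards [hBC] with σ hσ
  filter_upwards [hσ, eventually_ge_atTop k0] with k hk hkk0 y hy hP
  by_contra hJ
  exact hk ⟨hkk0, y, hy, hP, hJ⟩

end Pool.Agent.H47.GM
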