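import Pool.Agent.H47.GM.Backbone
import Pool.Agent.H47.GM.ConnOne

/-!
# GM module ConnC: long open paths of the smaller configuration are joined in the larger one

`Ω = (Fin 3 × El d → Bool) × (El d → Bool)` with `mu (parJ d 2 p₁ δ) ⊗ prodBern δ`, `X = fld 0 ω`,
`Y = tot ω ∨ σ`, `1 - p = (1 - p₁)(1 - δ)^3` (such a `δ` in `(0, 1)` exists). Laws: `law_fld`, `law_tot`,
`map_or` (H41/QC/Coupling). For almost every `ω` there is a backbone (`backbone` with `p₀ < p₁`); apply
`conn_one` to `0` and to `y` (`ε/2 + ε/2`) for almost every `σ`. Fubini: the event is measurable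
(`Pn_measurable`, `measurable_joined`), so `ae` for almost every `ω` and almost every `σ` gives `ae` for
the product.
-/

open MeasureTheory Filter Topology
open Pool.Agent.H17.IIC Pool.Agent.H41.QC

namespace Pool.Agent.H47.GM

variable {d : ℕ}

/-- coupled connection property: long open paths of the configuration `X` (law `p₁`) near the
origin are joined to the origin in the configuration `Y ≥ X` (law `p`) -/
def ConnC (κ : Kind) (d : ℕ) (p₁ p : unitInterval) : Prop :=
  ∃ (Ω : Type) (_ : MeasurableSpace Ω) (P : Measure Ω) (X Y : Ω → El d → Bool),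
    IsProbabilityMeasure P ∧ Measurable X ∧ Measurable Y ∧
    P.map X = prodBern (El d) p₁ ∧ P.map Y = prodBern (El d) p ∧
    (∀ ω e, X ω e = true → Y ω e = true) ∧
    ∀ ε : ℝ, 0 < ε → ∃ j : ℕ, 1 ≤ j ∧ ∀ᵐ ω ∂P, ∀ᶠ k : ℕ in atTop,
      0 < Pn κ (X ω) (2 ^ k) (0 : V d) → ∀ y ∈ box (0 : V d) (2 ^ (k - j)),
        0 < Pn κ (X ω) (2 ^ k) y → Joined κ (Y ω) 0 y (ε * 2 ^ k)

lemma ConnC_meas_adj (κ : Kind) (x y : V d) :
    MeasurableSet {ω : El d → Bool | (Gr κ ω).Adj x y} := by
  have h : ∀ e : El d, MeasurableSet {ω : El d → Bool | ω e = true} := fun e =>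
    measurableSet_eq_fun (measurable_pi_apply e) measurable_const
  by_cases hxy : LatAdj x y
  · cases κ with
    | bond =>
      have e1 : {ω : El d → Bool | (Gr .bond ω).Adj x y} = {ω | ω s(x, y) = true} := by
        ext ω
        exact ⟨fun h => h.2, fun h => ⟨hxy, h⟩⟩
      rw [e1]
      exact h _
    | site =>
      have e1 : {ω : El d → Bool | (Gr .site ω).Adj x y}
          = {ω | ω s(x, x) = true} ∩ {ω | ω s(y, y) = true} := by
        ext ω
        exact ⟨fun h => h.2, fun h => ⟨hxy, h⟩⟩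
      rw [e1]
      exact (h _).inter (h _)
  · have e1 : {ω : El d → Bool | (Gr κ ω).Adj x y} = ∅ := by
      rw [Set.eq_empty_iff_forall_notMem]
      rintro ω ⟨h1, -⟩
      exact hxy h1
    rw [e1]
    exact MeasurableSet.empty

lemma ConnC_meas_walk (κ : Kind) (n : ℕ) : ∀ x y : V d,
    MeasurableSet {ω : El d → Bool | ∃ w : (Gr κ ω).Walk x y, w.length = n} := by
  induction n with
  | zero =>
    intro x y
    by_cases hxy : x = y
    · subst hxy
      have e1 : {ω : El d → Bool | ∃ w : (Gr κ ω).Walk x x, w.length = 0} = Set.univ := by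
        rw [Set.eq_univ_iff_forall]
        intro ω
        exact ⟨SimpleGraph.Walk.nil, rfl⟩
      rw [e1]
      exact MeasurableSet.univ
    · have e1 : {ω : El d → Bool | ∃ w : (Gr κ ω).Walk x y, w.length = 0} = ∅ := by
        rw [Set.eq_empty_iff_forall_notMem]
        rintro ω ⟨w, hw⟩
        exact hxy (SimpleGraph.Walk.eq_of_length_eq_zero hw)
      rw [e1]
      exact MeasurableSet.empty
  | succ n ih =>
    intro x y
    have e1 : {ω : El d → Bool | ∃ w : (Gr κ ω).Walk x y, w.length = n + 1}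
        = ⋃ x' : V d, {ω : El d → Bool | (Gr κ ω).Adj x x'} ∩
          {ω : El d → Bool | ∃ w : (Gr κ ω).Walk x' y, w.length = n} := by
      ext ω
      rw [Set.mem_iUnion]
      constructor
      · rintro ⟨w, hw⟩
        cases w with
        | nil => simp at hw
        | cons h w' => exact ⟨_, h, w', by simpa using hw⟩
      · rintro ⟨x', h, w', hw⟩
        exact ⟨SimpleGraph.Walk.cons h w', by rw [SimpleGraph.Walk.length_cons, hw]⟩
    rw [e1]
    exact MeasurableSet.iUnion fun x' => (ConnC_meas_adj κ x x').inter (ih x' y)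

theorem measurable_joined (κ : Kind) (x y : V d) (r : ℝ) :
    MeasurableSet {ω : El d → Bool | Joined κ ω x y r} := by
  have e1 : {ω : El d → Bool | Joined κ ω x y r}
      = ⋃ n : {n : ℕ // (n : ℝ) ≤ r},
        {ω : El d → Bool | ∃ w : (Gr κ ω).Walk x y, w.length = (n : ℕ)} := by
    ext ω
    rw [Set.mem_iUnion]
    constructor
    · rintro ⟨w, hw⟩
      exact ⟨⟨w.length, hw⟩, w, rfl⟩
    · rintro ⟨⟨n, hn⟩, w, hw⟩
      refine ⟨w, ?_⟩
      have hw' : w.length = n := hw
      rw [hw']
      exact hn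
  rw [e1]
  exact MeasurableSet.iUnion fun n => ConnC_meas_walk κ n x y

theorem conn_c (κ : Kind) (hd : 2 ≤ d) (p₀ p₁ p : unitInterval) (h01 : (p₀ : ℝ) < p₁)
    (h1 : (p₁ : ℝ) < p) (hp : (p : ℝ) < 1) (hθ : 0 < theta κ d p₀) : ConnC κ d p₁ p := by
  classical
  have h1p : 0 < 1 - (p₁ : ℝ) := by linarith
  set t : ℝ := (1 - (p : ℝ)) / (1 - (p₁ : ℝ)) with ht
  have ht0 : 0 < t := div_pos (by linarith) h1p
  have ht1 : t < 1 := by
    rw [ht, div_lt_one h1p]
    linarith
  set s : ℝ := t ^ (1 / 3 : ℝ) with hs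
  have hs0 : 0 < s := Real.rpow_pos_of_pos ht0 _
  have hs1 : s < 1 := Real.rpow_lt_one ht0.le ht1 (by norm_num)
  have hs3 : s ^ 3 = t := by
    rw [hs, ← Real.rpow_natCast, ← Real.rpow_mul ht0.le]
    norm_num
  have hpt : (1 - (p : ℝ)) = (1 - p₁) * s ^ 3 := by
    rw [hs3, ht]
    field_simp
  have hss : s ^ 2 ≤ 1 := pow_le_one₀ hs0.le hs1.le
  have hss0 : 0 ≤ s ^ 2 := by positivity
  have hp10 : (0 : ℝ) ≤ p₁ := p₁.2.1
  let δ : unitInterval := ⟨1 - s, by constructor <;> linarith⟩
  have hδs : (1 - (δ : ℝ)) = s := by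
    change 1 - (1 - s) = s
    ring
  have hδ : 0 < (δ : ℝ) := by linarith
  let p' : unitInterval := ⟨1 - (1 - p₁) * s ^ 2, by
    constructor
    · nlinarith
    · nlinarith⟩
  have hp's : (1 - (p' : ℝ)) = (1 - p₁) * s ^ 2 := by
    change 1 - (1 - (1 - (p₁ : ℝ)) * s ^ 2) = (1 - (p₁ : ℝ)) * s ^ 2
    ring
  have hp' : (1 - p' : ℝ) = (1 - p₁) * (1 - δ) ^ 2 := by rw [hp's, hδs]
  have hp'' : (1 - p : ℝ) = (1 - p') * (1 - δ) := by
    rw [hp's, hδs, hpt]
    ring
  obtain ⟨ℓ, C, hℓ, hB⟩ := backbone κ hd p₀ p₁ δ h01 (by linarith) hθ hδ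
  refine ⟨(Fin 3 × El d → Bool) × (El d → Bool), inferInstance,
    (mu (parJ d 2 p₁ δ)).prod (prodBern (El d) δ), fun x => fld 0 x.1,
    fun x e => tot x.1 e || x.2 e, inferInstance, (measurable_fld 0).comp measurable_fst,
    ?_, ?_, ?_, ?_, ?_⟩
  · exact coupling_measurable_or.comp ((measurable_tot.comp measurable_fst).prodMk measurable_snd)
  · have e1 : (fun x : (Fin 3 × El d → Bool) × (El d → Bool) => fld (0 : Fin 3) x.1)
        = fld 0 ∘ Prod.fst := rfl
    rw [e1, ← Measure.map_map (measurable_fld 0) measurable_fst, Measure.map_fst_prod,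
      measure_univ, one_smul, law_fld]
  · have e1 : (fun (x : (Fin 3 × El d → Bool) × (El d → Bool)) (e : El d) => tot x.1 e || x.2 e)
        = (fun (x : (El d → Bool) × (El d → Bool)) (e : El d) => x.1 e || x.2 e) ∘
          (Prod.map tot id) := rfl
    rw [e1, ← Measure.map_map coupling_measurable_or (measurable_tot.prodMap measurable_id),
      ← Measure.map_prod_map _ _ measurable_tot measurable_id, law_tot p₁ δ p' hp',
      Measure.map_id, map_or p' δ p hp'']
  · intro x e he
    simp only [fld_le_tot 0 x.1 e he, Bool.true_or]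
  · intro ε hε
    obtain ⟨j, hj1, hj⟩ : ∃ j : ℕ, 1 ≤ j ∧ 4 * (C : ℝ) < ε * 2 ^ j := by
      have h2 : Tendsto (fun j : ℕ => ε * (2 : ℝ) ^ j) atTop atTop :=
        (tendsto_pow_atTop_atTop_of_one_lt (by norm_num)).const_mul_atTop hε
      obtain ⟨j, h3, h4⟩ := ((h2.eventually_gt_atTop (4 * (C : ℝ))).and
        (eventually_ge_atTop 1)).exists
      exact ⟨j, h4, h3⟩
    refine ⟨j, hj1, ?_⟩
    rw [Measure.ae_prod_iff_ae_ae]
    · filter_upwards [hB] with ω hω
      obtain ⟨v, hv⟩ := conn_one κ (by omega) hℓ (fld 0 ω) (tot ω) (fld_le_tot 0 ω) hω δ hδ hε hj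
      filter_upwards [hv] with σ hσ
      filter_upwards [hσ] with k hk h0 y hy hPy
      have hy' : ∀ i, |y i| ≤ 2 ^ (k - j) := by
        intro i
        have h2 := mem_box.1 hy i
        rw [abs_le]
        have h3 : (0 : V d) i = 0 := rfl
        rw [h3] at h2
        push_cast at h2
        have h4 : (0 : ℤ) < 2 ^ (k - j) := by positivity
        constructor <;> linarith [h2.1, h2.2]
      have e0 := hk 0 (fun i => by
        rw [Pi.zero_apply, abs_zero]
        positivity) h0
      have e1 := hk y hy' hPy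
      have e2 := ConnOne_trans e0 (ConnOne_symm e1)
      have e3 : ε / 2 * 2 ^ k + ε / 2 * 2 ^ k = ε * 2 ^ k := by ring
      rw [e3] at e2
      exact e2
    · have hP : ∀ (N : ℕ) (x : V d), Measurable
          (fun z : (Fin 3 × El d → Bool) × (El d → Bool) => 0 < Pn κ (fld 0 z.1) N x) := by
        intro N x
        have h2 : MeasurableSet {ω : El d → Bool | (0 : ℝ) < (Pn κ ω N x : ℝ)} :=
          measurableSet_lt measurable_const (Pn_measurable κ N x)
        have h3 : MeasurableSet {ω : El d → Bool | 0 < Pn κ ω N x} := by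
          convert h2 using 3
          exact Nat.cast_pos.symm
        exact measurableSet_setOfPred.1 (((measurable_fld (0 : Fin 3)).comp measurable_fst) h3)
      have hJ : ∀ (x y : V d) (r : ℝ), Measurable
          (fun z : (Fin 3 × El d → Bool) × (El d → Bool) =>
            Joined κ (fun e => tot z.1 e || z.2 e) x y r) := by
        intro x y r
        have h2 : Measurable (fun (z : (Fin 3 × El d → Bool) × (El d → Bool)) (e : El d) =>
            tot z.1 e || z.2 e) :=
          coupling_measurable_or.comp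
            ((measurable_tot.comp measurable_fst).prodMk measurable_snd)
        exact measurableSet_setOfPred.1 (h2 (measurable_joined κ x y r))
      refine measurableSet_setOfPred.2 ?_
      simp only [eventually_atTop]
      refine Measurable.exists fun N => Measurable.forall fun k => measurable_const.imp ?_
      refine (hP _ _).imp (Measurable.forall fun y => measurable_const.imp ((hP _ _).imp ?_))
      exact hJ _ _ _

end Pool.Agent.H47.GM
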