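import Pool.Agent.H41.QC.ConnNear
import Pool.Agent.H47.GM.Basic

/-!
# GM module DDepth: linear depth (deterministic)

Let `ω' = ofSet F`, `r = (d+2)(k+1)`, `N = 2^k`, `m = 2^(k-j)`. The component of `0` in `Gr .site ω'` is
`Rc` (`gr_ofSet`), it is infinite. For `z ∈ Rc`, `|z i| ≤ m`, apply `ConnNear_det` (H41/QC/ConnNear) with the
given walk (`Pn .site ω' N 0 > 0` by `Pn_pos_of_infinite`; for `z` use the same proof: there is a vertex
reachable from `z` at distance `> N`, so a path of length `≥ N`, `PnBasic_of_isPath`, `Pn_pos_of_le`).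
It gives a walk in `Gr .site ω'` from `0` to `z` of length
`≤ 4 (5r+10)^d + 4 d m + (7^d+2)(16 d m + 2((5r+10)^d+1) r) ≤ C m + C (k+1)^(d+1)`; it stays in `Rc`, so
`dep z ≤` its length.
-/

open MeasureTheory Filter Topology
open Pool.Agent.H17.IIC Pool.Agent.H41.QC

namespace Pool.Agent.H47.GM

variable {d : ℕ}

/-- an infinite open cluster gives open paths of every length, from any starting point -/
theorem DDepth_Pn_pos (κ : Kind) (ω : El d → Bool) (x : V d)
    (h : {y | (Gr κ ω).Reachable x y}.Infinite) (N : ℕ) : 0 < Pn κ ω N x := by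
  classical
  have hfin : (Set.Icc (fun i => x i - (N : ℤ)) (fun i => x i + (N : ℤ)) : Set (V d)).Finite :=
    Set.finite_Icc _ _
  obtain ⟨y, hy, hyN⟩ := h.exists_notMem_finite hfin
  have h1 : ∃ i, (N : ℤ) < |y i - x i| := by
    by_contra hcon
    push Not at hcon
    apply hyN
    rw [Set.mem_Icc]
    refine ⟨fun i => ?_, fun i => ?_⟩
    · have := (abs_le.mp (hcon i)).1
      simp only
      linarith
    · have := (abs_le.mp (hcon i)).2
      simp only
      linarith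
  obtain ⟨i, hi⟩ := h1
  obtain ⟨w⟩ := hy
  have h2 := PnBasic_near κ ω (w.toPath : (Gr κ ω).Walk x y) i
  have h3 : N < (w.toPath : (Gr κ ω).Walk x y).length := by
    have := lt_of_lt_of_le hi h2
    exact_mod_cast this
  refine Pn_pos_of_le κ ω h3.le x ?_
  exact PnBasic_of_isPath κ ω _ w.toPath.2 (by omega)

/-- a lattice walk inside `Rc` is a walk of the open graph -/
lemma DDepth_reach {F Rc : Set (V d)} (hdis : Disjoint Rc F) {x y : V d} (w : (Lat d).Walk x y)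
    (hw : ∀ u ∈ w.support, u ∈ Rc) : (Gr .site (ofSet F)).Reachable x y := by
  induction w with
  | nil => exact SimpleGraph.Reachable.refl _
  | @cons a b c h p ih =>
    have h1 : a ∈ Rc := hw a (by simp)
    have h2 : b ∈ Rc := hw b (by simp)
    have h3 : (Gr .site (ofSet F)).Adj a b := by
      rw [gr_ofSet]
      exact ⟨h, Set.disjoint_left.1 hdis h1, Set.disjoint_left.1 hdis h2⟩
    exact h3.reachable.trans (ih fun u hu => hw u (by simp [hu]))

/-- a walk of the open graph which starts in `Rc` stays there, and the depth grows by at most one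
at every step -/
lemma DDepth_walk {F Rc : Set (V d)} {dep : V d → ℕ}
    (hcl : ∀ z ∈ Rc, ∀ z', LatAdj z z' → z' ∈ Rc ∨ z' ∈ F)
    (hdep : ∀ z ∈ Rc, ∀ z' ∈ Rc, LatAdj z z' → dep z' ≤ dep z + 1) {x y : V d}
    (w : (Gr .site (ofSet F)).Walk x y) (hx : x ∈ Rc) : y ∈ Rc ∧ dep y ≤ dep x + w.length := by
  induction w with
  | nil => exact ⟨hx, by simp⟩
  | @cons a b c h p ih =>
    rw [gr_ofSet] at h
    have hb : b ∈ Rc := (hcl a hx b h.1).resolve_right h.2.2
    have h1 := ih hb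
    have h2 := hdep a hx b hb h.1
    refine ⟨h1.1, ?_⟩
    rw [SimpleGraph.Walk.length_cons]
    omega

/-- deterministic part of the depth bound -/
theorem dense_depth (hd : 2 ≤ d) : ∃ C : ℕ, ∀ (F Rc : Set (V d)) (dep : V d → ℕ) (k j : ℕ),
    (5 * ((d + 2) * (k + 1)) + 10) ^ d < 2 ^ k →
    (0 : V d) ∈ Rc → Disjoint Rc F → (∀ z ∈ Rc, ∀ z', LatAdj z z' → z' ∈ Rc ∨ z' ∈ F) →
    (∀ z ∈ Rc, ∃ w : (Lat d).Walk 0 z, ∀ u ∈ w.support, u ∈ Rc) → Rc.Infinite →
    dep 0 = 0 → (∀ z ∈ Rc, ∀ z' ∈ Rc, LatAdj z z' → dep z' ≤ dep z + 1) →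
    (∀ b : V d, Bad .site (ofSet F) b → (∀ i, |b i| ≤ 4 * 2 ^ k) →
      (clus .site (ofSet F) b).Finite ∧ (clus .site (ofSet F) b).ncard < (d + 2) * (k + 1)) →
    (∀ y : V d, (∀ i, |y i| ≤ 2 ^ (k - j)) →
      ∃ w : (Lat d).Walk 0 y, w.length ≤ 4 * d * 2 ^ (k - j) ∧
        (∀ u ∈ w.support, ∀ i, |u i| ≤ 2 ^ (k - j)) ∧
        (hitset .site (ofSet F) {u | u ∈ w.support}).Finite ∧
        (hitset .site (ofSet F) {u | u ∈ w.support}).ncard ≤ 16 * d * 2 ^ (k - j)) →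
    ∀ z ∈ Rc, (∀ i, |z i| ≤ 2 ^ (k - j)) →
      dep z ≤ C * 2 ^ (k - j) + C * (k + 1) ^ (d + 1) := by
  refine ⟨(4 * d + (7 ^ d + 2) * (16 * d)) +
    (4 * (5 * (d + 2) + 10) ^ d +
      (7 ^ d + 2) * (2 * ((5 * (d + 2) + 10) ^ d + 1) * (d + 2))), ?_⟩
  intro F Rc dep k j hr h0 hdis hcl hcon hinf hd0 hdep hsm hline z hz hzm
  set K : ℕ := 5 * (d + 2) + 10 with hK
  set r : ℕ := (d + 2) * (k + 1) with hrdef
  set m : ℕ := 2 ^ (k - j) with hm
  have hmN : m ≤ 2 ^ k := Nat.pow_le_pow_right (by norm_num) (by omega)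
  obtain ⟨w, hw1, hw2, hw3, hw4⟩ := hline z hzm
  obtain ⟨wz, hwz⟩ := hcon z hz
  have hz0 : (Gr .site (ofSet F)).Reachable 0 z := DDepth_reach hdis wz hwz
  have hinf0 : {y | (Gr .site (ofSet F)).Reachable 0 y}.Infinite := by
    refine hinf.mono ?_
    intro y hy
    obtain ⟨wy, hwy⟩ := hcon y hy
    exact DDepth_reach hdis wy hwy
  have hinfz : {y | (Gr .site (ofSet F)).Reachable z y}.Infinite := by
    refine hinf0.mono ?_
    intro y hy
    exact hz0.symm.trans hy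
  have hzm' : ∀ i, |z i| ≤ (m : ℤ) := by
    intro i
    have := hzm i
    rw [hm]; push_cast; exact this
  have hdet := ConnNear_det hd .site (ofSet F) (N := 2 ^ k) (r := r) (m := m) hr hmN
    (by
      intro b hb hbN
      exact hsm b hb (by intro i; have := hbN i; push_cast at this; exact this))
    hzm' w hw1 (by
      intro u hu i
      have := hw2 u hu i
      rw [hm]; push_cast; exact this) hw3 hw4
    (DDepth_Pn_pos _ _ _ hinf0 _) (DDepth_Pn_pos _ _ _ hinfz _)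
  obtain ⟨w', hw'⟩ := hdet
  have h1 := (DDepth_walk hcl hdep w' h0).2
  rw [hd0, zero_add] at h1
  have h2 : w'.length ≤ 4 * (5 * r + 10) ^ d + 4 * d * m +
      (7 ^ d + 2) * (16 * d * m + 2 * ((5 * r + 10) ^ d + 1) * r) := by
    have h3 : (w'.length : ℝ) ≤ ((4 * (5 * r + 10) ^ d + 4 * d * m +
      (7 ^ d + 2) * (16 * d * m + 2 * ((5 * r + 10) ^ d + 1) * r) : ℕ) : ℝ) := by
      push_cast
      exact hw'
    exact_mod_cast h3
  refine h1.trans (h2.trans ?_)
  have hk1 : 1 ≤ (k + 1) ^ d := Nat.one_le_pow _ _ (by omega)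
  have hk2 : (k + 1) ^ d ≤ (k + 1) ^ (d + 1) := Nat.pow_le_pow_right (by omega) (by omega)
  have hrK : 5 * r + 10 ≤ K * (k + 1) := by
    rw [hrdef, hK]
    nlinarith
  have hLK : (5 * r + 10) ^ d ≤ K ^ d * (k + 1) ^ d := by
    rw [← mul_pow]
    exact Nat.pow_le_pow_left hrK d
  have h4 : (5 * r + 10) ^ d ≤ K ^ d * (k + 1) ^ (d + 1) :=
    hLK.trans (Nat.mul_le_mul_left _ hk2)
  have h5 : 2 * ((5 * r + 10) ^ d + 1) * r ≤
      2 * (K ^ d + 1) * (d + 2) * (k + 1) ^ (d + 1) := by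
    have h8 : (5 * r + 10) ^ d + 1 ≤ (K ^ d + 1) * (k + 1) ^ d := by
      calc (5 * r + 10) ^ d + 1 ≤ K ^ d * (k + 1) ^ d + (k + 1) ^ d := Nat.add_le_add hLK hk1
        _ = (K ^ d + 1) * (k + 1) ^ d := by ring
    calc 2 * ((5 * r + 10) ^ d + 1) * r ≤ 2 * ((K ^ d + 1) * (k + 1) ^ d) * r := by gcongr
      _ = 2 * (K ^ d + 1) * (d + 2) * (k + 1) ^ (d + 1) := by rw [hrdef, pow_succ]; ring
  set A : ℕ := 4 * d + (7 ^ d + 2) * (16 * d) with hA
  set B : ℕ := 4 * K ^ d + (7 ^ d + 2) * (2 * (K ^ d + 1) * (d + 2)) with hB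
  set X : ℕ := (k + 1) ^ (d + 1) with hX
  calc 4 * (5 * r + 10) ^ d + 4 * d * m +
        (7 ^ d + 2) * (16 * d * m + 2 * ((5 * r + 10) ^ d + 1) * r)
      ≤ 4 * (K ^ d * X) + 4 * d * m +
        (7 ^ d + 2) * (16 * d * m + 2 * (K ^ d + 1) * (d + 2) * X) := by gcongr
    _ = A * m + B * X := by rw [hA, hB]; ring
    _ ≤ (A + B) * m + (A + B) * X := by
        gcongr
        · exact Nat.le_add_right A B
        · exact Nat.le_add_left B A

end Pool.Agent.H47.GM
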