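import Pool.Agent.H41.QC.Exit
import Pool.Agent.H47.GM.Basic

/-!
# GM module ExitW: long walks contain exterior points (deterministic)

Copy of `exit` (H41/QC/Exit) for a lattice walk with many distinct vertices instead of an open
self-avoiding path; the openness is not needed. If the start `x` is not exterior let `b` be bad within
`4N` with `x` not in `outer (fat (clus b))` and the hull (complement of `outer`) of maximal size; by
`hull_card` it has at most `(5r+10)^d` vertices, so the walk leaves it; the first vertex `x'` outside the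
hull is exterior (`Exit_nested`, maximality).
-/

open MeasureTheory Filter Topology
open Pool.Agent.H17.IIC Pool.Agent.H41.QC

namespace Pool.Agent.H47.GM

variable {d : ℕ}

/-- exterior points at scale `N` -/
def Ext (κ : Kind) (ω : El d → Bool) (N : ℕ) (x : V d) : Prop :=
  ∀ b, Bad κ ω b → (∀ i, |b i| ≤ 4 * N) → x ∈ outer (fat (clus κ ω b)) (farPt d N)

theorem exitW (hd : 2 ≤ d) (κ : Kind) (ω : El d → Bool) {N r : ℕ} (hr : (5 * r + 10) ^ d < N)
    (hsm : ∀ b, Bad κ ω b → (∀ i, |b i| ≤ 4 * N) →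
      (clus κ ω b).Finite ∧ (clus κ ω b).ncard < r)
    {x y : V d} (W : (Lat d).Walk x y) (hlen : (5 * r + 10) ^ d < W.support.toFinset.card) :
    ∃ x' ∈ W.support, Ext κ ω N x' := by
  classical
  have hr1 : 5 * r + 10 ≤ N := by
    have h1 : (5 * r + 10) ^ 1 ≤ (5 * r + 10) ^ d := Nat.pow_le_pow_right (by omega) (by omega)
    rw [pow_one] at h1
    omega
  by_cases hall : Ext κ ω N x
  · exact ⟨x, W.start_mem_support, hall⟩
  -- the maximal hull containing `x`
  unfold Ext at hall
  push Not at hall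
  obtain ⟨b0, hb0, hb0N, hxb0⟩ := hall
  set cube : Finset (V d) := Fintype.piFinset fun _ => Finset.Icc (-(4 * N : ℤ)) (4 * N) with hcube
  set T : Finset (V d) := cube.filter
    (fun b => Bad κ ω b ∧ x ∉ outer (fat (clus κ ω b)) (farPt d N)) with hT
  have hmemT : ∀ b, b ∈ T ↔ (∀ i, |b i| ≤ 4 * N) ∧ Bad κ ω b ∧
      x ∉ outer (fat (clus κ ω b)) (farPt d N) := by
    intro b
    rw [hT, Finset.mem_filter, hcube, Fintype.mem_piFinset]
    simp only [Finset.mem_Icc, abs_le]
  obtain ⟨b, hbT, hmax⟩ := Finset.exists_max_image T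
    (fun b => ((outer (fat (clus κ ω b)) (farPt d N))ᶜ).ncard)
    ⟨b0, (hmemT b0).2 ⟨hb0N, hb0, hxb0⟩⟩
  obtain ⟨hbN, hb, hxb⟩ := (hmemT b).1 hbT
  obtain ⟨hcfin, hccard⟩ := hsm b hb hbN
  obtain ⟨hhfin, hhcard⟩ := hull_card hd κ ω hr1 hb hbN hcfin hccard
  set O := outer (fat (clus κ ω b)) (farPt d N) with hO
  -- the walk leaves the hull
  have hleave : ∃ t, t ≤ W.length ∧ W.getVert t ∈ O := by
    by_contra hcon
    push Not at hcon
    have h1 : ((W.support.toFinset : Finset (V d)) : Set (V d)) ⊆ Oᶜ := by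
      intro z hz
      rw [Finset.mem_coe, List.mem_toFinset, SimpleGraph.Walk.mem_support_iff_exists_getVert] at hz
      obtain ⟨t, rfl, ht⟩ := hz
      exact hcon t ht
    have h2 := Set.ncard_le_ncard h1 hhfin
    rw [Set.ncard_coe_finset] at h2
    omega
  set t0 := Nat.find hleave with ht0
  obtain ⟨ht0N, ht0O⟩ := Nat.find_spec hleave
  have hmin : ∀ t, t < t0 → W.getVert t ∉ O := by
    intro t ht hO'
    exact Nat.find_min hleave ht ⟨by omega, hO'⟩
  have ht0pos : 0 < t0 := by
    rcases Nat.eq_zero_or_pos t0 with h | h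
    · exfalso
      apply hxb
      have h2 : W.getVert t0 ∈ O := ht0O
      rwa [h, SimpleGraph.Walk.getVert_zero] at h2
    · exact h
  refine ⟨W.getVert t0, W.getVert_mem_support t0, ?_⟩
  -- the exit point is exterior
  intro b' hb' hb'N
  by_contra hx'
  set t1 := t0 - 1 with ht1
  have ht1N : t1 < W.length := by omega
  have ht1s : t1 + 1 = t0 := by omega
  set u := W.getVert t1 with hu
  have huO : u ∉ O := hmin t1 (by omega)
  have hux : LatAdj u (W.getVert t0) := by
    have h := W.adj_getVert_succ ht1N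
    rw [ht1s] at h
    exact h
  have huf : u ∈ fat (clus κ ω b) := by
    by_contra h
    exact huO (outer_closed _ _ _ ht0O u (SimpleGraph.Adj.symm (G := Lat d) hux) h)
  have hcl : Cl 1 (W.getVert t0) u := by
    intro i
    have h := LatAdj.abs_le hux i
    rw [abs_sub_comm] at h
    exact_mod_cast h
  have hne : clus κ ω b ≠ clus κ ω b' := by
    intro heq
    apply hx'
    rw [← heq]
    exact ht0O
  have hnest := Exit_nested κ ω hb hb' hne huf hux hcl hx'
  have hxb' : x ∉ outer (fat (clus κ ω b')) (farPt d N) := fun h => hxb (hnest h)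
  have hle := hmax b' ((hmemT b').2 ⟨hb'N, hb', hxb'⟩)
  obtain ⟨hcfin', hccard'⟩ := hsm b' hb' hb'N
  obtain ⟨hhfin', -⟩ := hull_card hd κ ω hr1 hb' hb'N hcfin' hccard'
  have hss : (outer (fat (clus κ ω b)) (farPt d N))ᶜ ⊂ (outer (fat (clus κ ω b')) (farPt d N))ᶜ := by
    refine ⟨Set.compl_subset_compl.2 hnest, ?_⟩
    intro h
    exact h hx' ht0O
  have hlt := Set.ncard_lt_ncard hss hhfin'
  exact absurd hlt (not_lt.2 hle)

end Pool.Agent.H47.GM
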