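import Pool.Agent.H47.GM.ExitW

/-!
# GM module ExtJoin: exterior points are connected (deterministic)

Take a straight walk from `x` to `x'` (`exists_walk`); a cluster hit by it is the cluster of
a bad vertex `c` with `|c i| ≤ 2N + 2 ≤ 4N`, hence finite, and both `x`, `x'` are in its outer component
(`bad_clus_eq`); apply `detour` (H41/QC/Detour).
-/

open MeasureTheory Filter Topology
open Pool.Agent.H17.IIC Pool.Agent.H41.QC

namespace Pool.Agent.H47.GM

variable {d : ℕ}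

lemma ExtJoin_hit (κ : Kind) (ω : El d → Bool) {N : ℕ} (hN : 1 ≤ N) {T : Set (V d)}
    (hT : ∀ u ∈ T, ∀ i, |u i| ≤ 2 * N) {y : V d} (hy : y ∈ hitset κ ω T) :
    ∃ c : V d, Bad κ ω c ∧ (∀ i, |c i| ≤ 4 * N) ∧ clus κ ω c = clus κ ω y ∧
      y ∈ clus κ ω c := by
  obtain ⟨hb, u, hu, c, hc, hcl⟩ := hy
  refine ⟨c, Detour_bad_of_clus κ ω hb hc, ?_, Detour_clus_eq κ ω hc, ?_⟩
  · intro i
    have h1 := hT u hu i
    have h2 : |u i - c i| ≤ 2 := by exact_mod_cast hcl i
    have hN' : (1 : ℤ) ≤ N := by exact_mod_cast hN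
    rw [abs_le] at h1 h2 ⊢
    constructor <;> linarith [h1.1, h1.2, h2.1, h2.2]
  · rw [Detour_clus_eq κ ω hc]
    exact bad_self_clus κ ω y

theorem ext_joined (κ : Kind) (ω : El d → Bool) {N r : ℕ} (hN : 1 ≤ N)
    (hsm : ∀ b, Bad κ ω b → (∀ i, |b i| ≤ 4 * N) →
      (clus κ ω b).Finite ∧ (clus κ ω b).ncard < r)
    {x x' : V d} (hx : ∀ i, |x i| ≤ 2 * N) (hx' : ∀ i, |x' i| ≤ 2 * N)
    (h : Ext κ ω N x) (h' : Ext κ ω N x') : (Gr κ ω).Reachable x x' := by
  classical
  obtain ⟨w, -, hw⟩ := exists_walk x x'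
  set T : Set (V d) := {u | u ∈ w.support} with hTdef
  have hT : ∀ u ∈ T, ∀ i, |u i| ≤ 2 * N := by
    intro u hu i
    have h1 := hw u hu i
    have h2 := hx i
    have h3 := hx' i
    rw [abs_le] at h2 h3 ⊢
    omega
  have hfin : (hitset κ ω T).Finite := by
    set cube : Finset (V d) := Fintype.piFinset fun _ => Finset.Icc (-(4 * N : ℤ)) (4 * N)
      with hcube
    refine Set.Finite.subset (s := ⋃ c ∈ (cube.filter fun c => Bad κ ω c), clus κ ω c) ?_ ?_
    · refine Set.Finite.biUnion (Finset.finite_toSet _) ?_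
      intro c hc
      rw [Finset.mem_coe, Finset.mem_filter, hcube, Fintype.mem_piFinset] at hc
      refine (hsm c hc.2 fun i => ?_).1
      have := hc.1 i
      rw [Finset.mem_Icc] at this
      rw [abs_le]
      exact this
    · intro y hy
      obtain ⟨c, hc1, hc2, -, hc4⟩ := ExtJoin_hit κ ω hN hT hy
      rw [Set.mem_iUnion₂]
      refine ⟨c, ?_, hc4⟩
      rw [Finset.mem_filter, hcube, Fintype.mem_piFinset]
      refine ⟨fun i => ?_, hc1⟩
      rw [Finset.mem_Icc, ← abs_le]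
      exact hc2 i
  have key : ∀ {q : V d}, Ext κ ω N q → ∀ b ∈ hitset κ ω T,
      q ∈ outer (fat (clus κ ω b)) (farPt d N) := by
    intro q hq b hb
    obtain ⟨c, hc1, hc2, hc3, -⟩ := ExtJoin_hit κ ω hN hT hb
    rw [← hc3]
    exact hq c hc1 hc2
  obtain ⟨q, -⟩ := detour κ ω (farPt d N) w hfin (key h) (key h')
  exact q.reachable

end Pool.Agent.H47.GM
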