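import Pool.Agent.H41.QC.ProbBad
import Pool.Agent.H47.GM.Basic
import Pool.Agent.H47.GM.Bdry
import Pool.Agent.H47.GM.Mu

/-!
# GM module FewB: it is unlikely that few boundary vertices are reached

Let `E_n = {Un κ ω m n ≠ ∅}`. `E_{n+1} ⊆ E_n` for `n ≥ m`, and
`P(E_n \ E_{n+1}) ≥ (1-p)^{2dK} P(1 ≤ |Un| < K)`: given `Un` (which depends on the elements inside
`Bx 0 n`) all elements `stE κ y w`, `y ∈ Un`, `w ∉ Bx 0 n`, `LatAdj y w`, are closed with probability
`≥ (1-p)^{2dK}` (at most `2dK` elements, none inside `Bx 0 n`; sum over the values of `Un`, `mu_indep` with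
`mu_const`), and then `E_{n+1}` fails (look at the first exit from `Bx 0 n` of a path). The sum over
`n ≥ m` of `P(E_n \ E_{n+1})` is at most `1`, so `P(1 ≤ |Un| < K) → 0`.
-/

open MeasureTheory Filter Topology
open Pool.Agent.H17.IIC Pool.Agent.H41.QC

namespace Pool.Agent.H47.GM

variable {d : ℕ}

lemma FewB_mem {κ : Kind} {ω : El d → Bool} {m n : ℕ} {y : V d} :
    y ∈ Un κ ω m n ↔ y ∈ Bx (0 : V d) n ∧ (∃ i, |y i| = (n : ℤ)) ∧
      ∃ u ∈ Bx (0 : V d) m, Rch κ ω (Bx (0 : V d) n : Set (V d)) u y := by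
  classical
  simp only [Un, Finset.mem_filter]

lemma FewB_Bx_mono {m n : ℕ} (h : m ≤ n) : Bx (0 : V d) m ⊆ Bx (0 : V d) n := by
  intro y hy
  rw [mem_Bx] at hy ⊢
  intro i
  have := hy i
  have h' : (m : ℤ) ≤ n := by exact_mod_cast h
  linarith

lemma FewB_exit {κ : Kind} {ω : El d → Bool} {m n : ℕ} (hmn : m ≤ n) {y : V d}
    (hy : y ∈ Un κ ω m (n + 1)) :
    ∃ a ∈ Un κ ω m n, ∃ b, b ∉ Bx (0 : V d) n ∧ LatAdj a b ∧ ω (stE κ a b) = true := by
  rw [FewB_mem] at hy
  obtain ⟨hyB, ⟨i, hi⟩, u, hu, hr⟩ := hy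
  have key : ∀ z, Rch κ ω (Bx (0 : V d) (n + 1) : Set (V d)) u z →
      (Rch κ ω (Bx (0 : V d) n : Set (V d)) u z ∧ z ∈ Bx (0 : V d) n) ∨
      ∃ a ∈ Un κ ω m n, ∃ b, b ∉ Bx (0 : V d) n ∧ LatAdj a b ∧ ω (stE κ a b) = true := by
    intro z hz
    induction hz with
    | refl => exact Or.inl ⟨Relation.ReflTransGen.refl, FewB_Bx_mono hmn hu⟩
    | tail hz hs ih =>
      rename_i z1 z2
      rcases ih with ⟨h1, h2⟩ | h
      · obtain ⟨hadj, hmem, hop⟩ := hs
        by_cases hz2 : z2 ∈ Bx (0 : V d) n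
        · exact Or.inl ⟨Relation.ReflTransGen.tail h1 ⟨hadj, hz2, hop⟩, hz2⟩
        · refine Or.inr ⟨z1, ?_, z2, hz2, hadj, hop⟩
          rw [FewB_mem]
          refine ⟨h2, ?_, u, hu, h1⟩
          rw [mem_Bx] at hz2 h2
          push Not at hz2
          obtain ⟨j, hj⟩ := hz2
          refine ⟨j, ?_⟩
          have h3 := h2 j
          have h4 := LatAdj.abs_le hadj j
          simp only [Pi.zero_apply, sub_zero] at h3 hj
          have h5 : |z2 j| ≤ |z1 j| + |z1 j - z2 j| := by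
            have := abs_sub_abs_le_abs_sub (z2 j) (z1 j)
            rw [abs_sub_comm] at this
            linarith
          have h6 : (n : ℤ) + 1 ≤ |z2 j| := hj
          linarith
      · exact Or.inr h
  rcases key y hr with ⟨-, h⟩ | h
  · exfalso
    rw [mem_Bx] at h
    have := h i
    simp only [Pi.zero_apply, sub_zero] at this
    rw [hi] at this
    push_cast at this
    linarith
  · exact h

lemma FewB_rch {κ : Kind} {ω ω' : El d → Bool} {n : ℕ} {u y : V d}
    (h : ∀ e ∈ (Bx (0 : V d) n).sym2, ω e = ω' e) (hu : u ∈ Bx (0 : V d) n)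
    (hr : Rch κ ω (Bx (0 : V d) n : Set (V d)) u y) :
    Rch κ ω' (Bx (0 : V d) n : Set (V d)) u y ∧ y ∈ Bx (0 : V d) n := by
  induction hr with
  | refl => exact ⟨Relation.ReflTransGen.refl, hu⟩
  | tail hz hs ih =>
    rename_i z1 z2
    obtain ⟨h1, h2⟩ := ih
    obtain ⟨hadj, hmem, hop⟩ := hs
    have hm' : z2 ∈ Bx (0 : V d) n := by exact_mod_cast hmem
    refine ⟨Relation.ReflTransGen.tail h1 ⟨hadj, hmem, ?_⟩, hm'⟩
    rw [← h _ ?_]
    · exact hop
    · cases κ
      · simp only [stE, Finset.mk_mem_sym2_iff]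
        exact ⟨h2, hm'⟩
      · simp only [stE, Finset.mk_mem_sym2_iff]
        exact ⟨hm', hm'⟩

lemma FewB_Un_congr {κ : Kind} {ω ω' : El d → Bool} {m n : ℕ} (hmn : m ≤ n)
    (h : ∀ e ∈ (Bx (0 : V d) n).sym2, ω e = ω' e) : Un κ ω m n = Un κ ω' m n := by
  ext y
  rw [FewB_mem, FewB_mem]
  constructor
  · rintro ⟨h1, h2, u, hu, hr⟩
    exact ⟨h1, h2, u, hu, (FewB_rch h (FewB_Bx_mono hmn hu) hr).1⟩
  · rintro ⟨h1, h2, u, hu, hr⟩
    exact ⟨h1, h2, u, hu, (FewB_rch (fun e he => (h e he).symm) (FewB_Bx_mono hmn hu) hr).1⟩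

open Classical in
/-- the elements leading out of the box from `S` -/
noncomputable def FewB_J (κ : Kind) (n : ℕ) (S : Finset (V d)) : Finset (El d) :=
  S.biUnion fun a => ((nb a).filter (fun b => b ∉ Bx (0 : V d) n)).image (stE κ a)

lemma FewB_J_card (κ : Kind) (n : ℕ) (S : Finset (V d)) :
    (FewB_J κ n S).card ≤ 2 * d * S.card := by
  classical
  unfold FewB_J
  calc _ ≤ S.card * (2 * d) := by
        refine Finset.card_biUnion_le_card_mul _ _ _ fun a _ => ?_
        exact (Finset.card_image_le).trans ((Finset.card_filter_le _ _).trans (card_nb_le a))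
    _ = 2 * d * S.card := by ring

lemma FewB_J_mem {κ : Kind} {n : ℕ} {S : Finset (V d)} {a b : V d} (ha : a ∈ S)
    (hb : b ∉ Bx (0 : V d) n) (hab : LatAdj a b) : stE κ a b ∈ FewB_J κ n S := by
  classical
  unfold FewB_J
  rw [Finset.mem_biUnion]
  refine ⟨a, ha, ?_⟩
  rw [Finset.mem_image]
  exact ⟨b, by rw [Finset.mem_filter]; exact ⟨mem_nb.2 hab, hb⟩, rfl⟩

lemma FewB_J_not {κ : Kind} {n : ℕ} {S : Finset (V d)} {e : El d} (he : e ∈ FewB_J κ n S) :
    e ∉ (Bx (0 : V d) n).sym2 := by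
  classical
  unfold FewB_J at he
  rw [Finset.mem_biUnion] at he
  obtain ⟨a, -, he⟩ := he
  rw [Finset.mem_image] at he
  obtain ⟨b, hb, rfl⟩ := he
  rw [Finset.mem_filter] at hb
  intro h
  apply hb.2
  cases κ
  · simp only [stE, Finset.mk_mem_sym2_iff] at h
    exact h.2
  · simp only [stE, Finset.mk_mem_sym2_iff] at h
    exact h.1

lemma FewB_on (κ : Kind) {m n : ℕ} (hmn : m ≤ n) (P : Finset (V d) → Prop) :
    On ((Bx (0 : V d) n).sym2 : Set (El d)) {ω | P (Un κ ω m n)} := by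
  intro ω ω' h
  simp only [Set.mem_ofPred_eq]
  rw [FewB_Un_congr hmn (fun e he => h e (by exact_mod_cast he))]

lemma FewB_one (κ : Kind) (p : unitInterval) {m n K : ℕ} (hmn : m ≤ n) {S : Finset (V d)}
    (hS : S.card < K) :
    (prodBern (El d) p).real {ω | Un κ ω m n = S} * (1 - (p : ℝ)) ^ (2 * d * K) ≤
      (prodBern (El d) p).real ({ω | Un κ ω m n = S} ∩ {ω | ∀ e ∈ FewB_J κ n S, ω e = false}) := by
  have hon := FewB_on κ hmn (fun T => T = S)
  have hm : MeasurableSet {ω : El d → Bool | Un κ ω m n = S} := On.measurableSet hon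
  have hon2 : On ((FewB_J κ n S : Finset (El d)) : Set (El d))
      {ω | ∀ e ∈ FewB_J κ n S, ω e = false} := by
    intro ω ω' h
    simp only [Set.mem_ofPred_eq]
    refine forall_congr' fun e => imp_congr_right fun he => ?_
    rw [h e (by exact_mod_cast he)]
  have hm2 := On.measurableSet hon2
  have hsub : ((FewB_J κ n S : Finset (El d)) : Set (El d)) ⊆
      ((Bx (0 : V d) n).sym2 : Set (El d))ᶜ := by
    intro e he
    exact FewB_J_not (by exact_mod_cast he)
  have hind := mu_indep (fun _ : El d => p) _ hm hm2 hon (hon2.mono hsub)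
  rw [mu_const] at hind
  rw [hind, ProbBad_closed]
  apply mul_le_mul_of_nonneg_left _ measureReal_nonneg
  apply pow_le_pow_of_le_one (by linarith [p.2.2]) (by linarith [p.2.1])
  exact (FewB_J_card κ n S).trans (Nat.mul_le_mul_left _ hS.le)

lemma FewB_step (κ : Kind) (p : unitInterval) {m n : ℕ} (K : ℕ) (hmn : m ≤ n) :
    (prodBern (El d) p).real {ω | 1 ≤ (Un κ ω m n).card ∧ (Un κ ω m n).card < K} *
      (1 - (p : ℝ)) ^ (2 * d * K) ≤
    (prodBern (El d) p).real {ω | (Un κ ω m n).Nonempty} -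
      (prodBern (El d) p).real {ω | (Un κ ω m (n + 1)).Nonempty} := by
  classical
  set μ := prodBern (El d) p with hμ
  have : IsProbabilityMeasure μ := by rw [hμ]; infer_instance
  set T : Finset (Finset (V d)) := (Bx (0 : V d) n).powerset.filter
    (fun S => 1 ≤ S.card ∧ S.card < K) with hT
  set A : Finset (V d) → Set (El d → Bool) := fun S => {ω | Un κ ω m n = S} with hA
  set C : Finset (V d) → Set (El d → Bool) := fun S => {ω | ∀ e ∈ FewB_J κ n S, ω e = false}
    with hC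
  have hmA : ∀ S, MeasurableSet (A S) := fun S => On.measurableSet (FewB_on κ hmn (fun T => T = S))
  have hmC : ∀ S, MeasurableSet (C S) := by
    intro S
    have hon2 : On ((FewB_J κ n S : Finset (El d)) : Set (El d)) (C S) := by
      intro ω ω' h
      simp only [hC, Set.mem_ofPred_eq]
      refine forall_congr' fun e => imp_congr_right fun he => ?_
      rw [h e (by exact_mod_cast he)]
    exact On.measurableSet hon2
  have h1 : μ.real {ω | 1 ≤ (Un κ ω m n).card ∧ (Un κ ω m n).card < K} ≤ ∑ S ∈ T, μ.real (A S) := by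
    refine le_trans (measureReal_mono ?_ (measure_ne_top _ _)) (measureReal_biUnion_finset_le T A)
    intro ω hω
    simp only [Set.mem_iUnion]
    refine ⟨Un κ ω m n, ?_, rfl⟩
    rw [hT, Finset.mem_filter, Finset.mem_powerset]
    refine ⟨?_, hω⟩
    unfold Un
    exact Finset.filter_subset _ _
  have h2 : ∑ S ∈ T, μ.real (A S ∩ C S) = μ.real (⋃ S ∈ T, (A S ∩ C S)) := by
    rw [measureReal_biUnion_finset]
    · intro S _ S' _ hne
      rw [Function.onFun, Set.disjoint_left]
      rintro ω ⟨h3, -⟩ ⟨h4, -⟩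
      exact hne (h3.symm.trans h4)
    · intro S _
      exact (hmA S).inter (hmC S)
  have hsub : {ω : El d → Bool | (Un κ ω m (n + 1)).Nonempty} ⊆ {ω | (Un κ ω m n).Nonempty} := by
    rintro ω ⟨y, hy⟩
    obtain ⟨a, ha, -⟩ := FewB_exit hmn hy
    exact ⟨a, ha⟩
  have hmE : MeasurableSet {ω : El d → Bool | (Un κ ω m (n + 1)).Nonempty} :=
    On.measurableSet (FewB_on κ (by omega) (fun T => T.Nonempty))
  rw [← measureReal_sdiff hsub hmE]
  calc μ.real {ω | 1 ≤ (Un κ ω m n).card ∧ (Un κ ω m n).card < K} * (1 - (p : ℝ)) ^ (2 * d * K)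
      ≤ (∑ S ∈ T, μ.real (A S)) * (1 - (p : ℝ)) ^ (2 * d * K) := by
        apply mul_le_mul_of_nonneg_right h1
        exact pow_nonneg (by linarith [p.2.2]) _
    _ = ∑ S ∈ T, μ.real (A S) * (1 - (p : ℝ)) ^ (2 * d * K) := Finset.sum_mul _ _ _
    _ ≤ ∑ S ∈ T, μ.real (A S ∩ C S) := by
        apply Finset.sum_le_sum
        intro S hS
        rw [hT, Finset.mem_filter] at hS
        exact FewB_one κ p hmn hS.2.2
    _ = μ.real (⋃ S ∈ T, (A S ∩ C S)) := h2
    _ ≤ _ := by
        refine measureReal_mono ?_ (measure_ne_top _ _)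
        intro ω hω
        simp only [Set.mem_iUnion] at hω
        obtain ⟨S, hS, h3, h4⟩ := hω
        have h3' : Un κ ω m n = S := h3
        have h4' : ∀ e ∈ FewB_J κ n S, ω e = false := h4
        rw [hT, Finset.mem_filter] at hS
        refine ⟨?_, ?_⟩
        · show (Un κ ω m n).Nonempty
          rw [h3', ← Finset.card_pos]
          exact hS.2.1
        · rintro ⟨y, hy⟩
          obtain ⟨a, ha, b, hb, hab, hop⟩ := FewB_exit hmn hy
          rw [h3'] at ha
          rw [h4' _ (FewB_J_mem ha hb hab)] at hop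
          exact absurd hop (by decide)

theorem few_boundary (κ : Kind) (p : unitInterval) (hp1 : (p : ℝ) < 1) (m K : ℕ) {η : ℝ}
    (hη : 0 < η) : ∀ᶠ n : ℕ in atTop, (prodBern (El d) p).real
      {ω | 1 ≤ (Un κ ω m n).card ∧ (Un κ ω m n).card < K} ≤ η := by
  set μ := prodBern (El d) p with hμ
  set c : ℝ := (1 - (p : ℝ)) ^ (2 * d * K) with hc
  have hc0 : 0 < c := pow_pos (by linarith) _
  set a : ℕ → ℝ := fun n => μ.real {ω | (Un κ ω m (n + m)).Nonempty} with ha
  have hstep : ∀ n, μ.real {ω | 1 ≤ (Un κ ω m (n + m)).card ∧ (Un κ ω m (n + m)).card < K} * c ≤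
      a n - a (n + 1) := by
    intro n
    have := FewB_step (d := d) κ p (m := m) (n := n + m) K (by omega)
    rw [ha]
    simp only
    rw [show n + 1 + m = n + m + 1 by ring]
    exact this
  have hanti : Antitone a := by
    apply antitone_nat_of_succ_le
    intro n
    have h1 := hstep n
    have h2 : 0 ≤ μ.real {ω | 1 ≤ (Un κ ω m (n + m)).card ∧ (Un κ ω m (n + m)).card < K} * c :=
      mul_nonneg measureReal_nonneg hc0.le
    linarith
  have hbdd : BddBelow (Set.range a) := ⟨0, by rintro _ ⟨n, rfl⟩; exact measureReal_nonneg⟩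
  have hlim := tendsto_atTop_ciInf hanti hbdd
  have hlim2 : Tendsto (fun n => a n - a (n + 1)) atTop (𝓝 0) := by
    have := hlim.sub (hlim.comp (tendsto_add_atTop_nat 1))
    simpa using this
  have hev : ∀ᶠ n in atTop, a n - a (n + 1) < η * c :=
    hlim2.eventually_lt_const (by positivity)
  rw [eventually_atTop] at hev ⊢
  obtain ⟨N, hN⟩ := hev
  refine ⟨N + m, fun n hn => ?_⟩
  have h1 := hN (n - m) (by omega)
  have h2 := hstep (n - m)
  rw [show n - m + m = n by omega] at h2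
  have h3 := lt_of_le_of_lt h2 h1
  exact (lt_of_mul_lt_mul_right h3 hc0.le).le

end Pool.Agent.H47.GM
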