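import Pool.Agent.H41.QC.Lower

/-!
# GM module LowerAe: lower bound with a coupled connection property

Copy of `lower` (H41/QC/Lower): `propA` for `p₀ < p₁` and the configuration `X` (transfer through
`P.map X`), `upper_all` at `p` for the configuration `Y`; almost surely, if the `X`-cluster of `0` is infinite
then for all large `k` there is `y ∈ box 0 (2^(k-j))` with `Pn κ X (2^k) y` large, hence `Pn κ Y (2^k) y` large
(`Pn` is increasing in the configuration) and `Joined κ Y 0 y (ε 2^k)` (`hc`); `lower_det` for `Y`.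
-/

open MeasureTheory Filter Topology
open Pool.Agent.H17.IIC Pool.Agent.H41.QC

namespace Pool.Agent.H47.GM

variable {d : ℕ}

theorem lowerAe_Pn_mono (κ : Kind) {ω ω' : El d → Bool} (h : ∀ e, ω e = true → ω' e = true)
    (N : ℕ) (x : V d) : Pn κ ω N x ≤ Pn κ ω' N x := by
  unfold Pn
  apply Finset.card_le_card
  intro s hs
  rw [Finset.mem_filter] at hs ⊢
  exact ⟨hs.1, fun t => h _ (hs.2.1 t), fun hκ => h _ (hs.2.2 hκ)⟩

theorem lower2_ae (κ : Kind) (hd : 1 ≤ d) (p₀ p₁ p : unitInterval) (hp₀ : 0 < (p₀ : ℝ))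
    (h01 : (p₀ : ℝ) < p₁) (h1 : (p₁ : ℝ) < p) (hp : (p : ℝ) < 1) (hβ : 0 < beta κ d p₀)
    {Ω : Type} [MeasurableSpace Ω] (P : Measure Ω) [IsProbabilityMeasure P] (X Y : Ω → El d → Bool)
    (hX : Measurable X) (hY : Measurable Y) (hPX : P.map X = prodBern (El d) p₁)
    (hPY : P.map Y = prodBern (El d) p) (hXY : ∀ ω e, X ω e = true → Y ω e = true)
    (hc : ∀ ε : ℝ, 0 < ε → ∃ j : ℕ, 1 ≤ j ∧ ∀ᵐ ω ∂P, ∀ᶠ k : ℕ in atTop,
      0 < Pn κ (X ω) (2 ^ k) (0 : V d) → ∀ y ∈ box (0 : V d) (2 ^ (k - j)),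
        0 < Pn κ (X ω) (2 ^ k) y → Joined κ (Y ω) 0 y (ε * 2 ^ k)) {η : ℝ} (hη : 0 < η) :
    ∀ᵐ ω ∂P, {y | (Gr κ (X ω)).Reachable 0 y}.Infinite → ∀ᶠ n : ℕ in atTop,
      Real.exp ((beta κ d p - 4 * (beta κ d p - beta κ d p₀) - η) * n)
        ≤ (Pn κ (Y ω) n (0 : V d) : ℝ) := by
  have hp0 : 0 < (p : ℝ) := hp₀.trans (h01.trans h1)
  have hp11 : (p₁ : ℝ) < 1 := h1.trans hp
  set b₀ := beta κ d p₀ with hb₀
  set b₁ := beta κ d p with hb₁
  have hb₁n : 0 ≤ b₁ := beta_nonneg κ d p hp0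
  set η₀ : ℝ := min (η / 80) (b₀ / 2) with hη₀
  have hη₀pos : 0 < η₀ := lt_min (by positivity) (by positivity)
  have hη₀1 : 40 * η₀ ≤ η / 2 := by
    have := min_le_left (η / 80) (b₀ / 2)
    linarith
  have hη₀2 : 2 * η₀ ≤ b₀ := by
    have := min_le_right (η / 80) (b₀ / 2)
    linarith
  set ε : ℝ := min 1 (η / (32 * (b₁ + 1))) with hε
  have hεpos : 0 < ε := lt_min one_pos (by positivity)
  have hε1 : ε ≤ 1 := min_le_left _ _
  have hε2 : 16 * ε * b₁ ≤ η / 2 := by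
    have h1 : ε ≤ η / (32 * (b₁ + 1)) := min_le_right _ _
    have h2 : ε * (32 * (b₁ + 1)) ≤ η := by
      rwa [le_div_iff₀ (by positivity)] at h1
    nlinarith
  obtain ⟨j, hj, hconn⟩ := hc ε hεpos
  obtain ⟨c, hcpos, k₀, hA⟩ := propA κ d hd p₀ p₁ hp₀ h01 hp11 hη₀pos hη₀2 j hj
  -- Borel-Cantelli
  have hBC' : ∀ᵐ ω ∂(prodBern (El d) p₁), ∀ᶠ k : ℕ in atTop,
      Near κ ω (2 ^ k) (0 : V d) (2 ^ (k - j)) (Real.exp ((b₀ - 3 * η₀) * 2 ^ k)) := by
    set s : ℕ → Set (El d → Bool) := fun k =>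
      {ω | ¬ Near κ ω (2 ^ (k + (k₀ + j))) (0 : V d) (2 ^ (k + (k₀ + j) - j))
            (Real.exp ((b₀ - 3 * η₀) * 2 ^ (k + (k₀ + j))))} with hs
    have hsum : ∑' k, (prodBern (El d) p₁) (s k) ≠ ⊤ := by
      have hr : (2 : ℝ) ^ (-c) < 1 := Real.rpow_lt_one_of_one_lt_of_neg (by norm_num) (by linarith)
      have hr0 : (0 : ℝ) < (2 : ℝ) ^ (-c) := Real.rpow_pos_of_pos (by norm_num) _
      have hle : ∀ k, (prodBern (El d) p₁) (s k) ≤ ENNReal.ofReal (((2 : ℝ) ^ (-c)) ^ k) := by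
        intro k
        have h1 := hA (k + (k₀ + j)) (by omega) (by omega)
        rw [← ENNReal.ofReal_toReal (measure_ne_top (prodBern (El d) p₁) (s k))]
        apply ENNReal.ofReal_le_ofReal
        refine le_trans h1 ?_
        rw [← Real.rpow_natCast, ← Real.rpow_mul (by norm_num)]
        apply Real.rpow_le_rpow_of_exponent_le (by norm_num)
        push_cast
        nlinarith [mul_nonneg hcpos.le (by positivity : (0 : ℝ) ≤ (k₀ : ℝ) + j)]
      refine ne_of_lt (lt_of_le_of_lt (ENNReal.tsum_le_tsum hle) ?_)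
      have hsm : Summable fun k : ℕ => ((2 : ℝ) ^ (-c)) ^ k :=
        summable_geometric_of_lt_one hr0.le hr
      rw [← ENNReal.ofReal_tsum_of_nonneg (fun k => by positivity) hsm]
      exact ENNReal.ofReal_lt_top
    filter_upwards [ae_eventually_notMem hsum] with ω hω
    rw [eventually_atTop] at hω ⊢
    obtain ⟨K, hK⟩ := hω
    refine ⟨K + (k₀ + j), fun k hk => ?_⟩
    have h1 := hK (k - (k₀ + j)) (by omega)
    simp only [hs, Set.mem_ofPred_eq, not_not] at h1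
    rw [Nat.sub_add_cancel (by omega)] at h1
    exact h1
  have hBC := ae_of_ae_map hX.aemeasurable (hPX.symm ▸ hBC')
  have hup' : ∀ᵐ ω ∂(P.map Y), ∀ η : ℝ, 0 < η → ∀ K : ℕ, ∀ᶠ N : ℕ in atTop, ∀ m : ℕ, m ≤ K * N →
      ∀ x : V d, (∀ i, |x i| ≤ K * N) →
      (Pn κ ω m x : ℝ) ≤ Real.exp (beta κ d p * m + η * N) := by
    rw [hPY]
    exact upper_all κ d p hp0
  have hup := ae_of_ae_map hY.aemeasurable hup'
  filter_upwards [hconn, hBC, hup] with ω h1 h2 h3 hinf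
  have hdet := lower_det κ (Y ω) (b₀ := b₀) (b₁ := b₁) (η := η₀) (ε := ε) hb₁n hη₀pos hεpos hε1 h3
    (by
      filter_upwards [h1, h2] with k hk1 hk2
      obtain ⟨y, hyb, hy⟩ := hk2
      have hypos : 0 < Pn κ (X ω) (2 ^ k) y := by
        have : (0 : ℝ) < Pn κ (X ω) (2 ^ k) y := (Real.exp_pos _).trans_le hy
        exact_mod_cast this
      refine ⟨y, hy.trans ?_, hk1 (Pn_pos_of_infinite κ (X ω) hinf _) y hyb hypos⟩
      exact_mod_cast lowerAe_Pn_mono κ (hXY ω) (2 ^ k) y)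
  filter_upwards [hdet] with n hn
  refine le_trans (Real.exp_le_exp.mpr ?_) hn
  have h4 : (0 : ℝ) ≤ n := Nat.cast_nonneg n
  apply mul_le_mul_of_nonneg_right _ h4
  linarith

end Pool.Agent.H47.GM
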