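import Pool.Agent.H41.QC.Coupling
import Pool.Agent.H47.GM.Defs

/-!
# GM module Theta: the percolation probability

`theta_mono`: `mono_p` (H41/QC/Coupling), `measurableSet_inf`. The event: for all `n` there is `y` with
`|y i| > n` for some `i` and `Joined κ ω 0 y r` for some natural `r`; countable operations
on events depending on finitely many elements.
-/

open MeasureTheory Filter Topology
open Pool.Agent.H17.IIC Pool.Agent.H41.QC

namespace Pool.Agent.H47.GM

variable {d : ℕ}

theorem theta_meas_coord {d : ℕ} (e : El d) : MeasurableSet {ω : El d → Bool | ω e = true} := by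
  have h : Measurable (fun ω : El d → Bool => ω e) := measurable_pi_apply e
  exact h (measurableSet_singleton true)

theorem theta_meas_adj (κ : Kind) {d : ℕ} (x y : V d) :
    MeasurableSet {ω : El d → Bool | (Gr κ ω).Adj x y} := by
  cases κ
  · exact (MeasurableSet.const (LatAdj x y)).inter (theta_meas_coord s(x, y))
  · exact (MeasurableSet.const (LatAdj x y)).inter
      ((theta_meas_coord s(x, x)).inter (theta_meas_coord s(y, y)))

/-- reachability in `n` steps -/
def thetaR (κ : Kind) {d : ℕ} (ω : El d → Bool) : ℕ → V d → Prop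
  | 0, y => y = 0
  | n + 1, y => ∃ z, thetaR κ ω n z ∧ (Gr κ ω).Adj z y

theorem theta_meas_R (κ : Kind) {d : ℕ} (n : ℕ) (y : V d) :
    MeasurableSet {ω : El d → Bool | thetaR κ ω n y} := by
  induction n generalizing y with
  | zero => exact MeasurableSet.const (y = 0)
  | succ n ih =>
    have : {ω : El d → Bool | thetaR κ ω (n + 1) y}
        = ⋃ z : V d, ({ω | thetaR κ ω n z} ∩ {ω | (Gr κ ω).Adj z y}) := by
      ext ω
      simp [thetaR]
    rw [this]
    exact MeasurableSet.iUnion fun z => (ih z).inter (theta_meas_adj κ z y)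

theorem theta_reach_iff (κ : Kind) {d : ℕ} (ω : El d → Bool) (y : V d) :
    (Gr κ ω).Reachable 0 y ↔ ∃ n, thetaR κ ω n y := by
  rw [SimpleGraph.reachable_iff_reflTransGen]
  constructor
  · intro h
    induction h with
    | refl => exact ⟨0, rfl⟩
    | tail _ h2 ih =>
      obtain ⟨n, hn⟩ := ih
      exact ⟨n + 1, _, hn, h2⟩
  · rintro ⟨n, hn⟩
    induction n generalizing y with
    | zero =>
      have : y = 0 := hn
      rw [this]
    | succ n ih =>
      obtain ⟨z, hz, hzy⟩ := hn
      exact (ih z hz).tail hzy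

theorem theta_meas_reach (κ : Kind) {d : ℕ} (y : V d) :
    MeasurableSet {ω : El d → Bool | (Gr κ ω).Reachable 0 y} := by
  have : {ω : El d → Bool | (Gr κ ω).Reachable 0 y} = ⋃ n, {ω | thetaR κ ω n y} := by
    ext ω
    simp only [Set.mem_ofPred_eq, Set.mem_iUnion]
    exact theta_reach_iff κ ω y
  rw [this]
  exact MeasurableSet.iUnion fun n => theta_meas_R κ n y

theorem measurableSet_inf (κ : Kind) (d : ℕ) :
    MeasurableSet {ω : El d → Bool | {y | (Gr κ ω).Reachable 0 y}.Infinite} := by
  have : {ω : El d → Bool | {y | (Gr κ ω).Reachable 0 y}.Infinite}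
      = ⋂ F : Finset (V d), ⋃ y : {y : V d // y ∉ F}, {ω | (Gr κ ω).Reachable 0 y.1} := by
    ext ω
    simp only [Set.mem_ofPred_eq, Set.mem_iInter, Set.mem_iUnion, Subtype.exists]
    constructor
    · intro h F
      obtain ⟨a, ha, haF⟩ := h.exists_notMem_finset F
      exact ⟨a, haF, ha⟩
    · intro h hfin
      obtain ⟨a, ha, haF⟩ := h hfin.toFinset
      exact ha (by simpa using haF)
  rw [this]
  exact MeasurableSet.iInter fun F => MeasurableSet.iUnion fun y => theta_meas_reach κ y.1

theorem theta_incr (κ : Kind) (d : ℕ) :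
    Incr {ω : El d → Bool | {y | (Gr κ ω).Reachable 0 y}.Infinite} := by
  intro ω ω' h hω
  have hle : Gr κ ω ≤ Gr κ ω' := by
    intro x y hxy
    cases κ
    · exact ⟨hxy.1, h _ hxy.2⟩
    · exact ⟨hxy.1, h _ hxy.2.1, h _ hxy.2.2⟩
  exact Set.Infinite.mono (fun y hy => SimpleGraph.Reachable.mono hle hy) hω

theorem theta_mono (κ : Kind) (d : ℕ) {p p' : unitInterval} (h : (p : ℝ) ≤ p') :
    theta κ d p ≤ theta κ d p' := by
  unfold theta
  exact ENNReal.toReal_mono (measure_ne_top _ _) (mono_p (theta_incr κ d) (measurableSet_inf κ d) h)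

end Pool.Agent.H47.GM
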