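import Pool.Agent.H47.GM.ConnC
import Pool.Agent.H47.GM.LowerAe
import Pool.Agent.H47.GM.Theta

/-!
# GM module Lower2: lower bound for the law `p`

The `Y`-probability that the `Y`-cluster is infinite and the bound fails is at most
`P(Y`-cluster infinite, `X`-cluster finite`) = theta p - theta p₁` (`lower2_ae`; the event is measurable:
`Pn_measurable`, `measurableSet_inf`).
-/

open MeasureTheory Filter Topology
open Pool.Agent.H17.IIC Pool.Agent.H41.QC

namespace Pool.Agent.H47.GM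

variable {d : ℕ}

lemma Lower2_gr_mono (κ : Kind) {ω ω' : El d → Bool} (h : ∀ e, ω e = true → ω' e = true) :
    Gr κ ω ≤ Gr κ ω' := by
  intro x y hxy
  cases κ with
  | bond => exact ⟨hxy.1, h _ hxy.2⟩
  | site => exact ⟨hxy.1, h _ hxy.2.1, h _ hxy.2.2⟩

theorem lower2 (κ : Kind) (hd : 1 ≤ d) (p₀ p₁ p : unitInterval) (hp₀ : 0 < (p₀ : ℝ))
    (h01 : (p₀ : ℝ) < p₁) (h1 : (p₁ : ℝ) < p) (hp : (p : ℝ) < 1) (hβ : 0 < beta κ d p₀)
    (hc : ConnC κ d p₁ p) {η : ℝ} (hη : 0 < η) :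
    (prodBern (El d) p).real {ω | {y | (Gr κ ω).Reachable 0 y}.Infinite ∧
      ¬ ∀ᶠ n : ℕ in atTop, Real.exp ((beta κ d p - 4 * (beta κ d p - beta κ d p₀) - η) * n)
        ≤ (Pn κ ω n (0 : V d) : ℝ)} ≤ theta κ d p - theta κ d p₁ := by
  obtain ⟨Ω, mΩ, P, X, Y, hP, hX, hY, hPX, hPY, hXY, hJ⟩ := hc
  have hae := lower2_ae κ hd p₀ p₁ p hp₀ h01 h1 hp hβ P X Y hX hY hPX hPY hXY hJ hη
  have hinf := measurableSet_inf κ d
  have hev : MeasurableSet {ω : El d → Bool | ∀ᶠ n : ℕ in atTop,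
      Real.exp ((beta κ d p - 4 * (beta κ d p - beta κ d p₀) - η) * n)
        ≤ (Pn κ ω n (0 : V d) : ℝ)} := by
    have h2 : ∀ n : ℕ, MeasurableSet {ω : El d → Bool |
        Real.exp ((beta κ d p - 4 * (beta κ d p - beta κ d p₀) - η) * n)
          ≤ (Pn κ ω n (0 : V d) : ℝ)} := fun n =>
      measurableSet_le measurable_const (Pn_measurable κ n 0)
    have h3 : {ω : El d → Bool | ∀ᶠ n : ℕ in atTop,
        Real.exp ((beta κ d p - 4 * (beta κ d p - beta κ d p₀) - η) * n)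
          ≤ (Pn κ ω n (0 : V d) : ℝ)} = ⋃ N : ℕ, ⋂ n : ℕ, ⋂ _ : N ≤ n, {ω : El d → Bool |
        Real.exp ((beta κ d p - 4 * (beta κ d p - beta κ d p₀) - η) * n)
          ≤ (Pn κ ω n (0 : V d) : ℝ)} := by
      ext ω
      simp only [Set.mem_ofPred_eq, eventually_atTop, Set.mem_iUnion, Set.mem_iInter]
    rw [h3]
    exact MeasurableSet.iUnion fun N => MeasurableSet.iInter fun n => MeasurableSet.iInter fun _ =>
      h2 n
  set A : Set (El d → Bool) := {ω | {y | (Gr κ ω).Reachable 0 y}.Infinite ∧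
      ¬ ∀ᶠ n : ℕ in atTop, Real.exp ((beta κ d p - 4 * (beta κ d p - beta κ d p₀) - η) * n)
        ≤ (Pn κ ω n (0 : V d) : ℝ)} with hA
  have hAm : MeasurableSet A := hinf.inter hev.compl
  set I : Set (El d → Bool) := {ω | {y | (Gr κ ω).Reachable 0 y}.Infinite} with hI
  have e1 : (prodBern (El d) p).real A = P.real (Y ⁻¹' A) := by
    rw [← hPY, map_measureReal_apply hY hAm]
  have e2 : theta κ d p = P.real (Y ⁻¹' I) := by
    rw [theta, ← hPY, map_measureReal_apply hY hinf]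
  have e3 : theta κ d p₁ = P.real (X ⁻¹' I) := by
    rw [theta, ← hPX, map_measureReal_apply hX hinf]
  have hsubI : X ⁻¹' I ⊆ Y ⁻¹' I := by
    intro ω hω
    refine Set.Infinite.mono ?_ hω
    intro y hy
    exact SimpleGraph.Reachable.mono (Lower2_gr_mono κ (hXY ω)) hy
  rw [e1, e2, e3]
  have h4 : P.real (Y ⁻¹' I \ X ⁻¹' I) = P.real (Y ⁻¹' I) - P.real (X ⁻¹' I) :=
    measureReal_sdiff hsubI (hX hinf)
  rw [← h4]
  refine ENNReal.toReal_mono (measure_ne_top _ _) ?_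
  refine measure_mono_ae ?_
  filter_upwards [hae] with ω hω hωA
  refine ⟨hωA.1, fun hXi => hωA.2 (hω hXi)⟩

end Pool.Agent.H47.GM
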