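import Pool.Agent.H41.QC.Main
import Pool.Agent.H47.GM.Lower2

/-!
# GM module Main2: the theorem for all left-continuity points of `β` and of `theta`

If `beta p = 0`: as in `main` (H41/QC/Main). If `beta p > 0`, fix `m` and let `η = beta p / (m+1)`,
`ζ > 0`. By left-continuity there are `p_a < p` with `theta p_a > 0`, `theta p - ζ < theta p_a`, and
`p₀ < p` with `beta p - η < beta p₀`, so `beta p₀ > 0` (take `m ≥ 1`); choose `p₁` with `max p_a p₀ < p₁ < p`;
`conn_c` (with `p_a`), `lower2`, `theta_mono`: the probability that the cluster is infinite and the bound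
`exp ((beta p - 5 η) n) ≤ Pn` fails infinitely often is at most `ζ`, for every `ζ > 0`, so it is zero.
-/

open MeasureTheory Filter Topology
open Pool.Agent.H17.IIC Pool.Agent.H41.QC

namespace Pool.Agent.H47.GM

variable {d : ℕ}

/-- left-continuity points of `theta` -/
def LeftContT (κ : Kind) (d : ℕ) (p : unitInterval) : Prop :=
  ∀ η : ℝ, 0 < η → ∃ p' : unitInterval, (p' : ℝ) < p ∧ theta κ d p - η < theta κ d p'

/-- copy of `countable_exceptional` (H41/QC/Main) -/
theorem countable_exceptionalT (κ : Kind) (d : ℕ) :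
    {x : ℝ | ∃ p : unitInterval, (p : ℝ) = x ∧ 0 < x ∧ ¬ LeftContT κ d p}.Countable := by
  classical
  have h1 : ∀ x ∈ {x : ℝ | ∃ p : unitInterval, (p : ℝ) = x ∧ 0 < x ∧ ¬ LeftContT κ d p},
      ∃ p : unitInterval, ∃ q : ℚ, (p : ℝ) = x ∧ 0 < x ∧ (q : ℝ) < theta κ d p ∧
        ∀ p' : unitInterval, (p' : ℝ) < p → theta κ d p' < q := by
    rintro x ⟨p, hpx, hx0, hp⟩
    unfold LeftContT at hp
    push Not at hp
    obtain ⟨η, hη, hp⟩ := hp
    obtain ⟨q, hq1, hq2⟩ := exists_rat_btwn (show theta κ d p - η < theta κ d p by linarith)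
    exact ⟨p, q, hpx, hx0, hq2, fun p' h1 => (hp p' h1).trans_lt hq1⟩
  choose! P q hP using h1
  refine Set.MapsTo.countable_of_injOn (f := q) (t := Set.univ) (fun x _ => Set.mem_univ _) ?_
    (Set.to_countable _)
  intro x hx y hy hxy
  obtain ⟨hx1, hx2, hx3, hx4⟩ := hP x hx
  obtain ⟨hy1, hy2, hy3, hy4⟩ := hP y hy
  rcases lt_trichotomy x y with h | h | h
  · exfalso
    have h1 := hy4 (P x) (by rw [hx1, hy1]; exact h)
    rw [← hxy] at h1
    linarith
  · exact h
  · exfalso
    have h1 := hx4 (P y) (by rw [hx1, hy1]; exact h)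
    rw [hxy] at h1
    linarith

/-- copy of the analytic lemma of H41/QC/Main -/
lemma Main2_tendsto {a : ℕ → ℝ} {β : ℝ}
    (hup : ∀ η : ℝ, 0 < η → ∀ᶠ n : ℕ in atTop, a n ≤ Real.exp ((β + η) * n))
    (hlow : ∀ η : ℝ, 0 < η → ∀ᶠ n : ℕ in atTop, Real.exp ((β - η) * n) ≤ a n) :
    Tendsto (fun n : ℕ => a n ^ (1 / (n : ℝ))) atTop (𝓝 (Real.exp β)) := by
  have key : ∀ (b : ℝ) (n : ℕ), 1 ≤ n → (Real.exp (b * n)) ^ (1 / (n : ℝ)) = Real.exp b := by
    intro b n hn
    have hn' : (n : ℝ) ≠ 0 := by positivity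
    rw [← Real.exp_mul]
    congr 1
    field_simp
  rw [tendsto_order]
  constructor
  · intro c hc
    have h1 := Real.continuous_exp.continuousAt.eventually (lt_mem_nhds hc)
    rw [Metric.eventually_nhds_iff] at h1
    obtain ⟨δ, hδ, h1⟩ := h1
    have h2 : c < Real.exp (β - δ / 2) := by
      apply h1
      rw [Real.dist_eq]
      rw [abs_lt]; constructor <;> linarith
    filter_upwards [hlow (δ / 2) (by linarith), eventually_ge_atTop 1] with n hn hn1
    refine h2.trans_le ?_
    rw [← key (β - δ / 2) n hn1]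
    exact Real.rpow_le_rpow (Real.exp_pos _).le hn (by positivity)
  · intro c hc
    have h1 := Real.continuous_exp.continuousAt.eventually (gt_mem_nhds hc)
    rw [Metric.eventually_nhds_iff] at h1
    obtain ⟨δ, hδ, h1⟩ := h1
    have h2 : Real.exp (β + δ / 2) < c := by
      apply h1
      rw [Real.dist_eq]
      rw [abs_lt]; constructor <;> linarith
    filter_upwards [hup (δ / 2) (by linarith), hlow 1 one_pos, eventually_ge_atTop 1]
      with n hn hn0 hn1
    refine lt_of_le_of_lt ?_ h2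
    rw [← key (β + δ / 2) n hn1]
    exact Real.rpow_le_rpow ((Real.exp_pos _).le.trans hn0) hn (by positivity)

/-- the lower bound, up to an error `5 η` in the exponent -/
theorem Main2_low (κ : Kind) (hd : 2 ≤ d) (p : unitInterval)
    (hp1 : (p : ℝ) < 1) (hL : LeftCont κ d p) (hT : LeftContT κ d p) (hθ : 0 < theta κ d p)
    {η : ℝ} (hη : 0 < η) (hη1 : η ≤ beta κ d p) :
    ∀ᵐ ω ∂(prodBern (El d) p), {y | (Gr κ ω).Reachable 0 y}.Infinite →
      ∀ᶠ n : ℕ in atTop,
        Real.exp ((beta κ d p - 5 * η) * n) ≤ (Pn κ ω n (0 : V d) : ℝ) := by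
  set S : Set (El d → Bool) := {ω | {y | (Gr κ ω).Reachable 0 y}.Infinite ∧
      ¬ ∀ᶠ n : ℕ in atTop, Real.exp ((beta κ d p - 5 * η) * n)
        ≤ (Pn κ ω n (0 : V d) : ℝ)} with hS
  have hsmall : ∀ ζ : ℝ, 0 < ζ → (prodBern (El d) p).real S ≤ ζ := by
    intro ζ hζ
    obtain ⟨pa, hpa, hta⟩ := hT (min ζ (theta κ d p)) (lt_min hζ hθ)
    have hta1 : theta κ d p - theta κ d pa < ζ := by
      have := min_le_left ζ (theta κ d p)
      linarith
    have hta2 : 0 < theta κ d pa := by
      have := min_le_right ζ (theta κ d p)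
      linarith
    obtain ⟨p', hp', hpp', hb⟩ := hL η hη
    have hmax : max (pa : ℝ) (p' : ℝ) < p := max_lt hpa hpp'
    obtain ⟨r, hr1, hr2⟩ := exists_between hmax
    have hr0 : 0 ≤ r := (hp'.le.trans (le_max_right _ _)).trans hr1.le
    have hr3 : r ≤ 1 := (hr2.trans hp1).le
    let p₁ : unitInterval := ⟨r, hr0, hr3⟩
    have hp₁ : (p₁ : ℝ) = r := rfl
    have hapa : (pa : ℝ) < p₁ := by rw [hp₁]; exact (le_max_left _ _).trans_lt hr1
    have hap' : (p' : ℝ) < p₁ := by rw [hp₁]; exact (le_max_right _ _).trans_lt hr1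
    have h1p : (p₁ : ℝ) < p := by rw [hp₁]; exact hr2
    have hc : ConnC κ d p₁ p := conn_c κ hd pa p₁ p hapa h1p hp1 hta2
    have hβ' : 0 < beta κ d p' := by linarith
    have hlow := lower2 κ (by omega) p' p₁ p hp' hap' h1p hp1 hβ' hc hη
    have hmono := theta_mono κ d (p := pa) (p' := p₁) hapa.le
    refine le_trans ?_ (hlow.trans (by linarith))
    apply measureReal_mono
    · rintro ω ⟨h1, h2⟩
      refine ⟨h1, fun h3 => h2 ?_⟩
      filter_upwards [h3] with n hn
      refine le_trans ?_ hn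
      rw [Real.exp_le_exp]
      apply mul_le_mul_of_nonneg_right _ (Nat.cast_nonneg n)
      linarith
    · exact measure_ne_top _ _
  have hzero : (prodBern (El d) p).real S = 0 := by
    refine le_antisymm ?_ measureReal_nonneg
    exact le_of_forall_pos_le_add fun ζ hζ => by simpa using hsmall ζ hζ
  have hzero' : prodBern (El d) p S = 0 := by
    rw [measureReal_eq_zero_iff] at hzero
    exact hzero
  rw [ae_iff]
  refine measure_mono_null ?_ hzero'
  intro ω hω
  simp only [Set.mem_ofPred_eq] at hω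
  push Not at hω
  exact ⟨hω.1, by
    rw [Filter.not_eventually]
    simp only [not_le]
    exact hω.2⟩

theorem main2 (κ : Kind) (hd : 2 ≤ d) (p : unitInterval) (hp : 0 < (p : ℝ))
    (hp1 : (p : ℝ) < 1) (hL : LeftCont κ d p) (hT : LeftContT κ d p) (hθ : 0 < theta κ d p) :
    ∀ᵐ ω ∂(prodBern (El d) p), {y | (Gr κ ω).Reachable 0 y}.Infinite →
      Tendsto (fun n : ℕ => (Pn κ ω n (0 : V d) : ℝ) ^ (1 / (n : ℝ))) atTop
        (𝓝 (Real.exp (beta κ d p))) := by
  have h0 := beta_nonneg κ d p hp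
  rcases h0.eq_or_lt with hz | hpos
  · filter_upwards [limsup_le κ d p hp] with ω hω hinf
    apply Main2_tendsto hω
    intro η hη
    refine Eventually.of_forall fun n => ?_
    have h1 : 1 ≤ Pn κ ω n (0 : V d) := Pn_pos_of_infinite κ ω hinf n
    have h2 : (1 : ℝ) ≤ (Pn κ ω n (0 : V d) : ℝ) := by exact_mod_cast h1
    refine le_trans ?_ h2
    rw [← Real.exp_zero, Real.exp_le_exp, ← hz]
    have : (0 : ℝ) ≤ n := Nat.cast_nonneg n
    nlinarith
  · have h1 : ∀ m : ℕ, ∀ᵐ ω ∂(prodBern (El d) p), {y | (Gr κ ω).Reachable 0 y}.Infinite →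
        ∀ᶠ n : ℕ in atTop,
          Real.exp ((beta κ d p - 5 * (beta κ d p / (m + 1))) * n) ≤ (Pn κ ω n (0 : V d) : ℝ) := by
      intro m
      have hm : (0 : ℝ) < m + 1 := by positivity
      have hη : 0 < beta κ d p / (m + 1) := by positivity
      have hη1 : beta κ d p / (m + 1) ≤ beta κ d p := by
        apply div_le_self hpos.le
        have : (0 : ℝ) ≤ m := Nat.cast_nonneg m
        linarith
      exact Main2_low κ hd p hp1 hL hT hθ hη hη1
    filter_upwards [limsup_le κ d p hp, ae_all_iff.2 h1] with ω hω hω2 hinf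
    apply Main2_tendsto hω
    intro η hη
    obtain ⟨m, hm⟩ := exists_nat_gt (5 * beta κ d p / η)
    filter_upwards [hω2 m hinf] with n hn
    refine le_trans ?_ hn
    rw [Real.exp_le_exp]
    apply mul_le_mul_of_nonneg_right _ (Nat.cast_nonneg n)
    have hm' : (0 : ℝ) < m + 1 := by positivity
    have h3 : 5 * (beta κ d p / (m + 1)) ≤ η := by
      rw [← mul_div_assoc, div_le_iff₀ hm']
      rw [div_lt_iff₀ hη] at hm
      nlinarith
    linarith

end Pool.Agent.H47.GM
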