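import Pool.Agent.H41.QC.Final2
import Pool.Agent.H47.GM.Main2

/-!
# GM module Fin3: the final theorem

Copy of `final2` (H41/QC/Final2); the exceptional set is the union of the four countable sets of
`countable_exceptional` and `countable_exceptionalT`. If `theta p = 0` the cluster is almost surely
finite and the last statements are empty; if `theta p > 0` they are `main2`, transferred with
`bondZx_eq`, `siteZx_eq`, `bondInf_imp`, `siteInf_imp`, `Final_transfer`. The first three items are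
copied from the proof of `final2` (`fin2_up`, `fin2_low`, `beta_mono`).
-/

open MeasureTheory Filter Topology
open Pool.Agent.H17.IIC Pool.Agent.H41.QC

namespace Pool.Agent.H47.GM

lemma fin3_main (κ : Kind) (d : ℕ) (hd : 2 ≤ d) (p : unitInterval) (hp : 0 < (p : ℝ))
    (hp1 : (p : ℝ) < 1) (hL : LeftCont κ d p) (hT : LeftContT κ d p) :
    ∀ᵐ ω ∂(prodBern (El d) p), {y | (Gr κ ω).Reachable 0 y}.Infinite →
      Tendsto (fun n : ℕ => (Pn κ ω n (0 : V d) : ℝ) ^ (1 / (n : ℝ))) atTop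
        (𝓝 (Real.exp (beta κ d p))) := by
  by_cases hθ : 0 < theta κ d p
  · exact main2 κ hd p hp hp1 hL hT hθ
  · have h0 : theta κ d p = 0 := le_antisymm (not_lt.1 hθ) measureReal_nonneg
    unfold theta at h0
    have h1 : (prodBern (El d) p) {ω | {y | (Gr κ ω).Reachable 0 y}.Infinite} = 0 := by
      rw [measureReal_def, ENNReal.toReal_eq_zero_iff] at h0
      rcases h0 with h0 | h0
      · exact h0
      · exact absurd h0 (measure_ne_top _ _)
    rw [measure_eq_zero_iff_ae_notMem] at h1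
    filter_upwards [h1] with ω hω hinf
    exact absurd hinf hω

theorem final3 (d : ℕ) (hd : 2 ≤ d) :
    ∃ (E : Set ℝ) (μb μs : unitInterval → ℝ), E.Countable ∧
      (∀ p q : unitInterval, 0 < (p : ℝ) → p ≤ q → (q : ℝ) < 1 → μb p ≤ μb q ∧ μs p ≤ μs q) ∧
      -- bond percolation
      (∀ p : unitInterval, 0 < (p : ℝ) → (p : ℝ) < 1 →
        1 ≤ μb p ∧
        (∀ᵐ ω ∂(prodBern (Sym2 (Fin d → ℤ)) p), ∀ c : ℝ, μb p < c → ∀ K : ℕ, ∀ᶠ N : ℕ in atTop,
          ∀ x : Fin d → ℤ, (∀ i, |x i| ≤ K * N) → (bondZx ω N x : ℝ) ≤ c ^ N) ∧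
        ((p : ℝ) ∉ E → ∀ᵐ ω ∂(prodBern (Sym2 (Fin d → ℤ)) p), BondInf ω →
          Tendsto (fun N : ℕ => (bondZx ω N 0 : ℝ) ^ (1 / (N : ℝ))) atTop (𝓝 (μb p)))) ∧
      -- site percolation
      (∀ p : unitInterval, 0 < (p : ℝ) → (p : ℝ) < 1 →
        1 ≤ μs p ∧
        (∀ᵐ ω ∂(prodBern (Fin d → ℤ) p), ∀ c : ℝ, μs p < c → ∀ K : ℕ, ∀ᶠ N : ℕ in atTop,
          ∀ x : Fin d → ℤ, (∀ i, |x i| ≤ K * N) → (siteZx ω N x : ℝ) ≤ c ^ N) ∧
        ((p : ℝ) ∉ E → ∀ᵐ ω ∂(prodBern (Fin d → ℤ) p), SiteInf ω →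
          Tendsto (fun N : ℕ => (siteZx ω N 0 : ℝ) ^ (1 / (N : ℝ))) atTop (𝓝 (μs p)))) := by
  refine ⟨({x : ℝ | ∃ p : unitInterval, (p : ℝ) = x ∧ 0 < x ∧ x < 1 ∧ ¬ LeftCont .bond d p} ∪
      {x : ℝ | ∃ p : unitInterval, (p : ℝ) = x ∧ 0 < x ∧ x < 1 ∧ ¬ LeftCont .site d p}) ∪
      ({x : ℝ | ∃ p : unitInterval, (p : ℝ) = x ∧ 0 < x ∧ ¬ LeftContT .bond d p} ∪
      {x : ℝ | ∃ p : unitInterval, (p : ℝ) = x ∧ 0 < x ∧ ¬ LeftContT .site d p}),
      fun p => Real.exp (beta .bond d p), fun p => Real.exp (beta .site d p),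
      ((countable_exceptional .bond d).union (countable_exceptional .site d)).union
        ((countable_exceptionalT .bond d).union (countable_exceptionalT .site d)), ?_, ?_, ?_⟩
  · intro p q hp hpq hq
    rcases hpq.eq_or_lt with h | h
    · subst h; exact ⟨le_rfl, le_rfl⟩
    · exact ⟨Real.exp_le_exp.mpr (beta_mono .bond d hp h hq),
        Real.exp_le_exp.mpr (beta_mono .site d hp h hq)⟩
  · intro p hp hp1
    refine ⟨Real.one_le_exp (beta_nonneg .bond d p hp), ?_, ?_⟩
    · simp only [bondZx_eq]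
      exact fin2_up .bond d p hp
    · intro hpE
      have hL : LeftCont .bond d p := by
        by_contra hcon
        exact hpE (Or.inl (Or.inl ⟨p, rfl, hp, hp1, hcon⟩))
      have hT : LeftContT .bond d p := by
        by_contra hcon
        exact hpE (Or.inr (Or.inl ⟨p, rfl, hp, hcon⟩))
      filter_upwards [fin3_main .bond d hd p hp hp1 hL hT] with ω hω hinf
      simp only [bondZx_eq]
      exact hω (bondInf_imp ω hinf)
  · intro p hp hp1
    refine ⟨Real.one_le_exp (beta_nonneg .site d p hp), ?_, ?_⟩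
    · apply Final_transfer
      simp only [siteZx_eq]
      exact fin2_up .site d p hp
    · intro hpE
      have hL : LeftCont .site d p := by
        by_contra hcon
        exact hpE (Or.inl (Or.inr ⟨p, rfl, hp, hp1, hcon⟩))
      have hT : LeftContT .site d p := by
        by_contra hcon
        exact hpE (Or.inr (Or.inr ⟨p, rfl, hp, hcon⟩))
      apply Final_transfer
      filter_upwards [fin3_main .site d hd p hp hp1 hL hT] with ω hω hinf
      simp only [siteZx_eq]
      exact hω (siteInf_imp ω hinf)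

end Pool.Agent.H47.GM
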