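import Pool.Agent.H47.GM.Fin3

/-!
# GM module Fin4: the final theorem with the near-maximal starting points

`final4` adds to `final3` the statement on near-maximal starting points of `final2`.
-/

open MeasureTheory Filter Topology
open Pool.Agent.H17.IIC Pool.Agent.H41.QC

namespace Pool.Agent.H47.GM

theorem final4 (d : ℕ) (hd : 2 ≤ d) :
    ∃ (E : Set ℝ) (μb μs : unitInterval → ℝ), E.Countable ∧
      (∀ p q : unitInterval, 0 < (p : ℝ) → p ≤ q → (q : ℝ) < 1 → μb p ≤ μb q ∧ μs p ≤ μs q) ∧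
      -- bond percolation
      (∀ p : unitInterval, 0 < (p : ℝ) → (p : ℝ) < 1 →
        1 ≤ μb p ∧
        (∀ᵐ ω ∂(prodBern (Sym2 (Fin d → ℤ)) p), ∀ c : ℝ, μb p < c → ∀ K : ℕ, ∀ᶠ N : ℕ in atTop,
          ∀ x : Fin d → ℤ, (∀ i, |x i| ≤ K * N) → (bondZx ω N x : ℝ) ≤ c ^ N) ∧
        ((p : ℝ) ∉ E → 1 < μb p → ∀ᵐ ω ∂(prodBern (Sym2 (Fin d → ℤ)) p),
          ∀ c : ℝ, 0 ≤ c → c < μb p → ∀ ε : ℝ, 0 < ε → ∀ᶠ N : ℕ in atTop,
          ∃ x : Fin d → ℤ, (∀ i, 0 ≤ x i ∧ (x i : ℝ) ≤ ε * N) ∧ c ^ N ≤ (bondZx ω N x : ℝ)) ∧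
        ((p : ℝ) ∉ E → ∀ᵐ ω ∂(prodBern (Sym2 (Fin d → ℤ)) p), BondInf ω →
          Tendsto (fun N : ℕ => (bondZx ω N 0 : ℝ) ^ (1 / (N : ℝ))) atTop (𝓝 (μb p)))) ∧
      -- site percolation
      (∀ p : unitInterval, 0 < (p : ℝ) → (p : ℝ) < 1 →
        1 ≤ μs p ∧
        (∀ᵐ ω ∂(prodBern (Fin d → ℤ) p), ∀ c : ℝ, μs p < c → ∀ K : ℕ, ∀ᶠ N : ℕ in atTop,
          ∀ x : Fin d → ℤ, (∀ i, |x i| ≤ K * N) → (siteZx ω N x : ℝ) ≤ c ^ N) ∧
        ((p : ℝ) ∉ E → 1 < μs p → ∀ᵐ ω ∂(prodBern (Fin d → ℤ) p),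
          ∀ c : ℝ, 0 ≤ c → c < μs p → ∀ ε : ℝ, 0 < ε → ∀ᶠ N : ℕ in atTop,
          ∃ x : Fin d → ℤ, (∀ i, 0 ≤ x i ∧ (x i : ℝ) ≤ ε * N) ∧ c ^ N ≤ (siteZx ω N x : ℝ)) ∧
        ((p : ℝ) ∉ E → ∀ᵐ ω ∂(prodBern (Fin d → ℤ) p), SiteInf ω →
          Tendsto (fun N : ℕ => (siteZx ω N 0 : ℝ) ^ (1 / (N : ℝ))) atTop (𝓝 (μs p)))) := by
  refine ⟨({x : ℝ | ∃ p : unitInterval, (p : ℝ) = x ∧ 0 < x ∧ x < 1 ∧ ¬ LeftCont .bond d p} ∪
      {x : ℝ | ∃ p : unitInterval, (p : ℝ) = x ∧ 0 < x ∧ x < 1 ∧ ¬ LeftCont .site d p}) ∪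
      ({x : ℝ | ∃ p : unitInterval, (p : ℝ) = x ∧ 0 < x ∧ ¬ LeftContT .bond d p} ∪
      {x : ℝ | ∃ p : unitInterval, (p : ℝ) = x ∧ 0 < x ∧ ¬ LeftContT .site d p}),
      fun p => Real.exp (beta .bond d p), fun p => Real.exp (beta .site d p),
      ((countable_exceptional .bond d).union (countable_exceptional .site d)).union
        ((countable_exceptionalT .bond d).union (countable_exceptionalT .site d)), ?_, ?_, ?_⟩
  · intro p q hp hpq hq
    rcases hpq.eq_or_lt with h | h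
    · subst h; exact ⟨le_rfl, le_rfl⟩
    · exact ⟨Real.exp_le_exp.mpr (beta_mono .bond d hp h hq),
        Real.exp_le_exp.mpr (beta_mono .site d hp h hq)⟩
  · intro p hp hp1
    refine ⟨Real.one_le_exp (beta_nonneg .bond d p hp), ?_, ?_, ?_⟩
    · simp only [bondZx_eq]
      exact fin2_up .bond d p hp
    · intro hpE hμ
      have hL : LeftCont .bond d p := by
        by_contra hcon
        exact hpE (Or.inl (Or.inl ⟨p, rfl, hp, hp1, hcon⟩))
      simp only [bondZx_eq]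
      exact fin2_low .bond d (by omega) p hp hp1 hL hμ
    · intro hpE
      have hL : LeftCont .bond d p := by
        by_contra hcon
        exact hpE (Or.inl (Or.inl ⟨p, rfl, hp, hp1, hcon⟩))
      have hT : LeftContT .bond d p := by
        by_contra hcon
        exact hpE (Or.inr (Or.inl ⟨p, rfl, hp, hcon⟩))
      filter_upwards [fin3_main .bond d hd p hp hp1 hL hT] with ω hω hinf
      simp only [bondZx_eq]
      exact hω (bondInf_imp ω hinf)
  · intro p hp hp1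
    refine ⟨Real.one_le_exp (beta_nonneg .site d p hp), ?_, ?_, ?_⟩
    · apply Final_transfer
      simp only [siteZx_eq]
      exact fin2_up .site d p hp
    · intro hpE hμ
      have hL : LeftCont .site d p := by
        by_contra hcon
        exact hpE (Or.inl (Or.inr ⟨p, rfl, hp, hp1, hcon⟩))
      apply Final_transfer
      simp only [siteZx_eq]
      exact fin2_low .site d (by omega) p hp hp1 hL hμ
    · intro hpE
      have hL : LeftCont .site d p := by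
        by_contra hcon
        exact hpE (Or.inl (Or.inr ⟨p, rfl, hp, hp1, hcon⟩))
      have hT : LeftContT .site d p := by
        by_contra hcon
        exact hpE (Or.inr (Or.inr ⟨p, rfl, hp, hcon⟩))
      apply Final_transfer
      filter_upwards [fin3_main .site d hd p hp hp1 hL hT] with ω hω hinf
      simp only [siteZx_eq]
      exact hω (siteInf_imp ω hinf)

end Pool.Agent.H47.GM
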