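import Pool.Agent.H41.QC.Defs
import Pool.Agent.H41.QC.Harris
import Pool.Agent.H47.GM.Mu

/-!
# GM module HarrisLoc: Harris inequality for complements of increasing local events

`harris_compl` (H41/QC/Harris), transferred from a finite index type to events of `El d` depending on
finitely many elements (e.g. with `measure_comp_injOn`, or `mu_comp` for the inclusion of the union of the
finite sets of elements), or by the same induction.
-/

open MeasureTheory Filter Topology
open Pool.Agent.H17.IIC Pool.Agent.H41.QC

namespace Pool.Agent.H47.GM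

variable {d : ℕ}

open Classical in
/-- extension by `false` -/
noncomputable def hlExt (Λ : Finset (El d)) (ξ : {e // e ∈ Λ} → Bool) : El d → Bool :=
  fun e => if h : e ∈ Λ then ξ ⟨e, h⟩ else false

/-- Harris inequality for two increasing events depending on the same finite set of elements -/
lemma HarrisLoc_two (p : unitInterval) (Λ : Finset (El d)) {A B : Set (El d → Bool)}
    (hA : Incr A) (hB : Incr B) (hAL : On (Λ : Set (El d)) A) (hBL : On (Λ : Set (El d)) B) :
    (prodBern (El d) p).real A * (prodBern (El d) p).real B ≤ (prodBern (El d) p).real (A ∩ B) := by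
  classical
  have hmeas : Measurable (fun (ω : El d → Bool) (i : {e // e ∈ Λ}) => ω i.1) :=
    mu_measurable_comp (fun i : {e // e ∈ Λ} => i.1)
  have hlaw : (prodBern (El d) p).map (fun (ω : El d → Bool) (i : {e // e ∈ Λ}) => ω i.1)
      = prodBern {e // e ∈ Λ} p :=
    mu_comp (fun _ : El d => p) (fun i : {e // e ∈ Λ} => i.1) Subtype.val_injective
  have hext : ∀ (ω : El d → Bool), ∀ e ∈ (Λ : Set (El d)),
      hlExt Λ (fun i : {e // e ∈ Λ} => ω i.1) e = ω e := by
    intro ω e he
    unfold hlExt
    rw [dif_pos (Finset.mem_coe.1 he)]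
  have hpre : ∀ {C : Set (El d → Bool)}, On (Λ : Set (El d)) C →
      (fun (ω : El d → Bool) (i : {e // e ∈ Λ}) => ω i.1) ⁻¹' {ξ | hlExt Λ ξ ∈ C} = C := by
    intro C hC
    ext ω
    exact hC _ _ (hext ω)
  have hP : ∀ {C : Set (El d → Bool)}, On (Λ : Set (El d)) C →
      (prodBern {e // e ∈ Λ} p).real {ξ | hlExt Λ ξ ∈ C} = (prodBern (El d) p).real C := by
    intro C hC
    rw [← hlaw, map_measureReal_apply hmeas (Set.toFinite _).measurableSet, hpre hC]
  have hI : ∀ {C : Set (El d → Bool)}, Incr C → Incr {ξ | hlExt Λ ξ ∈ C} := by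
    intro C hC ω ω' h h1
    refine hC _ _ (fun e he => ?_) h1
    unfold hlExt at he ⊢
    by_cases hΛ : e ∈ Λ
    · rw [dif_pos hΛ] at he ⊢
      exact h _ he
    · rw [dif_neg hΛ] at he
      exact absurd he (by simp)
  have key := harris (ι := {e // e ∈ Λ}) p (hI hA) (hI hB)
  have hint : {ξ | hlExt Λ ξ ∈ A} ∩ {ξ | hlExt Λ ξ ∈ B} = {ξ | hlExt Λ ξ ∈ A ∩ B} := rfl
  have hAB : On (Λ : Set (El d)) (A ∩ B) := by
    intro ω ω' h
    rw [Set.mem_inter_iff, Set.mem_inter_iff, hAL ω ω' h, hBL ω ω' h]
  rw [hint, hP hAL, hP hBL, hP hAB] at key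
  exact key

/-- Harris inequality for complements of increasing events depending on finitely many elements -/
theorem harris_loc {α : Type*} (p : unitInterval) (I : Finset α) (A : α → Set (El d → Bool))
    (hA : ∀ v ∈ I, Incr (A v)) (hdep : ∀ v ∈ I, ∃ Λ : Finset (El d), On (Λ : Set (El d)) (A v)) :
    ∏ v ∈ I, (1 - (prodBern (El d) p).real (A v)) ≤
      1 - (prodBern (El d) p).real (⋃ v ∈ I, A v) := by
  classical
  choose! L hL using hdep
  have hU : ∀ J : Finset α, J ⊆ I → On ((J.biUnion L : Finset (El d)) : Set (El d)) (⋃ v ∈ J, A v) := by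
    intro J hJ ω ω' h
    simp only [Set.mem_iUnion, exists_prop]
    refine exists_congr fun v => and_congr_right fun hv => hL v (hJ hv) ω ω' fun e he => h e ?_
    rw [Finset.mem_coe, Finset.mem_biUnion]
    exact ⟨v, hv, he⟩
  have hIncU : ∀ J : Finset α, J ⊆ I → Incr (⋃ v ∈ J, A v) := by
    intro J hJ ω ω' h h1
    simp only [Set.mem_iUnion, exists_prop] at h1 ⊢
    obtain ⟨v, hv, h2⟩ := h1
    exact ⟨v, hv, hA v (hJ hv) ω ω' h h2⟩
  have main : ∀ J : Finset α, J ⊆ I → ∏ v ∈ J, (1 - (prodBern (El d) p).real (A v)) ≤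
      1 - (prodBern (El d) p).real (⋃ v ∈ J, A v) := by
    intro J
    induction J using Finset.induction_on with
    | empty => intro _; simp
    | insert v J hv ih =>
      intro hJ
      have hJ' : J ⊆ I := fun x hx => hJ (Finset.mem_insert_of_mem hx)
      have hvI : v ∈ I := hJ (Finset.mem_insert_self v J)
      have ih' := ih hJ'
      rw [Finset.prod_insert hv, Finset.set_biUnion_insert]
      set B : Set (El d → Bool) := ⋃ x ∈ J, A x with hB
      have hBi : Incr B := hIncU J hJ'
      have hm : MeasurableSet B := (hU J hJ').measurableSet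
      have h1 := HarrisLoc_two p (L v ∪ J.biUnion L) (hA v hvI) hBi
        ((hL v hvI).mono (by intro e he; rw [Finset.mem_coe] at he ⊢; exact Finset.mem_union_left _ he))
        ((hU J hJ').mono (by intro e he; rw [Finset.mem_coe] at he ⊢; exact Finset.mem_union_right _ he))
      have h2 := measureReal_union_add_inter (μ := prodBern (El d) p) (s := A v) hm
        (measure_ne_top _ _) (measure_ne_top _ _)
      have h3 : 0 ≤ 1 - (prodBern (El d) p).real (A v) := by
        have := measureReal_le_one (μ := prodBern (El d) p) (s := A v)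
        linarith
      calc (1 - (prodBern (El d) p).real (A v)) * ∏ x ∈ J, (1 - (prodBern (El d) p).real (A x))
          ≤ (1 - (prodBern (El d) p).real (A v)) * (1 - (prodBern (El d) p).real B) :=
            mul_le_mul_of_nonneg_left ih' h3
        _ = 1 - (prodBern (El d) p).real (A v) - (prodBern (El d) p).real B +
            (prodBern (El d) p).real (A v) * (prodBern (El d) p).real B := by ring
        _ ≤ 1 - (prodBern (El d) p).real (A v ∪ B) := by linarith
  exact main I (Finset.Subset.refl I)

end Pool.Agent.H47.GM
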