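import Pool.Agent.H47.GM.MBadDef
import Pool.Agent.H47.GM.MInv
import Pool.Agent.H47.GM.StepLoc

/-!
# GM module MBad: probability of a bad step

At a good state with `nxt s = some z`, for each `z' ∈ U z` the probability that `z'` is not reached is at
most `ε` by the hypothesis `hc` (the conditioning lemma) with `x = ctr z`, `R = s.R`, `D = s.D ℓ z`,
`C = Bx (cz z') ℓ` (`MP.far`, `ctr_near`, `ctr_box`; `Hit` in the tube implies `Hit` in `D`, `Hit.mono`),
`law_pair`; at most `2d` sites `z'`.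
-/

open MeasureTheory Filter Topology
open Pool.Agent.H17.IIC Pool.Agent.H41.QC

namespace Pool.Agent.H47.GM

variable {d : ℕ}

/-- measurability of the seed event -/
lemma mBad_meas (κ : Kind) (R D C : Finset (V d)) (m : ℕ) :
    MeasurableSet {q : (El d → Bool) × (El d → Bool) | ∃ c ∈ C,
      FullOpen κ q.1 (Bx c m : Set (V d)) ∧
        Bx c m ⊆ growF κ R D (mix κ (R : Set (V d)) q.1 q.2)} := by
  classical
  obtain ⟨Λ0, h0⟩ := grow_fin κ R D
  choose Λ1 h1 using fun c : V d => full_fin κ (Bx c m)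
  set Λ : Finset (El d) := Λ0 ∪ C.biUnion Λ1 with hΛ
  set S : Set ((El d → Bool) × (El d → Bool)) := {q | ∃ c ∈ C,
      FullOpen κ q.1 (Bx c m : Set (V d)) ∧
        Bx c m ⊆ growF κ R D (mix κ (R : Set (V d)) q.1 q.2)} with hS
  have hdep : ∀ q q' : (El d → Bool) × (El d → Bool), (∀ e ∈ Λ, q.1 e = q'.1 e) →
      (∀ e ∈ Λ, q.2 e = q'.2 e) → q ∈ S → q' ∈ S := by
    rintro q q' hq1 hq2 ⟨c, hc, hf, hg⟩
    refine ⟨c, hc, ?_, ?_⟩
    · exact (h1 c q.1 q'.1 (fun e he => hq1 e (Finset.mem_union_right _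
        (Finset.mem_biUnion.mpr ⟨c, hc, he⟩)))).mp hf
    · rw [h0 q.1 q'.1 q.2 q'.2 (fun e he => hq1 e (Finset.mem_union_left _ he))
        (fun e he => hq2 e (Finset.mem_union_left _ he))]
      exact hg
  let r : (El d → Bool) × (El d → Bool) → (Λ → Bool) × (Λ → Bool) :=
    fun q => (fun e => q.1 e, fun e => q.2 e)
  have hr : Measurable r := by
    refine Measurable.prodMk ?_ ?_
    · exact measurable_pi_lambda _ (fun e => (measurable_pi_apply _).comp measurable_fst)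
    · exact measurable_pi_lambda _ (fun e => (measurable_pi_apply _).comp measurable_snd)
  have heq : S = r ⁻¹' (r '' S) := by
    apply Set.Subset.antisymm (Set.subset_preimage_image _ _)
    rintro q ⟨q', hq', hqq⟩
    have e1 := congrArg Prod.fst hqq
    have e2 := congrArg Prod.snd hqq
    exact hdep q' q (fun e he => congrFun e1 ⟨e, he⟩) (fun e he => congrFun e2 ⟨e, he⟩) hq'
  rw [heq]
  exact hr (Set.toFinite _).measurableSet

theorem MP.step_bad (P : MP) (hm : P.m ≤ P.ℓ) (hℓ : 1 ≤ P.ℓ) {p δ : unitInterval} {ε η₀ : ℝ}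
    (hε : 0 ≤ ε)
    (hc : ∀ (x : V d) (m : ℕ) (R D C : Finset (V d)), Bx x m ⊆ R →
      (∀ c ∈ C, Bx c m ⊆ D) → (∀ c ∈ C, ∀ v ∈ Bx c m, v ∉ R ∧ ∀ a ∈ R, ¬ LatAdj a v) →
      1 - η₀ ≤ (prodBern (El d) p).real {ω | Hit P.κ ω D x m C} →
      1 - ε ≤ ((prodBern (El d) p).prod (prodBern (El d) δ)).real
        {q | ∃ c ∈ C, FullOpen P.κ q.1 (Bx c m : Set (V d)) ∧
          Bx c m ⊆ growF P.κ R D (mix P.κ (R : Set (V d)) q.1 q.2)})
    (hb : ∀ z z' : V d, LatAdj z z' → ∀ x : V d, (∀ i, |x i - cz P.ℓ z i| ≤ P.ℓ) →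
      1 - η₀ ≤ (prodBern (El d) p).real
        {ω | Hit P.κ ω (Tube P.ℓ z z' : Set (V d)) x P.m (Bx (cz P.ℓ z') P.ℓ : Set (V d))})
    {s : MS d} (hs : P.good s) {z : V d} (hz : nxt s = some z) :
    (mu (parJ d 2 p δ)).real {ω | mbad s (P.step s ω)} ≤ 2 * d * ε := by
  classical
  set μ := mu (parJ d 2 p δ) with hμ
  obtain ⟨hzr, hzd, -⟩ := nxt_some hz
  have hpr : pr z ≠ 0 := by
    unfold pr; split_ifs <;> decide
  have hone : ∀ z' ∈ s.U z, μ.real {ω | ¬ (P.val s z ω z').Nonempty} ≤ ε := by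
    intro z' hz'
    have hadj : LatAdj z z' := by
      have : z' ∈ nb z := (Finset.mem_sdiff.mp hz').1
      exact mem_nb.mp this
    have hTD : Tube P.ℓ z z' ⊆ s.D P.ℓ z := fun v hv => Finset.mem_biUnion.mpr ⟨z', hz', hv⟩
    set S : Set ((El d → Bool) × (El d → Bool)) := {q | ∃ c ∈ Bx (cz P.ℓ z') P.ℓ,
      FullOpen P.κ q.1 (Bx c P.m : Set (V d)) ∧
        Bx c P.m ⊆ growF P.κ s.R (s.D P.ℓ z) (mix P.κ (s.R : Set (V d)) q.1 q.2)} with hS
    have hSm : MeasurableSet S := mBad_meas P.κ s.R (s.D P.ℓ z) (Bx (cz P.ℓ z') P.ℓ) P.m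
    have hSp : 1 - ε ≤ ((prodBern (El d) p).prod (prodBern (El d) δ)).real S := by
      refine hc (s.ctr z) P.m s.R (s.D P.ℓ z) (Bx (cz P.ℓ z') P.ℓ) (hs.ctr_box z hzr)
        (fun c hcc => (P.far hm hℓ hs hz hz' hcc).1) (fun c hcc => (P.far hm hℓ hs hz hz' hcc).2) ?_
      refine (hb z z' hadj (s.ctr z) (hs.ctr_near z hzr)).trans ?_
      refine measureReal_mono ?_ (measure_ne_top _ _)
      intro ω hω
      exact Hit.mono hω (fun _ h => h) (by exact_mod_cast hTD) (le_refl _)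
    set f : (Fin (2 + 1) × El d → Bool) → (El d → Bool) × (El d → Bool) :=
      fun ω => (fld 0 ω, fld (pr z) ω) with hf
    have hfm : Measurable f := (measurable_fld 0).prodMk (measurable_fld (pr z))
    have hlaw : μ.map f = (prodBern (El d) p).prod (prodBern (El d) δ) := law_pair p δ hpr
    rw [← hlaw, map_measureReal_apply hfm hSm] at hSp
    have hcompl : {ω | ¬ (P.val s z ω z').Nonempty} = (f ⁻¹' S)ᶜ := by
      ext ω
      simp only [Set.mem_setOf_eq, Set.mem_compl_iff, Set.mem_preimage]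
      apply not_congr
      constructor
      · rintro ⟨c, hc'⟩
        have := Finset.mem_filter.mp hc'
        exact ⟨c, this.1, this.2⟩
      · rintro ⟨c, hc1, hc2⟩
        exact ⟨c, Finset.mem_filter.mpr ⟨hc1, hc2⟩⟩
    rw [hcompl, probReal_compl_eq_one_sub (hfm hSm)]
    linarith
  have hsub : {ω | mbad s (P.step s ω)} ⊆
      ⋃ z' ∈ s.U z, {ω | ¬ (P.val s z ω z').Nonempty} := by
    rintro ω ⟨z₁, hz₁, z', hz', hnr⟩
    have hzz : z₁ = z := by
      rw [hz] at hz₁; exact (Option.some.inj hz₁).symm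
    subst hzz
    simp only [Set.mem_iUnion, Set.mem_setOf_eq]
    refine ⟨z', hz', fun hne => hnr ?_⟩
    have hstep : P.step s ω = P.proc s z₁ ω := by
      unfold MP.step; rw [hz]
    rw [hstep]
    exact Finset.mem_union_right _ (Finset.mem_filter.mpr ⟨hz', hne⟩)
  calc μ.real {ω | mbad s (P.step s ω)}
      ≤ μ.real (⋃ z' ∈ s.U z, {ω | ¬ (P.val s z ω z').Nonempty}) :=
        measureReal_mono hsub (measure_ne_top _ _)
    _ ≤ ∑ z' ∈ s.U z, μ.real {ω | ¬ (P.val s z ω z').Nonempty} :=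
        measureReal_biUnion_finset_le _ _
    _ ≤ ∑ z' ∈ s.U z, ε := Finset.sum_le_sum hone
    _ = (s.U z).card * ε := by rw [Finset.sum_const, nsmul_eq_mul]
    _ ≤ 2 * d * ε := by
        apply mul_le_mul_of_nonneg_right _ hε
        have h1 : (s.U z).card ≤ 2 * d :=
          (Finset.card_le_card Finset.sdiff_subset).trans (card_nb_le z)
        exact_mod_cast h1

end Pool.Agent.H47.GM
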