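import Pool.Agent.H47.GM.MDefs

/-!
# GM module MBadDef: bad steps (definition)
-/

open MeasureTheory Filter Topology
open Pool.Agent.H17.IIC Pool.Agent.H41.QC

namespace Pool.Agent.H47.GM

variable {d : ℕ}

/-- the processing of the next site is bad: some examined neighbour is not reached -/
def mbad (s s' : MS d) : Prop := ∃ z, nxt s = some z ∧ ∃ z' ∈ s.U z, z' ∉ s'.reached

end Pool.Agent.H47.GM
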