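import Pool.Agent.H47.GM.Basic
import Pool.Agent.H47.GM.Fields

/-!
# GM module MDefs: the macroscopic exploration

Macroscopic sites `z : V d` with centres `cz ℓ z = 6 ℓ z`. State: explored cluster `R`, reached,
examined and processed (`done`) sites, centre `ctr z` of the seed of a reached site, depth `dep z`,
examiner `exB z`. One step: take an unprocessed reached site `z` of minimal depth, enlarge the
cluster inside the tubes from `z` to its unexamined neighbours `z'` using the sprinkling field of
the parity of `z`; `z'` is reached if the new cluster contains a fully open box with centre in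
`Bx (cz z') ℓ`.
-/

open MeasureTheory Filter Topology
open Pool.Agent.H17.IIC Pool.Agent.H41.QC

namespace Pool.Agent.H47.GM

variable {d : ℕ}

/-- state of the macroscopic exploration -/
structure MS (d : ℕ) where
  R : Finset (V d)
  reached : Finset (V d)
  exam : Finset (V d)
  done : Finset (V d)
  ctr : V d → V d
  dep : V d → ℕ
  exB : V d → V d

/-- parameters -/
structure MP where
  κ : Kind
  m : ℕ
  ℓ : ℕ

open Classical in
/-- the next site to process -/
noncomputable def nxt (s : MS d) : Option (V d) :=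
  if h : (s.reached \ s.done).Nonempty then
    some (Finset.exists_min_image (s.reached \ s.done) s.dep h).choose
  else none

open Classical in
/-- the unexamined neighbours of `z` -/
noncomputable def MS.U (s : MS d) (z : V d) : Finset (V d) := nb z \ s.exam

open Classical in
/-- the region of the step -/
noncomputable def MS.D (s : MS d) (ℓ : ℕ) (z : V d) : Finset (V d) := (s.U z).biUnion (Tube ℓ z)

open Classical in
/-- the field used at `z` -/
noncomputable def pr (z : V d) : Fin (2 + 1) := if Even (∑ i, z i) then 1 else 2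

/-- the new cluster -/
noncomputable def MP.newR (P : MP) (s : MS d) (z : V d) (ω : Fin (2 + 1) × El d → Bool) :
    Finset (V d) :=
  growF P.κ s.R (s.D P.ℓ z) (mix P.κ (s.R : Set (V d)) (fld 0 ω) (fld (pr z) ω))

open Classical in
/-- admissible seeds at `z'` -/
noncomputable def MP.val (P : MP) (s : MS d) (z : V d) (ω : Fin (2 + 1) × El d → Bool)
    (z' : V d) : Finset (V d) :=
  (Bx (cz P.ℓ z') P.ℓ).filter fun c =>
    FullOpen P.κ (fld 0 ω) (Bx c P.m : Set (V d)) ∧ Bx c P.m ⊆ P.newR s z ω

open Classical in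
/-- processing the site `z` -/
noncomputable def MP.proc (P : MP) (s : MS d) (z : V d) (ω : Fin (2 + 1) × El d → Bool) : MS d where
  R := P.newR s z ω
  reached := s.reached ∪ (s.U z).filter fun z' => (P.val s z ω z').Nonempty
  exam := s.exam ∪ s.U z
  done := insert z s.done
  ctr := fun y => if h : y ∈ s.U z ∧ (P.val s z ω y).Nonempty then h.2.choose else s.ctr y
  dep := fun y => if y ∈ s.U z then s.dep z + 1 else s.dep y
  exB := fun y => if y ∈ s.U z then z else s.exB y

/-- one step -/
noncomputable def MP.step (P : MP) (s : MS d) (ω : Fin (2 + 1) × El d → Bool) : MS d :=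
  match nxt s with
  | none => s
  | some z => P.proc s z ω

/-- initial state: the seed at the origin -/
noncomputable def MP.init (P : MP) : MS d where
  R := Bx 0 P.m
  reached := {0}
  exam := {0}
  done := ∅
  ctr := fun _ => 0
  dep := fun _ => 0
  exB := fun y => y

/-- revealed coordinates -/
def MP.E (P : MP) (s : MS d) : Set (Fin (2 + 1) × El d) :=
  {q | (q.1 = 0 ∧ touch P.κ (s.R : Set (V d)) q.2) ∨
    ∃ w ∈ s.done, ∃ w' ∈ s.exam, LatAdj w w' ∧ s.exB w' = w ∧ q.1 = pr w ∧
      ∃ b ∈ q.2, b ∈ Tube P.ℓ w w'}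

/-- good states -/
structure MP.good (P : MP) (s : MS d) : Prop where
  zero : (0 : V d) ∈ s.reached
  done_sub : s.done ⊆ s.reached
  reached_sub : s.reached ⊆ s.exam
  ctr_near : ∀ z ∈ s.reached, ∀ i, |s.ctr z i - cz P.ℓ z i| ≤ P.ℓ
  ctr_box : ∀ z ∈ s.reached, Bx (s.ctr z) P.m ⊆ s.R
  exB_done : ∀ z ∈ s.exam, z ≠ 0 → s.exB z ∈ s.done ∧ LatAdj (s.exB z) z
  exB_zero : s.exB 0 = 0
  R_tube : ∀ v ∈ s.R, v ∈ Bx (0 : V d) P.m ∨
    ∃ w ∈ s.done, ∃ w' ∈ s.exam, LatAdj w w' ∧ s.exB w' = w ∧ v ∈ Tube P.ℓ w w'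
  nb_exam : ∀ z ∈ s.done, nb z ⊆ s.exam
  dep_zero : s.dep 0 = 0
  dep_exB : ∀ z ∈ s.exam, z ≠ 0 → s.dep z = s.dep (s.exB z) + 1
  dep_order : ∀ z ∈ s.done, ∀ z' ∈ s.reached \ s.done, s.dep z ≤ s.dep z'
  dep_nb : ∀ z ∈ s.done, ∀ z' ∈ nb z, s.dep z' ≤ s.dep z + 1

end Pool.Agent.H47.GM
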