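import Pool.Agent.H47.GM.MExpl

/-!
# GM module MLimit: the infinite run

`reached`, `exam`, `done` increase; a failed site (examined, not reached) stays failed; `ctr` and `dep` of a
reached site do not change. Every reached site is processed eventually: otherwise an unprocessed
reached site `z` exists at all later times, so `nxt` is never `none` and always has depth at most
`dep z`; but only finitely many sites have depth `≤ D` (a reached site of depth `k` is at `ℓ¹` distance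
`≤ k` from `0`, by `exB`), and no site is processed twice. Last item of `limit_closed`: follow the
examiners (`exB_done`, `dep_exB`, induction on the depth).
-/

open MeasureTheory Filter Topology
open Pool.Agent.H17.IIC Pool.Agent.H41.QC

namespace Pool.Agent.H47.GM

variable {d : ℕ}

/-- state after `n` steps -/
noncomputable def MP.st (P : MP) (hm : P.m ≤ P.ℓ) (hℓ : 1 ≤ P.ℓ) (n : ℕ)
    (ω : Fin (2 + 1) × El d → Bool) : MS d := (P.expl hm hℓ).run n P.init ω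

/-- reached sites -/
def MP.Rc (P : MP) (hm : P.m ≤ P.ℓ) (hℓ : 1 ≤ P.ℓ) (ω : Fin (2 + 1) × El d → Bool) : Set (V d) :=
  {z | ∃ n, z ∈ (P.st hm hℓ n ω).reached}

/-- failed sites -/
def MP.F (P : MP) (hm : P.m ≤ P.ℓ) (hℓ : 1 ≤ P.ℓ) (ω : Fin (2 + 1) × El d → Bool) : Set (V d) :=
  {z | ∃ n, z ∈ (P.st hm hℓ n ω).exam ∧ z ∉ (P.st hm hℓ n ω).reached}

open Classical in
/-- centre of the seed of a reached site -/
noncomputable def MP.ctr (P : MP) (hm : P.m ≤ P.ℓ) (hℓ : 1 ≤ P.ℓ) (ω : Fin (2 + 1) × El d → Bool)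
    (z : V d) : V d :=
  if h : ∃ n, z ∈ (P.st hm hℓ n ω).reached then (P.st hm hℓ (Nat.find h) ω).ctr z else 0

open Classical in
/-- depth of a reached site -/
noncomputable def MP.dep (P : MP) (hm : P.m ≤ P.ℓ) (hℓ : 1 ≤ P.ℓ) (ω : Fin (2 + 1) × El d → Bool)
    (z : V d) : ℕ :=
  if h : ∃ n, z ∈ (P.st hm hℓ n ω).reached then (P.st hm hℓ (Nat.find h) ω).dep z else 0

variable (P : MP) (hm : P.m ≤ P.ℓ) (hℓ : 1 ≤ P.ℓ)

/-- one step -/
lemma MLimit_step (Q : MP) {s : MS d} (ω : Fin (2 + 1) × El d → Bool) (hs : Q.good s) :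
    s.reached ⊆ (Q.step s ω).reached ∧ s.exam ⊆ (Q.step s ω).exam ∧
    s.done ⊆ (Q.step s ω).done ∧
    ∀ z ∈ s.exam, (z ∈ (Q.step s ω).reached ↔ z ∈ s.reached) ∧
      (Q.step s ω).ctr z = s.ctr z ∧ (Q.step s ω).dep z = s.dep z := by
  classical
  cases hz : nxt s with
  | none =>
    have h : Q.step s ω = s := by
      unfold MP.step
      rw [hz]
    rw [h]
    exact ⟨subset_rfl, subset_rfl, subset_rfl, fun z _ => ⟨Iff.rfl, rfl, rfl⟩⟩
  | some z =>
    have h : Q.step s ω = Q.proc s z ω := by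
      unfold MP.step
      rw [hz]
    rw [h]
    have hU : ∀ y, y ∈ s.exam → y ∉ s.U z := fun y hy h => (MInv_mem_U.1 h).2 hy
    refine ⟨?_, ?_, ?_, fun y hy => ⟨?_, ?_, ?_⟩⟩
    · intro y hy
      simp only [MP.proc, Finset.mem_union]
      exact Or.inl hy
    · intro y hy
      simp only [MP.proc, Finset.mem_union]
      exact Or.inl hy
    · intro y hy
      simp only [MP.proc]
      exact Finset.mem_insert_of_mem hy
    · simp [MP.proc, hU y hy]
    · simp [MP.proc, hU y hy]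
    · simp [MP.proc, hU y hy]

lemma MLimit_succ (ω : Fin (2 + 1) × El d → Bool) (n : ℕ) :
    P.st hm hℓ (n + 1) ω = P.step (P.st hm hℓ n ω) ω :=
  (P.expl hm hℓ).run_succ n P.init ω

lemma MLimit_good (ω : Fin (2 + 1) × El d → Bool) (n : ℕ) : P.good (P.st hm hℓ n ω) :=
  (P.expl hm hℓ).good_run n ω P.good_init

theorem MP.st_mono (ω : Fin (2 + 1) × El d → Bool) {n k : ℕ} (h : n ≤ k) :
    (P.st hm hℓ n ω).reached ⊆ (P.st hm hℓ k ω).reached ∧
    (P.st hm hℓ n ω).exam ⊆ (P.st hm hℓ k ω).exam ∧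
    (P.st hm hℓ n ω).done ⊆ (P.st hm hℓ k ω).done ∧
    (∀ z ∈ (P.st hm hℓ n ω).exam, (z ∈ (P.st hm hℓ k ω).reached ↔ z ∈ (P.st hm hℓ n ω).reached) ∧
      (P.st hm hℓ k ω).ctr z = (P.st hm hℓ n ω).ctr z ∧
      (P.st hm hℓ k ω).dep z = (P.st hm hℓ n ω).dep z) := by
  induction k, h using Nat.le_induction with
  | base => exact ⟨subset_rfl, subset_rfl, subset_rfl, fun z _ => ⟨Iff.rfl, rfl, rfl⟩⟩
  | succ k hk ih =>
    obtain ⟨h1, h2, h3, h4⟩ := ih
    rw [MLimit_succ]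
    obtain ⟨g1, g2, g3, g4⟩ := MLimit_step P ω (MLimit_good P hm hℓ ω k)
    refine ⟨h1.trans g1, h2.trans g2, h3.trans g3, fun z hz => ?_⟩
    obtain ⟨a1, a2, a3⟩ := h4 z hz
    obtain ⟨b1, b2, b3⟩ := g4 z (h2 hz)
    exact ⟨b1.trans a1, b2.trans a2, b3.trans a3⟩

theorem MP.ctr_eq (ω : Fin (2 + 1) × El d → Bool) {n : ℕ} {z : V d}
    (h : z ∈ (P.st hm hℓ n ω).reached) :
    P.ctr hm hℓ ω z = (P.st hm hℓ n ω).ctr z ∧ P.dep hm hℓ ω z = (P.st hm hℓ n ω).dep z := by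
  classical
  have hex : ∃ n, z ∈ (P.st hm hℓ n ω).reached := ⟨n, h⟩
  have hle : Nat.find hex ≤ n := Nat.find_min' hex h
  have hz := (MLimit_good P hm hℓ ω (Nat.find hex)).reached_sub (Nat.find_spec hex)
  obtain ⟨-, a2, a3⟩ := (P.st_mono hm hℓ ω hle).2.2.2 z hz
  constructor
  · unfold MP.ctr
    rw [dif_pos hex, ← a2]
  · unfold MP.dep
    rw [dif_pos hex, ← a3]

/-- sites of depth at most `D` -/
noncomputable def MLimit_ball (d : ℕ) : ℕ → Finset (V d)
  | 0 => {0}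
  | D + 1 => open Classical in MLimit_ball d D ∪ (MLimit_ball d D).biUnion nb

lemma MLimit_mem_ball {Q : MP} {s : MS d} (hs : Q.good s) (D : ℕ) :
    ∀ z ∈ s.exam, s.dep z ≤ D → z ∈ MLimit_ball d D := by
  classical
  induction D with
  | zero =>
    intro z hz hD
    by_cases h0 : z = 0
    · subst h0
      simp [MLimit_ball]
    · have := hs.dep_exB z hz h0
      omega
  | succ D ih =>
    intro z hz hD
    rw [MLimit_ball, Finset.mem_union]
    by_cases h0 : z = 0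
    · left
      subst h0
      refine ih 0 hz ?_
      rw [hs.dep_zero]
      omega
    · right
      obtain ⟨h1, h2⟩ := hs.exB_done z hz h0
      have h3 := hs.dep_exB z hz h0
      rw [Finset.mem_biUnion]
      exact ⟨s.exB z, ih _ (hs.reached_sub (hs.done_sub h1)) (by omega), mem_nb.2 h2⟩

/-- every reached site is processed -/
theorem MP.exists_done (ω : Fin (2 + 1) × El d → Bool) {z : V d} (h : z ∈ P.Rc hm hℓ ω) :
    ∃ n, z ∈ (P.st hm hℓ n ω).done := by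
  classical
  obtain ⟨n₀, hn₀⟩ := h
  by_contra hcon
  rw [not_exists] at hcon
  have hg := MLimit_good P hm hℓ ω
  have hze : z ∈ (P.st hm hℓ n₀ ω).exam := (hg n₀).reached_sub hn₀
  have key : ∀ n, ∃ w, nxt (P.st hm hℓ (n₀ + n) ω) = some w ∧
      w ∈ MLimit_ball d ((P.st hm hℓ n₀ ω).dep z) := by
    intro n
    have hm1 := P.st_mono hm hℓ ω (Nat.le_add_right n₀ n)
    have hzr : z ∈ (P.st hm hℓ (n₀ + n) ω).reached := hm1.1 hn₀
    cases hx : nxt (P.st hm hℓ (n₀ + n) ω) with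
    | none => exact absurd (nxt_none hx hzr) (hcon _)
    | some w =>
      refine ⟨w, rfl, ?_⟩
      obtain ⟨h1, h2, h3⟩ := nxt_some hx
      have h4 := h3 z (Finset.mem_sdiff.2 ⟨hzr, hcon _⟩)
      rw [(hm1.2.2.2 z hze).2.2] at h4
      exact MLimit_mem_ball (hg _) _ w ((hg _).reached_sub h1) h4
  choose w hw1 hw2 using key
  have hdone : ∀ n, w n ∈ (P.st hm hℓ (n₀ + (n + 1)) ω).done := by
    intro n
    have e : n₀ + (n + 1) = n₀ + n + 1 := by omega
    rw [e, MLimit_succ]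
    have h1 : P.step (P.st hm hℓ (n₀ + n) ω) ω = P.proc (P.st hm hℓ (n₀ + n) ω) (w n) ω := by
      unfold MP.step
      rw [hw1 n]
    rw [h1]
    simp [MP.proc]
  have hlt : ∀ a b, a < b → w a ≠ w b := by
    intro a b hab heq
    have h1 : w a ∈ (P.st hm hℓ (n₀ + b) ω).done :=
      (P.st_mono hm hℓ ω (by omega : n₀ + (a + 1) ≤ n₀ + b)).2.2.1 (hdone a)
    rw [heq] at h1
    exact (nxt_some (hw1 b)).2.1 h1
  have hinj : Function.Injective w := by
    intro a b hab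
    rcases lt_trichotomy a b with h | h | h
    · exact absurd hab (hlt a b h)
    · exact h
    · exact absurd hab.symm (hlt b a h)
  have hfin : (Set.range w).Finite :=
    ((MLimit_ball d ((P.st hm hℓ n₀ ω).dep z)).finite_toSet).subset (by
      rintro _ ⟨n, rfl⟩
      exact hw2 n)
  exact Set.infinite_range_of_injective hinj hfin

lemma MLimit_walk (ω : Fin (2 + 1) × El d → Bool) (n : ℕ) (D : ℕ) :
    ∀ z ∈ (P.st hm hℓ n ω).reached, (P.st hm hℓ n ω).dep z ≤ D →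
      ∃ w : (Lat d).Walk 0 z, ∀ u ∈ w.support, u ∈ P.Rc hm hℓ ω := by
  have hg := MLimit_good P hm hℓ ω n
  have h0 : (0 : V d) ∈ P.Rc hm hℓ ω := ⟨n, hg.zero⟩
  induction D with
  | zero =>
    intro z hz hD
    by_cases hz0 : z = 0
    · subst hz0
      exact ⟨SimpleGraph.Walk.nil, by simpa using h0⟩
    · have := hg.dep_exB z (hg.reached_sub hz) hz0
      omega
  | succ D ih =>
    intro z hz hD
    by_cases hz0 : z = 0
    · subst hz0
      exact ⟨SimpleGraph.Walk.nil, by simpa using h0⟩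
    · have h1 := hg.dep_exB z (hg.reached_sub hz) hz0
      obtain ⟨h2, h3⟩ := hg.exB_done z (hg.reached_sub hz) hz0
      obtain ⟨w, hw⟩ := ih _ (hg.done_sub h2) (by omega)
      refine ⟨w.concat (show (Lat d).Adj _ _ from h3), fun u hu => ?_⟩
      rw [SimpleGraph.Walk.support_concat] at hu
      simp only [List.mem_append, List.mem_singleton] at hu
      rcases hu with hu | hu
      · exact hw u hu
      · subst hu
        exact ⟨n, hz⟩

theorem MP.limit_closed (ω : Fin (2 + 1) × El d → Bool) :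
    (0 : V d) ∈ P.Rc hm hℓ ω ∧ Disjoint (P.Rc hm hℓ ω) (P.F hm hℓ ω) ∧
    (∀ z ∈ P.Rc hm hℓ ω, ∀ z', LatAdj z z' → z' ∈ P.Rc hm hℓ ω ∨ z' ∈ P.F hm hℓ ω) ∧
    P.dep hm hℓ ω (0 : V d) = 0 ∧
    (∀ z ∈ P.Rc hm hℓ ω, ∀ z' ∈ P.Rc hm hℓ ω, LatAdj z z' →
      P.dep hm hℓ ω z' ≤ P.dep hm hℓ ω z + 1) ∧
    (∀ z ∈ P.Rc hm hℓ ω, ∀ i, |P.ctr hm hℓ ω z i - cz P.ℓ z i| ≤ P.ℓ) ∧
    (∀ z ∈ P.Rc hm hℓ ω, ∃ w : (Lat d).Walk 0 z, ∀ u ∈ w.support, u ∈ P.Rc hm hℓ ω) := by
  have hg := MLimit_good P hm hℓ ω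
  refine ⟨⟨0, (hg 0).zero⟩, ?_, ?_, ?_, ?_, ?_, ?_⟩
  · rw [Set.disjoint_left]
    rintro z ⟨n, hn⟩ ⟨k, hk1, hk2⟩
    have h1 : z ∈ (P.st hm hℓ (max n k) ω).reached :=
      (P.st_mono hm hℓ ω (le_max_left n k)).1 hn
    exact hk2 (((P.st_mono hm hℓ ω (le_max_right n k)).2.2.2 z hk1).1.1 h1)
  · intro z hz z' hzz'
    obtain ⟨n, hn⟩ := P.exists_done hm hℓ ω hz
    have h1 := (hg n).nb_exam z hn (mem_nb.2 hzz')
    by_cases h2 : z' ∈ (P.st hm hℓ n ω).reached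
    · exact Or.inl ⟨n, h2⟩
    · exact Or.inr ⟨n, h1, h2⟩
  · rw [(P.ctr_eq hm hℓ ω (hg 0).zero).2]
    exact (hg 0).dep_zero
  · intro z hz z' hz' hzz'
    obtain ⟨n, hn⟩ := P.exists_done hm hℓ ω hz
    obtain ⟨k, hk⟩ := hz'
    have h1 : z ∈ (P.st hm hℓ (max n k) ω).done :=
      (P.st_mono hm hℓ ω (le_max_left n k)).2.2.1 hn
    have h2 : z' ∈ (P.st hm hℓ (max n k) ω).reached :=
      (P.st_mono hm hℓ ω (le_max_right n k)).1 hk
    rw [(P.ctr_eq hm hℓ ω h2).2, (P.ctr_eq hm hℓ ω ((hg _).done_sub h1)).2]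
    exact (hg _).dep_nb z h1 z' (mem_nb.2 hzz')
  · rintro z ⟨n, hn⟩ i
    rw [(P.ctr_eq hm hℓ ω hn).1]
    exact (hg n).ctr_near z hn i
  · rintro z ⟨n, hn⟩
    exact MLimit_walk P hm hℓ ω n _ z hn le_rfl

end Pool.Agent.H47.GM
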