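import Pool.Agent.H47.GM.Aut
import Pool.Agent.H47.GM.Bdry

/-!
# GM module QuadSymm: the quadrants of the faces are equivalent

Signed permutations (`sperm`, `tr_law`, `rch_tr`, `IsAut.box`): some `φ = sperm π σ` maps the quadrant
`(i₀, τ)` onto `(i₁, τ')` and preserves `Bx 0 n`, `Bx 0 m` and the boundary.
-/

open MeasureTheory Filter Topology
open Pool.Agent.H17.IIC Pool.Agent.H41.QC

namespace Pool.Agent.H47.GM

variable {d : ℕ}

open Classical in
/-- quadrant `τ` of the face in direction `i₀` with sign `τ i₀` -/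
noncomputable def Qd (n : ℕ) (i₀ : Fin d) (τ : Fin d → Bool) : Finset (V d) :=
  (Bx (0 : V d) n).filter fun y => sg (τ i₀) * y i₀ = (n : ℤ) ∧ ∀ i, i ≠ i₀ → 0 ≤ sg (τ i) * y i

lemma QuadSymm_memUn {κ : Kind} {ω : El d → Bool} {m n : ℕ} {y : V d} :
    y ∈ Un κ ω m n ↔ y ∈ Bx (0 : V d) n ∧ (∃ i, |y i| = (n : ℤ)) ∧
      ∃ u ∈ Bx (0 : V d) m, Rch κ ω (Bx (0 : V d) n : Set (V d)) u y := by
  classical
  simp only [Un, Finset.mem_filter]

lemma QuadSymm_memQd {n : ℕ} {i₀ : Fin d} {τ : Fin d → Bool} {y : V d} :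
    y ∈ Qd n i₀ τ ↔ y ∈ Bx (0 : V d) n ∧ sg (τ i₀) * y i₀ = (n : ℤ) ∧
      ∀ i, i ≠ i₀ → 0 ≤ sg (τ i) * y i := by
  classical
  simp only [Qd, Finset.mem_filter]

lemma QuadSymm_zero (π : Equiv.Perm (Fin d)) (σ : Fin d → Bool) :
    sperm π σ (0 : V d) = 0 := by
  funext i
  show sg (σ i) * (0 : ℤ) = 0
  rw [mul_zero]

lemma QuadSymm_Un (κ : Kind) (π : Equiv.Perm (Fin d)) (σ : Fin d → Bool) (ω : El d → Bool)
    (m n : ℕ) (y : V d) :
    y ∈ Un κ (tr (sperm π σ) ω) m n ↔ sperm π σ y ∈ Un κ ω m n := by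
  have hφ := isAut_sperm π σ
  have hbox : ∀ (r : ℕ) (z : V d), sperm π σ z ∈ Bx (0 : V d) r ↔ z ∈ Bx (0 : V d) r := by
    intro r z
    have := hφ.box 0 z r
    rw [QuadSymm_zero] at this
    exact this
  have himg : sperm π σ '' (Bx (0 : V d) n : Set (V d)) = (Bx (0 : V d) n : Set (V d)) := by
    have := Aut_box hφ 0 n
    rw [QuadSymm_zero] at this
    exact this
  have habs : ∀ i, |sperm π σ y i| = |y (π i)| := by
    intro i
    show |sg (σ i) * y (π i)| = _
    rw [abs_mul]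
    have : |sg (σ i)| = 1 := by cases σ i <;> simp [sg]
    rw [this, one_mul]
  rw [QuadSymm_memUn, QuadSymm_memUn, hbox]
  refine and_congr_right fun _ => and_congr ?_ ?_
  · constructor
    · rintro ⟨i, hi⟩
      refine ⟨π.symm i, ?_⟩
      rw [habs, Equiv.apply_symm_apply]
      exact hi
    · rintro ⟨i, hi⟩
      rw [habs] at hi
      exact ⟨π i, hi⟩
  · constructor
    · rintro ⟨u, hu, hr⟩
      refine ⟨sperm π σ u, (hbox m u).2 hu, ?_⟩
      rw [rch_tr hφ, himg] at hr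
      exact hr
    · rintro ⟨u, hu, hr⟩
      refine ⟨(sperm π σ).symm u, ?_, ?_⟩
      · rw [← hbox, Equiv.apply_symm_apply]
        exact hu
      · rw [rch_tr hφ, himg, Equiv.apply_symm_apply]
        exact hr

lemma QuadSymm_Qd (n : ℕ) (i₀ i₁ : Fin d) (τ τ' : Fin d → Bool) (y : V d) :
    sperm (Equiv.swap i₀ i₁) (fun i => decide (τ' i = τ (Equiv.swap i₀ i₁ i))) y ∈ Qd n i₁ τ' ↔
      y ∈ Qd n i₀ τ := by
  set π := Equiv.swap i₀ i₁ with hπ
  set σ : Fin d → Bool := fun i => decide (τ' i = τ (π i)) with hσ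
  have hφ := isAut_sperm π σ
  have hbox : sperm π σ y ∈ Bx (0 : V d) n ↔ y ∈ Bx (0 : V d) n := by
    have := hφ.box 0 y n
    rw [QuadSymm_zero] at this
    exact this
  have hs : ∀ i, sg (τ' i) * sperm π σ y i = sg (τ (π i)) * y (π i) := by
    intro i
    show sg (τ' i) * (sg (decide (τ' i = τ (π i))) * y (π i)) = _
    rw [← mul_assoc]
    congr 1
    generalize τ' i = a
    generalize τ (π i) = b
    cases a <;> cases b <;> simp [sg]
  rw [QuadSymm_memQd, QuadSymm_memQd, hbox]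
  refine and_congr_right fun _ => and_congr ?_ ?_
  · rw [hs, hπ, Equiv.swap_apply_right]
  · constructor
    · intro h i hi
      have h1 : π i ≠ i₁ := by
        intro h2
        apply hi
        apply π.injective
        rw [h2, hπ, Equiv.swap_apply_left]
      have h3 := h (π i) h1
      rw [hs] at h3
      have h4 : π (π i) = i := by rw [hπ]; exact Equiv.swap_apply_self i₀ i₁ i
      rw [h4] at h3
      exact h3
    · intro h i hi
      rw [hs]
      apply h
      intro h2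
      apply hi
      apply π.injective
      rw [h2, hπ, Equiv.swap_apply_right]

lemma QuadSymm_dep (κ : Kind) (m n : ℕ) : ∃ Λ : Finset (El d), ∀ ω ω' : El d → Bool,
    (∀ e ∈ Λ, ω e = ω' e) → Un κ ω m n = Un κ ω' m n := by
  classical
  refine ⟨(Bx (0 : V d) n).biUnion fun v => (nb v).image fun u => stE κ u v, ?_⟩
  intro ω ω' h
  have hr : ∀ u y : V d, Rch κ ω (Bx (0 : V d) n : Set (V d)) u y ↔
      Rch κ ω' (Bx (0 : V d) n : Set (V d)) u y := by
    intro u y
    apply Rch.congr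
    intro a b hab hb
    apply h
    rw [Finset.mem_biUnion]
    refine ⟨b, Finset.mem_coe.1 hb, ?_⟩
    rw [Finset.mem_image]
    exact ⟨a, mem_nb.2 (LatAdj.symm hab), rfl⟩
  ext y
  rw [QuadSymm_memUn, QuadSymm_memUn]
  simp only [hr]

/-- equality of the probabilities of the quadrants -/
theorem quad_symm (κ : Kind) (p : unitInterval) (m n K : ℕ) (i₀ i₁ : Fin d) (τ τ' : Fin d → Bool) :
    (prodBern (El d) p).real {ω | K ≤ (Un κ ω m n ∩ Qd n i₀ τ).card}
      = (prodBern (El d) p).real {ω | K ≤ (Un κ ω m n ∩ Qd n i₁ τ').card} := by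
  classical
  set π := Equiv.swap i₀ i₁ with hπ
  set σ : Fin d → Bool := fun i => decide (τ' i = τ (π i)) with hσ
  have hcard : ∀ ω : El d → Bool, (Un κ (tr (sperm π σ) ω) m n ∩ Qd n i₀ τ).card =
      (Un κ ω m n ∩ Qd n i₁ τ').card := by
    intro ω
    apply Finset.card_equiv (sperm π σ)
    intro y
    rw [Finset.mem_inter, Finset.mem_inter, QuadSymm_Un, QuadSymm_Qd]
  have hm : MeasurableSet {ω : El d → Bool | K ≤ (Un κ ω m n ∩ Qd n i₀ τ).card} := by
    obtain ⟨Λ, hΛ⟩ := QuadSymm_dep (d := d) κ m n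
    apply On.measurableSet (Λ := Λ)
    intro ω ω' h
    show K ≤ (Un κ ω m n ∩ Qd n i₀ τ).card ↔ K ≤ (Un κ ω' m n ∩ Qd n i₀ τ).card
    rw [hΛ ω ω' (fun i hi => h i (by exact_mod_cast hi))]
  have htr : Measurable (tr (sperm π σ) : (El d → Bool) → (El d → Bool)) :=
    measurable_pi_iff.2 fun e => measurable_pi_apply _
  have hset : {ω : El d → Bool | K ≤ (Un κ ω m n ∩ Qd n i₁ τ').card} =
      tr (sperm π σ) ⁻¹' {ω : El d → Bool | K ≤ (Un κ ω m n ∩ Qd n i₀ τ).card} := by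
    ext ω
    show K ≤ (Un κ ω m n ∩ Qd n i₁ τ').card ↔
      K ≤ (Un κ (tr (sperm π σ) ω) m n ∩ Qd n i₀ τ).card
    rw [hcard]
  rw [hset, ← map_measureReal_apply htr hm, tr_law]

end Pool.Agent.H47.GM
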