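import Pool.Agent.H47.GM.FewB
import Pool.Agent.H47.GM.SeedInf

/-!
# GM module Seed1: large boxes reach many boundary vertices

`seed_inf` with `η/2`, `few_boundary` with `η/2`; an infinite cluster meeting `Bx 0 m` gives `Un ≠ ∅` for
`n ≥ m` (first vertex of the boundary on a path leaving `Bx 0 n`).
-/

open MeasureTheory Filter Topology
open Pool.Agent.H17.IIC Pool.Agent.H41.QC

namespace Pool.Agent.H47.GM

variable {d : ℕ}

/-- the element of an open edge is open -/
lemma Seed1_adj {κ : Kind} {ω : El d → Bool} {a b : V d} (h : (Gr κ ω).Adj a b) :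
    LatAdj a b ∧ ω (stE κ a b) = true := by
  obtain ⟨h1, h2⟩ := h
  cases κ
  · exact ⟨h1, h2⟩
  · exact ⟨h1, h2.2⟩

/-- a path from the box either stays in the box or reaches the boundary inside the box -/
lemma Seed1_exit {κ : Kind} {ω : El d → Bool} {n : ℕ} {u y : V d} (hu : u ∈ Bx (0 : V d) n)
    (h : (Gr κ ω).Reachable u y) :
    (y ∈ Bx (0 : V d) n ∧ Rch κ ω (Bx (0 : V d) n : Set (V d)) u y) ∨
      ∃ y' ∈ Bx (0 : V d) n, (∃ i, |y' i| = (n : ℤ)) ∧
        Rch κ ω (Bx (0 : V d) n : Set (V d)) u y' := by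
  rw [SimpleGraph.reachable_iff_reflTransGen] at h
  induction h with
  | refl => exact Or.inl ⟨hu, Relation.ReflTransGen.refl⟩
  | @tail b c _ hbc ih =>
    rcases ih with ⟨hb, hub⟩ | h
    · obtain ⟨h1, h2⟩ := Seed1_adj hbc
      by_cases hc : c ∈ Bx (0 : V d) n
      · exact Or.inl ⟨hc, hub.tail ⟨h1, hc, h2⟩⟩
      · refine Or.inr ⟨b, hb, ?_, hub⟩
        rw [mem_Bx] at hc hb
        push Not at hc
        obtain ⟨i, hi⟩ := hc
        refine ⟨i, ?_⟩
        have e1 := hb i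
        have e2 := LatAdj.abs_le h1 i
        simp only [Pi.zero_apply, sub_zero] at hi e1
        have e3 : |c i| ≤ |b i| + |b i - c i| := by
          have := abs_sub (b i) (b i - c i)
          have e4 : b i - (b i - c i) = c i := by ring
          rwa [e4] at this
        omega
    · exact Or.inr h

/-- an infinite cluster meeting the small box reaches the boundary -/
lemma Seed1_card {κ : Kind} {ω : El d → Bool} {m n : ℕ} (hmn : m ≤ n) {u : V d}
    (hu : u ∈ Bx (0 : V d) m) (h : {y | (Gr κ ω).Reachable u y}.Infinite) :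
    1 ≤ (Un κ ω m n).card := by
  classical
  rw [Nat.one_le_iff_ne_zero, ← Nat.pos_iff_ne_zero, Finset.card_pos]
  have hun : u ∈ Bx (0 : V d) n := by
    rw [mem_Bx] at hu ⊢
    intro i
    have h1 := hu i
    have h2 : (m : ℤ) ≤ n := by exact_mod_cast hmn
    exact h1.trans h2
  obtain ⟨y, hy, hyn⟩ := h.exists_notMem_finset (Bx (0 : V d) n)
  rcases Seed1_exit hun hy with ⟨h1, -⟩ | ⟨y', h1, h2, h3⟩
  · exact absurd h1 hyn
  · refine ⟨y', ?_⟩
    unfold Un
    exact Finset.mem_filter.2 ⟨h1, h2, u, hu, h3⟩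

theorem many_boundary (κ : Kind) (hd : 1 ≤ d) (p : unitInterval) (hp1 : (p : ℝ) < 1)
    (hθ : 0 < theta κ d p) {η : ℝ} (hη : 0 < η) :
    ∃ m : ℕ, 1 ≤ m ∧ ∀ K : ℕ, ∀ᶠ n : ℕ in atTop,
      1 - η ≤ (prodBern (El d) p).real {ω | K ≤ (Un κ ω m n).card} := by
  obtain ⟨m, hm, hs⟩ := seed_inf κ hd p hθ (half_pos hη)
  refine ⟨m, hm, fun K => ?_⟩
  filter_upwards [few_boundary κ p hp1 m K (half_pos hη), eventually_ge_atTop m] with n hn hmn
  have hsub : {ω | ∃ u ∈ Bx (0 : V d) m, {y | (Gr κ ω).Reachable u y}.Infinite} ⊆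
      {ω | K ≤ (Un κ ω m n).card} ∪ {ω | 1 ≤ (Un κ ω m n).card ∧ (Un κ ω m n).card < K} := by
    rintro ω ⟨u, hu, hinf⟩
    have h1 := Seed1_card hmn hu hinf
    by_cases h2 : K ≤ (Un κ ω m n).card
    · exact Or.inl h2
    · exact Or.inr ⟨h1, not_le.1 h2⟩
  have h1 := (measureReal_mono (μ := prodBern (El d) p) hsub).trans (measureReal_union_le _ _)
  linarith

end Pool.Agent.H47.GM
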