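import Pool.Agent.H47.GM.HarrisLoc
import Pool.Agent.H47.GM.QuadSymm
import Pool.Agent.H47.GM.Seed1

/-!
# GM module Quad: many reached vertices in every quadrant of every face

Let `M = d 2^d` be the number of pairs `(i₀, τ)`. If `|Un| ≥ M K` then `|Un ∩ Qd n i₀ τ| ≥ K` for
some pair (every boundary vertex is in some `Qd`). These events are increasing, local, have the same
probability (`quad_symm`), so by `harris_loc` `(1 - P(|Un ∩ Qd| ≥ K))^M ≤ 1 - P(|Un| ≥ M K)`; use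
`many_boundary` with `η^M` (`η ≤ 1` w.l.o.g.).
-/

open MeasureTheory Filter Topology
open Pool.Agent.H17.IIC Pool.Agent.H41.QC

namespace Pool.Agent.H47.GM

variable {d : ℕ}

lemma Quad_un_congr {κ : Kind} {m n : ℕ} {ω ω' : El d → Bool}
    (h : ∀ u v, LatAdj u v → v ∈ (Bx (0 : V d) n : Set (V d)) → ω (stE κ u v) = ω' (stE κ u v)) :
    Un κ ω m n = Un κ ω' m n := by
  classical
  unfold Un
  refine Finset.filter_congr fun y _ => and_congr_right fun _ => ?_
  refine exists_congr fun u => and_congr_right fun _ => Rch.congr h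

lemma Quad_un_mono {κ : Kind} {m n : ℕ} {ω ω' : El d → Bool}
    (h : ∀ e, ω e = true → ω' e = true) : Un κ ω m n ⊆ Un κ ω' m n := by
  classical
  intro y hy
  unfold Un at hy ⊢
  rw [Finset.mem_filter] at hy ⊢
  obtain ⟨h1, h2, u, hu, hr⟩ := hy
  exact ⟨h1, h2, u, hu, hr.mono h (fun _ hx => hx)⟩

lemma Quad_dep (κ : Kind) (m n K : ℕ) (Q : Finset (V d)) :
    ∃ Λ : Finset (El d), On (Λ : Set (El d)) {ω : El d → Bool | K ≤ (Un κ ω m n ∩ Q).card} := by
  classical
  refine ⟨(Bx (0 : V d) n).biUnion fun v => (nb v).image fun u => stE κ u v, ?_⟩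
  intro ω ω' h
  have h1 : Un κ ω m n = Un κ ω' m n := by
    apply Quad_un_congr
    intro u v huv hv
    apply h
    rw [Finset.mem_coe, Finset.mem_biUnion]
    refine ⟨v, hv, ?_⟩
    rw [Finset.mem_image]
    exact ⟨u, mem_nb.2 (LatAdj.symm huv), rfl⟩
  show K ≤ (Un κ ω m n ∩ Q).card ↔ K ≤ (Un κ ω' m n ∩ Q).card
  rw [h1]

lemma Quad_incr (κ : Kind) (m n K : ℕ) (Q : Finset (V d)) :
    Incr {ω : El d → Bool | K ≤ (Un κ ω m n ∩ Q).card} := by
  classical
  intro ω ω' h h1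
  have h2 : (Un κ ω m n ∩ Q) ⊆ (Un κ ω' m n ∩ Q) :=
    Finset.inter_subset_inter_right (Quad_un_mono h)
  exact le_trans h1 (Finset.card_le_card h2)

lemma Quad_cover {κ : Kind} {ω : El d → Bool} {m n : ℕ} :
    Un κ ω m n ⊆ (Finset.univ : Finset (Fin d × (Fin d → Bool))).biUnion
      fun q => Un κ ω m n ∩ Qd n q.1 q.2 := by
  classical
  intro y hy
  have hy' := hy
  unfold Un at hy'
  rw [Finset.mem_filter] at hy'
  obtain ⟨h1, ⟨i, hi⟩, -⟩ := hy'
  rw [Finset.mem_biUnion]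
  have hsg : ∀ a : ℤ, sg (decide (0 ≤ a)) * a = |a| := by
    intro a
    by_cases ha : 0 ≤ a
    · rw [decide_eq_true ha, abs_of_nonneg ha]; simp [sg]
    · rw [decide_eq_false ha, abs_of_neg (not_le.1 ha)]; simp [sg]
  refine ⟨(i, fun j => decide (0 ≤ y j)), Finset.mem_univ _, Finset.mem_inter.2 ⟨hy, ?_⟩⟩
  unfold Qd
  rw [Finset.mem_filter]
  refine ⟨h1, ?_, fun j _ => ?_⟩
  · show sg (decide (0 ≤ y i)) * y i = (n : ℤ)
    rw [hsg, hi]
  · show 0 ≤ sg (decide (0 ≤ y j)) * y j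
    rw [hsg]
    exact abs_nonneg _

theorem quad_many (κ : Kind) (hd : 1 ≤ d) (p : unitInterval) (hp1 : (p : ℝ) < 1)
    (hθ : 0 < theta κ d p) {η : ℝ} (hη : 0 < η) :
    ∃ m : ℕ, 1 ≤ m ∧ ∀ K : ℕ, ∀ᶠ n : ℕ in atTop, ∀ (i₀ : Fin d) (τ : Fin d → Bool),
      1 - η ≤ (prodBern (El d) p).real {ω | K ≤ (Un κ ω m n ∩ Qd n i₀ τ).card} := by
  classical
  set M : ℕ := (Finset.univ : Finset (Fin d × (Fin d → Bool))).card with hM
  obtain ⟨m, hm, hmany⟩ := many_boundary κ hd p hp1 hθ (pow_pos hη M)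
  refine ⟨m, hm, fun K => ?_⟩
  filter_upwards [hmany (M * K)] with n hn i₀ τ
  have hMpos : M ≠ 0 := by
    rw [hM]
    exact Finset.card_ne_zero_of_mem (Finset.mem_univ (i₀, τ))
  have hH := harris_loc (d := d) p (Finset.univ : Finset (Fin d × (Fin d → Bool)))
    (fun q => {ω : El d → Bool | K ≤ (Un κ ω m n ∩ Qd n q.1 q.2).card})
    (fun q _ => Quad_incr κ m n K _) (fun q _ => Quad_dep κ m n K _)
  have hprod : ∏ q ∈ (Finset.univ : Finset (Fin d × (Fin d → Bool))),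
      (1 - (prodBern (El d) p).real {ω : El d → Bool | K ≤ (Un κ ω m n ∩ Qd n q.1 q.2).card})
      = (1 - (prodBern (El d) p).real {ω : El d → Bool | K ≤ (Un κ ω m n ∩ Qd n i₀ τ).card}) ^ M := by
    rw [hM, ← Finset.prod_const]
    refine Finset.prod_congr rfl fun q _ => ?_
    rw [quad_symm κ p m n K q.1 i₀ q.2 τ]
  rw [hprod] at hH
  have hsub : {ω : El d → Bool | M * K ≤ (Un κ ω m n).card} ⊆
      ⋃ q ∈ (Finset.univ : Finset (Fin d × (Fin d → Bool))),
        {ω : El d → Bool | K ≤ (Un κ ω m n ∩ Qd n q.1 q.2).card} := by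
    intro ω hω
    by_contra hcon
    simp only [Finset.mem_univ, Set.iUnion_true, Set.mem_iUnion, not_exists] at hcon
    have h1 : ∀ q : Fin d × (Fin d → Bool), (Un κ ω m n ∩ Qd n q.1 q.2).card + 1 ≤ K := by
      intro q
      have := hcon q
      rw [Set.mem_ofPred_eq, not_le] at this
      exact this
    have h2 : (Un κ ω m n).card ≤ ∑ q : Fin d × (Fin d → Bool), (Un κ ω m n ∩ Qd n q.1 q.2).card :=
      (Finset.card_le_card Quad_cover).trans Finset.card_biUnion_le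
    have h3 : ∑ q : Fin d × (Fin d → Bool), ((Un κ ω m n ∩ Qd n q.1 q.2).card + 1) ≤ M * K := by
      calc ∑ q : Fin d × (Fin d → Bool), ((Un κ ω m n ∩ Qd n q.1 q.2).card + 1)
          ≤ ∑ _q : Fin d × (Fin d → Bool), K := Finset.sum_le_sum fun q _ => h1 q
        _ = M * K := by rw [Finset.sum_const, smul_eq_mul]
    rw [Finset.sum_add_distrib, Finset.sum_const, smul_eq_mul, mul_one] at h3
    have h4 : M * K ≤ (Un κ ω m n).card := hω
    have h5 : 0 < M := Nat.pos_of_ne_zero hMpos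
    omega
  have hmono : (prodBern (El d) p).real {ω : El d → Bool | M * K ≤ (Un κ ω m n).card} ≤
      (prodBern (El d) p).real (⋃ q ∈ (Finset.univ : Finset (Fin d × (Fin d → Bool))),
        {ω : El d → Bool | K ≤ (Un κ ω m n ∩ Qd n q.1 q.2).card}) :=
    measureReal_mono hsub (measure_ne_top _ _)
  have hle : (1 - (prodBern (El d) p).real
      {ω : El d → Bool | K ≤ (Un κ ω m n ∩ Qd n i₀ τ).card}) ^ M ≤ η ^ M := by
    linarith
  have hfin := le_of_pow_le_pow_left₀ hMpos hη.le hle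
  linarith

end Pool.Agent.H47.GM
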